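import Pool.Agent.RMT.DefsT

/-!
# MP_fa3f7f_ag: complete intersections in torus bundles: conditions on `B` and on the `D_k`

Three conditions which imply that the divisors `L_i + ⟨a, D⟩`, `a` an exponent of `f_i`, are nef
(`CoefNef`): the divisors `D_k` are numerically trivial; every effective Cartier divisor on `B` is nef
(for example, `B` is an abelian variety, a curve, or has the Picard number one); or it is assumed. The same for semiample.
-/

set_option autoImplicit false

namespace RMX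

open MldX MMCI MMCX

noncomputable section

variable {F : Type} [Field F] [Algebra ℂ F] {b n r : ℕ}

/-- The divisor on `B` with the multiplicities `D v` (`v` a prime divisor of `B`) is effective and
Cartier: near every closed point it is given by one of finitely many equations, and the multiplicities
are nonnegative. -/
def IsEffective (b : ℕ) (B : ProjModel F) (D : DivVal b F → ℤ) : Prop :=
  ∃ G : Finset F, ∀ (j : Fin (B.N + 1)) (m : Ideal (B.ring j)), m.IsMaximal → ∃ g ∈ G, g ≠ 0 ∧
    ∀ (v : DivVal b F) (P : Ideal (B.ring j)), IsPrimeDivisor (B.ring j) v P → P ≤ m →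
      0 ≤ D v ∧ v.ord g = D v

/-- As `MMCX.Equations`, for the divisor `k D`. -/
structure DivEquations {B : ProjModel F} (γ : CurveMap B) (D : DivVal b F → ℤ) (k : ℕ) (h : F)
    (g : DivVal 1 γ.L → F) (u : DivVal 1 γ.L → γ.L) : Prop where
  h_ne : h ≠ 0
  u_ne : ∀ w, u w ≠ 0
  restr : ∀ w, γ.Restr (g w / h) (u w)
  eqn : ∀ w, ∃ (j : Fin (B.N + 1)) (m : Ideal (B.ring j)), MapsTo γ w j m ∧
    ∀ (v : DivVal b F) (P : Ideal (B.ring j)), IsPrimeDivisor (B.ring j) v P → P ≤ m →
      v.ord (g w) = k * D v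

/-- Every effective Cartier divisor on `B` is nef. -/
def EffNef (b : ℕ) (B : ProjModel F) : Prop :=
  ∀ D : DivVal b F → ℤ, IsEffective b B D → ∀ (γ : CurveMap B) (k : ℕ) (h : F)
    (g : DivVal 1 γ.L → F) (u : DivVal 1 γ.L → γ.L), 0 < k → DivEquations γ D k h g u →
    {w : DivVal 1 γ.L | w.ord (u w) ≠ 0}.Finite ∧ 0 ≤ ∑ᶠ w : DivVal 1 γ.L, w.ord (u w)

/-- Every effective Cartier divisor on `B` is semiample. -/
def EffSemiample (b : ℕ) (B : ProjModel F) : Prop :=
  ∀ D : DivVal b F → ℤ, IsEffective b B D → ∃ (k N : ℕ) (h : Fin N → F), 0 < k ∧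
    (∀ q, h q ≠ 0) ∧
    (∀ q j (v : DivVal b F) (P : Ideal (B.ring j)), IsPrimeDivisor (B.ring j) v P →
      0 ≤ v.ord (h q) + k * D v) ∧
    ∀ j (m : Ideal (B.ring j)), m.IsMaximal → ∃ q, ∀ (v : DivVal b F) (P : Ideal (B.ring j)),
      IsPrimeDivisor (B.ring j) v P → P ≤ m → v.ord (h q) + k * D v = 0

/-- The divisors `D_1, …, D_n` are numerically trivial: all `⟨p, D⟩`, `p ∈ ℤ^n`, are nef. -/
def NumTrivial (b : ℕ) (B : ProjModel F) (t : Fin (B.N + 1) → Fin n → F)
    (f : Fin r → LaurentR F n) : Prop :=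
  ∀ p : Fin n → ℤ, NefT b B t f 0 0 p

/-- A multiple of each of the divisors `D_1, …, D_n` is principal. -/
def TorsionT (b : ℕ) (B : ProjModel F) (t : Fin (B.N + 1) → Fin n → F) : Prop :=
  ∃ M : ℕ, 0 < M ∧ ∀ l : Fin n, ∃ h : F, h ≠ 0 ∧
    ∀ (j : Fin (B.N + 1)) (v : DivVal b F) (P : Ideal (B.ring j)), IsPrimeDivisor (B.ring j) v P →
      v.ord h = M * v.ord (t j l)

/-- `K_B` is nef, and so are the divisors `L_i + ⟨a, D⟩`; this holds if `K_B` is nef and the `D_k` are
numerically trivial or every effective divisor on `B` is nef. -/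
def BaseNef (b : ℕ) (B : ProjModel F) (t : Fin (B.N + 1) → Fin n → F)
    (f : Fin r → LaurentR F n) : Prop :=
  Nef b B ∧ (NumTrivial b B t f ∨ EffNef b B ∨ CoefNef b B t f)

/-- The same for semiample. -/
def BaseSemiample (b : ℕ) (B : ProjModel F) (t : Fin (B.N + 1) → Fin n → F)
    (f : Fin r → LaurentR F n) : Prop :=
  Semiample b B ∧ (TorsionT b B t ∨ EffSemiample b B ∨ CoefSemiample b B t f)

end

end RMX
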