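import Pool.Agent.RMT.St2
import Pool.Agent.RMT.DefsU

/-!
# Torus bundles, block U: conditions which imply that the `L_i + ⟨a, D⟩` are nef, and the final theorem.
Statements.
-/

set_option autoImplicit false

namespace RMT

open MldGeo MMCI RMM

noncomputable section

/-- The divisor with the multiplicities `D v` is effective and Cartier. -/
def IsEffC {F : Type} [Field F] [Algebra ℂ F] (b : ℕ) (B : ProjModel F) (D : DivVal b F → ℤ) :
    Prop :=
  ∃ G : Finset F, ∀ (j : Fin (B.N + 1)) (m : Ideal (B.ring j)), m.IsMaximal → ∃ g ∈ G, g ≠ 0 ∧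
    ∀ (v : DivVal b F) (P : Ideal (B.ring j)), IsPrimeDivisor (B.ring j) v P → P ≤ m →
      0 ≤ D v ∧ v.ord g = D v

/-- Every effective Cartier divisor on `B` is nef. -/
def EffC {F : Type} [Field F] [Algebra ℂ F] (b : ℕ) (B : ProjModel F) : Prop :=
  ∀ D : DivVal b F → ℤ, IsEffC b B D → NefC B 0 fun _ => D

/-- Every effective Cartier divisor on `B` is semiample. -/
def EffS {F : Type} [Field F] [Algebra ℂ F] (b : ℕ) (B : ProjModel F) : Prop :=
  ∀ D : DivVal b F → ℤ, IsEffC b B D → SemC B 0 fun _ => D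

/-- TEF: if effective divisors are nef then the `L_i + ⟨a, D⟩` are nef. Proof. `c = (f i).coeff a ≠ 0`.
For `v : DivVal b F` let `E v = v.ord c + adjT b B t f {i} 1 a j v` if `v` is a prime divisor of some
`B.ring j` (with some `P`; choose `j`), and `E v = 0` otherwise. By `TCA` for `I = {i}`, `k0 = 1`, `p = a`
the value is the same for all charts `j` on which `v` is a prime divisor. `E` is effective and Cartier:
at `(j, m)` let `c'` be the generator of `BpfAt B j (coefs (tw (t j) (f i)))`;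
`c * mon (t j) a = (tw (t j) (f i)).coeff a` is one of the coefficients, so `g = c * mon (t j) a / c'` is
in the local ring at `m`, and for a prime divisor `v` through `m`: `v.ord c' = cmin v (coefs …)`
(`ADJN.cmin_eq` in `RMM/ADJN.lean`), so `v.ord g = E v`, and `0 ≤ v.ord g` (`g * q = p`, `q ∉ m`, so
`v.ord q = 0`, `0 ≤ v.ord p`; or: `cmin` is the least order). There are finitely many such `g`
(`j` a chart, `c'` in a finite set). Nef: `EqnsC γ 0 (adjT …) ω k h g u` implies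
`EqnsC γ 0 (fun _ => E) ω k (h * c^k) (fun w => g w * c^k) u` (`g w ≠ 0` because `u w ≠ 0`). Semiample: if
`k`, `h q` are as in `SemC` for `E` take the sections `h q * c^k`. -/
def S_TEF : Prop := ∀ {F : Type} [Field F] [Algebra ℂ F] {b n r : ℕ} (B : ProjModel F)
  (t : Fin (B.N + 1) → Fin n → F) (f : Fin r → LR F n), IsTwist B t → (∀ i, f i ≠ 0) →
  (∀ j i, BpfAt B j (coefs (tw (t j) (f i)))) → ∀ i, ∀ a ∈ (f i).coeff.support,
  (EffC b B → NefC B 0 (adjT b B t f {i} 1 a)) ∧ (EffS b B → SemC B 0 (adjT b B t f {i} 1 a))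

def M_TEF : Prop := S_TWB → S_TCA → S_TEF

/-- TNT: if the `D_k` are numerically trivial then the `L_i + ⟨a, D⟩` are nef. Proof. Adaptation of
`RMM/ADJN.lean`. Let `H : EqnsC γ 0 (adjT b B t f {i} 1 a) ω k h g u`; fix `w0` (`PRF_holds`), and let
`(j_w, m_w)` be the chart and the point of `H.eqn w`. Let `c_w = (f i).coeff (a_w) * mon (t j_w) (a_w)`,
`a_w ∈ supp (f i)`, be the generator of `BpfAt` at `m_w` (the elements of `coefs (tw (t j) (f i))` are the
`(f i).coeff a' * mon (t j) a'`), `a0 = a_(w0)`, `c = (f i).coeff a0`. (1) `φ_w = c * mon (t j_w) a0 / c_w`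
is in the local ring at `m_w`, so it has a restriction `ρ_w` with `ρ_w = 0` or `0 ≤ w.ord ρ_w`
(`RGW_holds`). (2) `ρ_w ≠ 0`: with `j = j_w`, `j0 = j_w0`, `φ_w⁻¹ = ((f i).coeff a_w * mon (t j0) a_w /
(c * mon (t j0) a0)) * (mon (t j) (a_w - a0) / mon (t j0) (a_w - a0))`. The first factor is in the local
ring at `m_w0` (there `c * mon (t j0) a0` is the generator), so it has a restriction. `s_j / s_j0 ∈
B.ring j0` and its inverse in `B.ring j` have restrictions (`MapsTo` at `w0` and `w`), so they are not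
zero; by `IsTwist.unit` `t j l / t j0 l * (s_j / s_j0)^d ∈ B.ring j0` and the same for the inverse of
`t j l / t j0 l`; so the `t j l / t j0 l` and their inverses have restrictions, not zero, and so have the
monomials `mon (t j) p / mon (t j0) p = mon (fun l => t j l / t j0 l) p`. So `φ_w⁻¹` has a restriction,
and `ρ_w ≠ 0`. (3) `g' w = g w * (c_w)^k / mon (t j_w) (k • a0)` is an equation of `k ⟨a - a0, D⟩` at
`m_w` (`v.ord c_w = cmin`, `ADJN.cmin_eq`), `h' = h * c^k`, and `g' w / h' = (g w / h) * φ_w^(-k)`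
restricts to `u' w = u w * ρ_w^(-k)`. The hypothesis for `p = a - a0` gives finiteness and
`0 ≤ ∑ w.ord (u' w)`. (4) `w.ord (u w) = w.ord (u' w) + k * w.ord ρ_w`, `0 ≤ w.ord ρ_w`, and the `ρ_w` are
in a finite set (they depend on `(j_w, a_w)` only), so `{w | w.ord ρ_w ≠ 0}` is finite, as there. -/
def S_TNT : Prop := ∀ {F : Type} [Field F] [Algebra ℂ F] {b n r : ℕ} (B : ProjModel F)
  (t : Fin (B.N + 1) → Fin n → F) (f : Fin r → LR F n), IsTwist B t → (∀ i, f i ≠ 0) →
  (∀ j i, BpfAt B j (coefs (tw (t j) (f i)))) →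
  (∀ p : Fin n → ℤ, NefC (b := b) B 0 fun j v => v.ord (mon (t j) p)) →
  ∀ i, ∀ a ∈ (f i).coeff.support, NefC B 0 (adjT b B t f {i} 1 a)

def M_TNT : Prop := S_TWB → S_TNT

/-- TNS: if multiples of the `D_k` are principal then the `L_i + ⟨a, D⟩` are semiample. Proof. `h l`:
`v.ord (h l) = M v.ord (t j l)`, so `v.ord (mon h p) = M v.ord (mon (t j) p)`. The sections of
`M (L_i + ⟨a, D⟩)` are `c_a'^M * mon h (a' - a)`, `a' ∈ supp (f i)`, `c_a' = (f i).coeff a'`: the order
plus `M (v.ord (mon (t j) a) - cmin)` is `M (v.ord (c_a' * mon (t j) a') - cmin) ≥ 0`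
(`cmin v (coefs (tw (t j) (f i)))` is the minimum of a finite set), and `0` at the prime divisors through
`m` if `c_a' * mon (t j) a'` is the generator of `BpfAt` at `m` (`ADJN.cmin_eq`). -/
def S_TNS : Prop := ∀ {F : Type} [Field F] [Algebra ℂ F] {b n r : ℕ} (B : ProjModel F)
  (t : Fin (B.N + 1) → Fin n → F) (f : Fin r → LR F n), IsTwist B t → (∀ i, f i ≠ 0) →
  (∀ j i, BpfAt B j (coefs (tw (t j) (f i)))) →
  (∃ M : ℕ, 0 < M ∧ ∀ l : Fin n, ∃ h : F, h ≠ 0 ∧
    ∀ (j : Fin (B.N + 1)) (v : DivVal b F) (P : Ideal (B.ring j)), IsPrimeDivisor (B.ring j) v P →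
      v.ord h = M * v.ord (t j l)) →
  ∀ i, ∀ a ∈ (f i).coeff.support, SemC B 0 (adjT b B t f {i} 1 a)

def M_TNS : Prop := S_TWB → S_TNS

/-- TBU: comparison with `DefsU.lean`. Proof. As `RMX.adjNef_to`, `RMX.adjSemiample_to`
(`RMM/BridgeR.lean`), with `D ∘ old`. For the third: `TBN` for `c = 0`, `l = 0`. -/
def S_TBU : Prop := ∀ {F : Type} [Field F] [Algebra ℂ F] {b n r : ℕ} (B : ProjModel F)
  (t : Fin (B.N + 1) → Fin n → F) (f : Fin r → LR F n), Algebra.trdeg ℂ F = (b : Cardinal) →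
  (∀ j k, t j k ≠ 0) →
  (RMX.EffNef b B → EffC b B) ∧ (RMX.EffSemiample b B → EffS b B) ∧
  (RMX.NumTrivial b B t f → ∀ p : Fin n → ℤ, NefC (b := b) B 0 fun j v => v.ord (mon (t j) p)) ∧
  (RMX.TorsionT b B t → ∃ M : ℕ, 0 < M ∧ ∀ l : Fin n, ∃ h : F, h ≠ 0 ∧
    ∀ (j : Fin (B.N + 1)) (v : DivVal b F) (P : Ideal (B.ring j)), IsPrimeDivisor (B.ring j) v P →
      v.ord h = M * v.ord (t j l))

def M_TBU : Prop := S_TBN → S_TBU

end

end RMT

namespace RMX

open MldX MMCI MMCX

/-- THE FINAL THEOREM. -/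
def S_FINU : Prop := ∀ {b e n r : ℕ} {F K : Type} [Field F] [Field K] [Algebra ℂ F] [Algebra ℂ K]
    [Algebra F K] [IsScalarTower ℂ F K] (B : ProjModel F) (t : Fin (B.N + 1) → Fin n → F)
    (f : Fin r → LaurentR F n) (x : Fin n → K), IsFamilyT b e B t f x →
    (BaseNef b B t f ∨ (¬ FineEmptyR f ∧ FineNef b B t f)) →
    ∃ Y : ProjModel K, Terminal (b + e) Y ∧
      ((Nef (b + e) Y ∧ ((BaseSemiample b B t f ∨ (¬ FineEmptyR f ∧ FineSemiample b B t f)) →
          Semiample (b + e) Y)) ∨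
        (MoriFibre (b + e) Y ∧ FineEmptyR f))

/-- FINU. Proof. Copy of `TFIN` (`RMT/TFIN.lean`); where `CoefNef` is used through `TBN`, `TBD` (the nefness
of the `adjT b B t f {i} 1 a`) distinguish the three cases of `BaseNef`: `TNT`, `TEF`, or as there; in the
same way for `BaseSemiample` with `TNS`, `TEF`. -/
def M_FINU : Prop := RMM.S_RSUP → RMT.S_TWB → RMT.S_TBF → RMT.S_TSYS → RMT.S_TBN → RMT.S_TBD →
  RMT.S_TCVX → RMT.S_TCVS → RMT.S_TMAIN → RMT.S_TFAA → RMT.S_TEF → RMT.S_TNT → RMT.S_TNS →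
  RMT.S_TBU → S_FINU

end RMX
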