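import Pool.Agent.RMT.StU
import Pool.Agent.RMM.BridgeR

/-!
# TBU: comparison with the definitions of `DefsU`
-/

set_option autoImplicit false

namespace RMT

open MldGeo MMCI RMM

noncomputable section

theorem t_TBU : M_TBU := by
  intro hTBN F _ _ b n r B t f hd ht
  refine ⟨?_, ?_, ?_, ?_⟩
  · intro h D hD ω _ γ k a g u hk H
    have hE : RMX.IsEffective b B (fun v => D v.old) := by
      obtain ⟨G, hG⟩ := hD
      refine ⟨G, fun j m hm => ?_⟩
      obtain ⟨g, hg, hg0, h1⟩ := hG j m hm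
      refine ⟨g, hg, hg0, fun v P hP hPm => ?_⟩
      exact h1 v.old P (MMCX.isPrimeDivisor_iff.2 hP) hPm
    have H' : RMX.DivEquations γ (fun v => D v.old) k a (fun w => g w.old)
        (fun w => u w.old) :=
      ⟨H.h_ne, fun w => H.u_ne _, fun w => H.restr _, fun w => by
        obtain ⟨j, m, h1, h2⟩ := H.eqn w.old
        refine ⟨j, m, h1, fun v P hP hPm => ?_⟩
        have h3 := h2 v.old P (MMCX.isPrimeDivisor_iff.2 hP) hPm
        rw [Nat.cast_zero, zero_mul, zero_add] at h3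
        exact h3⟩
    obtain ⟨h1, h2⟩ := h _ hE γ k a _ _ hk H'
    refine ⟨?_, ?_⟩
    · refine (h1.image MldX.DivVal.old).subset ?_
      intro w hw
      exact ⟨MldX.ofOld w, hw, rfl⟩
    · rw [MMCX.finsum_eq] at h2
      exact h2
  · intro h D hD ω _
    have hE : RMX.IsEffective b B (fun v => D v.old) := by
      obtain ⟨G, hG⟩ := hD
      refine ⟨G, fun j m hm => ?_⟩
      obtain ⟨g, hg, hg0, h1⟩ := hG j m hm
      refine ⟨g, hg, hg0, fun v P hP hPm => ?_⟩
      exact h1 v.old P (MMCX.isPrimeDivisor_iff.2 hP) hPm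
    obtain ⟨k, N, s, hk, hs, h1, h2⟩ := h _ hE
    refine ⟨k, N, s, hk, hs, fun q j v P hP => ?_, fun j m hm => ?_⟩
    · have h3 := h1 q j (MldX.ofOld v) P (MMCX.isPrimeDivisor_iff.1 hP)
      rw [Nat.cast_zero, zero_mul, zero_add]
      exact h3
    · obtain ⟨q, h3⟩ := h2 j m hm
      refine ⟨q, fun v P hP hPm => ?_⟩
      have h4 := h3 (MldX.ofOld v) P (MMCX.isPrimeDivisor_iff.1 hP) hPm
      rw [Nat.cast_zero, zero_mul, zero_add]
      exact h4
  · intro h p
    have h1 := (hTBN B t f hd ht 0 0 p).1 (h p)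
    have h2 : (fun (j : Fin (B.N + 1)) (v : DivVal b F) => v.ord (mon (t j) p)) =
        fun j (v : DivVal b F) => v.ord (mon (t j) p) -
          ∑ i, (((0 : Fin r → ℕ) i : ℕ) : ℤ) * cmin v (coefs (tw (t j) (f i))) := by
      funext j v
      simp
    rw [h2]
    exact h1
  · rintro ⟨M, hM, h⟩
    refine ⟨M, hM, fun l => ?_⟩
    obtain ⟨a, ha, h1⟩ := h l
    refine ⟨a, ha, fun j v P hP => ?_⟩
    exact h1 j (MldX.ofOld v) P (MMCX.isPrimeDivisor_iff.1 hP)

end

end RMT
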