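import Pool.Agent.RMT.StU
import Pool.Agent.RMM.ADJN

/-!
# TEF: if effective divisors are nef (semiample) then so are the `L_i + ⟨a, D⟩`
-/

set_option autoImplicit false

namespace RMT

open MldGeo MMCI RMM

noncomputable section

namespace TEF

variable {F : Type} [Field F] [Algebra ℂ F] {b n r : ℕ}

open Classical in
/-- The effective divisor of the coefficient. -/
def E (B : ProjModel F) (t : Fin (B.N + 1) → Fin n → F) (f : Fin r → LR F n) (i : Fin r)
    (a : Fin n → ℤ) (v : DivVal b F) : ℤ :=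
  if h : ∃ (j : Fin (B.N + 1)) (P : Ideal (B.ring j)), IsPrimeDivisor (B.ring j) v P then
    v.ord ((f i).coeff a) + adjT b B t f {i} 1 a h.choose v
  else 0

theorem E_eq (hTCA : S_TCA) {B : ProjModel F} {t : Fin (B.N + 1) → Fin n → F} (hT : IsTwist B t)
    (f : Fin r → LR F n) (i : Fin r) (a : Fin n → ℤ) (v : DivVal b F) (j : Fin (B.N + 1))
    (P : Ideal (B.ring j)) (hP : IsPrimeDivisor (B.ring j) v P) :
    E B t f i a v = v.ord ((f i).coeff a) + adjT b B t f {i} 1 a j v := by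
  have h : ∃ (j : Fin (B.N + 1)) (P : Ideal (B.ring j)), IsPrimeDivisor (B.ring j) v P :=
    ⟨j, P, hP⟩
  unfold E
  rw [dif_pos h]
  obtain ⟨P', hP'⟩ := h.choose_spec
  rw [(hTCA B t hT f {i} 1 a v h.choose j P' P hP' hP).2.2]

theorem eff (hTWB : S_TWB) (hTCA : S_TCA) {B : ProjModel F} {t : Fin (B.N + 1) → Fin n → F}
    (hT : IsTwist B t) (f : Fin r → LR F n) (hbpf : ∀ j i, BpfAt B j (coefs (tw (t j) (f i))))
    (i : Fin r) (a : Fin n → ℤ) (ha : a ∈ (f i).coeff.support) (j : Fin (B.N + 1))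
    (m : Ideal (B.ring j)) (hm : m.IsMaximal) :
    ∃ c' ∈ coefs (tw (t j) (f i)), (f i).coeff a * mon (t j) a / c' ≠ 0 ∧
      ∀ (v : DivVal b F) (P : Ideal (B.ring j)), IsPrimeDivisor (B.ring j) v P →
      P ≤ m → 0 ≤ E B t f i a v ∧ v.ord ((f i).coeff a * mon (t j) a / c') = E B t f i a v := by
  obtain ⟨hmon, hco, -⟩ := hTWB (t j) (hT.ne j)
  obtain ⟨h1, h2, -, -⟩ := hco (f i)
  have hc : (f i).coeff a ≠ 0 := Finsupp.mem_support_iff.1 ha
  obtain ⟨c', hc'C, hc'0, hc'⟩ := hbpf j i m hm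
  have hmem : (f i).coeff a * mon (t j) a ∈ coefs (tw (t j) (f i)) :=
    ⟨a, by rw [h2]; exact ha, h1 a⟩
  have hz : (f i).coeff a * mon (t j) a ≠ 0 := mul_ne_zero hc (hmon a)
  refine ⟨c', hc'C, div_ne_zero hz hc'0, fun v P hP hPm => ?_⟩
  have h3 := ADJN.cmin_eq hc'C hc' hP hPm
  have h4 : v.ord ((f i).coeff a * mon (t j) a / c') = E B t f i a v := by
    rw [E_eq hTCA hT f i a v j P hP]
    have h5 := v.ord_mul _ _ (div_ne_zero hz hc'0) hc'0
    rw [div_mul_cancel₀ _ hc'0, v.ord_mul _ _ hc (hmon a)] at h5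
    unfold adjT adj
    rw [Finset.sum_singleton, h3]
    push_cast
    linarith
  refine ⟨?_, h4⟩
  rw [← h4]
  obtain ⟨p, q, hq, hpq⟩ := hc' _ hmem
  obtain ⟨q0, q1⟩ := FBN.ord_zero_of hP hPm hq
  have h6 := v.ord_mul _ _ (div_ne_zero hz hc'0) q0
  rw [hpq, q1] at h6
  have h7 := hP.2.2.1 p
  omega

theorem isEff (hTWB : S_TWB) (hTCA : S_TCA) {B : ProjModel F} {t : Fin (B.N + 1) → Fin n → F}
    (hT : IsTwist B t) (f : Fin r → LR F n) (hbpf : ∀ j i, BpfAt B j (coefs (tw (t j) (f i))))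
    (i : Fin r) (a : Fin n → ℤ) (ha : a ∈ (f i).coeff.support) :
    IsEffC b B (E B t f i a) := by
  have hfin : (⋃ j : Fin (B.N + 1), (fun c' => (f i).coeff a * mon (t j) a / c') ''
      coefs (tw (t j) (f i))).Finite :=
    Set.finite_iUnion fun j => (ADJN.coefs_finite _).image _
  refine ⟨hfin.toFinset, fun j m hm => ?_⟩
  obtain ⟨c', h1, h2, h3⟩ := eff (b := b) hTWB hTCA hT f hbpf i a ha j m hm
  refine ⟨_, ?_, h2, h3⟩
  rw [Set.Finite.mem_toFinset, Set.mem_iUnion]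
  exact ⟨j, c', h1, rfl⟩

end TEF

open TEF in
theorem t_TEF : M_TEF := by
  intro hTWB hTCA F _ _ b n r B t f hT hf hbpf i a ha
  have hc : (f i).coeff a ≠ 0 := Finsupp.mem_support_iff.1 ha
  constructor
  · intro hE ω hω γ k h g u hk H
    refine hE (E B t f i a) (isEff hTWB hTCA hT f hbpf i a ha) ω hω γ k (h * (f i).coeff a ^ k)
      (fun w => g w * (f i).coeff a ^ k) u hk ⟨mul_ne_zero H.h_ne (pow_ne_zero _ hc), H.u_ne,
        fun w => ?_, fun w => ?_⟩
    · rw [mul_div_mul_right _ _ (pow_ne_zero _ hc)]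
      exact H.restr w
    · obtain ⟨j, m, hmap, heq⟩ := H.eqn w
      refine ⟨j, m, hmap, fun v P hP hPm => ?_⟩
      have hg : g w ≠ 0 := by
        intro h0
        have h1 := H.restr w
        rw [h0, zero_div] at h1
        obtain ⟨uniq, -, -, rinv, -, rconst, -⟩ := t_RSU γ
        exact (rinv _ _ h1 (H.u_ne w)).1 rfl
      have h2 := heq v P hP hPm
      show v.ord (g w * (f i).coeff a ^ k) = k * ((0 : ℕ) * v.formOrd ω + E B t f i a v)
      rw [v.ord_mul _ _ hg (pow_ne_zero _ hc), h2, FBN.ord_pow v hc, E_eq hTCA hT f i a v j P hP]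
      ring
  · intro hE ω hω
    obtain ⟨k, N, h, hk, hh, h1, h2⟩ := hE (E B t f i a) (isEff hTWB hTCA hT f hbpf i a ha) ω hω
    refine ⟨k, N, fun q => h q * (f i).coeff a ^ k, hk,
      fun q => mul_ne_zero (hh q) (pow_ne_zero _ hc), ?_, ?_⟩
    · intro l j v P hP
      have h3 : 0 ≤ v.ord (h l) + k * ((0 : ℕ) * v.formOrd ω + E B t f i a v) := h1 l j v P hP
      rw [E_eq hTCA hT f i a v j P hP] at h3
      show 0 ≤ v.ord (h l * (f i).coeff a ^ k) + _
      rw [v.ord_mul _ _ (hh l) (pow_ne_zero _ hc), FBN.ord_pow v hc]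
      linarith
    · intro j m hm
      obtain ⟨l, h3⟩ := h2 j m hm
      refine ⟨l, fun v P hP hPm => ?_⟩
      have h4 : v.ord (h l) + k * ((0 : ℕ) * v.formOrd ω + E B t f i a v) = 0 :=
        h3 v P hP hPm
      rw [E_eq hTCA hT f i a v j P hP] at h4
      show v.ord (h l * (f i).coeff a ^ k) + _ = 0
      rw [v.ord_mul _ _ (hh l) (pow_ne_zero _ hc), FBN.ord_pow v hc]
      linarith

end

end RMT
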