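import Pool.Agent.RMT.StU
import Pool.Agent.RMM.ADJS
import Pool.Agent.MMCI.K_MON

/-!
# TNS: if multiples of the `D_k` are principal then the `L_i + ⟨a, D⟩` are semiample
-/

set_option autoImplicit false

namespace RMT

open MldGeo MldGeo.DivVal MMCI RMM

noncomputable section

namespace TNS

variable {F : Type} [Field F] [Algebra ℂ F] {b n : ℕ}

theorem mon_ne' {x : Fin n → F} (hx : ∀ j, x j ≠ 0) (m : Fin n → ℤ) : mon x m ≠ 0 :=
  Finset.prod_ne_zero_iff.2 fun j _ => zpow_ne_zero _ (hx j)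

theorem ord_zpow' (v : DivVal b F) {a : F} (ha : a ≠ 0) (k : ℤ) : v.ord (a ^ k) = k * v.ord a := by
  have hinv : ∀ c : F, c ≠ 0 → v.ord c⁻¹ = - v.ord c := by
    intro c hc
    have h1 := v.ord_mul c c⁻¹ hc (inv_ne_zero hc)
    rw [mul_inv_cancel₀ hc] at h1
    have h2 : v.ord 1 = 0 := by
      have := v.ord_const 1
      rwa [map_one] at this
    omega
  rcases k with k | k
  · simp only [Int.ofNat_eq_natCast, zpow_natCast]
    exact ord_pow v _ _
  · rw [zpow_negSucc, hinv _ (pow_ne_zero _ ha), ord_pow, Int.negSucc_eq]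
    push_cast
    ring

theorem ord_mon' (v : DivVal b F) {x : Fin n → F} (hx : ∀ j, x j ≠ 0) (m : Fin n → ℤ) :
    v.ord (mon x m) = ∑ j, m j * v.ord (x j) := by
  unfold mon
  rw [DivVal.ord_prod v _ _ fun j _ => zpow_ne_zero _ (hx j)]
  exact Finset.sum_congr rfl fun j _ => ord_zpow' v (hx j) _

end TNS

open TNS RMM.ADJSa in
theorem t_TNS : M_TNS := by
  classical
  intro hTWB F _ _ b n r B t f hT hf hbpf hM i a ha ω hω
  obtain ⟨M, hM0, hM⟩ := hM
  choose h hh0 hh using hM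
  have htw : ∀ j : Fin (B.N + 1), (∀ a, mon (t j) a ≠ 0) ∧
      (∀ a, (tw (t j) (f i)).coeff a = (f i).coeff a * mon (t j) a) ∧
      (tw (t j) (f i)).coeff.support = (f i).coeff.support := fun j =>
    ⟨(hTWB (t j) (hT.ne j)).1, ((hTWB (t j) (hT.ne j)).2.1 (f i)).1,
      ((hTWB (t j) (hT.ne j)).2.1 (f i)).2.1⟩
  let J : Type := {a' // a' ∈ (f i).coeff.support}
  let e : J ≃ Fin (Fintype.card J) := Fintype.equivFin J
  let sec : J → F := fun a' => (f i).coeff (a' : Fin n → ℤ) ^ M * mon h ((a' : Fin n → ℤ) - a)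
  have hc0 : ∀ a' : J, (f i).coeff (a' : Fin n → ℤ) ≠ 0 := fun a' => Finsupp.mem_support_iff.1 a'.2
  have hsec : ∀ a' : J, sec a' ≠ 0 := fun a' => mul_ne_zero (pow_ne_zero _ (hc0 a')) (mon_ne' hh0 _)
  -- the orders of the sections
  have key : ∀ (a' : J) (j : Fin (B.N + 1)) (v : DivVal b F) (P : Ideal (B.ring j)),
      IsPrimeDivisor (B.ring j) v P →
      v.ord (sec a') + (M : ℤ) * (((0 : ℕ) : ℤ) * v.formOrd ω + adjT b B t f {i} 1 a j v) =
        M * (v.ord ((tw (t j) (f i)).coeff (a' : Fin n → ℤ)) - cmin v (coefs (tw (t j) (f i)))) := by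
    intro a' j v P hP
    have h1 : v.ord (sec a') = M * v.ord ((f i).coeff (a' : Fin n → ℤ)) +
        M * ∑ l, ((a' : Fin n → ℤ) l - a l) * v.ord (t j l) := by
      show v.ord ((f i).coeff (a' : Fin n → ℤ) ^ M * mon h ((a' : Fin n → ℤ) - a)) = _
      rw [v.ord_mul _ _ (pow_ne_zero _ (hc0 a')) (mon_ne' hh0 _), ord_pow, ord_mon' v hh0,
        Finset.mul_sum]
      congr 1
      refine Finset.sum_congr rfl fun l _ => ?_
      rw [hh l j v P hP, Pi.sub_apply]
      ring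
    have h2 : v.ord ((tw (t j) (f i)).coeff (a' : Fin n → ℤ)) =
        v.ord ((f i).coeff (a' : Fin n → ℤ)) + ∑ l, (a' : Fin n → ℤ) l * v.ord (t j l) := by
      rw [(htw j).2.1, v.ord_mul _ _ (hc0 a') ((htw j).1 _), ord_mon' v (hT.ne j)]
    have h3 : adjT b B t f {i} 1 a j v =
        - cmin v (coefs (tw (t j) (f i))) + ∑ l, a l * v.ord (t j l) := by
      unfold adjT adj
      rw [Finset.sum_singleton, ord_mon' v (hT.ne j)]
      push_cast
      ring
    have h4 : ∑ l, ((a' : Fin n → ℤ) l - a l) * v.ord (t j l) =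
        ∑ l, (a' : Fin n → ℤ) l * v.ord (t j l) - ∑ l, a l * v.ord (t j l) := by
      rw [← Finset.sum_sub_distrib]
      exact Finset.sum_congr rfl fun l _ => by ring
    rw [h1, h2, h3, h4]
    push_cast
    ring
  refine ⟨M, Fintype.card J, fun l => sec (e.symm l), hM0, fun l => hsec _, ?_, ?_⟩
  · intro l j v P hP
    rw [key (e.symm l) j v P hP]
    refine mul_nonneg (Int.natCast_nonneg M) (sub_nonneg.2 (cmin_le v (tw (t j) (f i)) ?_))
    rw [(htw j).2.2]
    exact (e.symm l).2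
  · intro j m hm
    obtain ⟨c, ⟨a', ha', rfl⟩, -, hc⟩ := hbpf j i m hm
    have ha'' : a' ∈ (f i).coeff.support := by
      have h1 : a' ∈ (tw (t j) (f i)).coeff.support := ha'
      rwa [(htw j).2.2] at h1
    refine ⟨e ⟨a', ha''⟩, ?_⟩
    intro v P hP hPm
    have h1 := key (e.symm (e ⟨a', ha''⟩)) j v P hP
    rw [Equiv.symm_apply_apply] at h1
    show v.ord (sec (e.symm (e ⟨a', ha''⟩))) + _ = 0
    rw [Equiv.symm_apply_apply]
    refine h1.trans ?_
    have h2 : cmin v (coefs (tw (t j) (f i))) = v.ord ((tw (t j) (f i)).coeff a') := by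
      refine cmin_eq v _ ⟨a', ha', rfl⟩ ?_
      rintro _ ⟨a1, ha1, rfl⟩
      exact ord_le_of_inLoc B hP hPm (Finsupp.mem_support_iff.1 ha')
        (Finsupp.mem_support_iff.1 ha1) (hc _ ⟨a1, ha1, rfl⟩)
    rw [h2, sub_self, mul_zero]

end

end RMT
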