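import Pool.Agent.RMT.StU
import Pool.Agent.RMM.ADJN
import Pool.Agent.MMCI.CD

/-!
# TNT: if the divisors `D_k` are numerically trivial then the `L_i + ⟨a, D⟩` are nef
-/

set_option autoImplicit false

namespace RMT

open MldGeo MMCI RMM

noncomputable section

namespace TNT

theorem mon_sub {F : Type} [Field F] {n : ℕ} (x : Fin n → F) (hx : ∀ k, x k ≠ 0)
    (a c : Fin n → ℤ) : mon x (a - c) = mon x a / mon x c := by
  unfold mon
  rw [← Finset.prod_div_distrib]
  exact Finset.prod_congr rfl fun l _ => zpow_sub₀ (hx l) _ _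

theorem mon_div {F : Type} [Field F] {n : ℕ} (x y : Fin n → F) (a : Fin n → ℤ) :
    mon (fun l => x l / y l) a = mon x a / mon y a := by
  unfold mon
  rw [← Finset.prod_div_distrib]
  exact Finset.prod_congr rfl fun l _ => div_zpow _ _ _

section

variable {F : Type} [Field F] [Algebra ℂ F] {B : ProjModel F} {n : ℕ}

theorem rone (γ : CurveMap B) : γ.Restr (1 : F) (1 : γ.L) := by
  have h1 := (t_RSU γ).2.2.2.2.2.1 1
  rwa [map_one, map_one] at h1

/-- Functions of the ring of a chart through which the curve passes have a restriction. -/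
theorem restr_ring (γ : CurveMap B) {w : DivVal 1 γ.L} {j : Fin (B.N + 1)} {m : Ideal (B.ring j)}
    (hm : γ.MapsTo w j m) {c : F} (hc : c ∈ B.ring j) : ∃ u, γ.Restr c u := by
  obtain ⟨u, hu, -⟩ := RGW_holds γ w j m hm c ⟨c, hc⟩ 1
    ((Ideal.ne_top_iff_one m).1 hm.1.ne_top) (by simp)
  exact ⟨u, hu⟩

theorem restr_ne (γ : CurveMap B) {z : F} {u u' : γ.L} (hz : z ≠ 0) (h : γ.Restr z u)
    (h' : γ.Restr z⁻¹ u') : u ≠ 0 := by
  rintro rfl
  have h5 := (t_RSU γ).2.2.1 _ _ _ _ h h'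
  rw [zero_mul, mul_inv_cancel₀ hz] at h5
  exact one_ne_zero ((t_RSU γ).1 _ _ _ (rone γ) h5)

/-- The quotients of the coordinates of `B` have nonzero restrictions. -/
theorem restr_s (γ : CurveMap B) {w w' : DivVal 1 γ.L} {j j' : Fin (B.N + 1)}
    {m : Ideal (B.ring j)} {m' : Ideal (B.ring j')} (hm : γ.MapsTo w j m)
    (hm' : γ.MapsTo w' j' m') : ∃ u, γ.Restr (B.s j' / B.s j) u ∧ u ≠ 0 := by
  obtain ⟨u, hu⟩ := restr_ring γ hm (c := B.s j' / B.s j) (Algebra.subset_adjoin ⟨j', rfl⟩)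
  obtain ⟨u', hu'⟩ := restr_ring γ hm' (c := B.s j / B.s j') (Algebra.subset_adjoin ⟨j, rfl⟩)
  refine ⟨u, hu, restr_ne γ (div_ne_zero (B.ne j') (B.ne j)) hu (u' := u') ?_⟩
  rw [inv_div]
  exact hu'

/-- The quotients of the functions `t` have nonzero restrictions. -/
theorem restr_t (γ : CurveMap B) {t : Fin (B.N + 1) → Fin n → F} (hT : IsTwist B t)
    {w w' : DivVal 1 γ.L} {j j' : Fin (B.N + 1)}
    {m : Ideal (B.ring j)} {m' : Ideal (B.ring j')} (hm : γ.MapsTo w j m)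
    (hm' : γ.MapsTo w' j' m') (l : Fin n) : ∃ u, γ.Restr (t j' l / t j l) u ∧ u ≠ 0 := by
  obtain ⟨uniq, -, rmul, rinv, rpow, -, -⟩ := t_RSU γ
  obtain ⟨d, hd⟩ := hT.unit
  obtain ⟨α, hα, hα0⟩ := restr_s γ hm hm'
  obtain ⟨β, hβ⟩ := restr_ring γ hm (hd j j' l).1
  obtain ⟨β', hβ'⟩ := restr_ring γ hm (hd j j' l).2
  have ht : t j' l ≠ 0 := hT.ne j' l
  have ht' : t j l ≠ 0 := hT.ne j l
  have hs : B.s j' / B.s j ≠ 0 := div_ne_zero (B.ne j') (B.ne j)
  have hβ0 : β ≠ 0 := by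
    rintro rfl
    have h1 := rmul _ _ _ _ hβ hβ'
    have h2 : t j' l / t j l * (B.s j' / B.s j) ^ d * (t j l / t j' l * (B.s j' / B.s j) ^ d) =
        (B.s j' / B.s j) ^ (d + d) := by
      rw [pow_add, mul_mul_mul_comm, div_mul_div_comm, mul_comm (t j l),
        div_self (mul_ne_zero ht ht'), one_mul]
    rw [h2, zero_mul] at h1
    have h3 := uniq _ _ _ h1 (rpow _ _ (d + d) hα)
    exact pow_ne_zero _ hα0 h3.symm
  have h4 := (rinv _ _ hα hα0).2 (-(d : ℤ))
  refine ⟨β * α ^ (-(d : ℤ)), ?_, mul_ne_zero hβ0 (zpow_ne_zero _ hα0)⟩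
  have h5 := rmul _ _ _ _ hβ h4
  rwa [zpow_neg, zpow_natCast, mul_assoc, mul_inv_cancel₀ (pow_ne_zero _ hs), mul_one] at h5

/-- The quotients of the monomials have restrictions. -/
theorem restr_mon (γ : CurveMap B) {t : Fin (B.N + 1) → Fin n → F} (hT : IsTwist B t)
    {w w' : DivVal 1 γ.L} {j j' : Fin (B.N + 1)}
    {m : Ideal (B.ring j)} {m' : Ideal (B.ring j')} (hm : γ.MapsTo w j m)
    (hm' : γ.MapsTo w' j' m') (p : Fin n → ℤ) : ∃ u, γ.Restr (mon (t j') p / mon (t j) p) u := by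
  obtain ⟨uniq, -, rmul, rinv, rpow, -, -⟩ := t_RSU γ
  choose τ hτ hτ0 using restr_t γ hT hm hm'
  rw [← mon_div]
  unfold mon
  have key : ∀ s : Finset (Fin n), γ.Restr (∏ l ∈ s, (t j' l / t j l) ^ p l)
      (∏ l ∈ s, τ l ^ p l) := by
    intro s
    classical
    induction s using Finset.induction_on with
    | empty => simpa using rone γ
    | insert x s hx ih =>
      rw [Finset.prod_insert hx, Finset.prod_insert hx]
      exact rmul _ _ _ _ ((rinv _ _ (hτ x) (hτ0 x)).2 (p x)) ih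
  exact ⟨_, key Finset.univ⟩

end

end TNT

open TNT

theorem t_TNT : M_TNT := by
  intro hTWB F _ _ b n r B t f hT hf hbpf hnum i a ha ω hω γ k h g u hk hE
  classical
  obtain ⟨uniq, -, rmul, rinv, rpow, rconst, -⟩ := t_RSU γ
  have hPRF := PRF_holds (t_CUR γ)
  obtain ⟨w0, -⟩ := hPRF.2.2 ∅
  have rinv1 : ∀ (z : F) (u : γ.L), γ.Restr z u → u ≠ 0 → γ.Restr z⁻¹ u⁻¹ := by
    intro z u h1 h2
    have h3 := (rinv _ _ h1 h2).2 (-1)
    rwa [zpow_neg_one, zpow_neg_one] at h3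
  choose j m hmap heq using hE.eqn
  have hm0 : ∀ j a, mon (t j) a ≠ 0 := fun j => (hTWB (t j) (hT.ne j)).1
  have hco : ∀ j a, (tw (t j) (f i)).coeff a = (f i).coeff a * mon (t j) a := fun j =>
    ((hTWB (t j) (hT.ne j)).2.1 (f i)).1
  have hsu : ∀ j, (tw (t j) (f i)).coeff.support = (f i).coeff.support := fun j =>
    ((hTWB (t j) (hT.ne j)).2.1 (f i)).2.1
  have hmem : ∀ j, ∀ a' ∈ (f i).coeff.support,
      (f i).coeff a' * mon (t j) a' ∈ coefs (tw (t j) (f i)) := by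
    intro j a' ha'
    refine ⟨a', ?_, hco j a'⟩
    rw [Finset.mem_coe, hsu]
    exact ha'
  choose c hcC hc0 hcl using fun w : DivVal 1 γ.L => hbpf (j w) i (m w) (hmap w).1
  have hA : ∀ w, ∃ a' ∈ (f i).coeff.support, c w = (f i).coeff a' * mon (t (j w)) a' := by
    intro w
    obtain ⟨a', ha', hc'⟩ := hcC w
    rw [Finset.mem_coe, hsu] at ha'
    exact ⟨a', ha', by rw [← hc', hco]⟩
  choose A hA1 hA2 using hA
  have hcf : ∀ w, (f i).coeff (A w) ≠ 0 := fun w => Finsupp.mem_support_iff.1 (hA1 w)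
  have hg0 : ∀ w, g w ≠ 0 := by
    intro w h0
    have h1 := (rinv _ _ (hE.restr w) (hE.u_ne w)).1
    exact h1 (by rw [h0, zero_div])
  -- the functions `φ w`
  set φ : DivVal 1 γ.L → F := fun w =>
    (f i).coeff (A w0) * mon (t (j w)) (A w0) / c w with hφ
  have hφ0 : ∀ w, φ w ≠ 0 := fun w => div_ne_zero (mul_ne_zero (hcf w0) (hm0 _ _)) (hc0 w)
  -- their restrictions
  have hρ : ∀ w : DivVal 1 γ.L, ∃ e : γ.L, γ.Restr (φ w) e ∧ e ≠ 0 ∧ 0 ≤ w.ord e := by
    intro w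
    obtain ⟨p, q, h1, h2⟩ := hcl w _ (hmem (j w) (A w0) (hA1 w0))
    obtain ⟨e, h3, h4, -⟩ := RGW_holds γ w (j w) (m w) (hmap w) _ p q h1 h2
    obtain ⟨p', q', h1', h2'⟩ := hcl w0 _ (hmem (j w0) (A w) (hA1 w))
    obtain ⟨e', h3', -, -⟩ := RGW_holds γ w0 (j w0) (m w0) (hmap w0) _ p' q' h1' h2'
    obtain ⟨e'', h3''⟩ := restr_mon γ hT (hmap w0) (hmap w) (A w - A w0)
    have h5 := rmul _ _ _ _ h3' h3''
    have h6 : (f i).coeff (A w) * mon (t (j w0)) (A w) / c w0 *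
        (mon (t (j w)) (A w - A w0) / mon (t (j w0)) (A w - A w0)) = (φ w)⁻¹ := by
      have n1 := hcf w0
      have n2 := hcf w
      have n3 := hm0 (j w0) (A w)
      have n4 := hm0 (j w) (A w)
      have n5 := hm0 (j w0) (A w0)
      have n6 := hm0 (j w) (A w0)
      change _ = ((f i).coeff (A w0) * mon (t (j w)) (A w0) / c w)⁻¹
      rw [mon_sub _ (hT.ne (j w)), mon_sub _ (hT.ne (j w0)), hA2 w, hA2 w0]
      field_simp
    rw [h6] at h5
    have he : e ≠ 0 := restr_ne γ (hφ0 w) h3 h5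
    exact ⟨e, h3, he, h4.resolve_left he⟩
  choose ρ hρr hρ0 hρo using hρ
  -- the equations of the numerically trivial divisor
  set g1 : DivVal 1 γ.L → F := fun w => g w * (c w / mon (t (j w)) (A w0)) ^ k with hg1
  set h1 : F := h * (f i).coeff (A w0) ^ k with hh1
  set u1 : DivVal 1 γ.L → γ.L := fun w => u w * (ρ w)⁻¹ ^ k with hu1
  have hq0 : ∀ w, c w / mon (t (j w)) (A w0) ≠ 0 := fun w => div_ne_zero (hc0 w) (hm0 _ _)
  have hEq : EqnsC γ 0 (fun j (v : DivVal b F) => v.ord (mon (t j) (a - A w0))) ω k h1 g1 u1 := by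
    refine ⟨mul_ne_zero hE.h_ne (pow_ne_zero _ (hcf w0)),
      fun w => mul_ne_zero (hE.u_ne w) (pow_ne_zero _ (inv_ne_zero (hρ0 w))), fun w => ?_,
      fun w => ⟨j w, m w, hmap w, fun v P hP hPm => ?_⟩⟩
    · have h2 : g1 w / h1 = g w / h * (φ w)⁻¹ ^ k := by
        change g w * (c w / mon (t (j w)) (A w0)) ^ k / (h * (f i).coeff (A w0) ^ k) =
          g w / h * ((f i).coeff (A w0) * mon (t (j w)) (A w0) / c w)⁻¹ ^ k
        rw [inv_div, div_pow, div_pow, mul_pow, mul_div_mul_comm, div_div,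
          mul_comm (mon (t (j w)) (A w0) ^ k)]
      rw [h2]
      exact rmul _ _ _ _ (hE.restr w) (rpow _ _ _ (rinv1 _ _ (hρr w) (hρ0 w)))
    · have h2 := heq w v P hP hPm
      have h3 : adjT b B t f {i} 1 a (j w) v =
          - v.ord (c w) + v.ord (mon (t (j w)) a) := by
        unfold adjT adj
        rw [Finset.sum_singleton, ADJN.cmin_eq (hcC w) (hcl w) hP hPm]
        push_cast
        ring
      change v.ord (g w * (c w / mon (t (j w)) (A w0)) ^ k) =
        k * ((0 : ℕ) * v.formOrd ω + v.ord (mon (t (j w)) (a - A w0)))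
      rw [v.ord_mul _ _ (hg0 w) (pow_ne_zero _ (hq0 w)), FBN.ord_pow v (hq0 w),
        mon_sub _ (hT.ne (j w)), v.ord_div (hc0 w) (hm0 _ _), v.ord_div (hm0 _ _) (hm0 _ _), h2, h3]
      push_cast
      ring
  obtain ⟨hfin, hsum⟩ := hnum (a - A w0) ω hω γ k h1 g1 u1 hk hEq
  -- the orders
  have hord : ∀ w : DivVal 1 γ.L, w.ord (u w) = w.ord (u1 w) + k * w.ord (ρ w) := by
    intro w
    have h2 : w.ord (u1 w) = w.ord (u w) + k * w.ord ((ρ w)⁻¹) := by
      change w.ord (u w * (ρ w)⁻¹ ^ k) = _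
      rw [w.ord_mul _ _ (hE.u_ne w) (pow_ne_zero _ (inv_ne_zero (hρ0 w))),
        FBN.ord_pow w (inv_ne_zero (hρ0 w))]
    rw [h2, FBN.ord_inv w (hρ0 w)]
    ring
  -- finiteness
  have hfinρ : {w : DivVal 1 γ.L | w.ord (ρ w) ≠ 0}.Finite := by
    have h2 : (Set.range ρ).Finite := by
      have h3 : ∀ w w', φ w = φ w' → ρ w = ρ w' := by
        intro w w' h4
        have h5 := hρr w
        rw [h4] at h5
        exact uniq _ _ _ h5 (hρr w')
      have h4 : (Set.range φ).Finite := by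
        refine (((Set.finite_univ (α := Fin (B.N + 1))).prod
          (f i).coeff.support.finite_toSet).image fun x : Fin (B.N + 1) × (Fin n → ℤ) =>
            (f i).coeff (A w0) * mon (t x.1) (A w0) / ((f i).coeff x.2 * mon (t x.1) x.2)).subset ?_
        rintro _ ⟨w, rfl⟩
        refine ⟨(j w, A w), ⟨Set.mem_univ _, hA1 w⟩, ?_⟩
        change _ = (f i).coeff (A w0) * mon (t (j w)) (A w0) / c w
        rw [hA2 w]
      have h5 : Set.range ρ ⊆
          (fun z => if hz : ∃ w, φ w = z then ρ hz.choose else 0) '' Set.range φ := by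
        rintro _ ⟨w, rfl⟩
        refine ⟨φ w, ⟨w, rfl⟩, ?_⟩
        have hz : ∃ w', φ w' = φ w := ⟨w, rfl⟩
        change (if hz : ∃ w', φ w' = φ w then ρ hz.choose else 0) = ρ w
        rw [dif_pos hz]
        exact h3 _ _ hz.choose_spec
      exact (h4.image _).subset h5
    have h3 : {w : DivVal 1 γ.L | w.ord (ρ w) ≠ 0} ⊆
        ⋃ e ∈ Set.range ρ, {w : DivVal 1 γ.L | w.ord e ≠ 0} := by
      intro w hw
      exact Set.mem_biUnion (⟨w, rfl⟩ : ρ w ∈ Set.range ρ) hw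
    refine (h2.biUnion fun e he => ?_).subset h3
    obtain ⟨w', rfl⟩ := he
    obtain ⟨E, hE1, -⟩ := hPRF.1 (ρ w') (hρ0 w')
    refine E.support.finite_toSet.subset fun w hw => ?_
    rw [Finset.mem_coe, Finsupp.mem_support_iff, hE1]
    exact hw
  have hfin2 : (Function.support fun w : DivVal 1 γ.L => (k : ℤ) * w.ord (ρ w)).Finite := by
    refine hfinρ.subset fun w hw => ?_
    intro h4
    apply hw
    change (k : ℤ) * w.ord (ρ w) = 0
    rw [h4, mul_zero]
  have hfin1 : (Function.support fun w : DivVal 1 γ.L => w.ord (u1 w)).Finite := hfin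
  have hfun : (fun w : DivVal 1 γ.L => w.ord (u w)) =
      fun w : DivVal 1 γ.L => w.ord (u1 w) + k * w.ord (ρ w) := funext hord
  constructor
  · refine (hfin1.union hfin2).subset fun w hw => ?_
    by_contra h2
    rw [Set.mem_union, not_or] at h2
    obtain ⟨h3, h4⟩ := h2
    rw [Function.notMem_support] at h3 h4
    apply hw
    rw [hord w, h3, h4, add_zero]
  · rw [hfun, finsum_add_distrib hfin1 hfin2]
    exact add_nonneg hsum (finsum_nonneg fun w => mul_nonneg (Int.natCast_nonneg k) (hρo w))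

end

end RMT
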