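import Pool.Agent.RMT.AsmB
import Pool.Agent.RMT.TEF
import Pool.Agent.RMT.TNT
import Pool.Agent.RMT.TNS
import Pool.Agent.RMT.TBU
import Pool.Agent.RMT.TFINU

/-!
# Torus bundles: the theorem, without hypotheses
-/

set_option autoImplicit false

namespace RMX

/-- The theorem. -/
theorem finalU : S_FINU :=
  t_FINU RMM.cRSUP RMT.t_TWB RMT.bTBF RMT.aTSYS RMT.t_TBN RMT.t_TBD RMT.bTCVX RMT.bTCVS
    RMT.bTMAIN RMT.bTFAA (RMT.t_TEF RMT.t_TWB RMT.bTCA) (RMT.t_TNT RMT.t_TWB)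
    (RMT.t_TNS RMT.t_TWB) (RMT.t_TBU RMT.t_TBN)

end RMX
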