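import Pool.Agent.RMT.StR

/-!
# Module TCH: change of variables and twist
-/

set_option autoImplicit false

namespace RMT

open MldGeo MMCI RMM

noncomputable section

namespace TCH

theorem mon_mon {K : Type} [Field K] {n n' : ℕ} {x : Fin n → K} (hx : ∀ j, x j ≠ 0)
    (m : Fin n' → (Fin n → ℤ)) (a : Fin n' → ℤ) :
    mon (fun k => mon x (m k)) a = mon x (∑ k, a k • m k) := by
  unfold mon
  have h1 : ∀ i : Fin n, x i ^ ((∑ k, a k • m k) i) = ∏ k, (x i ^ m k i) ^ a k := by
    intro i
    rw [Finset.sum_apply]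
    have h2 : ∀ s : Finset (Fin n'),
        x i ^ (∑ k ∈ s, (a k • m k) i) = ∏ k ∈ s, (x i ^ m k i) ^ a k := by
      classical
      intro s
      induction s using Finset.induction_on with
      | empty => simp
      | insert b s hb ih =>
        rw [Finset.sum_insert hb, Finset.prod_insert hb, zpow_add₀ (hx i), ih, Pi.smul_apply,
          smul_eq_mul, mul_comm (a b) (m b i), zpow_mul]
    exact h2 Finset.univ
  rw [Finset.prod_congr rfl fun i _ => h1 i, Finset.prod_comm]
  refine Finset.prod_congr rfl fun k _ => ?_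
  rw [Finset.prod_zpow]

theorem mon_add {K : Type} [Field K] {n : ℕ} {x : Fin n → K} (hx : ∀ j, x j ≠ 0)
    (a b : Fin n → ℤ) : mon x (a + b) = mon x a * mon x b := by
  unfold mon
  rw [← Finset.prod_mul_distrib]
  exact Finset.prod_congr rfl fun i _ => by rw [Pi.add_apply, zpow_add₀ (hx i)]

end TCH

theorem t_TCH : M_TCH := by
  intro hTWB F _ _ n n' t ht m
  have hmm := TCH.mon_mon ht m
  obtain ⟨hne, hf1, -⟩ := hTWB t ht
  obtain ⟨-, hf2, -⟩ := hTWB (fun k => mon t (m k)) fun k => hne (m k)
  refine ⟨hmm, ?_, ?_⟩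
  · intro p f f' hf
    refine ⟨fun a => ?_, fun q hq => ?_⟩
    · rw [(hf1 f).1, TCH.mon_add ht, ← hmm a, ← hf.coeff a]
      have h1 : (mon t p • tw (fun k => mon t (m k)) f').coeff a =
          mon t p * (tw (fun k => mon t (m k)) f').coeff a := rfl
      rw [h1, (hf2 f').1]
      ring
    · rw [(hf1 f).2.1] at hq
      exact hf.supp q hq
  · intro K _ _ x hx
    funext k
    unfold tx mon
    rw [map_prod, ← Finset.prod_div_distrib]
    refine Finset.prod_congr rfl fun i _ => ?_
    rw [map_zpow₀, div_zpow]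

end

end RMT
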