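import Pool.Agent.RMT.StS
import Pool.Agent.RMM.CLP
import Pool.Agent.MldGeo.Ord

/-!
# TCLP: a closed point in the closure of the centre, for a given chart; homogeneous elements
-/

set_option autoImplicit false

namespace RMT

open MldGeo MMCI RMM MldGeo.DivVal

noncomputable section

open RMM.CLP in
theorem t_TCLP : S_TCLP := by
  intro F K _ _ _ _ _ _ e' n B x hx v j hj
  obtain ⟨t0, ht0, h1⟩ := v.unif
  obtain ⟨ub, hub⟩ := MIN.exists_units (v := v) hx ht0 h1
  set ρ : LR (B.ring j) n →+* IsLocalRing.ResidueField v.OV :=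
    (IsLocalRing.residue v.OV).comp (phi hj ub) with hρ
  have hne : RingHom.ker ρ ≠ ⊤ := RingHom.ker_ne_top ρ
  obtain ⟨M, hM, hle⟩ := Ideal.exists_le_maximal _ hne
  have hG : ∀ G : LR (B.ring j) n, v.Ge 1 (nval x v t0 G) → G ∈ M := by
    intro G hG
    apply hle
    rw [RingHom.mem_ker, hρ, RingHom.comp_apply, IsLocalRing.residue_eq_zero_iff,
      mem_maximalIdeal_iff, phi_val hj ht0 ub hub]
    exact hG
  refine ⟨t0, M, ht0, h1, hM, comap_max B j M hM, ⟨hj, fun c hc => ?_⟩, hG, ?_⟩
  · rw [Ideal.mem_comap]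
    apply hG
    have h2 : algebraMap (B.ring j) (LR (B.ring j) n) c = AddMonoidAlgebra.single 0 c := rfl
    rw [h2, nval_single]
    have h3 : mon x (0 : Fin n → ℤ) = 1 := by
      unfold mon
      simp
    have h4 : pair (wt x v) (0 : Fin n → ℤ) = 0 := by
      unfold pair
      simp
    rw [h3, h4, neg_zero, zpow_zero, mul_one, mul_one]
    exact hc
  · intro g c hg hge
    apply hG
    have h2 : nval x v t0 g =
        t0 ^ (-c) * g.coeff.sum fun a p => algebraMap F K (p : F) * mon x a := by
      unfold nval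
      rw [Finsupp.mul_sum]
      refine Finsupp.sum_congr fun a ha => ?_
      rw [hg a ha]
      ring
    rw [h2]
    have h3 : v.Ge (-c) (t0 ^ (-c)) := Ge.of_le (by rw [ord_zpow, h1, mul_one])
    have h4 := h3.mul hge
    rwa [neg_add_cancel_left] at h4

end

end RMT
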