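import Pool.Agent.RMT.StR

/-!
# Torus bundles: scaling of the coefficients (helper28)
-/

set_option autoImplicit false

namespace RMT

open MldGeo MMCI RMM

noncomputable section

namespace TCM

theorem coefs_smul {F : Type} [Field F] {n : ℕ} (f : LR F n) {c : F} (hc : c ≠ 0) :
    coefs (c • f) = (fun a => c * a) '' coefs f := by
  ext a
  unfold coefs
  constructor
  · rintro ⟨m, hm, rfl⟩
    have h1 : (c • f).coeff m = c * f.coeff m := rfl
    refine ⟨f.coeff m, ⟨m, ?_, rfl⟩, h1.symm⟩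
    rw [Finset.mem_coe, Finsupp.mem_support_iff] at hm ⊢
    intro h2
    exact hm (by rw [h1, h2, mul_zero])
  · rintro ⟨_, ⟨m, hm, rfl⟩, rfl⟩
    have h1 : (c • f).coeff m = c * f.coeff m := rfl
    refine ⟨m, ?_, h1⟩
    rw [Finset.mem_coe, Finsupp.mem_support_iff] at hm ⊢
    rw [h1]
    exact mul_ne_zero hc hm

theorem coefs_ne {F : Type} [Field F] {n : ℕ} (f : LR F n) {a : F} (ha : a ∈ coefs f) :
    a ≠ 0 := by
  obtain ⟨m, hm, rfl⟩ := ha
  rwa [Finset.mem_coe, Finsupp.mem_support_iff] at hm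

theorem coefs_nonempty {F : Type} [Field F] {n : ℕ} {f : LR F n} (hf : f ≠ 0) :
    (coefs f).Nonempty := by
  have h1 : f.coeff ≠ 0 := by
    intro h
    exact hf (AddMonoidAlgebra.coeff_injective (by rw [h]; rfl))
  obtain ⟨m, hm⟩ := Finsupp.support_nonempty_iff.mpr h1
  exact ⟨f.coeff m, m, hm, rfl⟩

theorem coefs_finite {F : Type} [Field F] {n : ℕ} (f : LR F n) : (coefs f).Finite :=
  f.coeff.support.finite_toSet.image _

theorem bpf {F : Type} [Field F] [Algebra ℂ F] {n : ℕ} (f : LR F n) {c : F} (hc : c ≠ 0)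
    (B : ProjModel F) (j : Fin (B.N + 1)) :
    BpfAt B j (coefs (c • f)) ↔ BpfAt B j (coefs f) := by
  rw [coefs_smul f hc]
  constructor
  · intro h m hm
    obtain ⟨_, ⟨a, ha, rfl⟩, hne, hall⟩ := h m hm
    refine ⟨a, ha, right_ne_zero_of_mul hne, fun a' ha' => ?_⟩
    have h1 := hall (c * a') ⟨a', ha', rfl⟩
    rwa [mul_div_mul_left _ _ hc] at h1
  · intro h m hm
    obtain ⟨a, ha, hne, hall⟩ := h m hm
    refine ⟨c * a, ⟨a, ha, rfl⟩, mul_ne_zero hc hne, ?_⟩
    rintro _ ⟨a', ha', rfl⟩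
    change InLoc B j m (c * a' / (c * a))
    rw [mul_div_mul_left _ _ hc]
    exact hall a' ha'

theorem cmin_smul {F : Type} [Field F] [Algebra ℂ F] {n : ℕ} {f : LR F n} {c : F} (hf : f ≠ 0)
    (hc : c ≠ 0) {K : Type} [Field K] [Algebra ℂ K] [Algebra F K] {e' : ℕ} (v : DivVal e' K) :
    cmin v (coefs (c • f)) = v.ord (algebraMap F K c) + cmin v (coefs f) := by
  have hinj : Function.Injective (algebraMap F K) := (algebraMap F K).injective
  have h1 : (fun a => v.ord (algebraMap F K a)) '' coefs (c • f) =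
      (OrderIso.addLeft (v.ord (algebraMap F K c))) ''
        ((fun a => v.ord (algebraMap F K a)) '' coefs f) := by
    rw [coefs_smul f hc, Set.image_image, Set.image_image]
    apply Set.image_congr
    intro a ha
    have ha0 := coefs_ne f ha
    change v.ord (algebraMap F K (c * a)) = v.ord (algebraMap F K c) + v.ord (algebraMap F K a)
    rw [map_mul, v.ord_mul]
    · exact fun h => hc (hinj (by rw [h, map_zero]))
    · exact fun h => ha0 (hinj (by rw [h, map_zero]))
  unfold cmin
  rw [h1]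
  exact (OrderIso.map_csInf' (OrderIso.addLeft (v.ord (algebraMap F K c)))
    ((coefs_nonempty hf).image _) ((coefs_finite f).image _).bddBelow).symm

end TCM

theorem t_TCM : S_TCM := by
  intro F _ _ n f c hf hc
  exact ⟨fun B j => TCM.bpf f hc B j, fun v => TCM.cmin_smul hf hc v⟩

end

end RMT
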