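import Pool.Agent.RMT.StR
import Pool.Agent.RMM.RRED

/-!
# Torus bundles, module TCMB: the combinatorial part of the reduction
-/

set_option autoImplicit false

namespace RMT

open MldGeo MMCI RMM

noncomputable section

theorem t_TCMB : M_TCMB := by
  classical
  intro hRSP hKER hINK hCMB hWGT hEMB hLAT F K _ _ _ _ _ _ b e n r f x hS hdimF htrK D htr
  have hchar : CharZero K := charZero_of_injective_algebraMap (algebraMap ℂ K).injective
  let M : Set (Fin n → ℤ) := {m | ∃ a ∈ D.A, ∃ a' ∈ D.A, m = D.b a - D.b a'}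
  have hMset : {z : K | ∃ m ∈ M, z = mon x m} =
      {z | ∃ a ∈ D.A, ∃ a' ∈ D.A, z = mon x (D.b a - D.b a')} := by
    ext z
    constructor
    · rintro ⟨m, ⟨a, ha, a', ha', rfl⟩, rfl⟩
      exact ⟨a, ha, a', ha', rfl⟩
    · rintro ⟨a, ha, a', ha', rfl⟩
      exact ⟨_, ⟨a, ha, a', ha', rfl⟩, rfl⟩
  have hEmM : Em F x M = Fb (F := F) x D.A D.b := by
    unfold Em Fb
    rw [hMset]
  have hMpair : ∀ m ∈ M, ∀ j, pair (D.ν j) m = 0 := by
    rintro m ⟨a, ha, a', ha', rfl⟩ j
    rw [R_RED.pair_sub, D.const j a ha a' ha', sub_self]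
  have hc0 : ∀ j, (D.c j : K) ≠ 0 := fun j => by exact_mod_cast (D.c_pos j).ne'
  have hrelK : ∀ k, ∑ j, (D.c j : K) * (D.ν j k : K) = 0 := by
    intro k
    have h1 := congrFun D.rel k
    simp only [Finset.sum_apply, Pi.smul_apply, smul_eq_mul, Pi.zero_apply] at h1
    exact_mod_cast congrArg (fun z : ℤ => (z : K)) h1
  -- the kernel
  have hker : ∀ d : Fin (D.g + 1) → K, (∀ i, ∑ j, rder x (f i) (D.ν j) * d j = 0) →
      ∀ i j, d i * (D.c j : K) = d j * (D.c i : K) := by
    intro d hd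
    have hy : (fun k => ∑ j, d j * (D.ν j k : K)) = 0 := by
      refine hKER f x hS hdimF htrK M (by rw [hEmM]; exact htr) _ ?_ ?_
      · intro i
        have h1 := hd i
        unfold rder at h1
        rw [← h1]
        simp only [Finset.sum_mul]
        rw [Finset.sum_comm]
        refine Finset.sum_congr rfl fun j _ => Finset.sum_congr rfl fun k _ => ?_
        ring
      · intro m hm
        have h1 : ∀ j, ∑ k, (D.ν j k : K) * (m k : K) = 0 := by
          intro j
          have h2 := hMpair m hm j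
          unfold pair at h2
          exact_mod_cast congrArg (fun z : ℤ => (z : K)) h2
        simp only [Finset.sum_mul]
        rw [Finset.sum_comm]
        refine Finset.sum_eq_zero fun j _ => ?_
        have h3 : ∑ k, d j * (D.ν j k : K) * (m k : K) = d j * ∑ k, (D.ν j k : K) * (m k : K) := by
          rw [Finset.mul_sum]
          refine Finset.sum_congr rfl fun k _ => ?_
          ring
        rw [h3, h1 j, mul_zero]
    have hyk : ∀ k, ∑ j, d j * (D.ν j k : K) = 0 := fun k => congrFun hy k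
    have hli := hINK (K := K) _ (D.indep 0)
    rw [Fintype.linearIndependent_iff] at hli
    have h0 : ∀ j, d j * (D.c 0 : K) = d 0 * (D.c j : K) := by
      intro j
      have h1 := hli (fun j => d (Fin.succAbove 0 j) * (D.c 0 : K) -
        d 0 * (D.c (Fin.succAbove 0 j) : K)) (by
        funext k
        simp only [Finset.sum_apply, Pi.smul_apply, smul_eq_mul, Pi.zero_apply]
        have h2 : ∑ j, (d j * (D.c 0 : K) - d 0 * (D.c j : K)) * (D.ν j k : K) = 0 := by
          have h3 : ∑ j, (d j * (D.c 0 : K) - d 0 * (D.c j : K)) * (D.ν j k : K) =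
              (D.c 0 : K) * ∑ j, d j * (D.ν j k : K) - d 0 * ∑ j, (D.c j : K) * (D.ν j k : K) := by
            rw [Finset.mul_sum, Finset.mul_sum, ← Finset.sum_sub_distrib]
            refine Finset.sum_congr rfl fun j _ => ?_
            ring
          rw [h3, hyk k, hrelK k, mul_zero, mul_zero, sub_zero]
        rw [Fin.sum_univ_succAbove _ 0] at h2
        rw [sub_self, zero_mul, zero_add] at h2
        exact h2)
      rcases Fin.eq_self_or_eq_succAbove 0 j with h | ⟨i, h⟩
      · rw [h]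
      · rw [h]
        exact sub_eq_zero.mp (h1 i)
    intro i j
    have h1 : (d i * (D.c j : K) - d j * (D.c i : K)) * (D.c 0 : K) = 0 := by
      have e1 := h0 i
      have e2 := h0 j
      linear_combination (D.c j : K) * e1 - (D.c i : K) * e2
    exact sub_eq_zero.mp ((mul_eq_zero.mp h1).resolve_right (hc0 0))
  -- the weights
  have hW : ∀ i, ∃ w : ℕ, (w : ℤ) = - ∑ j, (D.c j : ℤ) * rmin (f i) (D.ν j) ∧
      (∃ a : Fin (D.g + 1) → ℕ, w = ∑ l, a l * D.c l) ∧
      (∀ j, rder x (f i) (D.ν j) ≠ 0 →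
        ∃ a : Fin (D.g + 1) → ℕ, w = ∑ l, a l * D.c l ∧ 0 < a j) ∧
      (w = 0 → ∀ p ∈ (f i).coeff.support, ∀ p' ∈ (f i).coeff.support, ∀ j,
        pair (D.ν j) p = pair (D.ν j) p') := by
    intro i
    obtain ⟨w, h1, h2, h3, h4⟩ := hWGT (K := K) (f i) D.ν D.c (hS.f_ne i) D.c_pos D.rel
    refine ⟨w, h1, h2, fun j hj => h3 x j ?_, h4⟩
    rw [hS.zero i, mul_zero, sub_zero]
    exact hj
  choose w hw hwa hwb hwc using hW
  have hlt : ∑ i, w i < ∑ j, D.c j := by
    have h1 : ((∑ i, w i : ℕ) : ℤ) = - ∑ j, (D.c j : ℤ) * rpsi f (D.ν j) := by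
      push_cast
      rw [Finset.sum_congr rfl fun i _ => hw i, Finset.sum_neg_distrib, Finset.sum_comm]
      congr 1
      refine Finset.sum_congr rfl fun j _ => ?_
      unfold rpsi
      rw [Finset.mul_sum]
    have h2 := D.circ
    have h3 : ∑ j, (D.c j : ℤ) * (psi (fun i => supp0 (f i)) (D.ν j) + 1) =
        ∑ j, (D.c j : ℤ) * rpsi f (D.ν j) + ((∑ j, D.c j : ℕ) : ℤ) := by
      push_cast
      rw [← Finset.sum_add_distrib]
      refine Finset.sum_congr rfl fun j _ => ?_
      rw [(hRSP (0 : LR F n)).2.2.2 f (D.ν j)]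
      ring
    rw [h3] at h2
    have h4 : ((∑ i, w i : ℕ) : ℤ) < ((∑ j, D.c j : ℕ) : ℤ) := by linarith
    exact_mod_cast h4
  obtain ⟨j0, hj0⟩ := Finite.exists_min D.c
  obtain ⟨ρ, hρ, hdet, hρw, hρ0⟩ := hCMB (fun i j => rder x (f i) (D.ν j)) D.c w D.c_pos hwa
    (fun i j h => hwb i j h) hker hlt j0 hj0
  -- the field
  have hle : Em F x M ≤ Em F x {m | ∀ j, pair (D.ν j) m = 0} := by
    refine IntermediateField.adjoin.mono _ _ _ ?_
    refine Set.union_subset_union_right _ ?_
    rintro z ⟨m, hm, rfl⟩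
    exact ⟨m, hMpair m hm, rfl⟩
  have htr2 : Algebra.trdeg ℂ (Em F x {m | ∀ j, pair (D.ν j) m = 0}) =
      ((b + e : ℕ) : Cardinal) := by
    refine le_antisymm ?_ ?_
    · rw [← htrK]
      exact trdeg_le_of_injective (Em F x {m | ∀ j, pair (D.ν j) m = 0}).val
        (Em F x {m | ∀ j, pair (D.ν j) m = 0}).val.injective
    · rw [← htr, ← hEmM]
      exact trdeg_le_of_injective (IntermediateField.inclusion hle)
        (IntermediateField.inclusion_injective hle)
  have hE2 : Em F x {m | ∀ j, pair (D.ν j) m = 0} = ⊤ := by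
    refine hEMB f x D.ν D.c j0 ρ hS htrK D.c_pos D.rel ?_ hdet htr2
    intro i
    rw [← hw (ρ i), hρw i]
  -- the lattice
  obtain ⟨n', m, hn', hm, hmo, hmg⟩ := hLAT (fun j : Fin D.g => D.ν (j0.succAbove j)) (D.indep j0)
  have hmg' : ∀ u, (∀ j, pair (D.ν j) u = 0) → ∃ a : Fin n' → ℤ, u = ∑ k, a k • m k :=
    fun u hu => hmg u fun j => hu _
  -- the complement
  have hgr : D.g ≤ r := by
    have := Fintype.card_le_of_injective ρ hρ
    simpa using this
  obtain ⟨τ, hτ⟩ := R_NEW.exists_equiv (show r = D.g + (r - D.g) by omega) ρ hρ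
  have hτw : ∀ i, w (τ (Sum.inr i)) = 0 := by
    intro i
    refine hρ0 _ ?_
    rintro ⟨j, hj⟩
    rw [← hτ j] at hj
    exact Sum.inl_ne_inr (τ.injective hj)
  have hsupp : ∀ i, ∃ p, p ∈ (f (τ (Sum.inr i))).coeff.support := by
    intro i
    by_contra h
    push Not at h
    refine hS.f_ne (τ (Sum.inr i)) ?_
    have h1 : (f (τ (Sum.inr i))).coeff = 0 := by
      refine Finsupp.support_eq_empty.mp (Finset.eq_empty_of_forall_notMem h)
    apply AddMonoidAlgebra.ext
    rw [h1]
    rfl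
  choose p hp using hsupp
  have hn : n' = (r - D.g) + e := by
    have := hS.dim_eq
    omega
  refine ⟨D.g, n', r - D.g, τ, m, fun j : Fin D.g => D.ν (j0.succAbove j), p, ?_, hm, D.indep j0,
    fun j k => hmo k j, hn', hn, RRED.adjoin_top x hS.ne hE2 m fun u hu => hmg' u hu, ?_, ?_⟩
  · have := D.g_pos
    omega
  · intro i q hq
    obtain ⟨a, ha⟩ := hmg' (q - p i) fun j => by
      rw [R_RED.pair_sub, hwc (τ (Sum.inr i)) (hτw i) q hq (p i) (hp i) j, sub_self]
    exact ⟨a, by rw [← ha]; abel⟩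
  · simpa only [hτ] using hdet

end

end RMT
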