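import Pool.Agent.RMT.StS
import Pool.Agent.RMM.RBAS

/-!
# Torus bundles, module TEQ: the local equations on the base over one chart
-/

set_option autoImplicit false

namespace RMT

open MldGeo MMCI RMM

noncomputable section

namespace TEQ

variable {F : Type} [Field F] [Algebra ℂ F] {b : ℕ} {B : ProjModel F}

/-- the order of an element of a prime divisor of the chart -/
theorem through_of {v : DivVal b F} {j : Fin (B.N + 1)} {P m : Ideal (B.ring j)}
    (hP : IsPrimeDivisor (B.ring j) v P) (hPm : P ≤ m) : Through B v j m := by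
  refine ⟨fun x hx => Or.inr (hP.2.2.1 ⟨x, hx⟩), fun x hx => hPm ?_⟩
  rw [hP.2.2.2 x]
  rcases hx with hx | hx
  · exact Or.inl (Subtype.ext hx)
  · right
    have : (1 : ℤ) ≤ v.ord (x : F) := hx
    omega

end TEQ

open RMM.RBASP TEQ in
theorem t_TEQ : S_TEQ := by
  classical
  intro F K _ _ _ _ _ _ e' n r B κ b y0 β f j hf hB
  obtain ⟨S0, hS0⟩ := hB.eqn
  have hfin : ∀ i, (coefs (f i)).Finite := fun i => (f i).coeff.support.finite_toSet.image _
  have hne : ∀ i, ∀ c ∈ coefs (f i), c ≠ 0 := by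
    rintro i _ ⟨a, ha, rfl⟩
    exact Finsupp.mem_support_iff.1 ha
  refine ⟨⟨(S0 ×ˢ Fintype.piFinset (fun i => (hfin i).toFinset)).image
    (fun q => q.1 * (∏ i, q.2 i) ^ (-(κ : ℤ))), fun m hm => ?_⟩, fun i m hm => ?_⟩
  · obtain ⟨a, ha, ha0, heq⟩ := hS0 j m hm
    choose c hc hc0 hloc using fun i => hf i m hm
    refine ⟨a * (∏ i, c i) ^ (-(κ : ℤ)), ?_, ?_, ?_, ?_⟩
    · rw [Finset.mem_image]
      refine ⟨(a, c), ?_, rfl⟩
      rw [Finset.mem_product, Fintype.mem_piFinset]
      exact ⟨ha, fun i => (hfin i).mem_toFinset.2 (hc i)⟩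
    · exact mul_ne_zero ha0 (zpow_ne_zero _ (Finset.prod_ne_zero_iff.2 fun i _ => hc0 i))
    · -- prime divisors of the base
      intro v P hP hPm
      have hT : Through B v j m := through_of hP hPm
      have h1 := ord_G (v := v) (K := F) ha0 hc0 κ
      have h2 : v.ord a = κ * v.formOrd (dlogs y0) := heq v P hP hPm
      have h3 : ∀ i, cmin v (coefs (f i)) = v.ord (algebraMap F F (c i)) := fun i =>
        cmin_eq hT (hne i) (hc i) (hloc i)
      have h4 : v.ord (a * (∏ i, c i) ^ (-(κ : ℤ))) = v.ord a -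
          κ * ∑ i, v.ord (algebraMap F F (c i)) := h1
      rw [h4, h2, adj, ← Finset.sum_congr rfl fun i _ => h3 i]
      ring
    · intro v hT
      rw [ord_G ha0 hc0 κ, bo, hB.beta v j m hm hT a ha0 heq]
      congr 2
      exact Finset.sum_congr rfl fun i _ => (cmin_eq hT (hne i) (hc i) (hloc i)).symm
  · obtain ⟨c, hc, hc0, hloc⟩ := hf i m hm
    refine ⟨c, hc, hc0, fun v hT => (cmin_eq hT (hne i) hc hloc).symm, fun v P hP hPm => ?_⟩
    exact (cmin_eq (K := F) (through_of hP hPm) (hne i) hc hloc).symm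

end

end RMT
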