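import Pool.Agent.RMT.StS
import Pool.Agent.RMM.StT
import Pool.Agent.RMM.RRK

/-!
# Torus bundles: the local data at the prime divisors of `Z` over one chart (helper28)

Copy of `Pool/Agent/RMM/LTZ.lean` with `GenAt` for the given chart.
-/

set_option autoImplicit false

namespace RMT

open MldGeo MMCI RMM

noncomputable section

theorem t_TLTZ : M_TLTZ := by
  intro zrg smc zpre zcp locv F K _ _ _ _ _ _ b e n r B κ y0 β f x hB hn hpos hf hx hgen hdim hz
    j hG hnorm v P hP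
  obtain ⟨hfg, hfrac, -, -⟩ := zrg B x hx hgen j
  obtain ⟨N, hN, hPN, hsm⟩ := smc (zring B x j) hpos hfg hfrac hnorm hdim v P hP
  obtain ⟨M, hpre, hM, hmM, hker, hv⟩ := zpre B x hx hgen j N hN
  obtain ⟨hch, hwt, hth, hval⟩ := hv v P ⟨hP.1, hP.2.2.1, hP.2.2.2⟩ hPN
  obtain ⟨g, hg, hgM, hy, hind⟩ := zcp B f x hn hx hgen hB.dimF hz j hG N M hN hM hmM hpre hsm
  obtain ⟨t0, ht0, ht1⟩ := v.unif
  refine locv B κ y0 β f x hB hn hf hx hz v t0 ht0 ht1 j M hM hmM hth (hval t0) g hg hy ?_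
  intro _ τ hτ
  refine hind τ ?_
  simpa only [hwt, RRK.rinit_zero] using hτ

end

end RMT
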