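import Pool.Agent.RMT.StS
import Pool.Agent.MMCI.K_TOT

/-!
# Torus bundles, block S: the local data over one chart (as `RMM/RSYSF.lean`)
-/

set_option autoImplicit false

namespace RMT

open MldGeo MMCI RMM

noncomputable section

theorem t_TNDA : M_TNDA := by
  intro cmn zrg tnw tltz trdz F K _ _ _ _ _ _ b e n r B j κ y0 β f x hB h hreg
  have hbpf : ∀ i, BpfAt B j (coefs (f i)) := by
    intro i m hm
    obtain ⟨g, hg⟩ := h.loc m hm
    obtain ⟨⟨u, hu, hc⟩, ha⟩ := hg i
    exact (cmn (K := K) B (f i) j m u (g i) (h.f_ne i) hu hc ha).1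
  refine ⟨hbpf, fun v hj => ?_⟩
  by_cases hw : wt x v = 0
  · rcases h.inner with h0 | ⟨hG, hT⟩
    · exact tnw B j κ y0 β f x hB h.pos h.dim h.terminal hreg hbpf v hj (by rw [hw]; exact h0)
    · obtain ⟨-, -, -, hz⟩ := zrg B x h.ne h.gen j
      have hge : ∀ a ∈ zring B x j, v.Ge 0 a := (hz v).2 ⟨hj, hw⟩
      have hcen := TOT.hasCentre v (zring B x j) hge
      by_cases hht : (TOT.centre v (zring B x j) hge).height = 1
      · left
        exact tltz B κ y0 β f x hB h.dim_eq h.pos h.f_ne h.ne h.gen h.dim h.zero j hG hT.1 v _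
          ⟨hcen.1, hht, hcen.2.1, hcen.2.2⟩
      · right
        exact trdz B κ y0 β f x hB h.pos h.dim hreg j hbpf hT
          (fun v' P' hP' => tltz B κ y0 β f x hB h.dim_eq h.pos h.f_ne h.ne h.gen h.dim h.zero j hG
            hT.1 v' P' hP') v _ hcen hht
  · exact tnw B j κ y0 β f x hB h.pos h.dim h.terminal hreg hbpf v hj (h.nondeg (wt x v) hw)

end

end RMT
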