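import Pool.Agent.RMT.StR
import Pool.Agent.RMM.RNEW

/-!
# Torus bundles, block R: `Nd` for the new system at one valuation (module TNDN)
-/

set_option autoImplicit false
set_option linter.unusedSectionVars false

namespace RMT

open MldGeo MMCI RMM

noncomputable section

open R_NEW R_NEW2 RNEW in
theorem t_TNDN : M_TNDN := by
  intro hRCHV hRGRO hRNL hROMG hRNF F K _ _ _ _ _ _ b e n r g n' r' B κ y0 β f x τ m ν p f'
    hpos hdim hbd hS hm hν hpair hng hn' hch0 hreg hdet v hnd
  have hx : ∀ j, x j ≠ 0 := hS.ne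
  obtain ⟨ρ, hρdef⟩ : ∃ ρ : Fin r' → Fin r, ρ = fun i => τ (Sum.inr i) := ⟨_, rfl⟩
  have hρi : ∀ i, ρ i = τ (Sum.inr i) := fun i => by rw [hρdef]
  have hρ : Function.Injective ρ := by
    intro i j h
    rw [hρi, hρi] at h
    exact Sum.inr_injective (τ.injective h)
  have hch : ∀ i, IsCh m (p i) (f (ρ i)) (f' i) := by
    intro i
    rw [hρi]
    exact hch0 i
  have hV : ∀ i, (f' i ≠ 0) ∧ coefs (f' i) = coefs (f (ρ i)) ∧
      ∀ w, rmin (f (ρ i)) w = pair w (p i) + rmin (f' i) fun k => pair w (m k) := by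
    intro i
    obtain ⟨a1, a2, -, a3, -⟩ := hRCHV m (f (ρ i)) (p i) (f' i) hm (hch i)
    exact ⟨a1 (hS.f_ne _), a2, a3 (hS.f_ne _)⟩
  have hw : wt (fun k => mon x (m k)) v = fun k => pair (wt x v) (m k) := by
    funext k
    exact ord_mon v hx (m k)
  rcases hnd with hloc | ⟨hbig, hom⟩
  · left
    exact hRNL B κ y0 β f x v ρ m p f' hS hm hn' hρ hch hloc
  · right
    constructor
    · rintro ⟨c, q', h3, h4⟩
      refine hbig ⟨c, fun l => ∑ k, q' l k • m k, fun l => ?_, ?_⟩
      · obtain ⟨k1, k2, k3, k4⟩ := h3 l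
        refine ⟨k1, k2, k3, ?_⟩
        rw [hw] at k4
        rw [pair_comb]
        exact k4
      · have h5 : (fun l => algebraMap F K (c l) * mon x (∑ k, q' l k • m k)) =
            fun l => algebraMap F K (c l) * mon (fun k => mon x (m k)) (q' l) := by
          funext l
          rw [mon_mon hx]
        rw [h5]
        exact h4
    · intro ω' hω'
      obtain ⟨ω, hω⟩ := hROMG y0 f x hbd.dimF hbd.y0_ne hbd.y0_ind hS hdim
      obtain ⟨c, hc, h5⟩ := hRNF y0 f x τ m ν p f' hbd.dimF hbd.y0_ne hbd.y0_ind hS hm hν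
        hpair hng hch0 hreg hdet ω ω' hω hω'
      obtain ⟨Bd, hBd⟩ : ∃ Bd : K, Bd = (Matrix.of fun i j : Fin g =>
        rder x (f (τ (Sum.inl i))) (ν j)).det := ⟨_, rfl⟩
      rw [← hBd] at h5 hdet
      obtain ⟨χ, hχ⟩ : ∃ χ : K, χ = ∏ i, mon x (p i) := ⟨_, rfl⟩
      rw [← hχ] at h5
      have hχ0 : χ ≠ 0 := by
        rw [hχ]
        exact Finset.prod_ne_zero_iff.2 fun i _ => mon_ne hx _
      have hc0 : algebraMap ℂ K c ≠ 0 := by simpa using hc
      have hg0 : algebraMap ℂ K c * χ * Bd ≠ 0 := mul_ne_zero (mul_ne_zero hc0 hχ0) hdet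
      have hordχ : v.ord χ = ∑ i, pair (wt x v) (p i) := by
        rw [hχ, ord_prod v _ _ fun i => mon_ne hx _]
        exact Finset.sum_congr rfl fun i _ => ord_mon v hx _
      have hord : v.ord (algebraMap ℂ K c * χ * Bd) =
          ∑ i, pair (wt x v) (p i) + v.ord Bd := by
        rw [v.ord_mul _ _ (mul_ne_zero hc0 hχ0) hdet, v.ord_mul _ _ hc0 hχ0, v.ord_const,
          hordχ, zero_add]
      have hBge : ∑ i : Fin g, (cmin v (coefs (f (τ (Sum.inl i)))) +
          rmin (f (τ (Sum.inl i))) (wt x v)) ≤ v.ord Bd := by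
        have h6 : v.Ge (∑ i : Fin g, (cmin v (coefs (f (τ (Sum.inl i)))) +
            rmin (f (τ (Sum.inl i))) (wt x v))) Bd := by
          rw [hBd, ← Matrix.det_transpose]
          refine DivVal.Ge.det_cols (v := v) (fun i : Fin g =>
            cmin v (coefs (f (τ (Sum.inl i)))) + rmin (f (τ (Sum.inl i))) (wt x v))
            fun i j => ?_
          rw [Matrix.transpose_apply, Matrix.of_apply]
          exact ((hRGRO (b := b) x hx).2.2 (f (τ (Sum.inl j))) v).2 (ν i)
        exact h6.le hdet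
      have h7 := hom ω hω
      have hL : v.logOrd ω' = ∑ i, pair (wt x v) (p i) + v.ord Bd + v.logOrd ω := by
        rw [h5, cFSM hdim v _ ω hpos hg0 hω.1, hord]
      -- the sums
      have s1 : rpsi f (wt x v) = ∑ i : Fin g, rmin (f (τ (Sum.inl i))) (wt x v) +
          (∑ i, pair (wt x v) (p i) + rpsi f' (wt (fun k => mon x (m k)) v)) := by
        unfold rpsi
        rw [sum_split τ fun i => rmin (f i) (wt x v), ← Finset.sum_add_distrib, hw]
        congr 1
        refine Finset.sum_congr rfl fun i _ => ?_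
        rw [← hρi]
        exact (hV i).2.2 _
      have s2 : bo κ β (fun i => coefs (f' i)) v = bo κ β (fun i => coefs (f i)) v +
          κ * ∑ i : Fin g, cmin v (coefs (f (τ (Sum.inl i)))) := by
        unfold bo
        rw [sum_split τ fun i => cmin v (coefs (f i))]
        have h8 : ∑ i, cmin v (coefs (f' i)) = ∑ i, cmin v (coefs (f (τ (Sum.inr i)))) := by
          refine Finset.sum_congr rfl fun i _ => ?_
          rw [(hV i).2.1, hρi]
        rw [h8]
        ring
      rw [Finset.sum_add_distrib] at hBge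
      rw [hL, s2]
      rw [s1] at h7
      have hκ : (0 : ℤ) ≤ (κ : ℤ) := Int.natCast_nonneg κ
      have h9 := mul_le_mul_of_nonneg_left hBge hκ
      rw [mul_add] at h9
      rw [mul_add, mul_add] at h7 ⊢
      linarith

end

end RMT
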