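import Pool.Agent.RMT.StR
import Pool.Agent.MMCI.R_NEW

/-!
# TNEW: the new system after the change of variables, for torus bundles
-/

set_option autoImplicit false
set_option linter.unusedSectionVars false

namespace RMT

open MldGeo MMCI RMM

noncomputable section

namespace TNEWx

variable {F : Type} [Field F] [Algebra ℂ F]

/-- a product of powers with enough powers of `z` is regular -/
theorem prod_mem (A : Subalgebra ℂ F) {n : ℕ} {z : F} {d : ℕ} (u : Fin n → F)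
    (h1 : ∀ l, u l * z ^ d ∈ A) (h2 : ∀ l, (u l)⁻¹ * z ^ d ∈ A) (a : Fin n → ℤ) :
    (∏ l, u l ^ a l) * z ^ (d * ∑ l, (a l).natAbs) ∈ A := by
  have e : (∏ l, u l ^ a l) * z ^ (d * ∑ l, (a l).natAbs) =
      ∏ l, (u l ^ a l * z ^ (d * (a l).natAbs)) := by
    rw [Finset.prod_mul_distrib, Finset.mul_sum, Finset.prod_pow_eq_pow_sum]
  rw [e]
  refine A.prod_mem fun l _ => ?_
  rcases Int.natAbs_eq (a l) with h | h
  · have e2 : u l ^ a l * z ^ (d * (a l).natAbs) = (u l * z ^ d) ^ (a l).natAbs := by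
      rw [mul_pow, ← pow_mul]
      congr 1
      conv_lhs => rw [h]
      rw [zpow_natCast]
    rw [e2]
    exact A.pow_mem (h1 l) _
  · have e2 : u l ^ a l * z ^ (d * (a l).natAbs) = ((u l)⁻¹ * z ^ d) ^ (a l).natAbs := by
      rw [mul_pow, ← pow_mul]
      congr 1
      conv_lhs => rw [h]
      rw [zpow_neg, zpow_natCast, inv_pow]
    rw [e2]
    exact A.pow_mem (h2 l) _

theorem mon_div {n : ℕ} (t t' : Fin n → F) (a : Fin n → ℤ) :
    mon t' a / mon t a = ∏ l, (t' l / t l) ^ a l := by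
  unfold mon
  rw [← Finset.prod_div_distrib]
  exact Finset.prod_congr rfl fun l _ => (div_zpow _ _ _).symm

theorem s_mem (B : ProjModel F) (j j' : Fin (B.N + 1)) : B.s j' / B.s j ∈ B.ring j :=
  Algebra.subset_adjoin ⟨j', rfl⟩

/-- the monomials of a twist are a twist -/
theorem twist {B : ProjModel F} {n n' : ℕ} {t : Fin (B.N + 1) → Fin n → F} (h : IsTwist B t)
    (m : Fin n' → (Fin n → ℤ)) : IsTwist B fun j k => mon (t j) (m k) := by
  obtain ⟨d, hd⟩ := h.unit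
  refine ⟨fun j k => R_NEW.mon_ne (h.ne j) _, d * ∑ k, ∑ l, (m k l).natAbs, fun j j' k => ?_⟩
  have key : ∀ u : Fin n → F, (∀ l, u l * (B.s j' / B.s j) ^ d ∈ B.ring j) →
      (∀ l, (u l)⁻¹ * (B.s j' / B.s j) ^ d ∈ B.ring j) →
      (∏ l, u l ^ m k l) * (B.s j' / B.s j) ^ (d * ∑ k, ∑ l, (m k l).natAbs) ∈ B.ring j := by
    intro u h1 h2
    have h3 := prod_mem (B.ring j) u h1 h2 (m k)
    have h4 : ∑ l, (m k l).natAbs ≤ ∑ k, ∑ l, (m k l).natAbs :=
      Finset.single_le_sum (f := fun k => ∑ l, (m k l).natAbs) (fun _ _ => Nat.zero_le _)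
        (Finset.mem_univ k)
    obtain ⟨c, hc⟩ := Nat.exists_eq_add_of_le h4
    rw [hc, mul_add, pow_add, ← mul_assoc]
    exact (B.ring j).mul_mem h3 ((B.ring j).pow_mem (s_mem B j j') _)
  constructor
  · rw [mon_div (t j) (t j')]
    refine key _ (fun l => (hd j j' l).1) fun l => ?_
    rw [inv_div]
    exact (hd j j' l).2
  · rw [mon_div (t j') (t j)]
    refine key _ (fun l => (hd j j' l).2) fun l => ?_
    rw [inv_div]
    exact (hd j j' l).1

end TNEWx

open TNEWx in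
theorem t_TNEW : M_TNEW := by
  intro hRCHE hRCHV hRRG hTWB hTCH hTCM hTSC hTNDN F K _ _ _ _ _ _ b e n r g n' r' B κ y0 β t f x
    τ m ν p hpos hdim hbd hS hm hν hpair hng hn' hgen hq hdet
  have hx : ∀ j, x j ≠ 0 := hS.ne
  have hx' : ∀ k, mon x (m k) ≠ 0 := fun k => R_NEW.mon_ne hx _
  have ht : ∀ j k, t j k ≠ 0 := hS.twist.ne
  have ht' : ∀ j k, mon (t j) (m k) ≠ 0 := fun j k => R_NEW.mon_ne (ht j) _
  obtain ⟨ρ, hρdef⟩ : ∃ ρ : Fin r' → Fin r, ρ = fun i => τ (Sum.inr i) := ⟨_, rfl⟩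
  have hρi : ∀ i, ρ i = τ (Sum.inr i) := fun i => by rw [hρdef]
  have hρ : Function.Injective ρ := by
    intro i j h
    rw [hρi, hρi] at h
    exact Sum.inr_injective (τ.injective h)
  have h1 : ∀ i, ∃ f' : LR F n', IsCh m (p i) (f (ρ i)) f' := by
    intro i
    refine hRCHE m (f (ρ i)) (p i) hm ?_
    rw [hρi]
    exact hq i
  choose f' hch using h1
  have hf' : ∀ i, f' i ≠ 0 := fun i => (hRCHV m (f (ρ i)) (p i) (f' i) hm (hch i)).1 (hS.f_ne _)
  have hreg : RReg e f' fun k => mon x (m k) :=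
    hRRG f x ρ m p f' hS.toRReg hm hn' hρ hch hgen
  refine ⟨f', fun i => by rw [← hρi]; exact hch i,
    { toRReg := hreg, twist := twist hS.twist m, bpf := fun j i => ?_, nd := fun j v hv => ?_ }⟩
  · obtain ⟨-, hT, -⟩ := hTCH (t j) (ht j) m
    obtain ⟨-, hV, -⟩ := hRCHV m (tw (t j) (f (ρ i))) (p i) _ hm (hT (p i) _ _ (hch i))
    have hb := hS.bpf j (ρ i)
    rw [← hV] at hb
    have hne : tw (fun k => mon (t j) (m k)) (f' i) ≠ 0 :=
      ((hTWB (fun k => mon (t j) (m k)) (ht' j)).2.1 (f' i)).2.2.1 (hf' i)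
    exact ((hTCM (tw (fun k => mon (t j) (m k)) (f' i)) (mon (t j) (p i)) hne
      (R_NEW.mon_ne (ht j) _)).1 B j).1 hb
  · obtain ⟨-, hT, hT2⟩ := hTCH (t j) (ht j) m
    obtain ⟨-, hW1, hW2⟩ := hTWB (t j) (ht j)
    obtain ⟨hW3, -, hW4, -, hW5⟩ := hW2 x hx
    obtain ⟨-, hU1, hU2⟩ := hTWB (fun k => mon (t j) (m k)) (ht' j)
    obtain ⟨-, -, -, hU3, -⟩ := hU2 (fun k => mon x (m k)) hx'
    have hxx : tx (fun k => mon (t j) (m k)) (fun k => mon x (m k)) =
        fun k => mon (tx (t j) x) (m k) := hT2 x hx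
    have hregj : RReg e (fun i => tw (t j) (f i)) (tx (t j) x) := hW5 f hS.toRReg
    have hchj : ∀ i, IsCh m (p i) (tw (t j) (f (ρ i)))
        (mon (t j) (p i) • tw (fun k => mon (t j) (m k)) (f' i)) := fun i =>
      hT (p i) _ _ (hch i)
    have hgenj : IntermediateField.adjoin F (Set.range fun k => mon (tx (t j) x) (m k)) = ⊤ := by
      rw [← hxx]
      exact hU3 hgen
    have hreg'' : RReg e (fun i => mon (t j) (p i) • tw (fun k => mon (t j) (m k)) (f' i))
        (fun k => mon (tx (t j) x) (m k)) :=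
      hRRG (fun i => tw (t j) (f i)) (tx (t j) x) ρ m p _ hregj hm hn' hρ hchj hgenj
    refine hTSC B κ y0 β (fun i => tw (fun k => mon (t j) (m k)) (f' i)) _
      (fun i => mon (t j) (p i)) hpos hdim (fun i => (hU1 (f' i)).2.2.1 (hf' i))
      (fun i => R_NEW.mon_ne (ht j) _) v ?_
    rw [hxx]
    refine hTNDN B κ y0 β (fun i => tw (t j) (f i)) (tx (t j) x) τ m ν p _ hpos hdim hbd hregj hm
      hν hpair hng hn' (fun i => by rw [← hρi]; exact hchj i) hreg'' ?_ v (hS.nd j v hv)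
    have h2 : (Matrix.of fun i j_1 : Fin g =>
        rder (tx (t j) x) (tw (t j) (f (τ (Sum.inl i)))) (ν j_1)) =
        Matrix.of fun i j : Fin g => rder x (f (τ (Sum.inl i))) (ν j) := by
      ext i k
      exact (hW4 (f (τ (Sum.inl i)))).2.2 (ν k)
    rw [h2]
    exact hdet

end

end RMT
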