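import Pool.Agent.RMT.StR

/-!
# Torus bundles: the hypothesis (N) is inherited by the new system (helper28)
-/

set_option autoImplicit false

namespace RMT

open MldGeo MMCI RMM

noncomputable section

namespace TNH

/-- The pairing as a homomorphism of its second argument. -/
def phom {n : ℕ} (w : Fin n → ℤ) : (Fin n → ℤ) →+ ℤ where
  toFun a := pair w a
  map_zero' := by
    unfold pair
    exact Finset.sum_eq_zero fun i _ => by rw [Pi.zero_apply, mul_zero]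
  map_add' a b := by
    unfold pair
    rw [← Finset.sum_add_distrib]
    exact Finset.sum_congr rfl fun i _ => by rw [Pi.add_apply, mul_add]

theorem mon_add {F : Type} [Field F] {n : ℕ} {t : Fin n → F} (ht : ∀ k, t k ≠ 0)
    (a b : Fin n → ℤ) : mon t (a + b) = mon t a * mon t b := by
  unfold mon
  rw [← Finset.prod_mul_distrib]
  exact Finset.prod_congr rfl fun i _ => by rw [Pi.add_apply, zpow_add₀ (ht i)]

theorem mon_ne {F : Type} [Field F] {n : ℕ} {t : Fin n → F} (ht : ∀ k, t k ≠ 0)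
    (a : Fin n → ℤ) : mon t a ≠ 0 :=
  Finset.prod_ne_zero_iff.mpr fun i _ => zpow_ne_zero _ (ht i)

theorem mon_zero {F : Type} [Field F] {n : ℕ} (t : Fin n → F) : mon t 0 = 1 := by
  unfold mon
  exact Finset.prod_eq_one fun i _ => by rw [Pi.zero_apply, zpow_zero]

/-- The order of the monomial `t^a` as a homomorphism of `a`. -/
def ohom {F : Type} [Field F] [Algebra ℂ F] {b n : ℕ} {t : Fin n → F} (ht : ∀ k, t k ≠ 0)
    (v : DivVal b F) : (Fin n → ℤ) →+ ℤ where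
  toFun a := v.ord (mon t a)
  map_zero' := by
    rw [mon_zero]
    have h := v.ord_mul 1 1 one_ne_zero one_ne_zero
    rw [mul_one] at h
    linarith
  map_add' a b := by
    rw [mon_add ht, v.ord_mul _ _ (mon_ne ht a) (mon_ne ht b)]

/-- The exponent of the old system. -/
def newP {n n' r' : ℕ} (m : Fin n' → (Fin n → ℤ)) (p : Fin r' → (Fin n → ℤ))
    (I' : Finset (Fin r')) (k0 : ℕ) (p' : Fin n' → ℤ) : Fin n → ℤ :=
  k0 • ∑ i ∈ I', p i + ∑ k, p' k • m k

theorem hom_newP {n n' r' : ℕ} (φ : (Fin n → ℤ) →+ ℤ) (m : Fin n' → (Fin n → ℤ))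
    (p : Fin r' → (Fin n → ℤ)) (I' : Finset (Fin r')) (k0 : ℕ) (p' : Fin n' → ℤ) :
    φ (newP m p I' k0 p') = k0 * ∑ i ∈ I', φ (p i) + ∑ k, p' k * φ (m k) := by
  unfold newP
  rw [map_add, map_nsmul, map_sum, map_sum, nsmul_eq_mul]
  congr 1
  exact Finset.sum_congr rfl fun k _ => by rw [map_zsmul, smul_eq_mul]

theorem inSum (hRCHV : S_RCHV) {F : Type} [Field F] [Algebra ℂ F] {n r n' r' : ℕ}
    (f : Fin r → LR F n) (m : Fin n' → (Fin n → ℤ)) (p : Fin r' → (Fin n → ℤ))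
    {ρ : Fin r' → Fin r} (f' : Fin r' → LR F n') (hf : ∀ i, f i ≠ 0)
    (hm : LinearIndependent ℤ m) (hρ : Function.Injective ρ)
    (hch : ∀ i, IsCh m (p i) (f (ρ i)) (f' i)) (I' : Finset (Fin r')) (k0 : ℕ)
    (p' : Fin n' → ℤ) (h : InSum f' I' k0 p') :
    InSum f (I'.map ⟨ρ, hρ⟩) k0 (newP m p I' k0 p') := by
  intro ν
  have h0 := h fun k => pair ν (m k)
  have h1 : ∀ i, rmin (f (ρ i)) ν = pair ν (p i) + rmin (f' i) fun k => pair ν (m k) :=
    fun i => (hRCHV m (f (ρ i)) (p i) (f' i) hm (hch i)).2.2.2.1 (hf _) ν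
  have h2 : pair ν (newP m p I' k0 p') =
      k0 * ∑ i ∈ I', pair ν (p i) + ∑ k, p' k * pair ν (m k) :=
    hom_newP (phom ν) m p I' k0 p'
  have h3 : pair (fun k => pair ν (m k)) p' = ∑ k, p' k * pair ν (m k) := by
    unfold pair
    exact Finset.sum_congr rfl fun k _ => mul_comm _ _
  rw [h3] at h0
  rw [Finset.sum_map, h2]
  have h4 : ∑ i ∈ I', rmin (f ((⟨ρ, hρ⟩ : Fin r' ↪ Fin r) i)) ν =
      ∑ i ∈ I', pair ν (p i) + ∑ i ∈ I', rmin (f' i) fun k => pair ν (m k) := by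
    rw [← Finset.sum_add_distrib]
    exact Finset.sum_congr rfl fun i _ => h1 i
  rw [h4, mul_add]
  linarith

theorem adj_eq (hRCHV : S_RCHV) (hTWB : S_TWB) (hTCM : S_TCM) (hTCH : S_TCH) {F : Type} [Field F]
    [Algebra ℂ F] {b n r n' r' : ℕ} (B : ProjModel F) (t : Fin (B.N + 1) → Fin n → F)
    (f : Fin r → LR F n) (m : Fin n' → (Fin n → ℤ)) (p : Fin r' → (Fin n → ℤ))
    {ρ : Fin r' → Fin r} (f' : Fin r' → LR F n') (ht : ∀ j k, t j k ≠ 0) (hf : ∀ i, f i ≠ 0)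
    (hm : LinearIndependent ℤ m) (hρ : Function.Injective ρ)
    (hch : ∀ i, IsCh m (p i) (f (ρ i)) (f' i)) (I' : Finset (Fin r')) (k0 : ℕ)
    (p' : Fin n' → ℤ) :
    adjT b B (fun j k => mon (t j) (m k)) f' I' k0 p' =
      adjT b B t f (I'.map ⟨ρ, hρ⟩) k0 (newP m p I' k0 p') := by
  funext j v
  have ht' : ∀ k, mon (t j) (m k) ≠ 0 := fun k => mon_ne (ht j) (m k)
  have h1 : ∀ i, cmin v (coefs (tw (t j) (f (ρ i)))) = v.ord (mon (t j) (p i)) +
      cmin v (coefs (tw (fun k => mon (t j) (m k)) (f' i))) := by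
    intro i
    have h2 := (hTCH (t j) (ht j) m).2.1 (p i) (f (ρ i)) (f' i) (hch i)
    have h3 := (hRCHV m _ (p i) _ hm h2).2.1
    have h4 : f' i ≠ 0 := (hRCHV m (f (ρ i)) (p i) (f' i) hm (hch i)).1 (hf _)
    have h5 : tw (fun k => mon (t j) (m k)) (f' i) ≠ 0 :=
      ((hTWB (fun k => mon (t j) (m k)) ht').2.1 (f' i)).2.2.1 h4
    rw [← h3, (hTCM _ (mon (t j) (p i)) h5 (mon_ne (ht j) (p i))).2 v]
    rfl
  have h6 : v.ord (mon (t j) (newP m p I' k0 p')) =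
      k0 * ∑ i ∈ I', v.ord (mon (t j) (p i)) + ∑ k, p' k * v.ord (mon (t j) (m k)) :=
    hom_newP (ohom (ht j) v) m p I' k0 p'
  have h7 : v.ord (mon (fun k => mon (t j) (m k)) p') =
      ∑ k, p' k * v.ord (mon (t j) (m k)) := by
    rw [(hTCH (t j) (ht j) m).1 p']
    change ohom (ht j) v (∑ k, p' k • m k) = _
    rw [map_sum]
    exact Finset.sum_congr rfl fun k _ => by rw [map_zsmul, smul_eq_mul]; rfl
  unfold adjT adj
  rw [Finset.sum_map, h6, h7]
  have h8 : ∑ i ∈ I', cmin v (coefs (tw (t j) (f ((⟨ρ, hρ⟩ : Fin r' ↪ Fin r) i)))) =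
      ∑ i ∈ I', v.ord (mon (t j) (p i)) +
        ∑ i ∈ I', cmin v (coefs (tw (fun k => mon (t j) (m k)) (f' i))) := by
    rw [← Finset.sum_add_distrib]
    exact Finset.sum_congr rfl fun i _ => h1 i
  rw [h8]
  ring

end TNH

theorem t_TNH : M_TNH := by
  intro hRCHV hTWB hTCM hTCH F _ _ b n r n' r' B t f m p ρ f' ht hf hm hρ hch
  constructor
  · intro h I' k0 p' hk hI
    rw [TNH.adj_eq hRCHV hTWB hTCM hTCH B t f m p f' ht hf hm hρ hch I' k0 p']
    exact h _ k0 _ hk (TNH.inSum hRCHV f m p f' hf hm hρ hch I' k0 p' hI)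
  · intro h I' k0 p' hk hI
    rw [TNH.adj_eq hRCHV hTWB hTCM hTCH B t f m p f' ht hf hm hρ hch I' k0 p']
    exact h _ k0 _ hk (TNH.inSum hRCHV f m p f' hf hm hρ hch I' k0 p' hI)

end

end RMT
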