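import Pool.Agent.RMT.StS
import Pool.Agent.RMM.RSYS3

/-!
# RMT, TNW: the local data at the valuations for whose weight the system is nondegenerate
-/

set_option autoImplicit false

namespace RMT

open MldGeo MMCI RMM

noncomputable section

theorem t_TNW : M_TNW := by
  intro tclp locv fum rvl ltr lpd trnb rdq F K _ _ _ _ _ _ b e n r B j κ y0 β f x hB hpos hd ht
    hreg hbpf v hjv hnd
  obtain ⟨t0, M, ht0, ht1, hM, hmM, hth, hval, hhom⟩ := tclp B x hreg.ne v j hjv
  obtain ⟨g, hg, hnd⟩ := hnd _ hmM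
  have hin : ∀ i, rinit (g i) (wt x v) ∈ M := by
    intro i
    obtain ⟨⟨u, hu, hc⟩, ha⟩ := hg i
    exact RSYS3.rinit_mem B (f i) x hreg.ne (hreg.zero i) v j hth.1 M hhom u hu (g i) hc
  rcases hnd M hM rfl hin with ⟨hy, hind⟩ | hx
  · left
    exact locv B κ y0 β f x hB hreg.dim_eq hreg.f_ne hreg.ne hreg.zero v t0 ht0 ht1 j M hM hmM hth
      hval g hg hy fun _ => hind
  · have hXU : XUnit e f x v :=
      fum B f x hreg.dim_eq hreg.f_ne hreg.ne v t0 ht0 ht1 j M hM hth hval g hg hx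
    rcases rvl hB.dimF hd hpos v with h0 | ⟨hb, w0, c, hc, hw⟩
    · left
      exact ltr B κ y0 β f x hB hreg.f_ne v hXU h0
    · by_cases hpd : ∃ (j : Fin (B.N + 1)) (P : Ideal (B.ring j)),
          IsPrimeDivisor (B.ring j) w0 P
      · left
        exact lpd B κ y0 β f x hB hreg.f_ne v hXU w0 c hb hc hw hpd
      · right
        exact ⟨trnb B j f x hB.dimF hd hb hB.normal hreg hbpf v hjv hXU w0 c hc hw hpd,
          fun ω hω => rdq B κ y0 β f x hB hd ht hreg.ne v hXU w0 c hb hc hw hpd ω hω⟩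

end

end RMT
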