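import Pool.Agent.RMT.StS
import Pool.Agent.RMM.RDZ
import Pool.Agent.RMM.RLOG
import Pool.Agent.MMCI.Tools
import Pool.Agent.MldGeo.Ord

/-!
# Torus bundles, module TRDZ: the discrepancies at the valuations of weight zero which are
not prime divisors of `Z`
-/

set_option autoImplicit false

namespace RMT

open MldGeo MldGeo.DivVal MMCI RMM

noncomputable section

open RMM.RDZ in
theorem t_TRDZ : M_TRDZ := by
  intro hMON hZRG hZPRE hHTZ hLUNI hLE0 hLFRM hTEQ F K _ _ _ _ _ _ b e n r B κ y0 β f x hB hpos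
    hdim hR j hbpf hT hloc v P hcen hht
  obtain ⟨hfg, hfrac, -, hge⟩ := hZRG B x hR.ne hR.gen j
  have hBIG := fun (v' : DivVal (b + e) K) (P' : Ideal (zring B x j))
    (h : HasCentre (zring B x j) v' P') => hHTZ B x hR.ne hR.gen hpos hdim j hT.1 v' P' h
  have hwt : ∀ (v' : DivVal (b + e) K) (P' : Ideal (zring B x j)),
      HasCentre (zring B x j) v' P' → wt x v' = 0 := fun v' P' h =>
    ((hge v').1 fun a ha => Or.inr (h.2.1 ⟨a, ha⟩)).2
  have hκ : (0 : ℤ) < κ := by exact_mod_cast hB.κ_pos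
  refine ⟨fun h => hht ((hBIG v P hcen).2 h), fun ω hω => ?_⟩
  -- prime divisors
  have key : ∀ (v' : DivVal (b + e) K) (P' : Ideal (zring B x j)),
      IsPrimeDivisor (zring B x j) v' P' →
      (κ : ℤ) * v'.formOrd ω = bo κ β (fun i => coefs (f i)) v' := by
    intro v' P' hP'
    have hcen' : HasCentre (zring B x j) v' P' := ⟨hP'.1, hP'.2.2.1, hP'.2.2.2⟩
    have hw := hwt v' P' hcen'
    obtain ⟨L⟩ := hloc v' P' hP'
    have h1 := RLOG.key hpos hdim v' L (hLUNI hMON B κ y0 β f x hR v' L) ω hω.1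
      (hLFRM B κ y0 β f x hB.y0_ne hB.y0_ind hdim hR ω hω v' L)
    have h2 := ((hLE0 B κ y0 β f x hpos hdim hR v' L hw).2).2 ((hBIG v' P' hcen').1 hP'.2.1)
    have h3 : v'.logOrd ω = v'.formOrd ω + 1 := by
      have h0 := cTXT hdim v' ω hpos hω.1
      omega
    rw [h2, hw, RLOG.rpsi_zero, h3] at h1
    linarith
  obtain ⟨N, hN, hPN⟩ := Ideal.exists_le_maximal P hcen.1.ne_top
  obtain ⟨M, -, -, hmB, -, hM⟩ := hZPRE B x hR.ne hR.gen j N hN
  obtain ⟨⟨S, hS⟩, -⟩ := hTEQ B κ b y0 β f j hbpf hB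
  obtain ⟨G, -, hG0, -, hG⟩ := hS _ hmB
  obtain ⟨k, g, hk, hg, heq, hdisc⟩ := hT.2 ω hω.1 N hN
  have hk' : (0 : ℤ) < k := by exact_mod_cast hk
  have hG' : algebraMap F K G ≠ 0 := (map_ne_zero _).2 hG0
  set a : K := g ^ κ * ((algebraMap F K G) ^ k)⁻¹ with ha
  have ha0 : a ≠ 0 := mul_ne_zero (pow_ne_zero _ hg) (inv_ne_zero (pow_ne_zero _ hG'))
  have hord : ∀ v' : DivVal (b + e) K, v'.ord a = κ * v'.ord g - k * v'.ord (algebraMap F K G) := by
    intro v'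
    rw [ha, v'.ord_mul _ _ (pow_ne_zero _ hg) (inv_ne_zero (pow_ne_zero _ hG')),
      DivVal.ord_inv, DivVal.ord_pow, DivVal.ord_pow]
    ring
  have hord0 : ∀ (v' : DivVal (b + e) K) (P' : Ideal (zring B x j)), P' ≤ N →
      IsPrimeDivisor (zring B x j) v' P' → v'.ord a = 0 := by
    intro v' P' hP'N hP'
    have hcen' : HasCentre (zring B x j) v' P' := ⟨hP'.1, hP'.2.2.1, hP'.2.2.2⟩
    rw [hord, heq v' P' hP' hP'N, hG v' (hM v' P' hcen' hP'N).2.2.1, ← key v' P' hP']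
    ring
  obtain ⟨p, s, hs, h1⟩ := cLOC (germ (zring B x j) hfg hfrac hT.1 hdim N hN) a
    fun v' P' h2 h3 => Or.inr (hord0 v' P' h2 h3).ge
  obtain ⟨p', s', hs', h1'⟩ := cLOC (germ (zring B x j) hfg hfrac hT.1 hdim N hN) a⁻¹
    fun v' P' h2 h3 => by
      right
      have h4 : v'.ord a⁻¹ = - v'.ord a := DivVal.ord_inv v' a
      have h5 := hord0 v' P' h2 h3
      show (0 : ℤ) ≤ v'.ord a⁻¹
      omega
  have h2 : 0 ≤ v.ord a := RDZ.nonneg_of hcen hPN ha0 hs h1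
  have h3 : 0 ≤ v.ord a⁻¹ := RDZ.nonneg_of hcen hPN (inv_ne_zero ha0) hs' h1'
  rw [DivVal.ord_inv] at h3
  have h4 : v.ord a = 0 := by omega
  rw [hord, hG v (hM v P hcen hPN).2.2.1] at h4
  have h5 := hdisc v P hcen hPN hht
  have h6 : 0 < (k : ℤ) * (κ * v.formOrd ω - bo κ β (fun i => coefs (f i)) v) := by
    have h7 : (k : ℤ) * (κ * v.formOrd ω - bo κ β (fun i => coefs (f i)) v) =
        κ * (k * v.formOrd ω - v.ord g) := by linarith
    rw [h7]
    exact mul_pos hκ h5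
  have h8 := (mul_pos_iff_of_pos_left hk').1 h6
  have h9 : v.logOrd ω = v.formOrd ω + 1 := by
    have h0 := cTXT hdim v ω hpos hω.1
    omega
  rw [hwt v P hcen, RLOG.rpsi_zero, h9]
  have h10 : (κ : ℤ) * (v.formOrd ω + 1) = κ * v.formOrd ω + κ := by ring
  rw [h10]
  linarith

end

end RMT
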