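import Pool.Agent.RMT.StR

/-!
# Torus bundles, module TRED (helper9): the reduction of the number of variables
-/

set_option autoImplicit false

namespace RMT

open MldGeo MMCI RMM

theorem t_TRED : M_TRED := by
  intro h1 h2 F K _ _ _ _ _ _ b e n r B κ y0 β t f x hbe htr hBD hS D hD
  obtain ⟨g, n', r', τ, m, ν, p, hn, hm, hν, hpair, hg, hr', hadj, hsupp, hdet⟩ :=
    h1 (b := b) f x hS.toRReg hBD.dimF htr D hD
  obtain ⟨f', hch, hS'⟩ := h2 B κ y0 β t f x τ m ν p hbe htr hBD hS hm hν hpair hg hr' hadj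
    hsupp hdet
  refine ⟨n', r', m, p, fun i => τ (Sum.inr i), f', hn, ?_, hm, hch, hS'⟩
  intro i i' h
  exact Sum.inr_injective (τ.injective h)

end RMT
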