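import Pool.Agent.RMT.StS
import Pool.Agent.RMM.RRK

/-!
# TRKZ: the rank of the gradients, from a smooth closed point of one chart of `Z`
-/

set_option autoImplicit false

namespace RMT

open MldGeo MMCI RMM

noncomputable section

theorem t_TRKZ : M_TRKZ := by
  intro hFRC hNAK hTAY hREV hZRG hSMG hZPRE hZCP F K _ _ _ _ _ _ b e n r B f x hn hf hx hgen htrF
    htrK hzero j0 hGen
  classical
  obtain ⟨hFG, hfrac, hres⟩ := hFRC B j0
  -- the smooth closed point
  obtain ⟨hzFG, hzfrac, -, -⟩ := hZRG B x hx hgen j0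
  obtain ⟨N, hN, z, hNz⟩ := hSMG (zring B x j0) hzFG hzfrac htrK
  obtain ⟨M, hpre, hM, hm, hMle, -⟩ := hZPRE B x hx hgen j0 N hN
  obtain ⟨g, hloc, hgM, ⟨t, htm⟩, hlin⟩ :=
    hZCP B f x hn hx hgen htrF hzero j0 hGen N M hN hM hm hpre ⟨z, hNz⟩
  obtain ⟨C, -⟩ := hNAK (B.ring j0) _ t hFG hfrac htrF hm (hres _ hm) htm
  choose u hu huf using fun i => (hloc i).1
  -- the normalised equations
  have hG : ∀ i a, ((u i)⁻¹ • f i).coeff a = ((g i).coeff a : F) := by
    intro i a
    rw [AddMonoidAlgebra.coeff_smul, Finsupp.smul_apply, huf i a, smul_eq_mul,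
      inv_mul_cancel_left₀ (hu i)]
  have hrev : ∀ i, rev x ((u i)⁻¹ • f i) = 0 := by
    intro i
    have h1 : rev x ((u i)⁻¹ • f i) = algebraMap F K (u i)⁻¹ * rev x (f i) := by
      unfold rev
      rw [AddMonoidAlgebra.coeff_smul,
        Finsupp.sum_smul_index (fun m => by rw [map_zero, zero_mul]), Finsupp.mul_sum]
      exact Finset.sum_congr rfl fun m _ => by
        dsimp only
        rw [map_mul, mul_assoc]
    rw [h1, hzero i, mul_zero]
  have hrg : ∀ i j, rgrad x ((u i)⁻¹ • f i) j = algebraMap F K (u i)⁻¹ * rgrad x (f i) j := by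
    intro i j
    unfold rgrad
    rw [AddMonoidAlgebra.coeff_smul,
      Finsupp.sum_smul_index (fun m => by rw [map_zero, zero_mul, zero_mul]), Finsupp.mul_sum]
    exact Finset.sum_congr rfl fun m _ => by
      dsimp only
      rw [map_mul]
      ring
  obtain ⟨g0, -, hkey⟩ := hTAY (B.ring j0) M C g hFG hM hgM hlin
  -- the generic point
  let ρ : (⊤ : Subalgebra ℂ F) →ₐ[ℂ] K := (IsScalarTower.toAlgHom ℂ F K).comp (Subalgebra.val ⊤)
  have hρ : ∀ a : F, rhoE ⊤ ρ a = algebraMap F K a := by
    intro a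
    unfold rhoE
    rw [dif_pos Algebra.mem_top]
    rfl
  have hdet := hkey ⊤ ρ x le_top (fun _ _ _ => Algebra.mem_top) hx (fun G hG0 => by
    apply hMle
    simp only [hρ] at hG0
    exact hG0)
  have hyne := RRK.y_ne hm.ne_top C
  have hR := hREV C.y C.d x hyne hx (RRK.dual_y C)
  rw [Fintype.linearIndependent_iff]
  intro a ha i
  have h0 : (fun i => a i * algebraMap F K (u i)) = 0 := by
    refine RRK.kill_rank (G := fun i => gr C.y C.d ((u i)⁻¹ • f i) x)
      (Q := fun i => pgr ⊤ ρ x C.d (g i)) (ω := fun c => dlog (zz C.y x c))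
      (y := fun l => algebraMap F K (C.y l)) (fun l => (map_ne_zero _).2 (hyne l)) ?_ ?_ ?_ ?_ g0
      hdet _ ?_
    · intro i
      rw [← hR.2.2, hrev i, map_zero]
    · have h1 : (fun l : Fin b => dlog (zz C.y x (Fin.castAdd n l))) =
          fun l => dlog (algebraMap F K (C.y l)) := by
        funext l
        rw [zz, Fin.append_left]
      rw [h1]
      exact RRK.li_y hm.ne_top C htrF htrK
    · intro i l
      rw [gr, pgr, Fin.append_left, Fin.append_left]
      congr 1
      unfold revd
      rw [RRK.sum_coeff ((u i)⁻¹ • f i) (g i) (hG i)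
        (fun a c => algebraMap F K (C.d l c) * mon x a)]
      simp only [hρ]
    · intro i j
      rw [gr, pgr, Fin.append_right, Fin.append_right]
      unfold rgrad
      rw [RRK.sum_coeff ((u i)⁻¹ • f i) (g i) (hG i)
        (fun a c => algebraMap F K c * (a j : K) * mon x a)]
      simp only [hρ]
    · intro j
      have h2 := congrFun ha j
      rw [Finset.sum_apply, Pi.zero_apply] at h2
      rw [← h2]
      refine Finset.sum_congr rfl fun i _ => ?_
      rw [gr, Fin.append_right, hrg, Pi.smul_apply, smul_eq_mul, map_inv₀]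
      have h3 : algebraMap F K (u i) ≠ 0 := (map_ne_zero _).2 (hu i)
      field_simp
  have h3 := congrFun h0 i
  exact (mul_eq_zero.1 h3).resolve_right ((map_ne_zero _).2 (hu i))

end

end RMT
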