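import Pool.Agent.RMT.StS
import Pool.Agent.RMM.RNB

/-!
# TRNB: exceptional valuations of the base are not big; the statement for one chart

The proof is the proof of `RMM.t_RNB` (`RMM/RNB.lean`), over the given chart.
-/

set_option autoImplicit false
set_option linter.unusedSectionVars false

namespace RMT

open MldGeo MldGeo.DivVal MMCI RMM RMM.RNB

noncomputable section

namespace TRNB

variable {F : Type} [Field F] [Algebra ℂ F] {b : ℕ}

/-- a coefficient of least order -/
theorem least {B : ProjModel F} {w0 : DivVal b F} {j : Fin (B.N + 1)}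
    (hj : ∀ c ∈ B.ring j, w0.Ge 0 c) {C : Set F} (hC : BpfAt B j C) :
    ∃ c ∈ C, c ≠ 0 ∧ ∀ c' ∈ C, Lo B w0 j (c' / c) := by
  let P : Ideal (B.ring j) :=
    { carrier := {a | w0.Ge 1 (a : F)}
      add_mem' := fun {a b} ha hb => Ge.add ha hb
      zero_mem' := Ge.zero w0 1
      smul_mem' := fun a b hb => Ge.mul_left (hj _ a.2) hb }
  have hP : P ≠ ⊤ := by
    rw [Ideal.ne_top_iff_one]
    intro h
    have h1 : w0.Ge 1 ((1 : B.ring j) : F) := h
    have h2 : ((1 : B.ring j) : F) = 1 := rfl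
    rw [h2] at h1
    have h3 := h1.le one_ne_zero
    rw [ord_one] at h3
    omega
  obtain ⟨M, hM, hPM⟩ := Ideal.exists_le_maximal P hP
  obtain ⟨c, hcC, hc0, hc⟩ := hC M hM
  refine ⟨c, hcC, hc0, fun c' hc' => ?_⟩
  obtain ⟨p, q, hq, e1⟩ := hc c' hc'
  have hq1 : ¬ w0.Ge 1 (q : F) := fun h => hq (hPM h)
  have hq0 : (q : F) ≠ 0 := by
    intro h
    rw [h] at hq1
    exact hq1 (Ge.zero w0 1)
  have hqo : w0.ord (q : F) = 0 := by
    have h1 := (hj _ q.2).le hq0
    have h2 : ¬ 1 ≤ w0.ord (q : F) := fun h => hq1 (Ge.of_le h)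
    omega
  exact ⟨p, p.2, q, q.2, hq0, hqo, e1⟩

end TRNB

theorem t_TRNB : M_TRNB := by
  intro hDLB hEXM hABN hLAM F K _ _ _ _ _ _ b e n r B j f x hdF hdK hb hnor hR hbpf v hOn hX w0 c
    hc hv hnp hbig
  obtain ⟨m, rfl⟩ : ∃ m, b = m + 1 := ⟨b - 1, by omega⟩
  obtain ⟨⟨t, u, hFr⟩, -⟩ := cFRA w0
  set y : Fin (m + 1) → F := Fin.cons t u with hy
  have hy0 : y 0 = t := rfl
  have hys : ∀ l : Fin m, y l.succ = u l := fun l => rfl
  have hyne : ∀ l, y l ≠ 0 := y_ne hFr
  obtain ⟨d, hd1, hd2⟩ := hDLB hdF y hyne (dlogs_ne hdF hFr)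
  have hj : ∀ a ∈ B.ring j, w0.Ge 0 a := fun a ha => ge0' hc hv (hOn a ha)
  choose u' hu'C hu'0 hu' using fun i => TRNB.least hj (hbpf i)
  obtain ⟨σ, hσ0, hσ1⟩ := hX
  obtain ⟨σ', he1, -⟩ := hEXM (K := K) y d f x u' σ
  obtain ⟨L, hL0, ⟨l0, hl0⟩, hL1⟩ := hLAM hdF B j (hnor j) w0 hj
    (fun ⟨P, hP⟩ => hnp ⟨j, P, hP⟩) t u hFr
  have hcK : ((c : ℤ) : K) ≠ 0 := by
    haveI : CharZero K := charZero_of_injective_algebraMap (algebraMap ℂ K).injective
    exact_mod_cast hc.ne'
  -- the coefficients of the local equations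
  set g : Fin r → LR F n := fun i => (u' i)⁻¹ • f i with hg
  have hco : ∀ i a, (g i).coeff a = (u' i)⁻¹ * (f i).coeff a := fun i a => rfl
  have hfg : ∀ i a, (g i).coeff a ≠ 0 → (f i).coeff a ≠ 0 := fun i a h => by
    rw [hco] at h
    exact right_ne_zero_of_mul h
  have hgLo : ∀ i a, Lo B w0 j ((g i).coeff a) := by
    intro i a
    rw [hco]
    by_cases h : (f i).coeff a = 0
    · rw [h, mul_zero]
      exact Lo.of_mem (B.ring j).zero_mem
    · have h1 := hu' i _ ⟨a, Finsupp.mem_support_iff.2 h, rfl⟩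
      rwa [div_eq_mul_inv, mul_comm] at h1
  have hg0 : ∀ i a, w0.Ge 0 ((g i).coeff a) := fun i a => (hgLo i a).ge hj
  have hlam : ∀ a, Lo B w0 j a → w0.Ge 1 (∑ l : Fin m, L l * d l.succ a) := by
    intro a ha
    refine hL1 a ha (fun k => d k a) ?_
    rw [hd2 a, Fin.sum_univ_succ]
    rfl
  -- the relations and the minor
  have hRel := rel y d hyne hd2 f x hdK hR u'
  set G : Fin r → Fin (m + 1 + n) → K := fun i => gr y d (g i) x with hG
  have hU : GUnit G v (fun i => rmin (f i) (wt x v)) σ' := by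
    have hu0 : algebraMap F K (∏ i, u' i)⁻¹ ≠ 0 :=
      (map_ne_zero _).2 (inv_ne_zero (Finset.prod_ne_zero_iff.2 fun i _ => hu'0 i))
    have hdet : gminor G σ' = algebraMap F K (∏ i, u' i)⁻¹ * rminor f x σ := he1
    refine ⟨?_, ?_, ?_⟩
    · intro i k
      refine Fin.addCases (fun l => ?_) (fun jj => ?_) k
      · rw [hG]
        show v.Ge _ (gr y d (g i) x (Fin.castAdd n l))
        rw [gr_left]
        unfold revd Finsupp.sum
        rw [Finset.mul_sum]
        have h1 := ge_sum hR.ne v (hfg i) (s := 0)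
          (fun a => algebraMap F K (y l * d l ((g i).coeff a)))
          (fun a => ge0 hv (ge_y hdF hFr d hd1 (hg0 i a) l))
        rw [add_zero] at h1
        refine cast (congrArg (v.Ge _) (Finset.sum_congr rfl fun a _ => ?_)) h1
        rw [map_mul, mul_assoc]
      · rw [hG]
        show v.Ge _ (gr y d (g i) x (Fin.natAdd (m + 1) jj))
        rw [gr_right]
        unfold rgrad Finsupp.sum
        have h1 := ge_sum hR.ne v (hfg i) (s := 0)
          (fun a => algebraMap F K ((g i).coeff a) * (a jj : K))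
          (fun a => (ge0 hv (hg0 i a)).mul_left (Ge.intCast v _))
        rw [add_zero] at h1
        exact h1
    · rw [hdet]
      exact mul_ne_zero hu0 hσ0
    · rw [hdet, v.ord_mul _ _ hu0 hσ0, hσ1, map_inv₀, map_prod, ord_inv,
        ord_prod v _ _ fun i _ => (map_ne_zero _).2 (hu'0 i)]
      have h1 : ∀ i, cmin v (coefs (f i)) = v.ord (algebraMap F K (u' i)) := fun i =>
        cmin_eq hv (hu'C i) (hu'0 i) fun c' hc' => (hu' i c' hc').ge hj
      rw [Finset.sum_congr rfl fun i _ => h1 i]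
      unfold rpsi
      ring
  -- the two vectors
  have hz0 : v.ord (zz y x (Fin.castAdd n 0)) = c := by
    rw [zz_left, hv, hy0, hFr.2.1, mul_one]
  have hz1 : ∀ l : Fin m, v.ord (zz y x (Fin.castAdd n l.succ)) = 0 := by
    intro l
    rw [zz_left, hv, hys, (u_ne hFr l).2, mul_zero]
  set ν0 : Fin (m + 1 + n) → K := fun k => (v.ord (zz y x k) : K) with hν0
  set ν1 : Fin (m + 1 + n) → K := Fin.append
    (fun l => algebraMap F K ((Fin.cons 0 (fun l => L l / u l) : Fin (m + 1) → F) l))
    (fun _ => 0) with hν1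
  have a0 : ν0 (Fin.castAdd n 0) = ((c : ℤ) : K) := by
    rw [hν0]
    show ((v.ord (zz y x (Fin.castAdd n 0)) : ℤ) : K) = _
    rw [hz0]
  have a1 : ∀ l : Fin m, ν0 (Fin.castAdd n l.succ) = 0 := by
    intro l
    rw [hν0]
    show ((v.ord (zz y x (Fin.castAdd n l.succ)) : ℤ) : K) = _
    rw [hz1, Int.cast_zero]
  have a2 : ∀ k : Fin n, ν0 (Fin.natAdd (m + 1) k) = (wt x v k : K) := by
    intro k
    rw [hν0]
    show ((v.ord (zz y x (Fin.natAdd (m + 1) k)) : ℤ) : K) = _
    rw [zz_right]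
    rfl
  have b0 : ν1 (Fin.castAdd n 0) = 0 := by
    rw [hν1, Fin.append_left, Fin.cons_zero, map_zero]
  have b1 : ∀ l : Fin m, ν1 (Fin.castAdd n l.succ) = algebraMap F K (L l / u l) := by
    intro l
    rw [hν1, Fin.append_left, Fin.cons_succ]
  have b2 : ∀ k : Fin n, ν1 (Fin.natAdd (m + 1) k) = 0 := by
    intro k
    rw [hν1, Fin.append_right]
  have hs0 : ∀ ρ : Fin (m + 1 + n) → K, ∑ k, ν0 k * ρ k =
      ((c : ℤ) : K) * ρ (Fin.castAdd n 0) + ∑ k, (wt x v k : K) * ρ (Fin.natAdd (m + 1) k) := by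
    intro ρ
    rw [Fin.sum_univ_add, Fin.sum_univ_succ, a0]
    congr 1
    · rw [Finset.sum_eq_zero fun l _ => ?_, add_zero]
      rw [a1, zero_mul]
    · exact Finset.sum_congr rfl fun k _ => by rw [a2]
  have hs1 : ∀ ρ : Fin (m + 1 + n) → K, ∑ k, ν1 k * ρ k =
      ∑ l : Fin m, algebraMap F K (L l / u l) * ρ (Fin.castAdd n l.succ) := by
    intro ρ
    rw [Fin.sum_univ_add, Fin.sum_univ_succ, b0, zero_mul, zero_add]
    have h1 : ∑ k, ν1 (Fin.natAdd (m + 1) k) * ρ (Fin.natAdd (m + 1) k) = 0 :=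
      Finset.sum_eq_zero fun k _ => by rw [b2, zero_mul]
    rw [h1, add_zero]
    exact Finset.sum_congr rfl fun l _ => by rw [b1]
  have hLu : ∀ l, w0.Ge 0 (L l / u l) := by
    intro l
    have h1 := (hL0 l).div (u l)
    rwa [(u_ne hFr l).2, sub_zero] at h1
  -- the elements
  obtain ⟨cc, q, hcq, hres⟩ := hbig
  have hccLo : ∀ l, Lo B w0 j (cc l) := by
    intro l
    obtain ⟨⟨j', hj', p, hp, q', hq', hq0, hqo, e1⟩, -, -, -⟩ := hcq l
    exact transfer hj (fun a ha => ge0' hc hv (hj' a ha))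
      ⟨p, hp, q', hq', hq0, ord0' hc hv hqo, e1⟩
  refine abn2 hABN (by omega) (zz y x) G hRel v _ σ' hU ![ν0, ν1] ?_ ?_ ?_
    (fun l => algebraMap F K (cc l) * mon x (q l))
    (fun l => Fin.append (fun k => algebraMap F K (y k * d k (cc l) / cc l))
      (fun k => (q l k : K))) ?_ ?_ hres
  · -- nonnegative orders
    intro i k
    refine Fin.cases ?_ (fun i' => ?_) i
    · exact Ge.intCast v _
    · rw [Fin.eq_zero i']
      show v.Ge 0 (ν1 k)
      refine Fin.addCases (fun l => ?_) (fun jj => ?_) k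
      · refine Fin.cases ?_ (fun l' => ?_) l
        · rw [b0]
          exact Ge.zero v 0
        · rw [b1]
          exact ge0 hv (hLu l')
      · rw [b2]
        exact Ge.zero v 0
  · -- independence
    intro a ha h
    have h0 := h (Fin.castAdd n 0)
    have h1 := h (Fin.castAdd n l0.succ)
    rw [Fin.sum_univ_two] at h0 h1
    change v.Ge 1 (a 0 * ν0 (Fin.castAdd n 0) + a 1 * ν1 (Fin.castAdd n 0)) at h0
    change v.Ge 1 (a 0 * ν0 (Fin.castAdd n l0.succ) + a 1 * ν1 (Fin.castAdd n l0.succ)) at h1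
    rw [a0, b0, mul_zero, add_zero] at h0
    rw [a1, b1, mul_zero, zero_add] at h1
    have h2 : v.Ge 1 (a 0) := by
      have h3 := h0.mul_right (Ge.inv hcK (ord_intCast v _))
      rwa [mul_assoc, mul_inv_cancel₀ hcK, mul_one] at h3
    have h4 : v.Ge 1 (a 1) := by
      have hLne : L l0 ≠ 0 := fun h5 => hl0 (Or.inl h5)
      have hLo0 : w0.ord (L l0) = 0 := by
        have h5 := (hL0 l0).le hLne
        have h6 : ¬ 1 ≤ w0.ord (L l0) := fun h6 => hl0 (Ge.of_le h6)
        omega
      have hne : algebraMap F K (L l0 / u l0) ≠ 0 :=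
        (map_ne_zero _).2 (div_ne_zero hLne (u_ne hFr l0).1)
      have hord : v.ord (algebraMap F K (L l0 / u l0)) = 0 := by
        rw [hv, ord_div w0 hLne (u_ne hFr l0).1, hLo0, (u_ne hFr l0).2, sub_zero, mul_zero]
      have h3 := h1.mul_right (Ge.inv hne hord)
      rwa [mul_assoc, mul_inv_cancel₀ hne, mul_one] at h3
    intro i
    refine Fin.cases ?_ (fun i' => ?_) i
    · exact h2
    · rw [Fin.eq_zero i']
      exact h4
  · -- orthogonality to the gradients
    intro i k
    refine Fin.cases ?_ (fun k' => ?_) k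
    · show v.Ge _ (∑ k, ν0 k * gr y d (g i) x k)
      rw [hs0]
      refine Ge.add (Ge.mul_left (Ge.intCast v _) ?_) ?_
      · rw [gr_left]
        unfold revd Finsupp.sum
        rw [Finset.mul_sum]
        have h1 := ge_sum hR.ne v (hfg i) (s := 1)
          (fun a => algebraMap F K (t * d 0 ((g i).coeff a)))
          (fun a => ge1 hc hv (ge_t hdF hFr d hd1 (hg0 i a)))
        refine cast (congrArg (v.Ge _) (Finset.sum_congr rfl fun a _ => ?_)) h1
        rw [map_mul, mul_assoc]
        rfl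
      · have h1 := ge_weight hR.ne v (hfg i) (fun a => ge0 hv (hg0 i a))
          (by rw [hg]; show rev x ((u' i)⁻¹ • f i) = 0; rw [rev_smul, hR.zero i, mul_zero])
        refine cast (congrArg (v.Ge _) (Finset.sum_congr rfl fun a _ => ?_)) h1
        rw [gr_right]
    · rw [Fin.eq_zero k']
      show v.Ge _ (∑ k, ν1 k * gr y d (g i) x k)
      rw [hs1]
      have h1 := ge_sum hR.ne v (hfg i) (s := 1)
        (fun a => algebraMap F K (∑ l : Fin m, L l * d l.succ ((g i).coeff a)))
        (fun a => ge1 hc hv (hlam _ (hgLo i a)))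
      refine cast (congrArg (v.Ge _) ?_) h1
      have h2 : ∀ l : Fin m, algebraMap F K (L l / u l) * gr y d (g i) x (Fin.castAdd n l.succ) =
          ∑ a ∈ (g i).coeff.support,
            algebraMap F K (L l * d l.succ ((g i).coeff a)) * mon x a := by
        intro l
        rw [gr_left, hys]
        unfold revd Finsupp.sum
        rw [← mul_assoc, ← map_mul, div_mul_cancel₀ _ (u_ne hFr l).1, Finset.mul_sum]
        refine Finset.sum_congr rfl fun a _ => ?_
        rw [map_mul, mul_assoc]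
      rw [Finset.sum_congr rfl fun l _ => h2 l, Finset.sum_comm]
      refine Finset.sum_congr rfl fun a _ => ?_
      rw [map_sum, Finset.sum_mul]
  · -- the logarithmic differentials
    intro l
    obtain ⟨-, hc0, hco0, -⟩ := hcq l
    have hcne : algebraMap F K (cc l) ≠ 0 := (map_ne_zero _).2 hc0
    obtain ⟨c1, c2, c3⟩ := coef hdF hFr d hd1 hc0
    refine ⟨mul_ne_zero hcne (MON.mon_ne hR.ne _), ?_, ?_⟩
    · intro k
      refine Fin.addCases (fun k' => ?_) (fun jj => ?_) k
      · rw [Fin.append_left]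
        refine ge0 hv ?_
        refine Fin.cases ?_ (fun k'' => ?_) k'
        · exact c1
        · rw [mul_div_assoc]
          exact Ge.mul_left (Ge.of_le (u_ne hFr k'').2.ge) (c3 k'')
      · rw [Fin.append_right]
        exact Ge.intCast v _
    · rw [MON.dlog_mul hcne (MON.mon_ne hR.ne _), MON.dlog_mon hR.ne, Fin.sum_univ_add]
      congr 1
      · obtain ⟨r1, -, -⟩ := t_REV (K := K) y d x hyne hR.ne hd2
        unfold dlog
        rw [r1 (cc l), Finset.smul_sum]
        refine Finset.sum_congr rfl fun k _ => ?_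
        rw [Fin.append_left, zz_left, smul_smul]
        congr 1
        rw [div_eq_mul_inv, map_mul _ (y k * d k (cc l)), map_inv₀, mul_comm]
      · refine Finset.sum_congr rfl fun k _ => ?_
        rw [Fin.append_right, zz_right]
  · -- orthogonality
    intro l k
    obtain ⟨-, hc0, hco0, hpair⟩ := hcq l
    have hw0 : w0.ord (cc l) = 0 := ord0' hc hv hco0
    obtain ⟨c1, c2, c3⟩ := coef hdF hFr d hd1 hc0
    refine Fin.cases ?_ (fun k' => ?_) k
    · show v.Ge 1 (∑ k, ν0 k * _)
      rw [hs0, Fin.append_left]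
      refine Ge.add (Ge.mul_left (Ge.intCast v _) (ge1 hc hv ?_)) ?_
      · rw [hw0, Int.cast_zero, sub_zero] at c2
        exact c2
      · left
        have h1 : ∑ k, (wt x v k : K) * (q l k : K) = ((pair (wt x v) (q l) : ℤ) : K) := by
          unfold pair
          push_cast
          rfl
        have h2 : ∀ k : Fin n, (Fin.append (fun k => algebraMap F K (y k * d k (cc l) / cc l))
            (fun k => (q l k : K)) : Fin (m + 1 + n) → K) (Fin.natAdd (m + 1) k) = (q l k : K) :=
          fun k => by rw [Fin.append_right]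
        rw [Finset.sum_congr rfl fun k _ => by rw [h2 k], h1, hpair, Int.cast_zero]
    · rw [Fin.eq_zero k']
      show v.Ge 1 (∑ k, ν1 k * _)
      rw [hs1]
      have h2 : ∀ k : Fin m, algebraMap F K (L k / u k) *
          (Fin.append (fun k => algebraMap F K (y k * d k (cc l) / cc l))
            (fun k => (q l k : K)) : Fin (m + 1 + n) → K) (Fin.castAdd n k.succ) =
          algebraMap F K (L k * d k.succ (cc l) / cc l) := by
        intro k
        rw [Fin.append_left, ← map_mul, hys]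
        congr 1
        have h3 := (u_ne hFr k).1
        field_simp
      rw [Finset.sum_congr rfl fun k _ => h2 k, ← map_sum, ← Finset.sum_div]
      refine ge1 hc hv ?_
      have h3 := (hlam _ (hccLo l)).div (cc l)
      rwa [hw0, sub_zero] at h3

end

end RMT
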