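import Pool.Agent.RMT.StS

/-!
# Torus bundles, module TRNK (helper9): the rank of the gradients over one chart
-/

set_option autoImplicit false

namespace RMT

open MldGeo MMCI RMM

theorem t_TRNK : M_TRNK := by
  intro h1 h2 F K _ _ _ _ _ _ b e n r B j f x hR
  rcases hR.inner with h | ⟨h, -⟩
  · exact h1 B f x hR.dim_eq hR.f_ne hR.ne hR.gen hR.dimB hR.dim hR.zero j h
  · exact h2 B f x hR.dim_eq hR.f_ne hR.ne hR.gen hR.dimB hR.dim hR.zero j h

end RMT
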