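import Pool.Agent.RMT.StR

/-!
# TSYS: the abstract conditions for the twisted system
-/

set_option autoImplicit false

namespace RMT

open MldGeo MMCI RMM

noncomputable section

theorem t_TSYS : M_TSYS := by
  intro hTWB hRBD3 hTRNK hTNDA F K _ _ _ _ _ _ b e n r B t f x hT hn hf hx hgen hz hrel
  have h0 := hrel 0
  obtain ⟨κ, y0, β, hBD⟩ := hRBD3 (K := K) (e' := b + e) B h0.dimB h0.terminal
  have hrank0 := hTRNK B 0 (fun i => tw (t 0) (f i)) (tx (t 0) x) h0
  obtain ⟨-, -, hT0⟩ := hTWB (t 0) (hT.ne 0)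
  obtain ⟨-, -, hg0, -, -⟩ := hT0 x hx
  have hrank : LinearIndependent K fun i => rgrad x (f i) := by
    have h1 : (fun i => rgrad (tx (t 0) x) (tw (t 0) (f i))) = fun i => rgrad x (f i) := by
      funext i j
      exact (hg0 (f i)).2.1 j
    rwa [h1] at hrank0
  have hR : RReg e f x := ⟨hn, hf, hx, hgen, hz, hrank⟩
  have hRj : ∀ j, RReg e (fun i => tw (t j) (f i)) (tx (t j) x) := fun j =>
    ((hTWB (t j) (hT.ne j)).2.2 x hx).2.2.2.2 f hR
  have hN := fun j => hTNDA B j κ y0 β (fun i => tw (t j) (f i)) (tx (t j) x) hBD (hrel j) (hRj j)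
  exact ⟨κ, y0, β, hBD, ⟨hR, hT, fun j i => (hN j).1 i, fun j v hv => (hN j).2 v hv⟩⟩

end

end RMT
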