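import Pool.Agent.RMT.StR
import Pool.Agent.MMCI.K_KEY

/-!
# TUF: the points `u a / k` of the datum of case (a) are in the Fine interior
-/

set_option autoImplicit false

namespace RMT

open MldGeo MMCI RMM

noncomputable section

namespace TUF

/-- A finite nonempty set has an element where `w` is minimal. -/
theorem exists_minAt {n : ℕ} (A : Finset (Fin n → ℤ)) (hA : A.Nonempty) (w : Fin n → ℤ) :
    ∃ a, MinAt A a w := by
  obtain ⟨a, ha, h⟩ := A.exists_min_image (fun a => pair w a) hA
  exact ⟨a, ha, h⟩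

theorem rmin_zero {F : Type} [Field F] {n : ℕ} (g : LR F n) : rmin g (0 : Fin n → ℤ) = 0 := by
  unfold rmin
  by_cases h : (g.coeff.support : Set (Fin n → ℤ)).Nonempty
  · have h1 : (fun m => pair (0 : Fin n → ℤ) m) '' (g.coeff.support : Set (Fin n → ℤ)) = {0} := by
      have h2 : (fun m => pair (0 : Fin n → ℤ) m) = fun _ => (0 : ℤ) := by
        funext m
        exact KEY.pair_zero_left m
      rw [h2]
      exact h.image_const 0
    rw [h1]
    exact csInf_singleton 0
  · rw [Set.not_nonempty_iff_eq_empty.1 h, Set.image_empty]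
    exact Int.csInf_empty

end TUF

open TUF in
theorem t_TUF : M_TUF := by
  intro hRSP hRSUP F _ n r f D a ha
  have hψ : ∀ ν, psi (fun i => supp0 (f i)) ν = rpsi f ν := by
    intro ν
    rcases Nat.eq_zero_or_pos r with h | h
    · subst h
      simp [psi, rpsi]
    · exact (hRSP (f ⟨0, h⟩)).2.2.2 f ν
  have hfine : InFine f D.k (D.u a) := by
    intro ν hν
    obtain ⟨c, ν0, hc, hprim, rfl⟩ := KEY.exists_prim ν hν
    obtain ⟨a0, ha0⟩ := exists_minAt D.A D.nonempty ν0
    have h1 := D.disc ν0 a0 hprim ha0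
    have h2 := D.nef ν0 a0 a ha0 ha
    rw [hψ] at h1
    have h3 : rpsi f (c • ν0) = c * rpsi f ν0 := by
      unfold rpsi
      rw [Finset.mul_sum]
      exact Finset.sum_congr rfl fun i _ => (hRSUP (f i)).2.2.1 c ν0 hc
    have hk : (0 : ℤ) < D.k := by exact_mod_cast D.k_pos
    rw [h3, KEY.pair_smul_left]
    have h4 : (D.k : ℤ) * (c * rpsi f ν0 + 1) ≤ c * (D.k * (rpsi f ν0 + 1)) := by
      nlinarith
    have h5 : c * (D.k * (rpsi f ν0 + 1)) ≤ c * pair ν0 (D.u a) :=
      mul_le_mul_of_nonneg_left (h1.trans h2) hc.le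
    exact h4.trans h5
  refine ⟨hfine, fun ν => ?_⟩
  rcases eq_or_ne ν 0 with h | h
  · rw [h, KEY.pair_zero_left]
    simp only [rmin_zero]
    simp
  · have h1 := hfine ν h
    have hk : (0 : ℤ) < D.k := by exact_mod_cast D.k_pos
    have h2 : (D.k : ℤ) * ∑ i, rmin (f i) ν ≤ D.k * (rpsi f ν + 1) := by
      unfold rpsi
      exact mul_le_mul_of_nonneg_left (by linarith) hk.le
    exact h2.trans h1

end

end RMT
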