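import Pool.Agent.RMT.StR

/-!
# RMT, TWB: the twist (helper70)
-/

set_option autoImplicit false

namespace RMT

open MldGeo MMCI RMM

noncomputable section

namespace TWB

variable {F : Type} [Field F] {n : ℕ}

lemma mon_ne {t : Fin n → F} (ht : ∀ k, t k ≠ 0) (a : Fin n → ℤ) : mon t a ≠ 0 :=
  Finset.prod_ne_zero_iff.2 fun k _ => zpow_ne_zero _ (ht k)

lemma coeff_tw (t : Fin n → F) (f : LR F n) (a : Fin n → ℤ) :
    (tw t f).coeff a = f.coeff a * mon t a := by
  unfold tw
  rw [AddMonoidAlgebra.coeff_finsuppSum, Finsupp.sum_apply, Finsupp.sum]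
  by_cases ha : a ∈ f.coeff.support
  · rw [Finset.sum_eq_single_of_mem a ha]
    · rw [AddMonoidAlgebra.coeff_single, Finsupp.single_eq_same]
    · intro b _ hb
      rw [AddMonoidAlgebra.coeff_single, Finsupp.single_apply, if_neg hb]
  · rw [Finset.sum_eq_zero]
    · rw [Finsupp.notMem_support_iff.1 ha, zero_mul]
    · intro b hb
      have hba : b ≠ a := fun h => ha (h ▸ hb)
      rw [AddMonoidAlgebra.coeff_single, Finsupp.single_apply, if_neg hba]

lemma supp_tw {t : Fin n → F} (ht : ∀ k, t k ≠ 0) (f : LR F n) :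
    (tw t f).coeff.support = f.coeff.support := by
  ext a
  rw [Finsupp.mem_support_iff, Finsupp.mem_support_iff, coeff_tw]
  constructor
  · intro h h0
    exact h (by rw [h0, zero_mul])
  · intro h
    exact mul_ne_zero h (mon_ne ht a)

variable {K : Type} [Field K] [Algebra F K]

lemma mon_tx {t : Fin n → F} (x : Fin n → K) (a : Fin n → ℤ) :
    mon (tx t x) a = mon x a / algebraMap F K (mon t a) := by
  unfold mon tx
  rw [map_prod, ← Finset.prod_div_distrib]
  refine Finset.prod_congr rfl fun k _ => ?_
  rw [div_zpow, map_zpow₀]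

/-- the sums of the monomials -/
lemma sum_eq {t : Fin n → F} (ht : ∀ k, t k ≠ 0) (f : LR F n) (x : Fin n → K)
    (w : (Fin n → ℤ) → K) :
    ((tw t f).coeff.sum fun m c => algebraMap F K c * w m * mon (tx t x) m)
      = f.coeff.sum fun m c => algebraMap F K c * w m * mon x m := by
  unfold Finsupp.sum
  rw [supp_tw ht]
  refine Finset.sum_congr rfl fun a _ => ?_
  rw [coeff_tw]
  beta_reduce
  rw [mon_tx, map_mul]
  have h0 : algebraMap F K (mon t a) ≠ 0 :=
    (map_ne_zero_iff _ (algebraMap F K).injective).2 (mon_ne ht a)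
  field_simp

end TWB

open TWB in
/-- TWB: the twist -/
theorem t_TWB : S_TWB := by
  intro F _ _ n t ht
  refine ⟨fun a => mon_ne ht a, fun f => ⟨fun a => coeff_tw t f a, supp_tw ht f, fun hf h0 => ?_,
    fun ν => ?_⟩, ?_⟩
  · apply hf
    have h1 := supp_tw ht f
    rw [h0, AddMonoidAlgebra.coeff_zero, Finsupp.support_zero] at h1
    have h2 := Finsupp.support_eq_empty.1 h1.symm
    exact AddMonoidAlgebra.coeff_eq_zero.1 h2
  · unfold rmin
    rw [supp_tw ht]
  · intro K _ _ _ _ x hx
    have hne : ∀ k, tx t x k ≠ 0 := fun k =>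
      div_ne_zero (hx k) ((map_ne_zero_iff _ (algebraMap F K).injective).2 (ht k))
    have hrev : ∀ f : LR F n, rev (tx t x) (tw t f) = rev x f := by
      intro f
      have h := sum_eq ht f x (fun _ => 1)
      simp only [mul_one] at h
      exact h
    have hgrad : ∀ (f : LR F n) (j : Fin n), rgrad (tx t x) (tw t f) j = rgrad x f j := fun f j =>
      sum_eq ht f x (fun m => (m j : K))
    have hgen : IntermediateField.adjoin F (Set.range x) = ⊤ →
        IntermediateField.adjoin F (Set.range (tx t x)) = ⊤ := by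
      intro h
      rw [eq_top_iff, ← h, IntermediateField.adjoin_le_iff]
      rintro _ ⟨k, rfl⟩
      have h1 : tx t x k ∈ IntermediateField.adjoin F (Set.range (tx t x)) :=
        IntermediateField.subset_adjoin _ _ ⟨k, rfl⟩
      have h2 : x k = tx t x k * algebraMap F K (t k) := by
        unfold tx
        rw [div_mul_cancel₀]
        exact (map_ne_zero_iff _ (algebraMap F K).injective).2 (ht k)
      rw [h2]
      exact mul_mem h1 (IntermediateField.algebraMap_mem _ _)
    refine ⟨hne, fun a => mon_tx x a, fun f => ⟨hrev f, hgrad f, fun ν => ?_⟩, hgen, ?_⟩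
    · unfold rder
      exact Finset.sum_congr rfl fun k _ => by rw [hgrad]
    · intro e r f hf
      refine ⟨hf.dim_eq, fun i h0 => ?_, hne, hgen hf.gen, fun i => ?_, ?_⟩
      · have h1 := supp_tw ht (f i)
        rw [h0, AddMonoidAlgebra.coeff_zero, Finsupp.support_zero] at h1
        exact hf.f_ne i (AddMonoidAlgebra.coeff_eq_zero.1 (Finsupp.support_eq_empty.1 h1.symm))
      · rw [hrev]; exact hf.zero i
      · have h1 : (fun i => rgrad (tx t x) (tw t (f i))) = fun i => rgrad x (f i) := by
          funext i j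
          exact hgrad (f i) j
        rw [h1]
        exact hf.rank

end

end RMT
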