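import Pool.Agent.RMT.StS
import Pool.Agent.RMM.ZCP

/-!
# TZCP: smooth closed points of `Z`, over one chart

Copy of `t_ZCP` (`RMM/ZCP.lean`) with `GenAt` instead of `GenR`.
-/

set_option autoImplicit false

namespace RMT

open MldGeo MMCI RMM

noncomputable section

theorem t_TZCP : M_TZCP := by
  intro hFRC hZRG hZCB F K _ _ _ _ _ _ b e n r B f x hn hx hgen htr hf j hG N M hN hM hm hpre hz
  classical
  obtain ⟨hFG, hfrac, hres⟩ := hFRC B j
  obtain ⟨z, hz⟩ := hz
  have hval : ∀ h : LR (B.ring j) n, rev x h = RRK.phi (B.ring j) hx h := fun h => rfl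
  obtain ⟨-, -, hrg, -⟩ := hZRG B x hx hgen j
  -- the surjective homomorphism to the ring of `Z`
  let φ : LR (B.ring j) n →+* zring B x j :=
    (RRK.phi (B.ring j) hx).toRingHom.codRestrict (zring B x j) fun h => (hrg _).2 ⟨h, rfl⟩
  have hφ : ∀ h, ((φ h : zring B x j) : K) = rev x h := fun h => rfl
  have hsurj : Function.Surjective φ := by
    intro a
    obtain ⟨h, hh⟩ := (hrg (a : K)).1 a.2
    exact ⟨h, Subtype.ext ((hφ h).trans hh)⟩
  have hMN : M = N.comap φ := by
    ext h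
    rw [Ideal.mem_comap, hpre h]
    constructor
    · rintro ⟨c, hc, hch⟩
      have h1 : φ h = c := Subtype.ext ((hφ h).trans hch.symm)
      rw [h1]
      exact hc
    · intro h1
      exact ⟨φ h, h1, hφ h⟩
  have h0M : ∀ h : LR (B.ring j) n, rev x h = 0 → h ∈ M := by
    intro h hh
    exact (hpre h).2 ⟨0, N.zero_mem, by rw [hh]; rfl⟩
  obtain ⟨g, hloc, hker⟩ := hG M hM h0M
  choose u hu huf using fun i => (hloc i).1
  have hG : ∀ i a, ((u i)⁻¹ • f i).coeff a = ((g i).coeff a : F) := by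
    intro i a
    rw [AddMonoidAlgebra.coeff_smul, Finsupp.smul_apply, huf i a, smul_eq_mul,
      inv_mul_cancel_left₀ (hu i)]
  have hg0 : ∀ i, rev x (g i) = 0 := by
    intro i
    rw [hval, RRK.phi_apply, ← RRK.sum_coeff ((u i)⁻¹ • f i) (g i) (hG i)
      (fun a c => algebraMap F K c * mon x a)]
    have h1 := ZCP.rev_smul x (u i)⁻¹ (f i)
    rw [hf i, mul_zero] at h1
    exact h1
  have hφ0 : ∀ h, rev x h = 0 → φ h = 0 := fun h hh => Subtype.ext ((hφ h).trans hh)
  choose Z hZ using fun l => hsurj (z l)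
  have hgenM := ZCP.gen φ hsurj M hM N hMN z hz Z hZ g (fun i => hφ0 _ (hg0 i)) (by
    intro h hh
    exact hker h (by rw [← hφ h, hh]; rfl))
  have hc : b + n = (b + e) + r := by omega
  have hw : M = Ideal.span (Set.range fun i : Fin (b + n) => Fin.append Z g (Fin.cast hc i)) ⊔
      M ^ 2 := by
    rw [ZCP.range_append hc Z g]
    exact hgenM
  obtain ⟨hy, hτ⟩ := hZCB (B.ring j) M hFG hfrac htr hM hm (hres _ hm) _ hw
  refine ⟨g, hloc, fun i => h0M _ (hg0 i), hy, fun τ hs => ?_⟩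
  have h1 := hτ (fun i => Fin.append (0 : Fin (b + e) → ℂ) τ (Fin.cast hc i)) (by
    rw [ZCP.sum_append hc Z g τ]
    exact hs)
  funext i
  have h2 := congrFun h1 (Fin.cast hc.symm (Fin.natAdd (b + e) i))
  rw [Pi.zero_apply] at h2 ⊢
  rw [← h2]
  exact (Fin.append_right (0 : Fin (b + e) → ℂ) τ i).symm

end

end RMT
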