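import Pool.Agent.RMM.AsmZ
import Pool.Agent.RMM.AsmR
import Pool.Agent.RMM.AsmC
import Pool.Agent.RMT.TCLP
import Pool.Agent.RMT.TRNB
import Pool.Agent.RMT.TNW
import Pool.Agent.RMT.TZCP
import Pool.Agent.RMT.TLTZ
import Pool.Agent.RMT.TEQ
import Pool.Agent.RMT.TRDZ
import Pool.Agent.RMT.TRKZ
import Pool.Agent.RMT.TRK3
import Pool.Agent.RMT.TRNK
import Pool.Agent.RMT.TNDA
import Pool.Agent.RMT.TWB
import Pool.Agent.RMT.TCM
import Pool.Agent.RMT.TSC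
import Pool.Agent.RMT.TCH
import Pool.Agent.RMT.TSYS
import Pool.Agent.RMT.TCMB
import Pool.Agent.RMT.TNDN
import Pool.Agent.RMT.TNEW
import Pool.Agent.RMT.TRED
import Pool.Agent.RMT.TNH
import Pool.Agent.RMT.TUF

/-!
# Torus bundles: the abstract conditions and the reduction, without hypotheses
-/

set_option autoImplicit false

namespace RMT

open MldGeo MMCI RMM

theorem aTNW : S_TNW :=
  t_TNW t_TCLP rlocv zfum t_RVL zltr zlpd (t_TRNB t_DLB t_EXM t_ABN2 t_LAM) t_RDQ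

theorem aTZCP : S_TZCP := t_TZCP t_FRCB zzrg zzcb

theorem aTLTZ : S_TLTZ := t_TLTZ zzrg (t_SMC t_GSM) zzpre aTZCP rlocv

theorem aTRDZ : S_TRDZ :=
  t_TRDZ t_MON zzrg zzpre zhtz t_LUNI
    (t_LE0 rgen t_MON t_REV t_LREL t_LUNI t_LEXP t_LBIG t_LB0)
    (t_LFRM t_REV t_LREL t_PLU t_SIG t_WDG) t_TEQ

theorem aTRNK : S_TRNK :=
  t_TRNK (t_TRK3 t_FRCB t_NAK t_TAY t_REV)
    (t_TRKZ t_FRCB t_NAK t_TAY t_REV zzrg (t_SMG t_GSM) zzpre aTZCP)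

theorem aTNDA : S_TNDA := t_TNDA t_CMN zzrg aTNW aTLTZ aTRDZ

/-- The systems of the final class satisfy the abstract conditions. -/
theorem aTSYS : S_TSYS := t_TSYS t_TWB zrbd3 aTRNK aTNDA

theorem aTCMB : S_TCMB :=
  t_TCMB t_RSP t_RKER t_INK (t_CMB t_SEL) t_RWG (t_REMB (t_UNI t_BLK) t_TEX t_FTH t_RHM) t_LAT

theorem aTNDN : S_TNDN :=
  t_TNDN t_RCHV t_RGRO (t_RNL t_RCHV t_RGRO t_ND1 (t_ND2 t_SEL)) S_ROMG_holds
    (t_RNF t_SEL t_MON t_RWD t_RCHV t_RGPL (t_DTC t_INK))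

theorem aTCH : S_TCH := t_TCH t_TWB

theorem aTNEW : S_TNEW :=
  t_TNEW t_RCHE t_RCHV (t_RRG t_RCHV) t_TWB aTCH t_TCM (t_TSC t_TCM) aTNDN

/-- The reduction of the number of variables. -/
theorem aTRED : S_TRED := t_TRED aTCMB aTNEW

theorem aTNH : S_TNH := t_TNH t_RCHV t_TWB t_TCM aTCH

theorem aTUF : S_TUF := t_TUF t_RSP t_RSUP

end RMT
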