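import Pool.Agent.RMT.StV
import Pool.Agent.MMCI.RSU
import Pool.Agent.MMCI.LOV
import Pool.Agent.MldGeo.Ord

/-!
# Torus bundles: the sum of a nef divisor and of a nef Cartier divisor
-/

set_option autoImplicit false

namespace RMT

open MldGeo MMCI RMM

noncomputable section

namespace TADD

variable {F : Type} [Field F] [Algebra ℂ F] {b : ℕ}

/-- The restriction of the quotient of the sections which define the charts is not zero. -/
theorem rho_ne (B : ProjModel F) (γ : CurveMap B) (w : DivVal 1 γ.L) (j : Fin (B.N + 1))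
    (m : Ideal (B.ring j)) (hmap : γ.MapsTo w j m)
    (hmem : B.s j / B.s γ.i ∈ B.ring γ.i) :
    γ.φ ⟨B.s j / B.s γ.i, hmem⟩ ≠ 0 := by
  intro h0
  obtain ⟨u, hu, -⟩ := hmap.2 ⟨B.s γ.i / B.s j, Algebra.subset_adjoin ⟨γ.i, rfl⟩⟩
  have e1 := RSU.mul γ (RSU.coe γ ⟨B.s j / B.s γ.i, hmem⟩) hu
  rw [h0, zero_mul] at e1
  have e2 : B.s j / B.s γ.i * (B.s γ.i / B.s j) = 1 := by
    rw [div_mul_div_cancel₀ (B.ne _), div_self (B.ne _)]
  change γ.Restr (B.s j / B.s γ.i * (B.s γ.i / B.s j)) 0 at e1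
  rw [e2] at e1
  have e3 := RSU.const γ 1
  rw [map_one, map_one] at e3
  exact zero_ne_one (RSU.unique γ e1 e3)

/-- A prime divisor through the generic point of the image of the curve, seen on another chart. -/
theorem other (hCHC : S_CHC) (B : ProjModel F) (hdim : Algebra.trdeg ℂ F = (b : Cardinal))
    (hnorm : ∀ j (a : F), IsIntegral (B.ring j) a → a ∈ B.ring j) (γ : CurveMap B)
    (w : DivVal 1 γ.L) (j : Fin (B.N + 1)) (m : Ideal (B.ring j)) (hmap : γ.MapsTo w j m)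
    (v : DivVal b F) (P : Ideal (B.ring γ.i)) (hP : IsPrimeDivisor (B.ring γ.i) v P)
    (hPQ : ∀ a ∈ P, γ.φ a = 0) :
    v.ord (B.s j / B.s γ.i) = 0 ∧
      ∃ P' : Ideal (B.ring j), IsPrimeDivisor (B.ring j) v P' ∧ P' ≤ m := by
  have hmem : B.s j / B.s γ.i ∈ B.ring γ.i := Algebra.subset_adjoin ⟨j, rfl⟩
  have hρ := rho_ne B γ w j m hmap hmem
  have hρ0 : v.ord (B.s j / B.s γ.i) = 0 := by
    have h2 : (⟨B.s j / B.s γ.i, hmem⟩ : B.ring γ.i) ∉ P := fun h => hρ (hPQ _ h)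
    rw [hP.2.2.2] at h2
    push Not at h2
    exact le_antisymm h2.2 (hP.2.2.1 ⟨B.s j / B.s γ.i, hmem⟩)
  refine ⟨hρ0, ?_⟩
  obtain ⟨P', hP'⟩ := hCHC B hdim hnorm γ.i j v P hP hρ0
  refine ⟨P', hP', ?_⟩
  intro c hc
  by_contra hcm
  obtain ⟨u, hu, -, hu2⟩ := hmap.2 c
  have hu0 : u ≠ 0 := fun h => hcm (hu2.2 (Or.inl h))
  obtain ⟨d, hd⟩ := t_LOV B.s B.ne j γ.i c c.2
  have hφ : γ.φ ⟨_, hd⟩ = u * γ.φ ⟨B.s j / B.s γ.i, hmem⟩ ^ d := by
    refine RSU.unique γ (RSU.coe γ ⟨_, hd⟩) ?_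
    exact RSU.mul γ hu (RSU.pow γ (RSU.coe γ ⟨B.s j / B.s γ.i, hmem⟩) d)
  have h4 : (⟨_, hd⟩ : B.ring γ.i) ∈ P := by
    rw [hP.2.2.2]
    rcases (hP'.2.2.2 c).1 hc with h | h
    · left
      apply Subtype.ext
      simp [h]
    · right
      have hc0 : (c : F) ≠ 0 := by
        intro h0
        rw [h0, v.ord_zero] at h
        exact lt_irrefl _ h
      have hρne : B.s j / B.s γ.i ≠ 0 := div_ne_zero (B.ne _) (B.ne _)
      change 0 < v.ord ((c : F) * (B.s j / B.s γ.i) ^ d)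
      rw [v.ord_mul _ _ hc0 (pow_ne_zero _ hρne), v.ord_pow, hρ0, mul_zero, add_zero]
      exact h
  have h5 := hPQ _ h4
  rw [hφ] at h5
  rcases mul_eq_zero.1 h5 with h | h
  · exact hu0 h
  · exact pow_ne_zero _ hρ h

end TADD

theorem t_TADD : M_TADD := by
  intro hLOP hCHC F _ _ b B hdim hnorm k0 D E hE1 hE2 hD hE ω hω γ k h g u hk H
  classical
  rcases isEmpty_or_nonempty (DivVal 1 γ.L) with hemp | ⟨⟨w₀⟩⟩
  · refine ⟨Set.toFinite _, ?_⟩
    rw [finsum_of_isEmpty]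
  choose j m hmap heq using H.eqn
  have h1 : ∀ w, ∃ ε : F, ε ≠ 0 ∧ ∀ (v : DivVal b F) (P : Ideal (B.ring (j w))),
      IsPrimeDivisor (B.ring (j w)) v P → P ≤ m w → v.ord ε = E (j w) v := fun w =>
    hE2 (j w) (m w) (hmap w).1
  choose ε hε0 hε using h1
  -- the orders of the local equations of `E`
  have key : ∀ w (v : DivVal b F) (P : Ideal (B.ring γ.i)), IsPrimeDivisor (B.ring γ.i) v P →
      P ≤ RingHom.ker γ.φ → v.ord (ε w) = E γ.i v := by
    intro w v P hP hPQ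
    obtain ⟨h0, P', hP', hle⟩ := TADD.other hCHC B hdim hnorm γ w (j w) (m w) (hmap w) v P hP
      (fun a ha => RingHom.mem_ker.1 (hPQ ha))
    rw [hε w v P' hP' hle, hE1 γ.i (j w) v P hP h0]
  have hα : ∀ w, ∃ α : γ.L, α ≠ 0 ∧ γ.Restr (ε w / ε w₀) α := by
    intro w
    have hord : ∀ (w w' : DivVal 1 γ.L) (v : DivVal b F) (P : Ideal (B.ring γ.i)),
        IsPrimeDivisor (B.ring γ.i) v P → P ≤ RingHom.ker γ.φ → v.ord (ε w / ε w') = 0 := by
      intro w w' v P hP hPQ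
      rw [v.ord_div (hε0 w) (hε0 w'), key w v P hP hPQ, key w' v P hP hPQ, sub_self]
    have hQ : (RingHom.ker γ.φ).IsPrime := RingHom.ker_isPrime γ.φ
    obtain ⟨p, q, hq, hpq⟩ := hLOP B hdim hnorm γ.i (RingHom.ker γ.φ) hQ (ε w / ε w₀)
      (fun v P hP hPQ => Or.inr (hord w w₀ v P hP hPQ).ge)
    obtain ⟨p', q', hq', hpq'⟩ := hLOP B hdim hnorm γ.i (RingHom.ker γ.φ) hQ (ε w₀ / ε w)
      (fun v P hP hPQ => Or.inr (hord w₀ w v P hP hPQ).ge)
    have hφq : γ.φ q ≠ 0 := fun h => hq (RingHom.mem_ker.2 h)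
    have hφq' : γ.φ q' ≠ 0 := fun h => hq' (RingHom.mem_ker.2 h)
    have e1 : p * p' = q * q' := by
      apply Subtype.ext
      rw [MulMemClass.coe_mul, MulMemClass.coe_mul, ← hpq, ← hpq']
      have := hε0 w
      have := hε0 w₀
      field_simp
    have hφp : γ.φ p ≠ 0 := by
      intro h0
      have e2 : γ.φ (p * p') = γ.φ (q * q') := by rw [e1]
      rw [map_mul, map_mul, h0, zero_mul] at e2
      exact mul_ne_zero hφq hφq' e2.symm
    exact ⟨γ.φ p / γ.φ q, div_ne_zero hφp hφq, p, q, hφq, hpq, div_mul_cancel₀ _ hφq⟩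
  choose α hα0 hα using hα
  have hg0 : ∀ w, g w ≠ 0 := by
    intro w h0
    have h2 := (RSU.inv γ (H.restr w) (H.u_ne w)).1
    rw [h0, zero_div] at h2
    exact h2 rfl
  have HD : EqnsC γ k0 D ω k (h / ε w₀ ^ k) (fun w => g w / ε w ^ k)
      (fun w => u w * (α w ^ k)⁻¹) := by
    refine ⟨div_ne_zero H.h_ne (pow_ne_zero _ (hε0 w₀)), ?_, ?_, ?_⟩
    · intro w
      exact mul_ne_zero (H.u_ne w) (inv_ne_zero (pow_ne_zero _ (hα0 w)))
    · intro w
      have h2 := RSU.mul γ (H.restr w) (RSU.inv γ (RSU.pow γ (hα w) k)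
        (pow_ne_zero _ (hα0 w))).2
      have e1 : g w / ε w ^ k / (h / ε w₀ ^ k) = g w / h * ((ε w / ε w₀) ^ k)⁻¹ := by
        have h3 := H.h_ne
        have h4 := hε0 w
        have h5 := hε0 w₀
        rw [div_pow]
        field_simp
      change γ.Restr (g w / ε w ^ k / (h / ε w₀ ^ k)) (u w * (α w ^ k)⁻¹)
      rw [e1]
      exact h2
    · intro w
      refine ⟨j w, m w, hmap w, ?_⟩
      intro v P hP hPm
      rw [v.ord_div (hg0 w) (pow_ne_zero _ (hε0 w)), v.ord_pow, heq w v P hP hPm,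
        hε w v P hP hPm]
      ring
  have HE : EqnsC γ 0 E ω k (ε w₀ ^ k) (fun w => ε w ^ k) (fun w => α w ^ k) := by
    refine ⟨pow_ne_zero _ (hε0 w₀), fun w => pow_ne_zero _ (hα0 w), ?_, ?_⟩
    · intro w
      rw [← div_pow]
      exact RSU.pow γ (hα w) k
    · intro w
      refine ⟨j w, m w, hmap w, ?_⟩
      intro v P hP hPm
      rw [v.ord_pow, hε w v P hP hPm]
      push_cast
      ring
  obtain ⟨hf1, hs1⟩ := hD ω hω γ k _ _ _ hk HD
  obtain ⟨hf2, hs2⟩ := hE ω hω γ k _ _ _ hk HE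
  have hsum : ∀ w : DivVal 1 γ.L, w.ord (u w) = w.ord (u w * (α w ^ k)⁻¹) + w.ord (α w ^ k) := by
    intro w
    rw [← w.ord_mul _ _ (mul_ne_zero (H.u_ne w) (inv_ne_zero (pow_ne_zero _ (hα0 w))))
      (pow_ne_zero _ (hα0 w)), mul_assoc, inv_mul_cancel₀ (pow_ne_zero _ (hα0 w)), mul_one]
  refine ⟨?_, ?_⟩
  · refine (hf1.union hf2).subset ?_
    intro w hw
    by_contra hc
    rw [Set.mem_union, not_or] at hc
    simp only [Set.mem_ofPred_eq, not_not] at hc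
    apply hw
    rw [hsum w, hc.1, hc.2, add_zero]
  · rw [finsum_congr hsum, finsum_add_distrib]
    · exact add_nonneg hs1 hs2
    · exact hf1
    · exact hf2

end

end RMT
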