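import Pool.Agent.RMT.St2

/-!
# Torus bundles, module TBD (helper57): the divisors in TBN and adjT
-/

set_option autoImplicit false

namespace RMT

open MldGeo MMCI RMM

theorem t_TBD : S_TBD := by
  intro F _ _ b n r B t f
  refine ⟨?_, ?_, ?_, ?_⟩
  · intro k p
    funext j v
    simp only [adjT, adj]
    rw [← Finset.mul_sum]
    ring
  · intro i a
    funext j v
    simp only [adjT, adj]
    rw [Finset.sum_eq_single i]
    · rw [Finset.sum_singleton, Pi.single_eq_same]
      push_cast
      ring
    · intro i' _ hi'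
      rw [Pi.single_eq_of_ne hi']
      simp
    · intro h
      exact absurd (Finset.mem_univ i) h
  · intro h ω hω γ k a g u hk H
    refine h ω hω γ k a g u hk ⟨H.h_ne, H.u_ne, H.restr, fun w => ?_⟩
    obtain ⟨i, m, h1, h2⟩ := H.eqn w
    refine ⟨i, m, h1, fun v P hP hPm => ?_⟩
    have h3 := h2 v P hP hPm
    simpa using h3
  · intro h ω hω
    obtain ⟨k, N, s, hk, hs, h1, h2⟩ := h ω hω
    refine ⟨k, N, s, hk, hs, fun l i v P hP => ?_, fun i m hm => ?_⟩
    · have h3 := h1 l i v P hP
      simpa using h3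
    · obtain ⟨l, h3⟩ := h2 i m hm
      refine ⟨l, fun v P hP hPm => ?_⟩
      have h4 := h3 v P hP hPm
      simpa using h4

end RMT
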