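import Pool.Agent.RMT.St2

/-!
# TBF: comparison of the final class of families in torus bundles with the conditions over the charts
-/

set_option autoImplicit false

namespace RMT

open MldGeo MMCI RMM

noncomputable section

theorem t_TBF : M_TBF := by
  intro hTWB hTWI F K _ _ _ _ _ _ b e n r B t f x h
  have ht : ∀ j k, t j k ≠ 0 := fun j k => (h.bundle j j k).1
  refine ⟨hTWI B t h.bundle, fun j => ?_⟩
  obtain ⟨-, hf, hx⟩ := hTWB (t j) (ht j)
  obtain ⟨hx1, -, hx3, hx4, -⟩ := hx x h.ne
  exact
    { dim_eq := h.dim_eq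
      pos := h.pos
      f_ne := fun i => (hf (f i)).2.2.1 (h.f_ne i)
      ne := hx1
      gen := hx4 h.gen
      dimB := h.dim_base
      terminal := RMX.terminal_to h.dim_base h.terminal
      dim := h.dim
      zero := fun i => (hx3 (f i)).1.trans (h.zero i)
      loc := h.loc j
      nondeg := fun ν hν m hm => h.nondeg ν hν j m hm
      inner := (h.inner j).imp id fun h1 => ⟨h1.1, MMCX.isTerminal_to h.dim h1.2⟩ }

end

end RMT
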