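import Pool.Agent.RMT.St2
import Pool.Agent.RMM.BridgeR

/-!
# TBN: comparison of the nef and semiample divisors of `DefsX` and of the twisted interface
-/

set_option autoImplicit false

namespace RMT

open MldGeo MMCI RMM

noncomputable section

namespace TBN

variable {b n r : ℕ} {F : Type} [Field F] [Algebra ℂ F]

private theorem divOrdT_eq (hd : Algebra.trdeg ℂ F = (b : Cardinal)) (ω : MldGeo.Forms b F)
    (t : Fin n → F) (f : Fin r → LR F n) (c : ℕ) (l : Fin r → ℕ) (p : Fin n → ℤ)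
    (v : MldGeo.DivVal b F) :
    RMX.divOrdT (MldX.ev ω) t f c l p (MldX.ofOld v) =
      c * v.formOrd ω +
        (v.ord (mon t p) - ∑ i, l i * cmin v (coefs (tw t (f i)))) := by
  have h1 : ∀ i, sInf ((fun a => (MldX.ofOld v).ord ((RMX.polyT t (f i)).coeff a)) ''
      (RMX.polyT t (f i)).coeff.support) = cmin v (coefs (tw t (f i))) := by
    intro i
    unfold RMM.cmin RMM.coefs
    rw [Set.image_image]
    rfl
  have h2 : (MldX.ofOld v).ord (mon t p) = v.ord (mon t p) := rfl
  unfold RMX.divOrdT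
  rw [MldX.formOrd_eq hd, h2]
  simp only [h1]
  ring

end TBN

theorem t_TBN : S_TBN := by
  intro F _ _ b n r B t f hd _ c l p
  refine ⟨?_, ?_⟩
  · intro h ω hω γ k a g u hk H
    have H' : RMX.EquationsT γ (MldX.ev ω) t f c l p k a (fun w => g w.old)
        (fun w => u w.old) :=
      ⟨H.h_ne, fun w => H.u_ne _, fun w => H.restr _, fun w => by
        obtain ⟨j, m, h1, h2⟩ := H.eqn w.old
        refine ⟨j, m, h1, fun v P hP hPm => ?_⟩
        have h3 := TBN.divOrdT_eq hd ω (t j) f c l p v.old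
        have h4 : MldX.ofOld v.old = v := rfl
        rw [h4] at h3
        rw [h3]
        exact h2 v.old P (MMCX.isPrimeDivisor_iff.2 hP) hPm⟩
    obtain ⟨h1, h2⟩ := h _ (RMX.isForm_ev hd hω) γ k a _ _ hk H'
    refine ⟨?_, ?_⟩
    · refine (h1.image MldX.DivVal.old).subset ?_
      intro w hw
      exact ⟨MldX.ofOld w, hw, rfl⟩
    · rw [MMCX.finsum_eq] at h2
      exact h2
  · intro h ω hω
    obtain ⟨k, N, s, hk, hs, h1, h2⟩ := h _ (RMX.isForm_ev hd hω)
    refine ⟨k, N, s, hk, hs, fun q j v P hP => ?_, fun j m hm => ?_⟩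
    · have h3 := h1 q j (MldX.ofOld v) P (MMCX.isPrimeDivisor_iff.1 hP)
      rw [TBN.divOrdT_eq hd] at h3
      exact h3
    · obtain ⟨q, h3⟩ := h2 j m hm
      refine ⟨q, fun v P hP hPm => ?_⟩
      have h4 := h3 (MldX.ofOld v) P (MMCX.isPrimeDivisor_iff.1 hP) hPm
      rw [TBN.divOrdT_eq hd] at h4
      exact h4

end

end RMT
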