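import Pool.Agent.RMT.St1

/-!
# TCA: the divisors `adjT` do not depend on the chart
-/

set_option autoImplicit false

namespace RMT

open MldGeo MMCI RMM

noncomputable section

theorem t_TCA : M_TCA := by
  intro hTCO F _ _ b n r B t ht f I k0 p v j j' P P' hP hP'
  have on : ∀ (j : Fin (B.N + 1)) (P : Ideal (B.ring j)), IsPrimeDivisor (B.ring j) v P →
      OnChart B v j := by
    intro j P hP c hc
    have h1 := hP.2.2.1 ⟨c, hc⟩
    rw [Algebra.algebraMap_self, RingHom.id_apply]
    exact Or.inr h1
  obtain ⟨-, h2, -, h4⟩ := hTCO (F := F) (K := F) B t ht v j j' (on j P hP) (on j' P' hP')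
  have e1 : v.ord (mon (t j) p) = v.ord (mon (t j') p) := by
    have := h2 p
    rwa [Algebra.algebraMap_self, RingHom.id_apply, RingHom.id_apply] at this
  have e2 : adj (fun i => coefs (tw (t j) (f i))) I v =
      adj (fun i => coefs (tw (t j') (f i))) I v := by
    unfold adj
    congr 1
    exact Finset.sum_congr rfl fun i _ => h4 (f i)
  refine ⟨e1, e2, ?_⟩
  unfold adjT
  rw [e1, e2]

end

end RMT
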