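import Pool.Agent.RMT.St1
import Pool.Agent.RMM.MCEN

/-!
# TCEN: the morphism from the model of the twisted system to `B` (as `RMM/MCEN.lean`)
-/

set_option autoImplicit false

namespace RMT

open MldGeo MMCI RMM

noncomputable section

namespace TCEN

theorem pair_sub' {n : ℕ} (w u u' : Fin n → ℤ) : pair w (u - u') = pair w u - pair w u' := by
  unfold pair
  rw [← Finset.sum_sub_distrib]
  refine Finset.sum_congr rfl fun i _ => ?_
  rw [Pi.sub_apply]
  ring

section

variable {F K : Type} [Field F] [Field K] [Algebra ℂ F] [Algebra ℂ K] [Algebra F K]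
  [IsScalarTower ℂ F K] {e' : ℕ}

/-- the orders of the `s_i / s_c` on the chart `c` -/
theorem chart (hXHM : S_XHM) (B : ProjModel F) (v : DivVal e' K) (c j : Fin (B.N + 1))
    (hc : OnChart B v c) (hj : v.ord (algebraMap F K (B.s j / B.s c)) = 0) : OnChart B v j := by
  obtain ⟨-, -, hon, -⟩ := hXHM (K := K) B (fun _ : Fin 0 => (1 : K)) (fun l => one_ne_zero)
  rw [hon]
  intro i
  have hs : ∀ i i', algebraMap F K (B.s i / B.s i') ≠ 0 := fun i i' h =>
    (div_ne_zero (B.ne i) (B.ne i')) ((map_eq_zero (algebraMap F K)).1 h)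
  have e1 : algebraMap F K (B.s i / B.s j) * algebraMap F K (B.s j / B.s c) =
      algebraMap F K (B.s i / B.s c) := by
    rw [← map_mul, div_mul_div_cancel₀ (B.ne j)]
  have h1 := v.ord_mul _ _ (hs i j) (hs j c)
  rw [e1, hj, add_zero] at h1
  rw [← h1]
  exact (hon v c).1 hc i

theorem chart2 (B : ProjModel F) (v : DivVal e' K) (c j j1 : Fin (B.N + 1))
    (hj : v.ord (algebraMap F K (B.s j / B.s c)) = 0)
    (hj1 : v.ord (algebraMap F K (B.s j1 / B.s c)) = 0) :
    v.ord (algebraMap F K (B.s j1 / B.s j)) = 0 := by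
  have hs : ∀ i i', algebraMap F K (B.s i / B.s i') ≠ 0 := fun i i' h =>
    (div_ne_zero (B.ne i) (B.ne i')) ((map_eq_zero (algebraMap F K)).1 h)
  have e1 : algebraMap F K (B.s j1 / B.s j) * algebraMap F K (B.s j / B.s c) =
      algebraMap F K (B.s j1 / B.s c) := by
    rw [← map_mul, div_mul_div_cancel₀ (B.ne j)]
  have h1 := v.ord_mul _ _ (hs j1 j) (hs j c)
  rw [e1, hj, hj1] at h1
  omega

end

end TCEN

open TCEN in
theorem t_TCEN : M_TCEN := by
  intro twa cht hXHM tlq F K _ _ _ _ _ _ e' n B t x A Y htr hx hTw hM i m hm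
  obtain ⟨k, hL, hMod⟩ := hM
  obtain ⟨hne, hq, hLg⟩ := tlq B t hTw k x hx A id
  have hLg := hLg hL
  obtain ⟨-, -, hon, -⟩ := hXHM B x hx
  have hmt : ∀ (j : Fin (B.N + 1)) (a : Fin n → ℤ), mon (t j) a ≠ 0 := fun j =>
    (twa (K := K) (t j) (hTw.ne j)).1
  have htx : ∀ j k, tx (t j) x k ≠ 0 := fun j => ((twa (K := K) (t j) (hTw.ne j)).2.2.2 x hx).1
  obtain ⟨⟨j1, j, a⟩, hpt⟩ := hMod.pt i m hm
  have hprime : m.IsPrime := hm.isPrime
  obtain ⟨hmono, -, hmord, -⟩ := t_FUL (tx (t j) x) (htx j)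
  have hs : ∀ i i', algebraMap F K (B.s i / B.s i') ≠ 0 := fun i i' h =>
    (div_ne_zero (B.ne i) (B.ne i')) ((map_eq_zero (algebraMap F K)).1 h)
  -- the quotients on the chart `j`
  have hq1 : ∀ (i' : Fin (B.N + 1)) (a' : A), tm B t k x A id (i', j, a') /
      tm B t k x A id (j1, j, a) = algebraMap F K (B.s i' / B.s j1) *
        mon (tx (t j) x) ((a' : Fin n → ℤ) - a) := by
    intro i' a'
    rw [hq j1 i' j j a a', div_self (B.ne j), one_pow, div_self (hmt j _), mul_one, mul_one]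
    rfl
  -- the centre
  have hcen : ∀ (v : DivVal e' K) (P : Ideal (Y.ring i)), HasCentre (Y.ring i) v P → P ≤ m →
      OnChart B v j ∧ OnChart B v j1 ∧ v.ord (algebraMap F K (B.s j1 / B.s j)) = 0 ∧
        MinAt A a (wt (tx (t j) x) v) := by
    intro v P hP hPm
    have h1 := (hpt v P hP hPm).1
    obtain ⟨c, hc⟩ := cht B v
    have hS : ∀ i', 0 ≤ v.ord (algebraMap F K (B.s i' / B.s c)) := (hon v c).1 hc
    obtain ⟨-, -, k', hk', hX⟩ := hLg c c j a
    set X : F := (B.s j / B.s c) ^ k' * (mon (t c) (id (a : Fin n → ℤ)) /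
      mon (t j) (id (a : Fin n → ℤ))) with hXd
    have hX0 : X ≠ 0 := mul_ne_zero (pow_ne_zero _ (div_ne_zero (B.ne _) (B.ne _)))
      (div_ne_zero (hmt _ _) (hmt _ _))
    have hXK : algebraMap F K X ≠ 0 := fun h => hX0 ((map_eq_zero (algebraMap F K)).1 h)
    have hXo : 0 ≤ v.ord (algebraMap F K X) := by
      rcases hc X hX with h | h
      · exact absurd h hXK
      · exact h
    have e1 : tm B t k x A id (j1, j, a) / tm B t k x A id (c, c, a) =
        algebraMap F K (B.s j1 / B.s c) * (algebraMap F K (B.s j / B.s c) ^ (k - k') *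
          algebraMap F K X) := by
      rw [hq c j1 c j a a, sub_self, (t_FUL (tx (t c) x) (htx c)).1.zero, mul_one, ← map_pow,
        ← map_mul, ← map_mul, hXd]
      congr 1
      have e2 : (B.s j / B.s c) ^ k = (B.s j / B.s c) ^ (k - k') * (B.s j / B.s c) ^ k' := by
        rw [← pow_add, Nat.sub_add_cancel hk'.le]
      rw [e2]
      ring
    have e3 : v.ord (tm B t k x A id (j1, j, a) / tm B t k x A id (c, c, a)) =
        v.ord (algebraMap F K (B.s j1 / B.s c)) +
          (((k - k' : ℕ) : ℤ) * v.ord (algebraMap F K (B.s j / B.s c)) +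
            v.ord (algebraMap F K X)) := by
      rw [e1, v.ord_mul _ _ (hs _ _) (mul_ne_zero (pow_ne_zero _ (hs _ _)) hXK),
        v.ord_mul _ _ (pow_ne_zero _ (hs _ _)) hXK, v.ord_pow]
    have e4 := h1 (c, c, a)
    rw [v.ord_div (hne _) (hne _)] at e3 e4
    have h2 := hS j1
    have h3 := hS j
    have hkk : (1 : ℤ) ≤ ((k - k' : ℕ) : ℤ) := by
      have : 1 ≤ k - k' := by omega
      exact_mod_cast this
    have h4 : v.ord (algebraMap F K (B.s j / B.s c)) ≤
        ((k - k' : ℕ) : ℤ) * v.ord (algebraMap F K (B.s j / B.s c)) :=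
      le_mul_of_one_le_left h3 hkk
    have h5 : v.ord (algebraMap F K (B.s j / B.s c)) = 0 := by omega
    have h6 : v.ord (algebraMap F K (B.s j1 / B.s c)) = 0 := by
      rw [h5, mul_zero] at e3
      omega
    refine ⟨chart hXHM B v c j hc h5, chart hXHM B v c j1 hc h6, chart2 B v c j j1 h5 h6,
      a.2, fun b hb => ?_⟩
    have h7 := h1 (j1, j, ⟨b, hb⟩)
    rw [hq1, div_self (B.ne j1), map_one, one_mul, (hmord v _).2, pair_sub'] at h7
    simp only at h7
    omega
  -- regular functions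
  have hreg : ∀ c : B.ring j, ∃ p q : Y.ring i, q ∉ m ∧ algebraMap F K c * q = p := by
    intro c
    refine LCM_holds Y htr hMod.normal i m hm _ fun v P hP hPm => ?_
    have h1 : HasCentre (Y.ring i) v P := ⟨hP.1, hP.2.2.1, hP.2.2.2⟩
    exact (hcen v P h1 hPm).1 c c.2
  -- the ideal
  let mB : Ideal (B.ring j) :=
    { carrier := {c | ∃ p q : Y.ring i, q ∉ m ∧ algebraMap F K c * q = p ∧ p ∈ m}
      zero_mem' := by
        refine ⟨0, 1, ?_, ?_, m.zero_mem⟩
        · exact (Ideal.ne_top_iff_one m).1 hprime.ne_top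
        · simp
      add_mem' := by
        rintro c c' ⟨p, q, hq, h, hp⟩ ⟨p', q', hq', h', hp'⟩
        refine ⟨p * q' + p' * q, q * q', ?_, ?_, ?_⟩
        · exact fun hc => (hprime.mem_or_mem hc).elim hq hq'
        · show algebraMap F K ((c : F) + (c' : F)) * ((q : K) * (q' : K)) =
            (p : K) * (q' : K) + (p' : K) * (q : K)
          rw [map_add, ← h, ← h']
          ring
        · exact m.add_mem (Ideal.mul_mem_right _ _ hp) (Ideal.mul_mem_right _ _ hp')
      smul_mem' := by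
        rintro c c' ⟨p', q', hq', h', hp'⟩
        obtain ⟨p, q, hq, h⟩ := hreg c
        refine ⟨p * p', q * q', ?_, ?_, Ideal.mul_mem_left _ _ hp'⟩
        · exact fun hc => (hprime.mem_or_mem hc).elim hq hq'
        · show algebraMap F K ((c : F) * (c' : F)) * ((q : K) * (q' : K)) = (p : K) * (p' : K)
          rw [map_mul, ← h, ← h']
          ring }
  have hmB : ∀ c : B.ring j, c ∈ mB ↔ ∃ p q : Y.ring i, q ∉ m ∧ algebraMap F K c * q = p ∧ p ∈ m :=
    fun c => Iff.rfl
  have hres : ∀ (c : B.ring j) (p q : Y.ring i), q ∉ m → algebraMap F K c * q = p →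
      (p ∈ m ↔ c ∈ mB) := by
    intro c p q hq h
    rw [hmB]
    constructor
    · intro hp
      exact ⟨p, q, hq, h, hp⟩
    · rintro ⟨p', q', hq', h', hp'⟩
      exact MCEN.indep hprime hq' h' h hp'
  have hone : (1 : B.ring j) ∉ mB := by
    rw [← hres 1 1 1 ?_ ?_]
    · exact (Ideal.ne_top_iff_one m).1 hprime.ne_top
    · exact (Ideal.ne_top_iff_one m).1 hprime.ne_top
    · simp
  have hconst : ∀ c : B.ring j, ∃ z : ℂ, c - algebraMap ℂ (B.ring j) z ∈ mB := by
    intro c
    obtain ⟨p, q, hq, h⟩ := hreg c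
    obtain ⟨l, hl⟩ := MCEN.exists_const (Y.ring i) (t_FRC Y i).1 m hm p
    obtain ⟨u, hu⟩ := MCEN.exists_const (Y.ring i) (t_FRC Y i).1 m hm q
    have hu0 : u ≠ 0 := by
      rintro rfl
      rw [map_zero, sub_zero] at hu
      exact hq hu
    refine ⟨l / u, ?_⟩
    rw [← hres _ (p - algebraMap ℂ (Y.ring i) (l / u) * q) q hq ?_]
    · have h1 : p - algebraMap ℂ (Y.ring i) (l / u) * q =
          (p - algebraMap ℂ (Y.ring i) l) -
            algebraMap ℂ (Y.ring i) (l / u) * (q - algebraMap ℂ (Y.ring i) u) := by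
        rw [mul_sub, ← map_mul, div_mul_cancel₀ _ hu0]
        ring
      rw [h1]
      exact m.sub_mem hl (Ideal.mul_mem_left _ _ hu)
    · show algebraMap F K ((c : F) - algebraMap ℂ F (l / u)) * (q : K) =
        (p : K) - algebraMap ℂ K (l / u) * (q : K)
      rw [map_sub, ← h, ← IsScalarTower.algebraMap_apply ℂ F K]
      ring
  have hmax : mB.IsMaximal := by
    rw [Ideal.isMaximal_iff]
    refine ⟨hone, fun J c hJ hc hcJ => ?_⟩
    obtain ⟨z, hz⟩ := hconst c
    have hz0 : z ≠ 0 := by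
      rintro rfl
      rw [map_zero, sub_zero] at hz
      exact hc hz
    have h1 : algebraMap ℂ (B.ring j) z ∈ J := by
      have h2 := J.sub_mem hcJ (hJ hz)
      rwa [sub_sub_cancel] at h2
    have h3 : (1 : B.ring j) = algebraMap ℂ (B.ring j) z⁻¹ * algebraMap ℂ (B.ring j) z := by
      rw [← map_mul, inv_mul_cancel₀ hz0, map_one]
    rw [h3]
    exact Ideal.mul_mem_left _ _ h1
  refine ⟨j, j1, mB, a, hmax, a.2, ?_, ?_⟩
  · intro c
    obtain ⟨p, q, hq, h⟩ := hreg c
    exact ⟨p, q, hq, h, hres c p q hq h⟩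
  · intro v P hP hPm
    obtain ⟨-, h2⟩ := hpt v P hP hPm
    obtain ⟨h3, h3', h3'', h4⟩ := hcen v P hP hPm
    refine ⟨⟨h3, ?_⟩, h3', h4, ?_, ?_⟩
    · intro c hc
      obtain ⟨p, q, hq, h⟩ := hreg c
      rw [← hres c p q hq h]
      refine hPm ?_
      have hqP : q ∉ P := fun hc => hq (hPm hc)
      rw [hP.2.2 q] at hqP
      push Not at hqP
      have hq0 : v.ord (q : K) = 0 := le_antisymm hqP.2 (hP.2.1 q)
      have h5 : v.Ge 1 (p : K) := by
        rw [← h]
        have h6 := hc.mul (DivVal.Ge.self v (q : K))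
        rwa [hq0, add_zero] at h6
      rw [hP.2.2 p]
      rcases h5 with h5 | h5
      · left
        exact Subtype.ext h5
      · right
        omega
    · intro hht
      obtain ⟨l', hri⟩ := h2.1 hht
      refine ⟨fun q => B.s (l' q).1 / B.s j1 * ((B.s (l' q).2.1 / B.s j) ^ k *
        (mon (t j) (((l' q).2.2 : A) : Fin n → ℤ) /
          mon (t (l' q).2.1) (((l' q).2.2 : A) : Fin n → ℤ))),
        fun q => (l' q).2.2, fun q => ⟨(l' q).2.2.2, ?_, ?_⟩, ?_⟩
      · exact mul_ne_zero (div_ne_zero (B.ne _) (B.ne _))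
          (mul_ne_zero (pow_ne_zero _ (div_ne_zero (B.ne _) (B.ne _)))
            (div_ne_zero (hmt _ _) (hmt _ _)))
      · obtain ⟨hm1, -⟩ := hLg (l' q).1 j (l' q).2.1 (l' q).2.2
        refine ⟨j, h3, _, hm1, B.s j1 / B.s j, Algebra.subset_adjoin ⟨j1, rfl⟩,
          div_ne_zero (B.ne _) (B.ne _), h3'', ?_⟩
        simp only [id]
        have e1 := B.ne j1
        have e2 := B.ne j
        field_simp
      · have h6 : (fun q => algebraMap F K (B.s (l' q).1 / B.s j1 * ((B.s (l' q).2.1 / B.s j) ^ k *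
            (mon (t j) (((l' q).2.2 : A) : Fin n → ℤ) /
              mon (t (l' q).2.1) (((l' q).2.2 : A) : Fin n → ℤ)))) *
              mon (tx (t j) x) ((((l' q).2.2 : A) : Fin n → ℤ) - a)) =
            fun q => tm B t k x A id (l' q) / tm B t k x A id (j1, j, a) := by
          funext q
          exact (hq j1 (l' q).1 j (l' q).2.1 a (l' q).2.2).symm
        rw [h6]
        exact hri
    · intro c b hb hri
      refine h2.2 ⟨fun q => (c q, j, ⟨b q, hb q⟩), ?_⟩
      have h6 : (fun q => tm B t k x A id (c q, j, ⟨b q, hb q⟩) / tm B t k x A id (j1, j, a)) =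
          fun q => algebraMap F K (B.s (c q) / B.s j1) * mon (tx (t j) x) (b q - a) := by
        funext q
        exact hq1 (c q) ⟨b q, hb q⟩
      rw [h6]
      exact hri

end

end RMT
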