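import Pool.Agent.RMT.St1
import Pool.Agent.RMM.RCMQ

/-!
# Twisted relative minimal models: comparison of equations along a curve (helper48)
-/

set_option autoImplicit false

namespace RMT

open MldGeo MMCI RMM

noncomputable section

namespace TCMQ

/-- the quotient of two equations -/
theorem quot {F K : Type} [Field F] [Field K] [Algebra F K] {n : ℕ} {t t' : Fin n → F}
    {y y' z : Fin n → K} (hmono : Mono (mon y)) (hy' : ∀ j, y' j ≠ 0)
    (hmono' : Mono (mon y')) (ht' : ∀ a, mon t' a ≠ 0)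
    (h1 : ∀ a, mon y a * algebraMap F K (mon t a) = mon z a)
    (h2 : ∀ a, mon y' a * algebraMap F K (mon t' a) = mon z a)
    (κ k : ℕ) {c : K} (hc : c ≠ 0) (G G' : F) (u u' : Fin n → ℤ) :
    (c * eqq κ k y G u) / (c * eqq κ k y' G' u') =
      algebraMap F K (gT t κ k G u' / gT t' κ k G' u') * mon y ((κ : ℤ) • (u' - u)) := by
  rw [mul_div_mul_left _ _ hc]
  unfold eqq gT
  have e1 : mon y ((κ : ℤ) • (u' - u)) = mon y ((κ : ℤ) • u') * mon y (-((κ : ℤ) • u)) := by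
    rw [← hmono.add]
    congr 1
    rw [smul_sub]
    abel
  have e2 : mon y' ((κ : ℤ) • u') * mon y' (-((κ : ℤ) • u')) = 1 := by
    rw [← hmono'.add, add_neg_cancel]
    unfold mon
    simp
  have e3 := (h1 ((κ : ℤ) • u')).trans (h2 ((κ : ℤ) • u')).symm
  have n1 : algebraMap F K (mon t' ((κ : ℤ) • u')) ≠ 0 := by
    rw [Ne, map_eq_zero]
    exact ht' _
  have n2 : mon y' ((κ : ℤ) • u') ≠ 0 := FBN.mon_ne hy' _
  have n3 : mon y' (-((κ : ℤ) • u')) ≠ 0 := FBN.mon_ne hy' _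
  have e4 : (mon y' (-((κ : ℤ) • u')))⁻¹ = mon y' ((κ : ℤ) • u') := by
    rw [inv_eq_iff_eq_inv]
    exact eq_inv_of_mul_eq_one_right e2
  rw [e1, map_div₀, map_mul, map_mul, map_pow, map_pow, div_eq_mul_inv, mul_inv, e4]
  have e5 : mon y' ((κ : ℤ) • u') = mon y ((κ : ℤ) • u') * algebraMap F K (mon t ((κ : ℤ) • u')) /
      algebraMap F K (mon t' ((κ : ℤ) • u')) := by
    rw [eq_div_iff n1, ← e3]
  rw [e5]
  simp only [div_eq_mul_inv, mul_inv]
  ring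

end TCMQ

open TCMQ in
/-- TCMQ: comparison of equations along a curve. -/
theorem t_TCMQ : M_TCMQ := by
  intro hTWA hTPT F K _ _ _ _ _ _ e' n r B t κ b y0 β f x hdat D ω Y hR hM ω' hω' γ k h g u
    hk hEq
  classical
  obtain ⟨q, hq, -, hqord⟩ := t_CHW hdat.dim hdat.pos ω ω' hR.ne hω'
  obtain ⟨S, hS⟩ := hTPT B t κ b y0 β f x hdat D ω Y hR hM
  obtain ⟨k', -, hmod⟩ := hM
  have hT : ∀ j : Fin (B.N + 1), (∀ a : Fin n → ℤ, mon (t j) a ≠ 0) ∧ (∀ l, tx (t j) x l ≠ 0) ∧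
      (∀ a, mon (tx (t j) x) a * algebraMap F K (mon (t j) a) = mon x a) ∧
      Mono (mon (tx (t j) x)) := by
    intro j
    obtain ⟨h1, -, -, h2⟩ := hTWA (F := F) (K := K) (t j) (hdat.twist.ne j)
    obtain ⟨h3, h4, -, -⟩ := h2 x hdat.ne
    exact ⟨h1, h3, h4, (t_FUL _ h3).1⟩
  have hpt : ∀ i (m : Ideal (Y.ring i)), ∃ (j : Fin (B.N + 1)) (mB : Ideal (B.ring j))
      (a : Fin n → ℤ) (G : F), m.IsMaximal → G ∈ S ∧
        IsPt B κ y0 (fun i => coefs (tw (t j) (f i))) (tx (t j) x) D.A D.k D.u ω Y i m j mB a G := by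
    intro i m
    by_cases hm : m.IsMaximal
    · obtain ⟨j, mB, a, G, h1, h2⟩ := hS i m hm
      exact ⟨j, mB, a, G, fun _ => ⟨h1, h2⟩⟩
    · exact ⟨0, ⊥, 0, 1, fun h => absurd h hm⟩
  choose jj mB aa G hpt using hpt
  have hkκ : 0 < D.k * κ := Nat.mul_pos D.k_pos hdat.base.κ_pos
  obtain ⟨w₀, i, m, U, hmap, hU, hfin1, hfin2, hsum⟩ := CMP_holds Y hdat.dim hmod.normal ω'
    (D.k * κ)
    (fun i m => q ^ (D.k * κ) * eqq κ D.k (tx (t (jj i m)) x) (G i m) (D.u (aa i m)))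
    ((S ×ˢ (D.A ×ˢ (Finset.univ : Finset (Fin (B.N + 1))))).image fun p =>
      q ^ (D.k * κ) * eqq κ D.k (tx (t p.2.2) x) p.1 (D.u p.2.1)) hkκ (by
      intro i m hm
      obtain ⟨h1, h2⟩ := hpt i m hm
      have hne : eqq κ D.k (tx (t (jj i m)) x) (G i m) (D.u (aa i m)) ≠ 0 := by
        unfold eqq
        refine mul_ne_zero (pow_ne_zero _ ?_) (FBN.mon_ne (hT (jj i m)).2.1 _)
        rw [Ne, map_eq_zero]
        exact h2.G_ne
      refine ⟨mul_ne_zero (pow_ne_zero _ hq) hne,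
        Finset.mem_image.2 ⟨(G i m, aa i m, jj i m), Finset.mem_product.2 ⟨h1,
          Finset.mem_product.2 ⟨h2.mem, Finset.mem_univ _⟩⟩, rfl⟩, ?_⟩
      intro v P hP hPm
      obtain ⟨-, -, -, h3⟩ := h2.ctr v P ⟨hP.1, hP.2.2.1, hP.2.2.2⟩ hPm
      have h4 := h3.2 hP.2.1
      rw [v.ord_mul _ _ (pow_ne_zero _ hq) hne, FBN.ord_pow v hq, hqord, mul_add]
      omega) γ k h g u hk hEq
  refine ⟨w₀, i, m, fun w => jj (i w) (m w), fun w => mB (i w) (m w), fun w => aa (i w) (m w),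
    fun w => G (i w) (m w), U, hmap, fun w => (hpt _ _ (hmap w).1).2, ?_, hfin1, hfin2, hsum⟩
  intro w
  refine ⟨(hU w).1, ?_⟩
  have h1 := (hU w).2
  rw [quot (hT (jj (i w) (m w))).2.2.2 (hT (jj (i w₀) (m w₀))).2.1
    (hT (jj (i w₀) (m w₀))).2.2.2 (hT (jj (i w₀) (m w₀))).1
    (hT (jj (i w) (m w))).2.2.1 (hT (jj (i w₀) (m w₀))).2.2.1 κ D.k (pow_ne_zero _ hq)] at h1
  exact h1

end

end RMT
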