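import Pool.Agent.RMT.St1
import Pool.Agent.MldGeo.Ord

/-!
# TCO: on the intersection of two charts nothing depends on the chart
-/

set_option autoImplicit false

namespace RMT

open MldGeo MMCI RMM

noncomputable section

namespace TCO

variable {F K : Type} [Field F] [Field K] [Algebra ℂ F] [Algebra ℂ K] [Algebra F K]
  [IsScalarTower ℂ F K] {e' n : ℕ}

theorem alg_ne {a : F} (ha : a ≠ 0) : algebraMap F K a ≠ 0 := by
  rw [Ne, map_eq_zero]
  exact ha

theorem nonneg {B : ProjModel F} {v : DivVal e' K} {j : Fin (B.N + 1)} (h : OnChart B v j) {c : F}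
    (hc : c ∈ B.ring j) (h0 : c ≠ 0) : 0 ≤ v.ord (algebraMap F K c) :=
  (h c hc).resolve_left (alg_ne h0)

theorem ord_mon (v : DivVal e' K) (t : Fin n → F) (ht : ∀ k, t k ≠ 0) (a : Fin n → ℤ) :
    v.ord (algebraMap F K (mon t a)) = ∑ k, a k * v.ord (algebraMap F K (t k)) := by
  unfold mon
  rw [map_prod, v.ord_prod]
  · refine Finset.sum_congr rfl fun k _ => ?_
    rw [map_zpow₀, v.ord_zpow]
  · intro k _
    rw [map_zpow₀]
    exact zpow_ne_zero _ (alg_ne (ht k))

theorem mem_ring (B : ProjModel F) (i l : Fin (B.N + 1)) : B.s l / B.s i ∈ B.ring i :=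
  Algebra.subset_adjoin ⟨l, rfl⟩

theorem ord_s {B : ProjModel F} {v : DivVal e' K} {j j' : Fin (B.N + 1)} (h1 : OnChart B v j)
    (h2 : OnChart B v j') : v.ord (algebraMap F K (B.s j' / B.s j)) = 0 := by
  have n1 : B.s j' / B.s j ≠ 0 := div_ne_zero (B.ne j') (B.ne j)
  have n2 : B.s j / B.s j' ≠ 0 := div_ne_zero (B.ne j) (B.ne j')
  have k1 := nonneg h1 (mem_ring B j j') n1
  have k2 := nonneg h2 (mem_ring B j' j) n2
  have k3 : B.s j / B.s j' = (B.s j' / B.s j)⁻¹ := (inv_div _ _).symm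
  rw [k3, map_inv₀, v.ord_inv] at k2
  omega

theorem ord_t {B : ProjModel F} {t : Fin (B.N + 1) → Fin n → F} (hT : IsTwist B t)
    {v : DivVal e' K} {j j' : Fin (B.N + 1)} (h1 : OnChart B v j) (h2 : OnChart B v j')
    (k : Fin n) : v.ord (algebraMap F K (t j k)) = v.ord (algebraMap F K (t j' k)) := by
  obtain ⟨d, hd⟩ := hT.unit
  have hs := ord_s h1 h2
  have ns : B.s j' / B.s j ≠ 0 := div_ne_zero (B.ne j') (B.ne j)
  have key : ∀ a b : F, a ≠ 0 → b ≠ 0 → a / b * (B.s j' / B.s j) ^ d ∈ B.ring j →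
      v.ord (algebraMap F K b) ≤ v.ord (algebraMap F K a) := by
    intro a b ha hb hm
    have k1 := nonneg h1 hm (mul_ne_zero (div_ne_zero ha hb) (pow_ne_zero _ ns))
    rw [map_mul, map_div₀, map_pow, v.ord_mul _ _ (div_ne_zero (alg_ne ha) (alg_ne hb))
      (pow_ne_zero _ (alg_ne ns)), v.ord_div (alg_ne ha) (alg_ne hb), v.ord_pow, hs, mul_zero,
      add_zero] at k1
    omega
  exact le_antisymm (key _ _ (hT.ne j' k) (hT.ne j k) (hd j j' k).1)
    (key _ _ (hT.ne j k) (hT.ne j' k) (hd j j' k).2)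

end TCO

open TCO in
theorem t_TCO : M_TCO := by
  intro hTWA F K _ _ _ _ _ _ e' n B t hT v j j' h1 h2
  have ht : ∀ k, v.ord (algebraMap F K (t j k)) = v.ord (algebraMap F K (t j' k)) :=
    ord_t hT h1 h2
  have hm : ∀ a : Fin n → ℤ, v.ord (algebraMap F K (mon (t j) a)) =
      v.ord (algebraMap F K (mon (t j') a)) := by
    intro a
    rw [ord_mon v (t j) (hT.ne j), ord_mon v (t j') (hT.ne j')]
    exact Finset.sum_congr rfl fun k _ => by rw [ht k]
  refine ⟨ord_s h1 h2, hm, ?_, ?_⟩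
  · intro x hx
    funext k
    show v.ord (x k / algebraMap F K (t j k)) = v.ord (x k / algebraMap F K (t j' k))
    rw [v.ord_div (hx k) (alg_ne (hT.ne j k)), v.ord_div (hx k) (alg_ne (hT.ne j' k)), ht k]
  · intro f
    obtain ⟨a1, a2, -⟩ := hTWA (K := K) (t j) (hT.ne j)
    obtain ⟨b1, b2, -⟩ := hTWA (K := K) (t j') (hT.ne j')
    have key : (fun c => v.ord (algebraMap F K c)) '' coefs (tw (t j) f) =
        (fun c => v.ord (algebraMap F K c)) '' coefs (tw (t j') f) := by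
      unfold coefs
      rw [Set.image_image, Set.image_image, (a2 f).2.1, (b2 f).2.1]
      refine Set.image_congr fun a ha => ?_
      have hne : f.coeff a ≠ 0 := Finsupp.mem_support_iff.1 ha
      rw [(a2 f).1 a, (b2 f).1 a, map_mul, map_mul, v.ord_mul _ _ (alg_ne hne) (alg_ne (a1 a)),
        v.ord_mul _ _ (alg_ne hne) (alg_ne (b1 a)), hm a]
    unfold cmin
    rw [key]

end

end RMT
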