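import Pool.Agent.RMT.TCVX

/-!
# Torus bundles, block V: the semiample version of `TCVX` (module of helper5)
-/

set_option autoImplicit false

namespace RMT

open MldGeo MMCI RMM TCVX

noncomputable section

theorem t_TCVS : M_TCVS := by
  intro tfk tnsc tsad tle F _ _ b n r B t f htw hf hbpf hK hE I k0 p hk0 hIn
  obtain ⟨M, c, hM, hc1, hc2⟩ := tfk f hf I k0 p hk0 hIn
  obtain ⟨-, hT2⟩ := tle (b := b) B t f htw hf hbpf
  have h0 : SemC B (M * k0) (fun (_ : Fin (B.N + 1)) (_ : DivVal b F) => (0 : ℤ)) := by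
    have h := (tnsc (b := b) B 1 (M * k0) (fun _ _ => 0) (Nat.mul_pos hM hk0)).2.2 hK
    simpa using h
  have h1 := outer (fun D : Fin (B.N + 1) → DivVal b F → ℤ => SemC B (M * k0) D) I
    (fun i => (f i).coeff.support) (fun i a => adjT b B t f {i} 1 a) c (by
      intro i _ a ha D hD
      exact tsad B (M * k0) D (adjT b B t f {i} 1 a) hD (hE i a ha)) h0
  have e : (fun j v => ∑ i ∈ I, ∑ a ∈ (f i).coeff.support,
      (c i a : ℤ) * adjT b B t f {i} 1 a j v) = fun j v => (M : ℤ) * adjT b B t f I k0 p j v := by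
    funext j v
    exact hT2 I k0 M p c hc1 hc2 j v

  rw [e] at h1
  exact (tnsc (b := b) B k0 M (adjT b B t f I k0 p) hM).2.1 h1

end

end RMT
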