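import Pool.Agent.RMT.StV

/-!
# Torus bundles, block V: the hypothesis (N) from the nefness (semiampleness) of `K_B` and of the
divisors `L_i + ⟨a, D⟩` (module of helper5)
-/

set_option autoImplicit false

namespace RMT

open MldGeo MMCI RMM

noncomputable section

namespace TCVX

variable {X Y ι κ : Type}

theorem mult (G : (X → Y → ℤ) → Prop) (E : X → Y → ℤ)
    (hG : ∀ D : X → Y → ℤ, G D → G fun j v => D j v + E j v) (q : ℕ) (D : X → Y → ℤ) (hD : G D) :
    G fun j v => D j v + (q : ℤ) * E j v := by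
  induction q with
  | zero => simpa using hD
  | succ q ih =>
    have h := hG _ ih
    have e : (fun j v => D j v + (q : ℤ) * E j v + E j v) =
        fun j v => D j v + ((q + 1 : ℕ) : ℤ) * E j v := by
      funext j v
      push_cast
      ring
    rwa [e] at h

theorem inner (G : (X → Y → ℤ) → Prop) (s : Finset κ) (E : κ → X → Y → ℤ) (c : κ → ℕ)
    (hG : ∀ a ∈ s, ∀ D : X → Y → ℤ, G D → G fun j v => D j v + E a j v) (D : X → Y → ℤ) (hD : G D) :
    G fun j v => D j v + ∑ a ∈ s, (c a : ℤ) * E a j v := by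
  classical
  induction s using Finset.induction_on with
  | empty => simpa using hD
  | insert a s ha ih =>
    have h1 := ih fun a' ha' => hG a' (Finset.mem_insert_of_mem ha')
    have h2 := mult G (E a) (hG a (Finset.mem_insert_self a s)) (c a) _ h1
    have e : (fun j v => D j v + ∑ a ∈ s, (c a : ℤ) * E a j v + (c a : ℤ) * E a j v) =
        fun j v => D j v + ∑ a ∈ insert a s, (c a : ℤ) * E a j v := by
      funext j v
      rw [Finset.sum_insert ha]
      ring
    rwa [e] at h2

theorem outer (G : (X → Y → ℤ) → Prop) (I : Finset ι) (s : ι → Finset κ) (E : ι → κ → X → Y → ℤ)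
    (c : ι → κ → ℕ)
    (hG : ∀ i ∈ I, ∀ a ∈ s i, ∀ D : X → Y → ℤ, G D → G fun j v => D j v + E i a j v)
    (h0 : G fun _ _ => 0) :
    G fun j v => ∑ i ∈ I, ∑ a ∈ s i, (c i a : ℤ) * E i a j v := by
  classical
  induction I using Finset.induction_on with
  | empty => simpa using h0
  | insert i I hi ih =>
    have h1 := ih fun i' hi' => hG i' (Finset.mem_insert_of_mem hi')
    have h2 := inner G (s i) (E i) (c i) (hG i (Finset.mem_insert_self i I)) _ h1
    have e : (fun j v => ∑ i ∈ I, ∑ a ∈ s i, (c i a : ℤ) * E i a j v +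
        ∑ a ∈ s i, (c i a : ℤ) * E i a j v) =
        fun j v => ∑ i ∈ insert i I, ∑ a ∈ s i, (c i a : ℤ) * E i a j v := by
      funext j v
      rw [Finset.sum_insert hi]
      ring
    rwa [e] at h2

end TCVX

open TCVX

theorem t_TCVX : M_TCVX := by
  intro tfk tnsc tadd tle F _ _ b n r B t f htr hint htw hf hbpf hK hE I k0 p hk0 hIn
  obtain ⟨M, c, hM, hc1, hc2⟩ := tfk f hf I k0 p hk0 hIn
  obtain ⟨hT1, hT2⟩ := tle (b := b) B t f htw hf hbpf
  have h0 : NefC B (M * k0) (fun (_ : Fin (B.N + 1)) (_ : DivVal b F) => (0 : ℤ)) := by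
    have h := (tnsc (b := b) B 1 (M * k0) (fun _ _ => 0) (Nat.mul_pos hM hk0)).1.2 hK
    simpa using h
  have h1 := outer (fun D : Fin (B.N + 1) → DivVal b F → ℤ => NefC B (M * k0) D) I
    (fun i => (f i).coeff.support) (fun i a => adjT b B t f {i} 1 a) c (by
      intro i _ a ha D hD
      exact tadd B htr hint (M * k0) D (adjT b B t f {i} 1 a) (hT1 i a).1 (hT1 i a).2 hD
        (hE i a ha)) h0
  have e : (fun j v => ∑ i ∈ I, ∑ a ∈ (f i).coeff.support,
      (c i a : ℤ) * adjT b B t f {i} 1 a j v) = fun j v => (M : ℤ) * adjT b B t f I k0 p j v := by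
    funext j v
    exact hT2 I k0 M p c hc1 hc2 j v

  rw [e] at h1
  exact (tnsc (b := b) B k0 M (adjT b B t f I k0 p) hM).1.1 h1

end

end RMT
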