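import Pool.Agent.RMT.St2
import Pool.Agent.RMM.RFAA

/-!
# Torus bundles, module TFAA: the case of a nonempty Fine interior
-/

set_option autoImplicit false

namespace RMT

open MldGeo MMCI RMM

theorem t_TFAA : M_TFAA := by
  intro hfaa hrfn hrsp hlog hmd hter hsem hnef huf F K _ _ _ _ _ _ b e n r B κ y0 β t f x hpos
    hdim hB hS hF hN
  obtain ⟨ω, hω⟩ := hlog B t κ y0 β f x hpos hdim hB hS
  obtain ⟨D⟩ := RFAA.fan hfaa hrfn (fun i => supp0 (f i)) (fun i => (hrsp (f i)).2.1 (hS.f_ne i))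
    hF
  obtain ⟨Y, hY⟩ := hmd B t x hpos hdim hS.ne hS.gen hS.twist D.A D.nonempty D.full
  have hD : DatT B t κ b y0 β f x := ⟨hpos, hdim, hS.ne, hS.twist, hS.bpf, hB⟩
  exact ⟨Y, hter B t κ b y0 β f x hD D.toFan ω Y hω hY,
    hnef B t κ b y0 β f x hD D (fun a ha => hN D.k (D.u a) D.k_pos (huf f D a ha).1) ω Y hω hY,
    fun hs => hsem B t κ b y0 β f x hD D
      (fun a ha => hs D.k (D.u a) D.k_pos (huf f D a ha).1) ω Y hω hY⟩

end RMT
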