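import Pool.Agent.RMT.St1
import Pool.Agent.RMM.RFBM

/-!
# Torus bundles, module TFBM: the morphism of the Mori fibre space
-/

set_option autoImplicit false

namespace RMT

open MldGeo MMCI RMM

noncomputable section

theorem t_TFBM : M_TFBM := by
  intro hTWA hTLG hTLQ hTPT F K _ _ _ _ _ _ e' n r B t κ b y0 β f x hD D ω Y hω hY htd
  obtain ⟨k, hk⟩ := hTLG B t hD.twist D.A D.b
  obtain ⟨hne, hquo, hlar⟩ := hTLQ B t hD.twist k x hD.ne D.A D.b
  obtain ⟨S, hS⟩ := hTPT B t κ b y0 β f x hD D.toFan ω Y hω hY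
  obtain ⟨kY, -, hYm⟩ := hY
  have inj : ∀ {c : F}, c ≠ 0 → algebraMap F K c ≠ 0 := fun {c} hc =>
    (map_ne_zero_iff _ (algebraMap F K).injective).2 hc
  have hmt : ∀ j a, mon (t j) a ≠ 0 := fun j a =>
    (hTWA (F := F) (K := K) (t j) (hD.twist.ne j)).1 a
  have hch : ∀ j a, mon (tx (t j) x) a * algebraMap F K (mon (t j) a) = mon x a := fun j a =>
    ((hTWA (F := F) (K := K) (t j) (hD.twist.ne j)).2.2.2 x hD.ne).2.1 a
  have htx : ∀ j k, tx (t j) x k ≠ 0 := fun j k => div_ne_zero (hD.ne k) (inj (hD.twist.ne j k))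
  obtain ⟨a1, ha1⟩ := D.nonempty
  have hpos : 0 < Fintype.card (Fin (B.N + 1) × Fin (B.N + 1) × {a // a ∈ D.A}) :=
    Fintype.card_pos_iff.2 ⟨(0, 0, ⟨a1, ha1⟩)⟩
  obtain ⟨M, hM⟩ : ∃ M, Fintype.card (Fin (B.N + 1) × Fin (B.N + 1) × {a // a ∈ D.A}) = M + 1 :=
    ⟨Fintype.card (Fin (B.N + 1) × Fin (B.N + 1) × {a // a ∈ D.A}) - 1, by omega⟩
  let φ : Fin (M + 1) ≃ Fin (B.N + 1) × Fin (B.N + 1) × {a // a ∈ D.A} :=
    (Fintype.equivFinOfCardEq hM).symm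
  refine ⟨k, hk, M, fun l => tm B t k x D.A D.b (φ l), fun l => ⟨φ l, rfl⟩,
    fun l' => ⟨φ.symm l', by simp only [Equiv.apply_symm_apply]⟩, ?_, fun i m hm => ?_⟩
  · refine (RFBM.trdeg_le ?_).trans_lt htd
    rintro _ ⟨l, rfl⟩
    change tm B t k x D.A D.b (φ l) / tm B t k x D.A D.b (φ 0) ∈ Fb (F := F) x D.A D.b
    obtain ⟨i', j', a'⟩ := φ l
    obtain ⟨i, j, a⟩ := φ 0
    rw [hquo i i' j j' a a']
    refine mul_mem (S := IntermediateField ℂ K) ?_ ?_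
    · exact IntermediateField.subset_adjoin ℂ _ (Or.inl ⟨_, rfl⟩)
    · have h1 : mon (tx (t j) x) (D.b a' - D.b a) = mon x (D.b a' - D.b a) /
          algebraMap F K (mon (t j) (D.b a' - D.b a)) := by
        rw [← hch j, mul_div_cancel_right₀ _ (inj (hmt _ _))]
      rw [h1]
      refine div_mem (S := IntermediateField ℂ K) ?_ ?_
      · exact IntermediateField.subset_adjoin ℂ _ (Or.inr ⟨a', a'.2, a, a.2, rfl⟩)
      · exact IntermediateField.subset_adjoin ℂ _ (Or.inl ⟨_, rfl⟩)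
  · obtain ⟨j, mB, a, G, -, hpt⟩ := hS i m hm
    refine ⟨φ.symm (j, j, ⟨a, hpt.mem⟩), fun l => ?_⟩
    change ∃ p q : Y.ring i, q ∉ m ∧ tm B t k x D.A D.b (φ l) /
      tm B t k x D.A D.b (φ (φ.symm (j, j, ⟨a, hpt.mem⟩))) * q = p
    rw [Equiv.apply_symm_apply]
    obtain ⟨i', j', a'⟩ := φ l
    rw [hquo j i' j j' ⟨a, hpt.mem⟩ a']
    have hc := (hlar hk i' j j' a').1
    have hc0 : B.s i' / B.s j * ((B.s j' / B.s j) ^ k *
        (mon (t j) (D.b a') / mon (t j') (D.b a'))) ≠ 0 :=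
      mul_ne_zero (div_ne_zero (B.ne _) (B.ne _)) (mul_ne_zero
        (pow_ne_zero _ (div_ne_zero (B.ne _) (B.ne _))) (div_ne_zero (hmt _ _) (hmt _ _)))
    obtain ⟨hmono, -, hord, -⟩ := t_FUL (tx (t j) x) (htx j)
    have h0 : ∀ m, mon (tx (t j) x) m ≠ 0 := fun m =>
      Finset.prod_ne_zero_iff.2 fun i _ => zpow_ne_zero _ (htx j i)
    refine t_LCM t_FRC Y hD.dim hYm.normal i m hm _ fun v P hP hPm => ?_
    right
    obtain ⟨hP1, hP2, hP3, hP4⟩ := hP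
    obtain ⟨hthr, hmin, -⟩ := hpt.ctr v P ⟨hP1, hP3, hP4⟩ hPm
    have h2 := D.nef (wt (tx (t j) x) v) a a' hmin a'.2
    have h3 := (hthr.1 _ hc).resolve_left (inj hc0)
    have e2 : mon (tx (t j) x) (D.b a' - D.b a) =
        mon (tx (t j) x) (D.b a') / mon (tx (t j) x) (D.b a) := by
      rw [eq_div_iff (h0 _), ← hmono.add, sub_add_cancel]
    rw [v.ord_mul _ _ (inj hc0) (h0 _)]
    dsimp only
    rw [e2, v.ord_div (h0 _) (h0 _), (hord v _).2, (hord v _).2]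
    linarith

end

end RMT
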