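import Pool.Agent.RMT.St1
import Pool.Agent.RMM.RFBN

/-!
# TFBN: the canonical divisor is negative on the curves in the fibres (torus bundles)
-/

set_option autoImplicit false

namespace RMT

open MldGeo MMCI RMM MMCI.FBN

noncomputable section

namespace TFBNx

variable {F : Type} [Field F] [Algebra ℂ F]

/-- a prime divisor of a chart is on the chart -/
theorem onChart_of {b : ℕ} {B : ProjModel F} {j : Fin (B.N + 1)} {v : DivVal b F}
    {P : Ideal (B.ring j)} (hP : IsPrimeDivisor (B.ring j) v P) : OnChart B v j :=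
  fun c hc => Or.inr (hP.2.2.1 ⟨c, hc⟩)

end TFBNx

open TFBNx RMM.RFBN

theorem t_TFBN : M_TFBN := by
  intro hTWA hTCO hTLQ hTGT hTCMQ hTTRA F K _ _ _ _ _ _ e' n r B t κ b y0 β f x hDat D ω Y hlog
    hM kb hkb M τ hτ hτ' ω' hω' γ hfib k h g u hk hEq
  classical
  obtain ⟨w₀, i, m, j, mB, a, G, U, hmap, hpt, hU, hfin1, hfin2, hsum⟩ :=
    hTCMQ B t κ b y0 β f x hDat D.toFan ω Y hlog hM ω' hω' γ k h g u hk hEq
  have hx := hDat.ne
  have htr := hDat.dim
  have hBD := hDat.base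
  have htne : ∀ j k, t j k ≠ 0 := hDat.twist.ne
  obtain ⟨k', hLk', hMod⟩ := hM
  have hn := hMod.normal
  obtain ⟨uniq, -, rmul, rinv, rpow, rconst, -⟩ := t_RSU γ
  have rone : γ.Restr (1 : K) (1 : γ.L) := by
    have h1 := rconst 1
    rwa [map_one, map_one] at h1
  have rinv1 : ∀ (z : K) (u : γ.L), γ.Restr z u → u ≠ 0 → γ.Restr z⁻¹ u⁻¹ := by
    intro z u h1 h2
    have h3 := (rinv _ _ h1 h2).2 (-1)
    rwa [zpow_neg_one, zpow_neg_one] at h3
  -- the coordinates of the charts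
  have hX : ∀ j k, tx (t j) x k ≠ 0 := fun j => ((hTWA (K := K) (t j) (htne j)).2.2.2 x hx).1
  have hmt : ∀ j c, mon (t j) c ≠ 0 := fun j => (hTWA (K := K) (t j) (htne j)).1
  have hmx : ∀ j c, mon (tx (t j) x) c * algebraMap F K (mon (t j) c) = mon x c := fun j =>
    ((hTWA (K := K) (t j) (htne j)).2.2.2 x hx).2.1
  have hmono : ∀ j, Mono (mon (tx (t j) x)) := fun j => (t_FUL (tx (t j) x) (hX j)).1
  obtain ⟨T0, Tq, Tl⟩ := hTLQ (K := K) B t hDat.twist kb x hx D.A D.b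
  have Tlr := Tl hkb
  -- the quotients on one chart
  have Tsame : ∀ (i' i'' j' : Fin (B.N + 1)) (a' a'' : D.A),
      tm B t kb x D.A D.b (i'', j', a'') / tm B t kb x D.A D.b (i', j', a') =
        algebraMap F K (B.s i'' / B.s i') * mon (tx (t j') x) (D.b a'' - D.b a') := by
    intro i' i'' j' a' a''
    rw [Tq i' i'' j' j' a' a'', div_self (B.ne j'), one_pow, div_self (hmt j' _), mul_one,
      mul_one]
  -- the fibre
  obtain ⟨l0, hl0⟩ := hfib
  obtain ⟨⟨is, js, as⟩, hast⟩ := hτ l0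
  have hcst : ∀ l', ∃ c : ℂ,
      γ.Restr (tm B t kb x D.A D.b l' / tm B t kb x D.A D.b (is, js, as))
        (algebraMap ℂ γ.L c) := by
    intro l'
    obtain ⟨l, hl⟩ := hτ' l'
    obtain ⟨c, hc⟩ := hl0 l
    rw [hl, hast] at hc
    exact ⟨c, hc⟩
  -- the functions on `B`
  have hs : ∀ j' : Fin (B.N + 1), ∃ c : ℂ,
      γ.Restr (algebraMap F K (B.s j' / B.s is)) (algebraMap ℂ γ.L c) := by
    intro j'
    obtain ⟨c, hc⟩ := hcst (j', js, as)
    rw [Tsame, sub_self, (hmono js).zero, mul_one] at hc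
    exact ⟨c, hc⟩
  choose cs hcs using hs
  have hres : ∀ w (z : B.ring (j w)), ∃ us : γ.L, γ.Restr (algebraMap F K z) us := by
    intro w z
    obtain ⟨p, q, h1, h2, -⟩ := (hpt w).res z
    obtain ⟨us, h3, -⟩ := RGW_holds γ w (i w) (m w) (hmap w) _ p q h1 h2
    exact ⟨us, h3⟩
  have hcs0 : ∀ w, cs (j w) ≠ 0 := by
    intro w h0
    obtain ⟨us, h3⟩ := hres w ⟨B.s is / B.s (j w), Algebra.subset_adjoin ⟨is, rfl⟩⟩
    have h4 := rmul _ _ _ _ (hcs (j w)) h3
    rw [h0, map_zero, zero_mul] at h4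
    have h5 : algebraMap F K (B.s (j w) / B.s is) * algebraMap F K (B.s is / B.s (j w)) = 1 := by
      rw [← map_mul, div_mul_div_comm, mul_comm (B.s (j w)),
        div_self (mul_ne_zero (B.ne _) (B.ne _)), map_one]
    change γ.Restr (algebraMap F K (B.s (j w) / B.s is) * algebraMap F K (B.s is / B.s (j w))) 0
      at h4
    rw [h5] at h4
    exact one_ne_zero (uniq _ _ _ rone h4)
  have hgen : ∀ j' : Fin (B.N + 1), ∃ c : ℂ,
      γ.Restr (algebraMap F K (B.s j' / B.s (j w₀))) (algebraMap ℂ γ.L c) := by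
    intro j'
    have hne : algebraMap ℂ γ.L (cs (j w₀)) ≠ 0 := by
      rw [Ne, map_eq_zero]
      exact hcs0 w₀
    have h1 := rinv1 _ _ (hcs (j w₀)) hne
    have h2 := rmul _ _ _ _ (hcs j') h1
    refine ⟨cs j' * (cs (j w₀))⁻¹, ?_⟩
    have h3 : algebraMap F K (B.s j' / B.s is) * (algebraMap F K (B.s (j w₀) / B.s is))⁻¹ =
        algebraMap F K (B.s j' / B.s (j w₀)) := by
      rw [← map_inv₀, ← map_mul, ← div_eq_mul_inv, div_div_div_cancel_right₀ (B.ne is)]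
    rw [h3] at h2
    rwa [map_mul, map_inv₀]
  -- the composite is constant
  obtain ⟨φ, hφ, -, hφ3⟩ := hTTRA B Y hBD.dimF hBD.normal γ w₀ i m j mB hmap
    (fun w => (hpt w).max) (fun w => (hpt w).res)
  have hφc : ∀ c : B.ring (j w₀), ∃ z : ℂ, φ c = algebraMap ℂ γ.L z := by
    refine const_of_gen (j w₀) φ fun j' hj => ?_
    obtain ⟨c, hc⟩ := hgen j'
    exact ⟨c, uniq _ _ _ (hφ _) hc⟩
  -- functions with the same divisors
  have hsame : ∀ (w w' : DivVal 1 γ.L) (G G' : F), G ≠ 0 → G' ≠ 0 →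
      (∀ (v : DivVal b F) (P : Ideal (B.ring (j w))) (P' : Ideal (B.ring (j w'))),
        IsPrimeDivisor (B.ring (j w)) v P → P ≤ mB w →
        IsPrimeDivisor (B.ring (j w')) v P' → P' ≤ mB w' → v.ord G = v.ord G') →
      ∃ c : ℂ, c ≠ 0 ∧ γ.Restr (algebraMap F K (G / G')) (algebraMap ℂ γ.L c) := by
    intro w w' G G' hG hG' hord
    obtain ⟨p, q, hp, hq, hpq⟩ := hφ3 w w' G G' hG hG' hord
    obtain ⟨cp, hcp⟩ := hφc p
    obtain ⟨cq, hcq⟩ := hφc q
    have h2 := rmul _ _ _ _ (hφ p) (rinv1 _ _ (hφ q) hq)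
    have hp0 : cp ≠ 0 := by
      rintro rfl
      exact hp (by rw [hcp, map_zero])
    have hq0 : cq ≠ 0 := by
      rintro rfl
      exact hq (by rw [hcq, map_zero])
    have hqF : (q : F) ≠ 0 := by
      intro h0
      have h1 : q = 0 := Subtype.ext h0
      exact hq (by rw [h1, map_zero])
    refine ⟨cp * cq⁻¹, mul_ne_zero hp0 (inv_ne_zero hq0), ?_⟩
    rw [hcp, hcq, ← map_inv₀, ← map_mul, ← map_inv₀, ← map_mul, ← hpq, mul_assoc,
      mul_inv_cancel₀ hqF, mul_one] at h2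
    exact h2
  -- monomials of the twist and quotients of the `s` on two charts
  have hco : ∀ (j1 j2 : Fin (B.N + 1)) (v : DivVal b F) (P : Ideal (B.ring j1))
      (P' : Ideal (B.ring j2)), IsPrimeDivisor (B.ring j1) v P → IsPrimeDivisor (B.ring j2) v P' →
      v.ord (B.s j2 / B.s j1) = 0 ∧ ∀ c, v.ord (mon (t j1) c) = v.ord (mon (t j2) c) := by
    intro j1 j2 v P P' hP hP'
    obtain ⟨h1, h2, -⟩ := hTCO (K := F) (n := n) B t hDat.twist v j1 j2 (onChart_of hP)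
      (onChart_of hP')
    exact ⟨h1, h2⟩
  have hα : ∀ w, ∃ c : ℂ, c ≠ 0 ∧
      γ.Restr (algebraMap F K (gT (t (j w)) κ D.k (G w) (D.u (a w₀)) /
        gT (t (j w₀)) κ D.k (G w₀) (D.u (a w₀)))) (algebraMap ℂ γ.L c) := by
    intro w
    obtain ⟨h1, -, h3⟩ := hTGT B t hDat.twist f κ D.k (D.u (a w₀)) (dlogs y0) (j w) (j w₀)
      (mB w) (mB w₀) (G w) (G w₀) (hpt w).G_ne (hpt w₀).G_ne (hpt w).eqB (hpt w₀).eqB
    obtain ⟨h4, -, -⟩ := hTGT B t hDat.twist f κ D.k (D.u (a w₀)) (dlogs y0) (j w₀) (j w₀)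
      (mB w₀) (mB w₀) (G w₀) (G w₀) (hpt w₀).G_ne (hpt w₀).G_ne (hpt w₀).eqB (hpt w₀).eqB
    exact hsame w w₀ _ _ h1 h4 h3
  choose al hal0 hal using hα
  set V : DivVal 1 γ.L → γ.L := fun w => (algebraMap ℂ γ.L (al w))⁻¹ * U w with hV
  have hal1 : ∀ w, algebraMap ℂ γ.L (al w) ≠ 0 := by
    intro w
    rw [Ne, map_eq_zero]
    exact hal0 w
  have hV0 : ∀ w, V w ≠ 0 := fun w => mul_ne_zero (inv_ne_zero (hal1 w)) (hU w).1
  have hVo : ∀ w : DivVal 1 γ.L, w.ord (V w) = w.ord (U w) := by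
    intro w
    rw [hV]
    change w.ord ((algebraMap ℂ γ.L (al w))⁻¹ * U w) = _
    rw [w.ord_mul _ _ (inv_ne_zero (hal1 w)) (hU w).1, ← map_inv₀, w.ord_const, zero_add]
  set u' : (Fin n → ℤ) → (Fin n → ℤ) := fun a => (κ : ℤ) • D.u a with hu'
  have hVr : ∀ w, γ.Restr (mon (tx (t (j w)) x) (u' (a w₀) - u' (a w))) (V w) := by
    intro w
    have h2 := rmul _ _ _ _ (rinv1 _ _ (hal w) (hal1 w)) (hU w).2
    rw [← mul_assoc, inv_mul_cancel₀ (rinv _ _ (hal w) (hal1 w)).1, one_mul, smul_sub] at h2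
    exact h2
  -- the points of the polytope
  have haA : ∀ w, a w ∈ D.A := fun w => (hpt w).mem
  have haM : ∀ w (v : DivVal e' K) (P : Ideal (Y.ring (i w))), IsPrimeDivisor (Y.ring (i w)) v P →
      P ≤ m w → MinAt D.A (a w) (wt (tx (t (j w)) x) v) := fun w v P hP hPm =>
    ((hpt w).ctr v P ⟨hP.1, hP.2.2.1, hP.2.2.2⟩ hPm).2.1
  have hκ : (0 : ℤ) < κ := by exact_mod_cast hBD.κ_pos
  set a0 := a w₀ with ha0
  have ha0A : a0 ∈ D.A := haA w₀
  -- CLAIM 1: the coordinate `(j w, j w, a w)`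
  have hc1 : ∀ w, ∃ c : ℂ, c ≠ 0 ∧
      γ.Restr (tm B t kb x D.A D.b (j w, j w, ⟨a w, haA w⟩) / tm B t kb x D.A D.b (is, js, as))
        (algebraMap ℂ γ.L c) := by
    intro w
    obtain ⟨c, hc⟩ := hcst (j w, j w, ⟨a w, haA w⟩)
    refine ⟨c, ?_, hc⟩
    rintro rfl
    obtain ⟨u1, h1, -⟩ := restr_ge LCM_holds t_FUL RGW_holds (hX (j w)) htr hn (hmap w)
      (c := D.b as - D.b (a w)) (fun v P hP hPm => by
        rw [pair_sub]
        have h2 := D.nef _ _ as (haM w v P hP hPm) as.2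
        omega)
    obtain ⟨u2, h2⟩ := hres w ⟨_, (Tlr is (j w) js as).1⟩
    have h3 := rmul _ _ _ _ h2 h1
    have h4 : algebraMap F K (B.s is / B.s (j w) * ((B.s js / B.s (j w)) ^ kb *
        (mon (t (j w)) (D.b as) / mon (t js) (D.b as)))) *
        mon (tx (t (j w)) x) (D.b as - D.b (a w)) =
        tm B t kb x D.A D.b (is, js, as) / tm B t kb x D.A D.b (j w, j w, ⟨a w, haA w⟩) :=
      (Tq (j w) is (j w) js ⟨a w, haA w⟩ as).symm
    change γ.Restr (algebraMap F K (B.s is / B.s (j w) * ((B.s js / B.s (j w)) ^ kb *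
        (mon (t (j w)) (D.b as) / mon (t js) (D.b as)))) *
        mon (tx (t (j w)) x) (D.b as - D.b (a w))) _ at h3
    rw [h4] at h3
    have h5 := rmul _ _ _ _ hc h3
    rw [map_zero, zero_mul, div_mul_div_cancel₀ (T0 _), div_self (T0 _)] at h5
    exact one_ne_zero (uniq _ _ _ rone h5)
  have hc2 : ∀ w, ∃ c : ℂ, c ≠ 0 ∧
      γ.Restr (mon (tx (t (j w)) x) (D.b a0 - D.b (a w))) (algebraMap ℂ γ.L c) := by
    intro w
    obtain ⟨c, hc0, hc⟩ := hc1 w
    obtain ⟨c', hc0', hc'⟩ := hc1 w₀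
    -- the quotient of the coordinates with the same `a0`
    have hG1 : (B.s (j w) / B.s (j w₀)) ^ (kb + 1) * mon (t (j w₀)) (D.b a0) ≠ 0 :=
      mul_ne_zero (pow_ne_zero _ (div_ne_zero (B.ne _) (B.ne _))) (hmt _ _)
    obtain ⟨c'', hc0'', hc''⟩ := hsame w w₀
      ((B.s (j w) / B.s (j w₀)) ^ (kb + 1) * mon (t (j w₀)) (D.b a0))
      (mon (t (j w)) (D.b a0)) hG1 (hmt _ _) (by
        intro v P P' hP _ hP' _
        obtain ⟨h1, h2⟩ := hco (j w₀) (j w) v P' P hP' hP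
        rw [v.ord_mul _ _ (pow_ne_zero _ (div_ne_zero (B.ne _) (B.ne _))) (hmt _ _),
          v.ord_pow, h1, mul_zero, zero_add]
        exact h2 _)
    have h3 : tm B t kb x D.A D.b (j w, j w, ⟨a0, ha0A⟩) /
        tm B t kb x D.A D.b (j w₀, j w₀, ⟨a0, ha0A⟩) =
        algebraMap F K ((B.s (j w) / B.s (j w₀)) ^ (kb + 1) * mon (t (j w₀)) (D.b a0) /
          mon (t (j w)) (D.b a0)) := by
      rw [Tq (j w₀) (j w) (j w₀) (j w) ⟨a0, ha0A⟩ ⟨a0, ha0A⟩, sub_self, (hmono _).zero, mul_one,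
        pow_succ']
      congr 1
      rw [mul_div_assoc, mul_assoc]
    rw [← h3] at hc''
    have hcne : algebraMap ℂ γ.L c ≠ 0 := by rwa [Ne, map_eq_zero]
    have h4 := rmul _ _ _ _ (rmul _ _ _ _ hc'' hc') (rinv1 _ _ hc hcne)
    rw [div_mul_div_cancel₀ (T0 _), inv_div, div_mul_div_cancel₀ (T0 _), ← map_inv₀, ← map_mul,
      ← map_mul, Tsame, div_self (B.ne _), map_one, one_mul] at h4
    exact ⟨c'' * c' * c⁻¹, mul_ne_zero (mul_ne_zero hc0'' hc0') (inv_ne_zero hc0), h4⟩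
  -- CLAIM 2
  have hb : ∀ w (v : DivVal e' K) (P : Ideal (Y.ring (i w))), IsPrimeDivisor (Y.ring (i w)) v P →
      P ≤ m w → pair (wt (tx (t (j w)) x) v) (D.b a0) =
        pair (wt (tx (t (j w)) x) v) (D.b (a w)) := by
    intro w v P hP hPm
    obtain ⟨c, hc0, hc⟩ := hc2 w
    have h1 := pair_zero LCM_holds t_FUL RGW_holds t_RSU (hX (j w)) htr hn (hmap w)
      (c := D.b a0 - D.b (a w))
      (fun v P hP hPm => by
        rw [pair_sub]
        have h2 := D.nef _ _ a0 (haM w v P hP hPm) ha0A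
        omega) hc (by
        rintro (h2 | h2)
        · exact hc0 ((map_eq_zero _).1 h2)
        · rw [w.ord_const] at h2
          omega) hP hPm
    rw [pair_sub] at h1
    omega
  -- CLAIM 3
  have hpos : ∀ w (v : DivVal e' K) (P : Ideal (Y.ring (i w))),
      IsPrimeDivisor (Y.ring (i w)) v P → P ≤ m w →
      0 ≤ pair (wt (tx (t (j w)) x) v) (u' (a w) - u' a0) := by
    intro w v P hP hPm
    rw [pair_sub, hu']
    change 0 ≤ pair (wt (tx (t (j w)) x) v) ((κ : ℤ) • D.u (a w)) -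
      pair (wt (tx (t (j w)) x) v) ((κ : ℤ) • D.u a0)
    rw [pair_smul, pair_smul]
    have h1 := (D.pos _ _ a0 (haM w v P hP hPm) ha0A (hb w v P hP hPm)).1
    have h2 := mul_le_mul_of_nonneg_left h1 hκ.le
    omega
  have hUi : ∀ w, γ.Restr (mon (tx (t (j w)) x) (u' (a w) - u' a0)) (V w)⁻¹ := by
    intro w
    have h1 := rinv1 _ _ (hVr w) (hV0 w)
    rwa [mon_inv (hmono _)] at h1
  have hUle : ∀ w : DivVal 1 γ.L, w.ord (V w) ≤ 0 := by
    intro w
    obtain ⟨u', h1, h2⟩ := restr_ge LCM_holds t_FUL RGW_holds (hX (j w)) htr hn (hmap w) (hpos w)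
    have h3 := uniq _ _ _ h1 (hUi w)
    rw [h3] at h2
    rcases h2 with h2 | h2
    · exact absurd h2 (inv_ne_zero (hV0 w))
    · rw [FBN.ord_inv w (hV0 w)] at h2
      omega
  -- CLAIM 4
  have hne : ∃ w : DivVal 1 γ.L, w.ord (V w) ≠ 0 := by
    by_contra hall
    push Not at hall
    have hmin : ∀ w (v : DivVal e' K) (P : Ideal (Y.ring (i w))),
        IsPrimeDivisor (Y.ring (i w)) v P → P ≤ m w →
        MinAt D.A a0 (wt (tx (t (j w)) x) v) := by
      intro w v P hP hPm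
      have h1 := pair_zero LCM_holds t_FUL RGW_holds t_RSU (hX (j w)) htr hn (hmap w) (hpos w)
        (hUi w) (by
        rintro (h2 | h2)
        · exact inv_ne_zero (hV0 w) h2
        · rw [FBN.ord_inv w (hV0 w), hall w] at h2
          omega) hP hPm
      rw [pair_sub, hu'] at h1
      change pair (wt (tx (t (j w)) x) v) ((κ : ℤ) • D.u (a w)) -
        pair (wt (tx (t (j w)) x) v) ((κ : ℤ) • D.u a0) = 0 at h1
      rw [pair_smul, pair_smul, ← mul_sub] at h1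
      refine (D.pos _ _ a0 (haM w v P hP hPm) ha0A (hb w v P hP hPm)).2 ?_
      rcases mul_eq_zero.1 h1 with h2 | h2
      · omega
      · omega
    obtain ⟨-, Sq, Sl⟩ := hTLQ (K := K) B t hDat.twist k' x hx D.A id
    have Slr := Sl hLk'
    refine hMod.fin γ (j w₀, j w₀, ⟨a0, ha0A⟩) fun l' => ?_
    obtain ⟨i1, j1, a1⟩ := l'
    rw [Sq (j w₀) i1 (j w₀) j1 ⟨a0, ha0A⟩ a1]
    -- the monomials
    have hrb : ∀ w : DivVal 1 γ.L, ∃ u' : γ.L,
        γ.Restr (mon (tx (t (j w₀)) x) ((a1 : Fin n → ℤ) - a0)) u' ∧ w.Ge 0 u' := by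
      intro w
      obtain ⟨u1, h1, h2⟩ := restr_ge LCM_holds t_FUL RGW_holds (hX (j w)) htr hn (hmap w)
        (c := (a1 : Fin n → ℤ) - a0) (fun v P hP hPm => by
          rw [pair_sub]
          have h1 := (hmin w v P hP hPm).2 a1 a1.2
          omega)
      obtain ⟨c, hc0, hc⟩ := hsame w w₀ (mon (t (j w)) ((a1 : Fin n → ℤ) - a0))
        (mon (t (j w₀)) ((a1 : Fin n → ℤ) - a0)) (hmt _ _) (hmt _ _) (by
          intro v P P' hP _ hP' _
          exact (hco (j w) (j w₀) v P P' hP hP').2 _)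
      have h3 := rmul _ _ _ _ h1 hc
      have h4 : mon (tx (t (j w)) x) ((a1 : Fin n → ℤ) - a0) *
          algebraMap F K (mon (t (j w)) ((a1 : Fin n → ℤ) - a0) /
            mon (t (j w₀)) ((a1 : Fin n → ℤ) - a0)) =
          mon (tx (t (j w₀)) x) ((a1 : Fin n → ℤ) - a0) := by
        have h5 : algebraMap F K (mon (t (j w₀)) ((a1 : Fin n → ℤ) - a0)) ≠ 0 := by
          rw [Ne, map_eq_zero]
          exact hmt _ _
        rw [map_div₀, ← mul_div_assoc, hmx, div_eq_iff h5, hmx]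
      rw [h4] at h3
      refine ⟨_, h3, ?_⟩
      rcases h2 with h2 | h2
      · left
        rw [h2, zero_mul]
      · by_cases hu0 : u1 = 0
        · left
          rw [hu0, zero_mul]
        · right
          rw [w.ord_mul _ _ hu0 (by rwa [Ne, map_eq_zero]), w.ord_const, add_zero]
          exact h2
    obtain ⟨u0, h1, -⟩ := hrb w₀
    obtain ⟨c, hc⟩ := (PRF_holds (t_CUR γ)).2.1 u0 (fun w => by
      obtain ⟨u', h2, h3⟩ := hrb w
      rw [uniq _ _ _ h1 h2]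
      exact h3)
    obtain ⟨c', hc'⟩ := hφc ⟨_, (Slr i1 (j w₀) j1 a1).1⟩
    have h2 := hφ ⟨_, (Slr i1 (j w₀) j1 a1).1⟩
    rw [hc'] at h2
    refine ⟨c' * c, ?_⟩
    rw [map_mul (algebraMap ℂ γ.L)]
    exact rmul _ _ _ _ h2 (hc ▸ h1)
  refine ⟨hfin1, ?_⟩
  have hs : ∑ᶠ w : DivVal 1 γ.L, w.ord (U w) < 0 := by
    rw [finsum_eq_sum_of_support_subset (s := hfin2.toFinset) _ (by
      intro w hw
      rw [Set.Finite.coe_toFinset]
      exact hw)]
    apply Finset.sum_neg' (fun w _ => by rw [← hVo w]; exact hUle w)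
    obtain ⟨w, hw⟩ := hne
    rw [hVo w] at hw
    refine ⟨w, ?_, lt_of_le_of_ne (by rw [← hVo w]; exact hUle w) hw⟩
    rw [Set.Finite.mem_toFinset]
    exact hw
  have hk' : (0 : ℤ) < k := by exact_mod_cast hk
  have hFk : (0 : ℤ) < ((D.k * κ : ℕ) : ℤ) := by
    have h1 : 0 < D.k * κ := Nat.mul_pos D.k_pos hBD.κ_pos
    exact_mod_cast h1
  have h1 : (k : ℤ) * ∑ᶠ w : DivVal 1 γ.L, w.ord (U w) < 0 := mul_neg_of_pos_of_neg hk' hs
  rw [← hsum] at h1
  by_contra h2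
  push Not at h2
  have h3 := mul_nonneg hFk.le h2
  omega

end

end RMT
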