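import Pool.Agent.RMT.St1

/-!
# Torus bundles, module TFIB (helper9): the Mori fibre space
-/

set_option autoImplicit false

namespace RMT

open MldGeo MMCI RMM

theorem t_TFIB : M_TFIB := by
  intro hTLQ hFBM hFBN F K _ _ _ _ _ _ e' n r B t κ b y0 β f x hD D ω Y hL hM hFb
  obtain ⟨k, hk, M, τ, h1, h2, h3, h4⟩ := hFBM B t κ b y0 β f x hD D ω Y hL hM hFb
  refine ⟨M, τ, fun l => ?_, h3, h4, ?_⟩
  · obtain ⟨l', hl⟩ := h1 l
    rw [hl]
    exact (hTLQ B t hD.twist k x hD.ne D.A D.b).1 l'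
  · intro ω' hω' γ hγ k' h g u hk' hE
    exact hFBN B t κ b y0 β f x hD D ω Y hL hM k hk M τ h1 h2 ω' hω' γ hγ k' h g u hk' hE

end RMT
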