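import Pool.Agent.RMT.St2

/-!
# TFIN: assembly of the theorem on minimal models of families in torus bundles
-/

set_option autoImplicit false

namespace RMX

open MldX MMCI MMCX

namespace TFIN

/-- a point of the Fine interior is a point of the sum of the Newton polytopes -/
theorem inSum_of_inFine (hR : RMM.S_RSUP) {F : Type} [Field F] {n r : ℕ} (f : Fin r → RMM.LR F n)
    {k0 : ℕ} {p : Fin n → ℤ} (h : RMT.InFine f k0 p) : RMT.InSum f Finset.univ k0 p := by
  intro ν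
  by_cases hν : ν = 0
  · subst hν
    have h0 : ∀ i, RMM.rmin (f i) 0 = 0 := by
      intro i
      have h1 := (hR (f i)).2.2.1 2 0 (by norm_num)
      rw [smul_zero] at h1
      omega
    simp [h0, MMCI.pair]
  · have h1 := h ν hν
    have h2 : RMM.rpsi f ν = ∑ i, RMM.rmin (f i) ν := rfl
    rw [← h2]
    have h3 : (0 : ℤ) ≤ k0 := Int.natCast_nonneg _
    nlinarith

end TFIN

open TFIN in
theorem t_FINT : M_FINT := by
  intro hRSUP hTWB hTBF hTSYS hTBN hTBD hTCVX hTCVS hTMAIN hTFAA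
  intro b e n r F K _ _ _ _ _ _ B t f x h hB
  have hd := h.dim
  have hdB := h.dim_base
  have hF : ∀ g : LaurentR F n, ∀ ν, minOn (RMM.supp0 g) ν = minOnR g ν :=
    fun g ν => (hRSUP g).2.1 ν
  have hFE : FineEmpty (fun i => RMM.supp0 (f i)) ↔ FineEmptyR f := by
    unfold FineEmpty FineEmptyR
    simp only [hF]
  obtain ⟨hTw, hRel⟩ := hTBF B t f x h
  obtain ⟨κ, y0, β, hBD, hS⟩ := hTSYS B t f x hTw h.dim_eq h.f_ne h.ne h.gen h.zero hRel
  obtain ⟨bd1, bd2, bd3, bd4⟩ := hTBD (b := b) B t f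
  have hN : Nef b B → CoefNef b B t f → RMT.HypN b B t f := by
    intro h1 h2
    refine hTCVX B t f hdB hBD.normal hTw h.f_ne hS.bpf (bd3 (nef_to hdB h1)) ?_
    intro i a ha
    have h3 := (hTBN B t f hdB hTw.ne 0 (Pi.single i 1) a).1 (h2 i a ha)
    rwa [bd2 i a] at h3
  have hSm : Semiample b B → CoefSemiample b B t f → RMT.HypS b B t f := by
    intro h1 h2
    refine hTCVS B t f hTw h.f_ne hS.bpf (bd4 (semiample_to hdB h1)) ?_
    intro i a ha
    have h3 := (hTBN B t f hdB hTw.ne 0 (Pi.single i 1) a).2 (h2 i a ha)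
    rwa [bd2 i a] at h3
  by_cases hE : FineEmptyR f
  · have hN' : RMT.HypN b B t f := by
      rcases hB with h1 | h1
      · exact hN h1.1 h1.2
      · exact absurd hE h1.1
    obtain ⟨Y, h1, h2⟩ := hTMAIN B κ y0 β t f x h.pos hd hBD hS hN'
    refine ⟨Y, terminal_of hd h1, ?_⟩
    rcases h2 with ⟨h3, h4⟩ | h3
    · refine Or.inl ⟨nef_of hd h3, fun hs => ?_⟩
      rcases hs with h5 | h5
      · exact semiample_of hd (h4 (hSm h5.1 h5.2))
      · exact absurd hE h5.1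
    · exact Or.inr ⟨moriFibre_of hd h3, hE⟩
  · have hN' : ∀ (k0 : ℕ) (p : Fin n → ℤ), 0 < k0 → RMT.InFine f k0 p →
        RMT.NefC B k0 (RMT.adjT b B t f Finset.univ k0 p) := by
      intro k0 p hk hp
      rcases hB with h1 | h1
      · exact hN h1.1 h1.2 Finset.univ k0 p hk (inSum_of_inFine hRSUP f hp)
      · have h3 := (hTBN B t f hdB hTw.ne k0 (fun _ => k0) p).1 (h1.2 k0 p ⟨hk, hp⟩)
        rwa [bd1 k0 p] at h3
    obtain ⟨Y, h1, h2, h3⟩ := hTFAA B κ y0 β t f x h.pos hd hBD hS (fun h4 => hE (hFE.1 h4)) hN'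
    refine ⟨Y, terminal_of hd h1, Or.inl ⟨nef_of hd h2, fun hs => ?_⟩⟩
    refine semiample_of hd (h3 ?_)
    intro k0 p hk hp
    rcases hs with h5 | h5
    · exact hSm h5.1 h5.2 Finset.univ k0 p hk (inSum_of_inFine hRSUP f hp)
    · have h6 := (hTBN B t f hdB hTw.ne k0 (fun _ => k0) p).2 (h5.2 k0 p ⟨hk, hp⟩)
      rwa [bd1 k0 p] at h6

end RMX
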