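import Pool.Agent.RMT.StV
import Pool.Agent.RMM.LBND
import Pool.Agent.MMCI.F_GOR

/-!
# TFK: Farkas lemma for the sum of the Newton polytopes
-/

set_option autoImplicit false

namespace RMT

open MldGeo MMCI RMM

noncomputable section

namespace TFK

/-- A common denominator. -/
theorem clear {ι : Type} (s : Finset ι) (l : ι → ℚ) :
    ∃ M : ℕ, 0 < M ∧ ∃ z : ι → ℤ, ∀ t ∈ s, (M : ℚ) * l t = z t := by
  classical
  refine ⟨∏ t ∈ s, (l t).den, Finset.prod_pos fun t _ => (l t).den_pos, ?_⟩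
  have h : ∀ t, ∃ z : ℤ, t ∈ s → ((∏ t ∈ s, (l t).den : ℕ) : ℚ) * l t = z := by
    intro t
    by_cases ht : t ∈ s
    · obtain ⟨q, hq⟩ := Finset.dvd_prod_of_mem (fun t => (l t).den) ht
      refine ⟨q * (l t).num, fun _ => ?_⟩
      rw [hq]
      push_cast
      have h1 := Rat.mul_den_eq_num (l t)
      linear_combination (q : ℚ) * h1
    · exact ⟨0, fun h => absurd h ht⟩
  choose z hz using h
  exact ⟨z, hz⟩

/-- The linear form of the vector `(e_i, a)`. -/
def lf {r n : ℕ} (i : Fin r) (a : Fin n → ℤ) : ((Fin r → ℚ) × (Fin n → ℚ)) →ₗ[ℚ] ℚ where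
  toFun x := -(x.1 i + ∑ k, x.2 k * a k)
  map_add' x y := by
    simp only [Prod.fst_add, Prod.snd_add, Pi.add_apply, add_mul, Finset.sum_add_distrib]
    ring
  map_smul' c x := by
    simp only [Prod.smul_fst, Prod.smul_snd, Pi.smul_apply, smul_eq_mul, RingHom.id_apply, mul_assoc,
      ← Finset.mul_sum]
    ring

theorem lf_apply {r n : ℕ} (i : Fin r) (a : Fin n → ℤ) (x : (Fin r → ℚ) × (Fin n → ℚ)) :
    lf i a x = -(x.1 i + ∑ k, x.2 k * a k) := rfl

/-- The linear form of the target. -/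
def tf {r n : ℕ} (I : Finset (Fin r)) (k0 : ℕ) (p : Fin n → ℤ) :
    ((Fin r → ℚ) × (Fin n → ℚ)) →ₗ[ℚ] ℚ where
  toFun x := -(k0 * ∑ i ∈ I, x.1 i + ∑ k, x.2 k * p k)
  map_add' x y := by
    simp only [Prod.fst_add, Prod.snd_add, Pi.add_apply, add_mul, Finset.sum_add_distrib]
    ring
  map_smul' c x := by
    simp only [Prod.smul_fst, Prod.smul_snd, Pi.smul_apply, smul_eq_mul, RingHom.id_apply, mul_assoc,
      ← Finset.mul_sum]
    ring

theorem tf_apply {r n : ℕ} (I : Finset (Fin r)) (k0 : ℕ) (p : Fin n → ℤ)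
    (x : (Fin r → ℚ) × (Fin n → ℚ)) :
    tf I k0 p x = -(k0 * ∑ i ∈ I, x.1 i + ∑ k, x.2 k * p k) := rfl

end TFK

open TFK in
theorem t_TFK : S_TFK := by
  intro F _ n r f hf I k0 p hk0 hin
  classical
  set s : Finset (Σ _ : Fin r, (Fin n → ℤ)) := I.sigma fun i => (f i).coeff.support with hs
  obtain ⟨l, hl, hc⟩ := MMCI.F.GOR.farkas_field (k := ℚ) (W := (Fin r → ℚ) × (Fin n → ℚ)) s
    (fun t => lf t.1 t.2) (tf I k0 p) (by
    intro x hx
    rw [tf_apply, neg_nonpos]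
    -- clear the denominators of the second component
    obtain ⟨D, hD, ν, hν⟩ := clear Finset.univ x.2
    have hν' : ∀ k, (D : ℚ) * x.2 k = ν k := fun k => hν k (Finset.mem_univ _)
    have hpair : ∀ a : Fin n → ℤ, (D : ℚ) * ∑ k, x.2 k * a k = ((pair ν a : ℤ) : ℚ) := by
      intro a
      unfold pair
      push_cast
      rw [Finset.mul_sum]
      refine Finset.sum_congr rfl fun k _ => ?_
      rw [← mul_assoc, hν']
    have h1 : ∀ i ∈ I, -((rmin (f i) ν : ℤ) : ℚ) ≤ D * x.1 i := by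
      intro i hi
      obtain ⟨a, ha, hmin⟩ := RMM.LBND.rmin_exists (hf i) ν
      have h2 := hx ⟨i, a⟩ (Finset.mem_sigma.mpr ⟨hi, ha⟩)
      rw [lf_apply, neg_nonpos] at h2
      have h3 := mul_nonneg (Nat.cast_nonneg (α := ℚ) D) h2
      rw [mul_add, hpair, hmin] at h3
      linarith
    have h2 := hin ν
    have h3 : ((k0 : ℚ) * ∑ i ∈ I, ((rmin (f i) ν : ℤ) : ℚ)) ≤ ((pair ν p : ℤ) : ℚ) := by
      exact_mod_cast h2
    have h4 : -∑ i ∈ I, ((rmin (f i) ν : ℤ) : ℚ) ≤ D * ∑ i ∈ I, x.1 i := by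
      rw [← Finset.sum_neg_distrib, Finset.mul_sum]
      exact Finset.sum_le_sum h1
    have h5 := mul_le_mul_of_nonneg_left h4 (Nat.cast_nonneg (α := ℚ) k0)
    have h6 : 0 ≤ (D : ℚ) * (k0 * ∑ i ∈ I, x.1 i + ∑ k, x.2 k * p k) := by
      rw [mul_add, hpair]
      have h7 : (D : ℚ) * (k0 * ∑ i ∈ I, x.1 i) = k0 * (D * ∑ i ∈ I, x.1 i) := by ring
      rw [h7]
      linarith
    exact nonneg_of_mul_nonneg_right h6 (Nat.cast_pos.mpr hD))
  -- the coefficients
  obtain ⟨M, hM, z, hz⟩ := clear s l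
  have hz0 : ∀ t ∈ s, 0 ≤ z t := by
    intro t ht
    have h1 := mul_nonneg (Nat.cast_nonneg (α := ℚ) M) (hl t)
    rw [hz t ht] at h1
    exact_mod_cast h1
  have hmem : ∀ i ∈ I, ∀ a ∈ (f i).coeff.support, (⟨i, a⟩ : Σ _ : Fin r, (Fin n → ℤ)) ∈ s :=
    fun i hi a ha => Finset.mem_sigma.mpr ⟨hi, ha⟩
  have hcz : ∀ i ∈ I, ∀ a ∈ (f i).coeff.support,
      (((z ⟨i, a⟩).toNat : ℤ) : ℚ) = M * l ⟨i, a⟩ := by
    intro i hi a ha
    rw [Int.toNat_of_nonneg (hz0 _ (hmem i hi a ha)), hz _ (hmem i hi a ha)]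
  have heval : ∀ x : (Fin r → ℚ) × (Fin n → ℚ), k0 * ∑ i ∈ I, x.1 i + ∑ k, x.2 k * p k =
      ∑ i ∈ I, ∑ a ∈ (f i).coeff.support, l ⟨i, a⟩ * (x.1 i + ∑ k, x.2 k * a k) := by
    intro x
    have h1 := LinearMap.congr_fun hc x
    rw [tf_apply, LinearMap.sum_apply, hs, Finset.sum_sigma] at h1
    simp only [LinearMap.smul_apply, lf_apply, smul_eq_mul, mul_neg, Finset.sum_neg_distrib,
      neg_inj] at h1
    exact h1
  refine ⟨M, fun i a => (z ⟨i, a⟩).toNat, hM, ?_, ?_⟩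
  · intro i hi
    have h1 := heval (Pi.single i 1, 0)
    simp only [Pi.zero_apply, zero_mul, Finset.sum_const_zero, add_zero] at h1
    rw [Finset.sum_pi_single', if_pos hi, mul_one] at h1
    have h2 : ∑ i' ∈ I, ∑ a ∈ (f i').coeff.support, l ⟨i', a⟩ * (Pi.single i (1 : ℚ) : Fin r → ℚ) i' =
        ∑ a ∈ (f i).coeff.support, l ⟨i, a⟩ := by
      rw [Finset.sum_eq_single i]
      · simp
      · intro b _ hb
        rw [Pi.single_eq_of_ne hb]
        simp
      · intro h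
        exact absurd hi h
    rw [h2] at h1
    have h3 : ((∑ a ∈ (f i).coeff.support, (z ⟨i, a⟩).toNat : ℕ) : ℚ) = ((M * k0 : ℕ) : ℚ) := by
      push_cast
      rw [h1, Finset.mul_sum]
      refine Finset.sum_congr rfl fun a ha => ?_
      rw [← hcz i hi a ha]
      push_cast
      rfl
    exact_mod_cast h3
  · funext k
    have h1 := heval (0, Pi.single k 1)
    simp only [Pi.zero_apply, Finset.sum_const_zero, mul_zero, zero_add] at h1
    have h4 : ∀ a : Fin n → ℤ, ∑ k', (Pi.single k (1 : ℚ) : Fin n → ℚ) k' * (a k' : ℚ) = a k := by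
      intro a
      rw [Finset.sum_eq_single k]
      · simp
      · intro b _ hb
        rw [Pi.single_eq_of_ne hb, zero_mul]
      · intro h
        exact absurd (Finset.mem_univ _) h
    simp only [h4] at h1
    rw [Finset.sum_apply, Pi.smul_apply, smul_eq_mul]
    have h3 : ((∑ i ∈ I, (∑ a ∈ (f i).coeff.support, ((z ⟨i, a⟩).toNat : ℤ) • a) k : ℤ) : ℚ) =
        (((M : ℤ) * p k : ℤ) : ℚ) := by
      rw [Int.cast_mul, h1, Int.cast_natCast, Finset.mul_sum, Int.cast_sum]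
      refine Finset.sum_congr rfl fun i hi => ?_
      rw [Finset.sum_apply, Int.cast_sum, Finset.mul_sum]
      refine Finset.sum_congr rfl fun a ha => ?_
      rw [Pi.smul_apply, smul_eq_mul, Int.cast_mul, hcz i hi a ha]
      ring
    exact_mod_cast h3

end

end RMT
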