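import Pool.Agent.RMT.St1
import Pool.Agent.MldGeo.Ord
import Pool.Agent.MMCI.FUL

/-!
# TGT: the divisor of `gT`
-/

set_option autoImplicit false

namespace RMT

open MldGeo MMCI RMM

noncomputable section

theorem t_TGT : M_TGT := by
  intro hTCA F _ _ b n r B t hT f κ k u ω j j' m m' G G' hG hG' hE hE'
  have hmon : ∀ (i : Fin (B.N + 1)) (a : Fin n → ℤ), mon (t i) a ≠ 0 := fun i a =>
    Finset.prod_ne_zero_iff.2 fun l _ => zpow_ne_zero _ (hT.ne i l)
  have hord : ∀ (i : Fin (B.N + 1)) (v : DivVal b F),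
      v.ord (mon (t i) ((κ : ℤ) • u)) = κ * v.ord (mon (t i) u) := by
    intro i v
    rw [((t_FUL (t i) (hT.ne i)).2.2.1 v _).2, ((t_FUL (t i) (hT.ne i)).2.2.1 v _).2]
    unfold pair
    rw [Finset.mul_sum]
    refine Finset.sum_congr rfl fun l _ => ?_
    rw [Pi.smul_apply, smul_eq_mul]
    ring
  have hgo : ∀ (i : Fin (B.N + 1)) (G : F) (v : DivVal b F), G ≠ 0 →
      v.ord (gT (t i) κ k G u) = k * v.ord G + κ * v.ord (mon (t i) u) := by
    intro i G v hG
    unfold gT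
    rw [v.ord_mul _ _ (pow_ne_zero _ hG) (hmon i _), hord, ← zpow_natCast, v.ord_zpow]
  refine ⟨mul_ne_zero (pow_ne_zero _ hG) (hmon j _), ?_, ?_⟩
  · intro v P hP hPm
    rw [hgo j G v hG, hE v P hP hPm]
    unfold adjT
    ring
  · intro v P P' hP hPm hP' hPm'
    obtain ⟨h1, h2, -⟩ := hTCA B t hT f Finset.univ k u v j j' P P' hP hP'
    rw [hgo j G v hG, hgo j' G' v hG', hE v P hP hPm, hE' v P' hP' hPm', h1, h2]

end

end RMT
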