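import Pool.Agent.RMT.St1
import Pool.Agent.MMCI.CD

/-!
# Torus bundles, module TIM (helper9): a normal projective model with given coordinates
-/

set_option autoImplicit false

namespace RMT

open MldGeo MMCI RMM

namespace TIM

/-- a monomial of a difference -/
lemma mon_sub {m : ℕ} {K : Type} [Field K] (x : Fin m → K) (hx : ∀ j, x j ≠ 0)
    (u v : Fin m → ℤ) : mon x (u - v) = mon x u / mon x v := by
  unfold mon
  rw [← Finset.prod_div_distrib]
  refine Finset.prod_congr rfl fun k _ => ?_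
  rw [Pi.sub_apply, zpow_sub₀ (hx k)]

end TIM

theorem t_TIM : S_TIM := by
  intro e' m K ι _ _ _ _ xh eh hx hgen hdim he hfull
  obtain ⟨hM, hF, hord, -⟩ := t_FUL xh hx
  have hF := hF hgen
  obtain ⟨k, N, s, idx, hC⟩ := (t_CRD t_FGF t_FIN t_HOM) (mon xh) eh hM hF hfull
  have hN := (t_NRM t_PTV t_LOV t_FGF) (mon xh) eh k s idx hM hF hfull hC
  have hgenY : IntermediateField.adjoin ℂ (Set.range fun j => s j / s 0) = ⊤ := by
    rw [eq_top_iff]
    intro a _
    obtain ⟨r, hr, q, hq, hq0, e1⟩ := (hN 0).2 a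
    have h1 := MODL.affRing_le s r hr
    have h2 := MODL.affRing_le s q hq
    have h3 : a = r / q := by
      rw [eq_div_iff hq0]
      exact e1
    rw [h3]
    exact div_mem h1 h2
  refine ⟨⟨N, s, hC.ne, hgenY⟩, ?_, ?_, ?_⟩
  · intro i a ha
    exact (hN i).1 a ha
  · intro i M hm
    obtain ⟨v₀, h0⟩ := (t_PTA t_PTV t_LOV t_CRT t_RSI) (mon xh) eh k s idx hM hC hN
      hdim he i M hm
    refine ⟨v₀, ?_⟩
    intro v P hv hP
    obtain ⟨h1, h2⟩ := h0 v P hv hP
    simp only [TIM.mon_sub xh hx] at h1 h2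
    exact ⟨h1, h2⟩
  · intro γ l hcon
    refine (t_FNC t_PTV t_RSU) (mon xh) eh k
      (⟨N, s, hC.ne, hgenY⟩ : ProjModel K) idx hM hC γ l ?_
    intro l'
    obtain ⟨c, hc⟩ := hcon l'
    refine ⟨c, ?_⟩
    rw [TIM.mon_sub xh hx]
    exact hc

end RMT
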