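import Pool.Agent.RMT.St1
import Pool.Agent.RMM.RKEY

/-!
# TKEY: the discrepancies of the model of the twisted system (as `RMM/RKEY.lean`)
-/

set_option autoImplicit false
set_option linter.unusedSectionVars false

namespace RMT

open MldGeo MldGeo.DivVal MMCI RMM

noncomputable section

namespace TKEY

section

variable {F K : Type} [Field F] [Field K] [Algebra ℂ F] [Algebra ℂ K] [Algebra F K]
  [IsScalarTower ℂ F K] {e' n r : ℕ}

/-- elements of the local ring at the centre have order at least zero -/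
theorem ord_inO (B : ProjModel F) (v : DivVal e' K) {c : F} (hc : c ≠ 0) (h : InO B v c) :
    0 ≤ v.ord (algebraMap F K c) := by
  obtain ⟨j, hj, p, hp, q, hq, hq0, hqo, hcq⟩ := h
  have hq1 : algebraMap F K q ≠ 0 := fun h => hq0 ((map_eq_zero _).1 h)
  have hc1 : algebraMap F K c ≠ 0 := fun h => hc ((map_eq_zero _).1 h)
  have hp1 : algebraMap F K p ≠ 0 := by
    rw [← hcq, map_mul]
    exact mul_ne_zero hc1 hq1
  have h1 : 0 ≤ v.ord (algebraMap F K p) := (hj _ hp).le hp1
  rw [← hcq, map_mul, v.ord_mul _ _ hc1 hq1, hqo, add_zero] at h1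
  exact h1

/-- the functions of a point of height one -/
theorem split2 (B : ProjModel F) (x : Fin n → K) (hx : ∀ j, x j ≠ 0) (v : DivVal e' K)
    (a : Fin n → ℤ) (A : Finset (Fin n → ℤ)) (hmin : MinAt A a (wt x v)) {k : ℕ}
    (c : Fin k → F) (b : Fin k → (Fin n → ℤ)) (hb : ∀ l, b l ∈ A) (hc : ∀ l, c l ≠ 0)
    (hcO : ∀ l, InO B v (c l))
    (hres : ResIndep v fun l => algebraMap F K (c l) * mon x (b l - a)) (l : Fin k) :
    InO B v (c l) ∧ c l ≠ 0 ∧ v.ord (algebraMap F K (c l)) = 0 ∧ pair (wt x v) (b l - a) = 0 := by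
  have hne' : algebraMap F K (c l) ≠ 0 := fun h0 => hc l ((map_eq_zero _).1 h0)
  obtain ⟨hm1, hm2⟩ := (t_FUL x hx).2.2.1 v (b l - a)
  have h1 := KEY.ord_of_resIndep hres l
  rw [v.ord_mul _ _ hne' hm1, hm2] at h1
  have h2 : 0 ≤ v.ord (algebraMap F K (c l)) := ord_inO B v (hc l) (hcO l)
  have h3 : 0 ≤ pair (wt x v) (b l - a) := by
    rw [KEY.pair_sub]
    have := hmin.2 (b l) (hb l)
    linarith
  refine ⟨hcO l, hc l, ?_, ?_⟩
  · omega
  · omega

end

end TKEY

open KEY RKEY TKEY in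
theorem t_TKEY : M_TKEY := by
  intro twa hRSUP hRRES tcen F K _ _ _ _ _ _ e' n r B t κ β f' x' hpos hdim hκ hx' hTw D ω Y hLT hM
    i m hm
  obtain ⟨j, j1, mB, a, hmB, haA, hres, hpt⟩ := tcen B t x' D.A Y hdim hx' hTw hM i m hm
  refine ⟨j, mB, a, hmB, haA, hres, fun v P hc hPm => ?_⟩
  obtain ⟨hthr, hon1, hmin, hht1, hht2⟩ := hpt v P hc hPm
  refine ⟨hthr, hmin, ?_⟩
  have hon : OnChart B v j := hthr.1
  have hL := hLT.at_ v j hon
  have hx : ∀ k, tx (t j) x' k ≠ 0 := ((twa (K := K) (t j) (hTw.ne j)).2.2.2 x' hx').1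
  have hpsi : ∀ w, psi (fun i => supp0 (f' i)) w = rpsi (fun i => tw (t j) (f' i)) w := by
    intro w
    rw [rpsi_eq hRSUP]
    exact ((twa (K := K) (t j) (hTw.ne j)).2.2.1 f' w).symm
  have hrm : ∀ i w, rmin (tw (t j) (f' i)) w = rmin (f' i) w := fun i w =>
    ((twa (K := K) (t j) (hTw.ne j)).2.1 (f' i)).2.2.2.1 w
  set x : Fin n → K := tx (t j) x' with hxdef
  set f : Fin r → LR F n := fun i => tw (t j) (f' i) with hfdef
  have htxt : v.formOrd ω = v.logOrd ω - 1 := cTXT hdim v ω hpos hLT.ne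
  have hkpos : (0 : ℤ) < (D.k : ℤ) := by exact_mod_cast D.k_pos
  have hκpos : (0 : ℤ) < (κ : ℤ) := by exact_mod_cast hκ
  -- independent residues and `BIG`
  have hbig : P.height = 1 → BIG B x v := by
    intro h
    obtain ⟨c, b, hcb, hb⟩ := hht1 h
    refine ⟨c, fun l => b l - a, fun l => ?_, hb⟩
    exact split2 B x hx v a D.A hmin c b (fun l => (hcb l).1) (fun l => (hcb l).2.1)
      (fun l => (hcb l).2.2) hb l
  obtain ⟨Λ, hΛ⟩ : ∃ Λ : ℤ, Λ = κ * v.logOrd ω - bo κ β (fun i => coefs (f i)) v := ⟨_, rfl⟩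
  have hform : (κ : ℤ) * v.formOrd ω - bo κ β (fun i => coefs (f i)) v = Λ - κ := by
    rw [htxt, hΛ]
    ring
  rw [hform]
  by_cases hw : wt x v = 0
  · -- weight zero
    have hp : pair (wt x v) (D.u a) = 0 := by rw [hw, pair_zero_left]
    rw [hp, mul_zero, add_zero]
    have h1 := hL.low0 hw
    rw [← hΛ] at h1
    refine ⟨mul_nonneg hkpos.le (by linarith), ?_⟩
    have h2 : (D.k : ℤ) * (Λ - κ) = 0 ↔ BIG B x v := by
      rw [← hL.eq0 hw, ← hΛ, mul_eq_zero]
      constructor
      · rintro (h | h)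
        · exact absurd h hkpos.ne'
        · linarith
      · intro h
        right
        linarith
    rw [h2]
    refine ⟨fun h => ?_, hbig⟩
    obtain ⟨b, hbA, hbI⟩ := D.full a haA
    obtain ⟨c', b', hb', hri'⟩ := conv hRRES B x hx v j1 a hon1 D.A haA h b hbA
      (fun l => by rw [hw, pair_zero_left]) (fun q _ => span_full _ hbI q)
    exact hht2 c' b' hb' hri'
  · -- nonzero weight
    have hl := hL.low hw
    rw [← hΛ] at hl
    constructor
    · obtain ⟨k, w0, hk, hw0, hw1⟩ := exists_prim (wt x v) hw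
      have hmin0 : MinAt D.A a w0 := minAt_smul hk (by rw [← hw1]; exact hmin)
      have hd := D.disc w0 a hw0 hmin0
      rw [hpsi] at hd
      rw [hw1, rpsi_smul hRSUP f k hk] at hl
      rw [hw1, pair_smul_left]
      obtain ⟨p, hp⟩ : ∃ p : ℤ, p = pair w0 (D.u a) := ⟨_, rfl⟩
      obtain ⟨ψ, hψ⟩ : ∃ ψ : ℤ, ψ = rpsi f w0 := ⟨_, rfl⟩
      rw [← hp, ← hψ] at hd
      rw [← hψ] at hl
      rw [← hp]
      have e1 : 0 ≤ (κ : ℤ) * (k * (p - D.k * (ψ + 1))) :=
        mul_nonneg hκpos.le (mul_nonneg hk.le (by linarith))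
      have e2 : 0 ≤ (D.k : ℤ) * (Λ + κ * (k * ψ)) := mul_nonneg hkpos.le (by linarith)
      have e3 : 0 ≤ (D.k : ℤ) * (κ * (k - 1)) :=
        mul_nonneg hkpos.le (mul_nonneg hκpos.le (by omega))
      have e4 : (D.k : ℤ) * (Λ - κ) + κ * (k * p) =
          (κ : ℤ) * (k * (p - D.k * (ψ + 1))) + (D.k : ℤ) * (Λ + κ * (k * ψ)) +
            (D.k : ℤ) * (κ * (k - 1)) := by ring
      rw [e4]
      linarith
    · constructor
      · intro h0
        obtain ⟨k, w0, hk, hw0, hw1⟩ := exists_prim (wt x v) hw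
        have hmin0 : MinAt D.A a w0 := minAt_smul hk (by rw [← hw1]; exact hmin)
        have hd := D.disc w0 a hw0 hmin0
        rw [hpsi] at hd
        rw [hw1, rpsi_smul hRSUP f k hk] at hl
        rw [hw1, pair_smul_left] at h0
        obtain ⟨p, hp⟩ : ∃ p : ℤ, p = pair w0 (D.u a) := ⟨_, rfl⟩
        obtain ⟨ψ, hψ⟩ : ∃ ψ : ℤ, ψ = rpsi f w0 := ⟨_, rfl⟩
        rw [← hp, ← hψ] at hd
        rw [← hψ] at hl
        rw [← hp] at h0
        have e1 : 0 ≤ (κ : ℤ) * (k * (p - D.k * (ψ + 1))) :=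
          mul_nonneg hκpos.le (mul_nonneg hk.le (by linarith))
        have e2 : 0 ≤ (D.k : ℤ) * (Λ + κ * (k * ψ)) := mul_nonneg hkpos.le (by linarith)
        have e3 : 0 ≤ (D.k : ℤ) * (κ * (k - 1)) :=
          mul_nonneg hkpos.le (mul_nonneg hκpos.le (by omega))
        have e4 : (D.k : ℤ) * (Λ - κ) + κ * (k * p) =
            (κ : ℤ) * (k * (p - D.k * (ψ + 1))) + (D.k : ℤ) * (Λ + κ * (k * ψ)) +
              (D.k : ℤ) * (κ * (k - 1)) := by ring
        rw [e4] at h0
        have z1 : (κ : ℤ) * (k * (p - D.k * (ψ + 1))) = 0 := by linarith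
        have z2 : (D.k : ℤ) * (Λ + κ * (k * ψ)) = 0 := by linarith
        have z3 : (D.k : ℤ) * (κ * (k - 1)) = 0 := by linarith
        have y1 : p - D.k * (ψ + 1) = 0 :=
          ((mul_eq_zero.1 ((mul_eq_zero.1 z1).resolve_left hκpos.ne')).resolve_left hk.ne')
        have y2 : Λ + κ * (k * ψ) = 0 := (mul_eq_zero.1 z2).resolve_left hkpos.ne'
        have y3 : k = 1 := by
          have := (mul_eq_zero.1 ((mul_eq_zero.1 z3).resolve_left hkpos.ne')).resolve_left
            hκpos.ne'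
          omega
        rw [y3, one_smul] at hw1
        rw [y3, one_mul] at y2
        have hbg : BIG B x v := by
          rw [← hL.eq hw, hw1, ← hΛ, ← hψ]
          linarith
        have hray : pair w0 (D.u a) = D.k * (psi (fun i => supp0 (f' i)) w0 + 1) := by
          rw [hpsi, ← hψ, ← hp]
          linarith
        obtain ⟨b, hbA, hbw, hbI⟩ := D.ray w0 a hw0 hmin0 hray
        obtain ⟨c', b', hb', hri'⟩ := conv hRRES B x hx v j1 a hon1 D.A haA hbg b hbA
          (fun l => by rw [hw1]; exact hbw l)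
          (fun q hq => span_perp w0 (by rw [← hw1]; exact hw) _ hbI hbw q
            (by rw [← hw1]; exact hq))
        exact hht2 c' b' hb' hri'
      · intro h1
        have hbg := hbig h1
        have hprim := hL.unit hw hbg
        have hlog := (hL.eq hw).2 hbg
        rw [← hΛ] at hlog
        by_contra hne
        have hne' : pair (wt x v) (D.u a) ≠ D.k * (psi (fun i => supp0 (f' i)) (wt x v) + 1) := by
          intro h
          apply hne
          rw [hlog, h, hpsi]
          ring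
        obtain ⟨s, ν, c, c0, hc0, hc, hνI, hrel, hνmin, hs⟩ :=
          D.nonray (wt x v) a hprim hmin hne'
        have hs' : ∑ i, (rmin (f i) (∑ j, ν j) - ∑ j, rmin (f i) (ν j)) + 2 ≤ (s : ℤ) := by
          have h2 : ∑ i, (rmin (f i) (∑ j, ν j) - ∑ j, rmin (f i) (ν j)) =
              ∑ i, (minOn (supp0 (f' i)) (∑ j, ν j) - ∑ j, minOn (supp0 (f' i)) (ν j)) := by
            refine Finset.sum_congr rfl fun i _ => ?_
            rw [(hRSUP (f' i)).2.1, hrm]
            congr 1
            exact Finset.sum_congr rfl fun j _ => by rw [(hRSUP (f' i)).2.1, hrm]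
          rw [h2]
          exact hs
        refine hL.bnd hw s ν c c0 hc0 hc hνI hrel hs' ?_
        obtain ⟨c', b, hcb, hb⟩ := hht1 h1
        have hbA : ∀ l, b l ∈ D.A := fun l => (hcb l).1
        have hsp := split2 B x hx v a D.A hmin c' b hbA (fun l => (hcb l).2.1)
          (fun l => (hcb l).2.2) hb
        refine ⟨c', fun l => b l - a, fun l => ?_, hb⟩
        refine ⟨(hsp l).1, (hsp l).2.1, (hsp l).2.2.1, ?_⟩
        have h2 : ∀ j, 0 ≤ pair (ν j) (b l - a) := by
          intro j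
          rw [pair_sub]
          have := (hνmin j).2 (b l) (hbA l)
          linarith
        have h3 : ∑ j, (c j : ℤ) * pair (ν j) (b l - a) = 0 := by
          have h4 : pair (∑ j, (c j : ℤ) • ν j) (b l - a) =
              ∑ j, (c j : ℤ) * pair (ν j) (b l - a) := by
            simp only [pair, Finset.sum_apply, Pi.smul_apply, smul_eq_mul, Finset.sum_mul,
              Finset.mul_sum]
            rw [Finset.sum_comm]
            refine Finset.sum_congr rfl fun j _ => Finset.sum_congr rfl fun i _ => ?_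
            ring
          rw [← h4, ← hrel, pair_smul_left, (hsp l).2.2.2, mul_zero]
        have h6 := (Finset.sum_eq_zero_iff_of_nonneg (fun j _ =>
          mul_nonneg (Int.natCast_nonneg (c j)) (h2 j))).1 h3
        intro j
        have h7 := h6 j (Finset.mem_univ j)
        have h8 : (0 : ℤ) < (c j : ℤ) := by exact_mod_cast hc j
        exact (mul_eq_zero.1 h7).resolve_left h8.ne'

end

end RMT
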