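import Pool.Agent.RMT.StV
import Pool.Agent.RMM.RBAS

/-!
# Torus bundles, module TLE: the divisors `L_i + ⟨a, D⟩` on the base
-/

set_option autoImplicit false

namespace RMT

open MldGeo MMCI RMM

noncomputable section

namespace TLE

variable {F : Type} [Field F] [Algebra ℂ F] {b n r : ℕ} {B : ProjModel F}

/-- the order of a monomial -/
theorem ord_mon (v : DivVal b F) (t : Fin n → F) (ht : ∀ k, t k ≠ 0) (p : Fin n → ℤ) :
    v.ord (mon t p) = dotProduct p fun k => v.ord (t k) := by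
  unfold mon
  rw [v.ord_prod _ _ fun k _ => zpow_ne_zero _ (ht k)]
  exact Finset.sum_congr rfl fun k _ => v.ord_zpow _ _

/-- the order of an element of a prime divisor of the chart -/
theorem through_of {v : DivVal b F} {j : Fin (B.N + 1)} {P m : Ideal (B.ring j)}
    (hP : IsPrimeDivisor (B.ring j) v P) (hPm : P ≤ m) : Through B v j m := by
  refine ⟨fun x hx => Or.inr (hP.2.2.1 ⟨x, hx⟩), fun x hx => hPm ?_⟩
  rw [hP.2.2.2 x]
  rcases hx with hx | hx
  · exact Or.inl (Subtype.ext hx)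
  · right
    have : (1 : ℤ) ≤ v.ord (x : F) := hx
    omega

/-- the trivializations have the same order on the intersections of the charts -/
theorem ord_t {t : Fin (B.N + 1) → Fin n → F} (hT : IsTwist B t) {j j' : Fin (B.N + 1)}
    {v : DivVal b F} {P : Ideal (B.ring j)} (hP : IsPrimeDivisor (B.ring j) v P)
    (h0 : v.ord (B.s j' / B.s j) = 0) (k : Fin n) : v.ord (t j k) = v.ord (t j' k) := by
  obtain ⟨d, hd⟩ := hT.unit
  obtain ⟨h1, h2⟩ := hd j j' k
  have hs : (B.s j' / B.s j) ^ d ≠ 0 := pow_ne_zero _ (div_ne_zero (B.ne _) (B.ne _))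
  have hsd : v.ord ((B.s j' / B.s j) ^ d) = 0 := by rw [v.ord_pow, h0, mul_zero]
  have h3 : 0 ≤ v.ord (t j' k / t j k * (B.s j' / B.s j) ^ d) := hP.2.2.1 ⟨_, h1⟩
  have h4 : 0 ≤ v.ord (t j k / t j' k * (B.s j' / B.s j) ^ d) := hP.2.2.1 ⟨_, h2⟩
  rw [v.ord_mul _ _ (div_ne_zero (hT.ne _ _) (hT.ne _ _)) hs, v.ord_div (hT.ne _ _) (hT.ne _ _),
    hsd] at h3 h4
  omega

end TLE

open RMM.RBASP TLE in
theorem t_TLE : M_TLE := by
  classical
  intro hTWB F _ _ b n r B t f hT hf hB
  have hcoef : ∀ j i (v : DivVal b F), coefs (tw (t j) (f i)) =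
      (fun a => (f i).coeff a * mon (t j) a) '' ((f i).coeff.support : Set (Fin n → ℤ)) := by
    intro j i v
    obtain ⟨h1, h2, -, -⟩ := (hTWB (t j) (hT.ne j)).2.1 (f i)
    unfold coefs
    rw [h2]
    exact Set.image_congr fun a _ => h1 a
  have hne : ∀ j i, ∀ c ∈ coefs (tw (t j) (f i)), c ≠ 0 := by
    rintro j i _ ⟨a, ha, rfl⟩
    exact Finsupp.mem_support_iff.1 ha
  refine ⟨fun i a => ⟨fun j j' v P hP h0 => ?_, fun j m hm => ?_⟩, fun I k0 M p c h1 h2 j v => ?_⟩
  · have ht : (fun k => v.ord (t j k)) = fun k => v.ord (t j' k) := funext fun k => ord_t hT hP h0 k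
    have hmon : ∀ a, v.ord (mon (t j) a) = v.ord (mon (t j') a) := fun a => by
      rw [ord_mon v _ (hT.ne j), ord_mon v _ (hT.ne j'), ht]
    have hc : ∀ i, cmin v (coefs (tw (t j) (f i))) = cmin v (coefs (tw (t j') (f i))) := by
      intro i
      unfold cmin
      rw [hcoef j i v, hcoef j' i v, Set.image_image, Set.image_image]
      congr 1
      refine Set.image_congr fun a ha => ?_
      have ha0 : (f i).coeff a ≠ 0 := Finsupp.mem_support_iff.1 ha
      have e : ∀ x : F, algebraMap F F x = x := fun x => rfl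
      rw [e, e, v.ord_mul _ _ ha0 ((hTWB (t j) (hT.ne j)).1 a),
        v.ord_mul _ _ ha0 ((hTWB (t j') (hT.ne j')).1 a), hmon a]
    unfold adjT adj
    simp only [hc, hmon]
  · obtain ⟨c, hc, hc0, hloc⟩ := hB j i m hm
    have hm0 := (hTWB (t j) (hT.ne j)).1 a
    refine ⟨c⁻¹ * mon (t j) a, mul_ne_zero (inv_ne_zero hc0) hm0, fun v P hP hPm => ?_⟩
    have h3 : cmin v (coefs (tw (t j) (f i))) = v.ord (algebraMap F F c) :=
      cmin_eq (through_of hP hPm) (hne j i) hc hloc
    have e : algebraMap F F c = c := rfl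
    rw [v.ord_mul _ _ (inv_ne_zero hc0) hm0, v.ord_inv, adjT, adj, Finset.sum_singleton, h3, e]
    push_cast
    ring
  · have h3 : ∀ a, v.ord (mon (t j) a) = dotProduct a fun k => v.ord (t j k) :=
      ord_mon v _ (hT.ne j)
    have h4 : ∑ i ∈ I, ∑ a ∈ (f i).coeff.support, (c i a : ℤ) * v.ord (mon (t j) a) =
        M * v.ord (mon (t j) p) := by
      have h5 := congrArg (fun q => dotProduct q fun k => v.ord (t j k)) h2
      simp only [sum_dotProduct, smul_dotProduct, smul_eq_mul] at h5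
      simp only [h3]
      exact h5
    have h6 : ∀ i ∈ I, ∑ a ∈ (f i).coeff.support, (c i a : ℤ) * adjT b B t f {i} 1 a j v =
        (M * k0 : ℤ) * -cmin v (coefs (tw (t j) (f i))) +
          ∑ a ∈ (f i).coeff.support, (c i a : ℤ) * v.ord (mon (t j) a) := by
      intro i hi
      have h7 : (∑ a ∈ (f i).coeff.support, (c i a : ℤ)) = (M * k0 : ℤ) := by
        have := h1 i hi
        exact_mod_cast this
      rw [← h7, Finset.sum_mul, ← Finset.sum_add_distrib]
      refine Finset.sum_congr rfl fun a _ => ?_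
      rw [adjT, adj, Finset.sum_singleton]
      push_cast
      ring
    rw [Finset.sum_congr rfl h6, Finset.sum_add_distrib, h4, ← Finset.mul_sum,
      Finset.sum_neg_distrib, adjT, adj]
    ring

end

end RMT
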