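import Pool.Agent.RMT.St1

/-!
# TLG: large exponents exist
-/

set_option autoImplicit false

namespace RMT

open MldGeo MMCI RMM

noncomputable section

namespace TLG

variable {F : Type} [Field F] [Algebra ℂ F] {n : ℕ}

/-- One factor. -/
theorem factor (R : Subalgebra ℂ F) {x y q : F} {d : ℕ} (h1 : y / x * q ^ d ∈ R)
    (h2 : x / y * q ^ d ∈ R) (u : ℤ) : x ^ u / y ^ u * q ^ (d * u.natAbs) ∈ R := by
  obtain ⟨m, rfl | rfl⟩ := u.eq_nat_or_neg
  · have e : x ^ (m : ℤ) / y ^ (m : ℤ) * q ^ (d * (m : ℤ).natAbs) = (x / y * q ^ d) ^ m := by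
      rw [Int.natAbs_natCast, zpow_natCast, zpow_natCast, mul_pow, div_pow, pow_mul]
    rw [e]
    exact R.pow_mem h2 m
  · have e : x ^ (-(m : ℤ)) / y ^ (-(m : ℤ)) * q ^ (d * (-(m : ℤ)).natAbs) =
        (y / x * q ^ d) ^ m := by
      rw [Int.natAbs_neg, Int.natAbs_natCast, _root_.zpow_neg, _root_.zpow_neg, zpow_natCast,
        zpow_natCast, mul_pow, div_pow, pow_mul, inv_div_inv]
    rw [e]
    exact R.pow_mem h1 m

/-- The product. -/
theorem prod_mem (R : Subalgebra ℂ F) {x y : Fin n → F} {q : F} {d : ℕ}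
    (h1 : ∀ k, y k / x k * q ^ d ∈ R) (h2 : ∀ k, x k / y k * q ^ d ∈ R) (u : Fin n → ℤ) :
    mon x u / mon y u * q ^ (d * ∑ i, (u i).natAbs) ∈ R := by
  have e : mon x u / mon y u * q ^ (d * ∑ i, (u i).natAbs) =
      ∏ i, (x i ^ u i / y i ^ u i * q ^ (d * (u i).natAbs)) := by
    unfold mon
    rw [Finset.prod_mul_distrib, Finset.prod_div_distrib, Finset.prod_pow_eq_pow_sum,
      Finset.mul_sum]
  rw [e]
  exact R.prod_mem fun i _ => factor R (h1 i) (h2 i) (u i)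

end TLG

theorem t_TLG : S_TLG := by
  intro F _ _ n B t ht A g
  obtain ⟨d, hd⟩ := ht.unit
  refine ⟨d * (∑ a ∈ A, ∑ i, (g a i).natAbs) + 1, d * (∑ a ∈ A, ∑ i, (g a i).natAbs),
    Nat.lt_succ_self _, ?_⟩
  intro a ha j j'
  have h1 : mon (t j) (g a) / mon (t j') (g a) *
      (B.s j' / B.s j) ^ (d * ∑ i, (g a i).natAbs) ∈ B.ring j :=
    TLG.prod_mem (B.ring j) (fun k => (hd j j' k).1) (fun k => (hd j j' k).2) (g a)
  have h2 : B.s j' / B.s j ∈ B.ring j := Algebra.subset_adjoin ⟨j', rfl⟩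
  have h3 : ∑ i, (g a i).natAbs ≤ ∑ a ∈ A, ∑ i, (g a i).natAbs :=
    Finset.single_le_sum (f := fun a => ∑ i, (g a i).natAbs) (fun _ _ => Nat.zero_le _) ha
  obtain ⟨c, hc⟩ := Nat.exists_eq_add_of_le (Nat.mul_le_mul_left d h3)
  rw [hc, pow_add, ← mul_assoc]
  exact (B.ring j).mul_mem h1 ((B.ring j).pow_mem h2 c)

end

end RMT
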