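import Pool.Agent.RMT.St1

/-!
# TLOG: the residue form of the twisted system
-/

set_option autoImplicit false

namespace RMT

open MldGeo MMCI RMM

noncomputable section

theorem t_TLOG : M_TLOG := by
  intro hLOMG hTWR hTLV F K _ _ _ _ _ _ b e n r B t κ y0 β f x hpos hdim hBD hS
  have hR : RReg e f x := hS.toRReg
  obtain ⟨ω, hω⟩ := hLOMG y0 f x hBD.dimF hBD.y0_ne hBD.y0_ind hdim hR
  refine ⟨ω, ⟨hω.1, fun v j hv => ?_⟩⟩
  obtain ⟨h1, h2⟩ := hTWR (b := b) (t j) f x (hS.twist.ne j) hR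
  exact hTLV B κ y0 β (fun i => tw (t j) (f i)) (tx (t j) x) ω hpos hdim hBD h1
    ((h2 y0 hBD.dimF hBD.y0_ne hBD.y0_ind ω).1 hω) v (hS.nd j v hv)

end

end RMT
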