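import Pool.Agent.RMT.St1

/-!
# Torus bundles, module TLQ: the quotients of the coordinates of the model
-/

set_option autoImplicit false

namespace RMT

open MldGeo MMCI RMM

noncomputable section

namespace TLQ

variable {F K : Type} [Field F] [Field K] [Algebra ℂ F] {n : ℕ}

theorem mon_ne {x : Fin n → K} (hx : ∀ j, x j ≠ 0) (a : Fin n → ℤ) : mon x a ≠ 0 :=
  Finset.prod_ne_zero_iff.2 fun j _ => zpow_ne_zero _ (hx j)

theorem mon_sub {x : Fin n → K} (hx : ∀ j, x j ≠ 0) (a c : Fin n → ℤ) :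
    mon x (a - c) = mon x a / mon x c := by
  unfold mon
  rw [← Finset.prod_div_distrib]
  exact Finset.prod_congr rfl fun j _ => zpow_sub₀ (hx j) _ _

theorem div_mem (B : ProjModel F) (i j : Fin (B.N + 1)) : B.s i / B.s j ∈ B.ring j :=
  Algebra.subset_adjoin ⟨i, rfl⟩

end TLQ

open TLQ in
theorem t_TLQ : M_TLQ := by
  intro hTWA F K _ _ _ _ _ _ n B t hT k x hx A g
  have inj : ∀ {c : F}, c ≠ 0 → algebraMap F K c ≠ 0 := fun {c} hc =>
    (map_ne_zero_iff _ (algebraMap F K).injective).2 hc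
  have htx : ∀ j k, tx (t j) x k ≠ 0 := fun j k => div_ne_zero (hx k) (inj (hT.ne j k))
  have hmt : ∀ j a, mon (t j) a ≠ 0 := fun j a => (hTWA (F := F) (K := K) (t j) (hT.ne j)).1 a
  have hch : ∀ j a, mon (tx (t j) x) a * algebraMap F K (mon (t j) a) = mon x a := fun j a =>
    ((hTWA (F := F) (K := K) (t j) (hT.ne j)).2.2.2 x hx).2.1 a
  refine ⟨fun l => ?_, fun i i' j j' a a' => ?_, fun hL i j j' a => ?_⟩
  · exact mul_ne_zero (inj (mul_ne_zero (div_ne_zero (B.ne _) (B.ne _))
      (pow_ne_zero _ (div_ne_zero (B.ne _) (B.ne _))))) (mon_ne (htx _) _)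
  · have h1 := hch j (g a')
    have h2 := hch j' (g a')
    have h3 : mon (tx (t j') x) (g a') = mon (tx (t j) x) (g a') *
        (algebraMap F K (mon (t j) (g a')) / algebraMap F K (mon (t j') (g a'))) := by
      rw [mul_div_assoc', h1, ← h2, mul_div_cancel_right₀ _ (inj (hmt _ _))]
    have hsi := inj (B.ne i)
    have hsj := inj (B.ne j)
    have hs0 := inj (B.ne 0)
    have hm := mon_ne (htx j) (g a)
    have hm' := inj (hmt j' (g a'))
    unfold tm
    dsimp only
    rw [h3, mon_sub (htx j)]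
    simp only [map_mul, map_div₀, map_pow, div_pow]
    field_simp
  · obtain ⟨k', hk', hl⟩ := hL
    have h1 : (B.s j' / B.s j) ^ k' * (mon (t j) (g a) / mon (t j') (g a)) ∈ B.ring j := by
      rw [mul_comm]
      exact hl a a.2 j j'
    have h2 : (B.s j' / B.s j) ^ k * (mon (t j) (g a) / mon (t j') (g a)) ∈ B.ring j := by
      have h3 : k = (k - k') + k' := by omega
      rw [h3, pow_add, mul_assoc]
      exact (B.ring j).mul_mem ((B.ring j).pow_mem (div_mem B j' j) _) h1
    exact ⟨(B.ring j).mul_mem (div_mem B i j) h2, h2, k', hk', h1⟩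

end

end RMT
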