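import Pool.Agent.RMT.St1
import Pool.Agent.RMM.RLOG

/-!
# Twisted relative minimal models, module TLV: the orders of the residue form at one valuation
-/

set_option autoImplicit false

namespace RMT

open MldGeo MMCI RMM

theorem t_TLV : M_TLV := by
  intro hMON hREV hLREL hLUNI hABAS hLFRM hLE1 hLE0 hLUNT hLBND F K _ _ _ _ _ _ b e n r
    B κ y0 β f x ω hpos hdim hB hR hω v hN
  have hκ : (0 : ℤ) < κ := by exact_mod_cast hB.κ_pos
  have hkey : ∀ L : Loc B e κ y0 β f x v,
      κ * v.logOrd ω - bo κ β (fun i => coefs (f i)) v =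
        κ * (v.logOrd (dlogs (rest L.z L.σ)) - rpsi f (wt x v)) := fun L =>
    RLOG.key hpos hdim v L (hLUNI hMON B κ y0 β f x hR v L) ω hω.1
      (hLFRM B κ y0 β f x hB.y0_ne hB.y0_ind hdim hR ω hω v L)
  refine ⟨?_, ?_, ?_, ?_, ?_, ?_⟩
  · intro hv
    rcases hN with ⟨⟨L⟩⟩ | ⟨hnB, hd⟩
    · have h1 := (hLE1 B κ y0 β f x hpos hdim hR v L hv).1
      rw [hkey L]
      nlinarith
    · have h1 := hd ω hω
      linarith
  · intro hv
    rcases hN with ⟨⟨L⟩⟩ | ⟨hnB, hd⟩
    · have h1 := (hLE1 B κ y0 β f x hpos hdim hR v L hv).2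
      rw [hkey L, ← h1]
      constructor
      · intro h2
        have h3 : (κ : ℤ) * v.logOrd (dlogs (rest L.z L.σ)) = 0 := by linarith
        rcases mul_eq_zero.1 h3 with h4 | h4
        · exact absurd h4 hκ.ne'
        · exact h4
      · intro h2
        rw [h2]
        ring
    · have h1 := hd ω hω
      constructor
      · intro h2
        linarith
      · intro h2
        exact absurd h2 hnB
  · intro hv
    rcases hN with ⟨⟨L⟩⟩ | ⟨hnB, hd⟩
    · have h1 := (hLE0 B κ y0 β f x hpos hdim hR v L hv).1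
      rw [hkey L, hv, RLOG.rpsi_zero, sub_zero]
      nlinarith
    · have h1 := hd ω hω
      rw [hv, RLOG.rpsi_zero] at h1
      linarith
  · intro hv
    rcases hN with ⟨⟨L⟩⟩ | ⟨hnB, hd⟩
    · have h1 := (hLE0 B κ y0 β f x hpos hdim hR v L hv).2
      rw [hkey L, hv, RLOG.rpsi_zero, sub_zero, ← h1]
      constructor
      · intro h2
        have h3 : (κ : ℤ) * (v.logOrd (dlogs (rest L.z L.σ)) - 1) = 0 := by linarith
        rcases mul_eq_zero.1 h3 with h4 | h4
        · exact absurd h4 hκ.ne'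
        · linarith
      · intro h2
        rw [h2]
        ring
    · have h1 := hd ω hω
      rw [hv, RLOG.rpsi_zero] at h1
      constructor
      · intro h2
        linarith
      · intro h2
        exact absurd h2 hnB
  · intro hv hbig
    rcases hN with ⟨⟨L⟩⟩ | ⟨hnB, hd⟩
    · exact hLUNT B κ y0 β f x hpos hdim hR v L hv hbig
    · exact absurd hbig hnB
  · intro hv s ν c c0 hc0 hc hl he hs
    rcases hN with ⟨⟨L⟩⟩ | ⟨hnB, hd⟩
    · exact hLBND B κ y0 β f x hpos hdim hR v L s ν c c0 hc0 hc hl he hs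
    · rintro ⟨a, q, haq, hind⟩
      exact hnB ⟨a, q, fun l => ⟨(haq l).1, (haq l).2.1, (haq l).2.2.1,
        RLOG.pair_zero (wt x v) (q l) ν c c0 hc0 he (haq l).2.2.2⟩, hind⟩

end RMT
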