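import Pool.Agent.RMT.St2
import Pool.Agent.RMM.RMAIN

/-!
# Torus bundles: the assembly by induction on the number of variables
-/

set_option autoImplicit false

namespace RMT

open MldGeo MMCI RMM

noncomputable section

/-- TMAIN. -/
theorem t_TMAIN : M_TMAIN := by
  intro hFAN hRFN hRSP hTLOG hTMD hTTER hTSEM hTNEF hTFIB hTRED hTUF hTNH
  intro F K _ _ _ _ _ _ b e n r B κ y0 β t f x hpos hdim hB
  have key : ∀ (N : ℕ) {n r : ℕ} (t : Fin (B.N + 1) → Fin n → F) (f : Fin r → LR F n)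
      (x : Fin n → K), n = N → RSysT B t e κ y0 β f x → HypN b B t f →
      MMR (b + e) K (HypS b B t f) := by
    intro N
    induction N using Nat.strong_induction_on with
    | _ N ih =>
      intro n r t f x hN hS hNf
      obtain ⟨ω, hω⟩ := hTLOG B t κ y0 β f x hpos hdim hB hS
      have hf0 : ∀ i, supp0 (f i) ≠ 0 := fun i => (hRSP (f i)).2.1 (hS.f_ne i)
      have hDat : DatT B t κ b y0 β f x := ⟨hpos, hdim, hS.ne, hS.twist, hS.bpf, hB⟩
      rcases RMAIN.fan hFAN hRFN (fun i => supp0 (f i)) hf0 with ⟨⟨D⟩⟩ | ⟨⟨D⟩⟩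
      · obtain ⟨Y, hY⟩ := hTMD B t x hpos hdim hS.ne hS.gen hS.twist D.A D.nonempty D.full
        refine ⟨Y, hTTER B t κ b y0 β f x hDat D.toFan ω Y hω hY, Or.inl ⟨?_, ?_⟩⟩
        · exact hTNEF B t κ b y0 β f x hDat D
            (fun a ha => hNf Finset.univ D.k (D.u a) D.k_pos (hTUF f D a ha).2) ω Y hω hY
        · intro hs
          exact hTSEM B t κ b y0 β f x hDat D
            (fun a ha => hs Finset.univ D.k (D.u a) D.k_pos (hTUF f D a ha).2) ω Y hω hY
      · have hle : Algebra.trdeg ℂ (Fb (F := F) x D.A D.b) ≤ ((b + e : ℕ) : Cardinal) := by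
          rw [← hdim]
          exact trdeg_le_of_injective (IntermediateField.val _) (RingHom.injective _)
        rcases hle.lt_or_eq with hlt | heq
        · obtain ⟨Y, hY⟩ := hTMD B t x hpos hdim hS.ne hS.gen hS.twist D.A D.nonempty D.full
          exact ⟨Y, hTTER B t κ b y0 β f x hDat D.toFan ω Y hω hY,
            Or.inr (hTFIB B t κ b y0 β f x hDat D ω Y hω hY hlt)⟩
        · obtain ⟨n', r', m, p, ρ, f', h1, hρ, hm, hch, h2⟩ :=
            hTRED B κ y0 β t f x hpos hdim hB hS D heq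
          have hH := hTNH (b := b) B t f m p ρ f' hS.twist.ne hS.f_ne hm hρ hch
          obtain ⟨Y, k1, k2⟩ := ih n' (by omega) _ f' _ rfl h2 (hH.1 hNf)
          refine ⟨Y, k1, ?_⟩
          rcases k2 with ⟨k3, k4⟩ | k3
          · exact Or.inl ⟨k3, fun hs => k4 (hH.2 hs)⟩
          · exact Or.inr k3
  intro hS hNf
  exact key n t f x rfl hS hNf

end

end RMT
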