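import Pool.Agent.RMT.St1
import Pool.Agent.MMCI.FUL

/-!
# TMD: the model of the twisted system exists
-/

set_option autoImplicit false

namespace RMT

open MldGeo MMCI RMM

noncomputable section

namespace TMD

/-- Extension by zero. -/
def ap0 (n L : ℕ) : (Fin n → ℤ) →+ (Fin (n + L) → ℤ) where
  toFun u := Fin.append u (0 : Fin L → ℤ)
  map_zero' := by
    funext i
    refine Fin.addCases (fun l => ?_) (fun l => ?_) i
    · rw [Fin.append_left]; rfl
    · rw [Fin.append_right]; rfl
  map_add' := by
    intro u v
    funext i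
    refine Fin.addCases (fun l => ?_) (fun l => ?_) i
    · rw [Pi.add_apply, Fin.append_left, Fin.append_left, Fin.append_left]; rfl
    · rw [Pi.add_apply, Fin.append_right, Fin.append_right, Fin.append_right]; rfl

section

variable {F K : Type} [Field F] [Field K] [Algebra ℂ F] [Algebra ℂ K] [Algebra F K]
  [IsScalarTower ℂ F K] {n : ℕ}

variable (B : ProjModel F) (t : Fin (B.N + 1) → Fin n → F) (k : ℕ) (x : Fin n → K)
  (A : Finset (Fin n → ℤ))

/-- The index set. -/
abbrev Ix : Type := Fin (B.N + 1) × Fin (B.N + 1) × A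

/-- The indices which do not belong to the chart `0`. -/
abbrev Ix' : Type := {l : Ix B A // ¬ (l.1 = 0 ∧ l.2.1 = 0)}

/-- The number of these. -/
def L : ℕ := Fintype.card (Ix' B A)

/-- Their enumeration. -/
def q : Fin (L B A) ≃ Ix' B A := (Fintype.equivFin (Ix' B A)).symm

/-- The part in `F` of the coordinates. -/
def y (l : Ix B A) : F :=
  B.s l.1 / B.s 0 * (B.s l.2.1 / B.s 0) ^ k * (mon (t 0) l.2.2 / mon (t l.2.1) l.2.2)

/-- The coordinates. -/
def xq : Fin (n + L B A) → K :=
  Fin.append (tx (t 0) x) fun i => algebraMap F K (y B t k A (q B A i))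

/-- The exponents. -/
def ex (l : Ix B A) : Fin (n + L B A) → ℤ :=
  Fin.append (l.2.2 : Fin n → ℤ) fun i => if ((q B A i : Ix' B A) : Ix B A) = l then 1 else 0

variable {B t A}

theorem y_ne (ht : ∀ j k, t j k ≠ 0) (l : Ix B A) : y B t k A l ≠ 0 := by
  unfold y
  refine mul_ne_zero (mul_ne_zero (div_ne_zero (B.ne _) (B.ne _))
    (pow_ne_zero _ (div_ne_zero (B.ne _) (B.ne _)))) (div_ne_zero ?_ ?_)
  · exact Finset.prod_ne_zero_iff.2 fun i _ => zpow_ne_zero _ (ht _ i)
  · exact Finset.prod_ne_zero_iff.2 fun i _ => zpow_ne_zero _ (ht _ i)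

theorem y_one (ht : ∀ j k, t j k ≠ 0) (l : Ix B A) (h : l.1 = 0 ∧ l.2.1 = 0) :
    y B t k A l = 1 := by
  unfold y
  rw [h.1, h.2, div_self (B.ne 0), one_pow, mul_one, one_mul]
  exact div_self (Finset.prod_ne_zero_iff.2 fun i _ => zpow_ne_zero _ (ht _ i))

theorem mon_xh (hTWA : S_TWA) (ht : ∀ j k, t j k ≠ 0) (hx : ∀ j, x j ≠ 0) (l : Ix B A) :
    mon (xq B t k x A) (ex B A l) = tm B t k x A id l := by
  obtain ⟨i, j, a⟩ := l
  have h1 : mon (xq B t k x A) (ex B A (i, j, a)) =
      mon (tx (t 0) x) a * algebraMap F K (y B t k A (i, j, a)) := by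
    unfold mon
    rw [Fin.prod_univ_add]
    congr 1
    · refine Finset.prod_congr rfl fun l _ => ?_
      unfold xq ex
      rw [Fin.append_left, Fin.append_left]
    · by_cases h : i = 0 ∧ j = 0
      · rw [y_one k ht (i, j, a) h, map_one]
        refine Finset.prod_eq_one fun l _ => ?_
        unfold xq ex
        rw [Fin.append_right, Fin.append_right, if_neg, zpow_zero]
        intro h2
        have h3 := (q B A l).2
        rw [h2] at h3
        exact h3 h
      · rw [Finset.prod_eq_single ((q B A).symm ⟨(i, j, a), h⟩)]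
        · unfold xq ex
          rw [Fin.append_right, Fin.append_right, Equiv.apply_symm_apply, if_pos rfl, zpow_one]
        · intro l _ hl
          unfold xq ex
          rw [Fin.append_right, Fin.append_right, if_neg, zpow_zero]
          intro h2
          apply hl
          rw [Equiv.eq_symm_apply]
          exact Subtype.ext h2
        · intro h2
          exact absurd (Finset.mem_univ _) h2
  rw [h1]
  have e0 := ((hTWA (K := K) (t 0) (ht 0)).2.2.2 x hx).2.1 a
  have ej := ((hTWA (K := K) (t j) (ht j)).2.2.2 x hx).2.1 a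
  have n0 : algebraMap F K (mon (t 0) a) ≠ 0 :=
    (map_ne_zero _).2 ((hTWA (K := K) (t 0) (ht 0)).1 a)
  have nj : algebraMap F K (mon (t j) a) ≠ 0 :=
    (map_ne_zero _).2 ((hTWA (K := K) (t j) (ht j)).1 a)
  unfold tm y
  show mon (tx (t 0) x) a * algebraMap F K (B.s i / B.s 0 * (B.s j / B.s 0) ^ k *
      (mon (t 0) a / mon (t j) a)) =
    algebraMap F K (B.s i / B.s 0 * (B.s j / B.s 0) ^ k) * mon (tx (t j) x) a
  have e1 : mon (tx (t j) x) a = mon (tx (t 0) x) a *
      (algebraMap F K (mon (t 0) a) / algebraMap F K (mon (t j) a)) := by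
    rw [← mul_div_assoc, eq_div_iff nj, ej, e0]
  rw [e1]
  simp only [map_mul, map_div₀, map_pow]
  ring

theorem full (hA : A.Nonempty)
    (h : ∀ a ∈ A, ∃ b : Fin n → (Fin n → ℤ), (∀ l, b l ∈ A) ∧
      LinearIndependent ℤ fun l => b l - a) : Full (ex B A) := by
  classical
  intro u
  set H := AddSubgroup.closure {w : Fin (n + L B A) → ℤ | ∃ v v' : Ix B A,
    w = ex B A v' - ex B A v} with hH
  set H0 := AddSubgroup.closure {w : Fin n → ℤ | ∃ v v' : {a // a ∈ A},
    w = (v' : Fin n → ℤ) - (v : Fin n → ℤ)} with hH0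
  -- the vectors of the second part
  have h1 : ∀ i : Fin (L B A), Fin.append (0 : Fin n → ℤ) (Pi.single i 1) ∈ H := by
    intro i
    have e : Fin.append (0 : Fin n → ℤ) (Pi.single i 1) =
        ex B A ((q B A i : Ix' B A) : Ix B A) -
          ex B A (0, 0, ((q B A i : Ix' B A) : Ix B A).2.2) := by
      funext c
      refine Fin.addCases (fun l => ?_) (fun l => ?_) c
      · rw [Pi.sub_apply]
        unfold ex
        rw [Fin.append_left, Fin.append_left, Fin.append_left]
        simp
      · rw [Pi.sub_apply]
        unfold ex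
        rw [Fin.append_right, Fin.append_right, Fin.append_right]
        have e2 : ((q B A l : Ix' B A) : Ix B A) ≠
            (0, 0, ((q B A i : Ix' B A) : Ix B A).2.2) := by
          intro h2
          have h3 := (q B A l).2
          rw [h2] at h3
          exact h3 ⟨rfl, rfl⟩
        rw [if_neg e2, sub_zero]
        by_cases h3 : l = i
        · rw [h3, if_pos rfl, Pi.single_eq_same]
        · rw [Pi.single_eq_of_ne h3, if_neg]
          intro h4
          exact h3 ((q B A).injective (Subtype.ext h4))
    rw [e]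
    exact AddSubgroup.subset_closure ⟨_, _, rfl⟩
  -- the vectors of the first part
  have h2 : ∀ v ∈ H0, ap0 n (L B A) v ∈ H := by
    intro v hv
    have hle : H0 ≤ H.comap (ap0 n (L B A)) := by
      rw [hH0, AddSubgroup.closure_le]
      rintro _ ⟨a, a', rfl⟩
      show ap0 n (L B A) ((a' : Fin n → ℤ) - (a : Fin n → ℤ)) ∈ H
      have e : ap0 n (L B A) ((a' : Fin n → ℤ) - (a : Fin n → ℤ)) =
          ex B A (0, 0, a') - ex B A (0, 0, a) := by
        funext c
        refine Fin.addCases (fun l => ?_) (fun l => ?_) c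
        · rw [Pi.sub_apply]
          unfold ex ap0
          show Fin.append _ _ _ = _
          rw [Fin.append_left, Fin.append_left, Fin.append_left]
          rfl
        · rw [Pi.sub_apply]
          unfold ex ap0
          show Fin.append _ _ _ = _
          rw [Fin.append_right, Fin.append_right, Fin.append_right, if_neg, if_neg]
          · rfl
          · intro h3
            have h4 := (q B A l).2
            rw [h3] at h4
            exact h4 ⟨rfl, rfl⟩
          · intro h3
            have h4 := (q B A l).2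
            rw [h3] at h4
            exact h4 ⟨rfl, rfl⟩
      rw [e]
      exact AddSubgroup.subset_closure ⟨_, _, rfl⟩
    exact hle hv
  obtain ⟨M, hM, hM1⟩ := FUL.full hA h (fun l => u (Fin.castAdd (L B A) l))
  refine ⟨M, hM, ?_⟩
  have e : M • u = ap0 n (L B A) (M • fun l => u (Fin.castAdd (L B A) l)) +
      ∑ i : Fin (L B A), ((M : ℤ) * u (Fin.natAdd n i)) •
        (Fin.append (0 : Fin n → ℤ) (Pi.single i 1) : Fin (n + L B A) → ℤ) := by
    funext c
    refine Fin.addCases (fun l => ?_) (fun l => ?_) c
    · rw [Pi.add_apply, Finset.sum_apply]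
      unfold ap0
      show _ = Fin.append _ _ _ + _
      rw [Fin.append_left]
      simp [Fin.append_left]
    · rw [Pi.add_apply, Finset.sum_apply]
      unfold ap0
      show _ = Fin.append _ _ _ + _
      rw [Fin.append_right, Finset.sum_eq_single l]
      · rw [Pi.smul_apply, Pi.smul_apply, Fin.append_right, Pi.single_eq_same]
        simp
      · intro i _ hi
        rw [Pi.smul_apply, Fin.append_right, Pi.single_eq_of_ne (Ne.symm hi), smul_zero]
      · intro h3
        exact absurd (Finset.mem_univ _) h3
  rw [e]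
  exact H.add_mem (h2 _ hM1) (H.sum_mem fun i _ => H.zsmul_mem (h1 i) _)

end

end TMD

open TMD in
theorem t_TMD : M_TMD := by
  intro hTWA hTIM hTLG F K _ _ _ _ _ _ e' n B t x he htr hx hgen hT A hA hind
  obtain ⟨k, hk⟩ := hTLG B t hT A id
  have ht := hT.ne
  have hne : ∀ l, xq B t k x A l ≠ 0 := by
    intro l
    refine Fin.addCases (fun l => ?_) (fun l => ?_) l
    · unfold xq
      rw [Fin.append_left]
      exact ((hTWA (K := K) (t 0) (ht 0)).2.2.2 x hx).1 l
    · unfold xq
      rw [Fin.append_right]
      exact (map_ne_zero _).2 (y_ne k ht _)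
  have htop : IntermediateField.adjoin ℂ (Set.range (xq B t k x A)) = ⊤ := by
    set E := IntermediateField.adjoin ℂ (Set.range (xq B t k x A)) with hE
    have hy : ∀ l : Ix B A, algebraMap F K (y B t k A l) ∈ E := by
      intro l
      by_cases h : l.1 = 0 ∧ l.2.1 = 0
      · rw [y_one k ht l h, map_one]
        exact one_mem _
      · have e : algebraMap F K (y B t k A l) =
            xq B t k x A (Fin.natAdd n ((q B A).symm ⟨l, h⟩)) := by
          unfold xq
          rw [Fin.append_right, Equiv.apply_symm_apply]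
        rw [e]
        exact IntermediateField.subset_adjoin _ _ ⟨_, rfl⟩
    have hF : ∀ c : F, algebraMap F K c ∈ E := by
      intro c
      have hle : IntermediateField.adjoin ℂ (Set.range fun j => B.s j / B.s 0) ≤
          E.comap (IsScalarTower.toAlgHom ℂ F K) := by
        rw [IntermediateField.adjoin_le_iff]
        rintro _ ⟨j, rfl⟩
        change algebraMap F K (B.s j / B.s 0) ∈ E
        obtain ⟨a, ha⟩ := hA
        have e : B.s j / B.s 0 = y B t k A (j, 0, ⟨a, ha⟩) := by
          unfold y
          show _ = B.s j / B.s 0 * (B.s 0 / B.s 0) ^ k * (mon (t 0) a / mon (t 0) a)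
          rw [div_self (B.ne 0), one_pow, mul_one,
            div_self ((hTWA (K := K) (t 0) (ht 0)).1 a), mul_one]
        rw [e]
        exact hy _
      rw [B.gen] at hle
      exact hle (x := c) trivial
    rw [eq_top_iff]
    intro z _
    have hz : z ∈ IntermediateField.adjoin F (Set.range x) := by
      rw [hgen]
      trivial
    induction hz using IntermediateField.adjoin_induction with
    | mem y hy =>
      obtain ⟨l, rfl⟩ := hy
      have e : x l = xq B t k x A (Fin.castAdd (L B A) l) * algebraMap F K (t 0 l) := by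
        unfold xq tx
        rw [Fin.append_left, div_mul_cancel₀]
        exact (map_ne_zero _).2 (ht 0 l)
      rw [e]
      exact mul_mem (IntermediateField.subset_adjoin _ _ ⟨_, rfl⟩) (hF _)
    | algebraMap c => exact hF c
    | add y z _ _ h1 h2 => exact add_mem (h1 trivial) (h2 trivial)
    | inv y _ h1 => exact inv_mem (h1 trivial)
    | mul y z _ _ h1 h2 => exact mul_mem (h1 trivial) (h2 trivial)
  have hNE : Nonempty (Ix B A) := by
    obtain ⟨a, ha⟩ := hA
    exact ⟨(0, 0, ⟨a, ha⟩)⟩
  obtain ⟨Y, hY⟩ := hTIM (xq B t k x A) (ex B A) hne htop htr he (full hA hind)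
  refine ⟨Y, k, hk, ?_⟩
  have e : (fun l => mon (xq B t k x A) (ex B A l)) = tm B t k x A id := by
    funext l
    exact mon_xh k x hTWA ht hx l
  rw [← e]
  exact hY

end

end RMT
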