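import Pool.Agent.RMT.St1
import Pool.Agent.MMCI.FBN
import Pool.Agent.MMCI.RGW
import Pool.Agent.MMCI.RSU
import Pool.Agent.MMCI.LCM
import Pool.Agent.MMCI.FRC
import Pool.Agent.MMCI.FUL

/-!
# TNEF: the canonical divisor is nef in case (a)
-/

set_option autoImplicit false

namespace RMT

open MldGeo MMCI RMM MMCI.FBN

noncomputable section

namespace TNEF

theorem pair_smul {n : ℕ} (w : Fin n → ℤ) (c : ℤ) (u : Fin n → ℤ) :
    pair w (c • u) = c * pair w u := by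
  unfold pair
  rw [Finset.mul_sum]
  refine Finset.sum_congr rfl fun i _ => ?_
  rw [Pi.smul_apply, smul_eq_mul]
  ring

theorem LCM_h : Stmt_LCM := t_LCM t_FRC

theorem RGW_h : Stmt_RGW := t_RGW t_RSU

end TNEF

open TNEF

theorem t_TNEF : M_TNEF := by
  intro hTWA hTGT hTCMQ hTTRA F K _ _ _ _ _ _ e' n r B t κ b y0 β f x hD D hnef ω Y hlog hM
    ω' hω' γ k h g u hk hEq
  classical
  have htr := hD.dim
  have hx := hD.ne
  have hBD := hD.base
  have hT := hD.twist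
  obtain ⟨w₀, i, m, j, mB, a, G, U, hmap, hpt, hU, hfin1, hfin2, hsum⟩ :=
    hTCMQ B t κ b y0 β f x hD D.toFan ω Y hlog hM ω' hω' γ k h g u hk hEq
  refine ⟨hfin1, ?_⟩
  obtain ⟨kk, -, hMM⟩ := hM
  have hn := hMM.normal
  have hxj : ∀ w l, tx (t (j w)) x l ≠ 0 := fun w =>
    ((hTWA (K := K) (t (j w)) (hT.ne (j w))).2.2.2 x hx).1
  obtain ⟨uniq, -, rmul, rinv, rpow, rconst, -⟩ := t_RSU γ
  have rinv1 : ∀ (z : K) (u : γ.L), γ.Restr z u → u ≠ 0 → γ.Restr z⁻¹ u⁻¹ := by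
    intro z u h1 h2
    have h3 := (rinv _ _ h1 h2).2 (-1)
    rwa [zpow_neg_one, zpow_neg_one] at h3
  have hκ : (0 : ℤ) < κ := by exact_mod_cast hBD.κ_pos
  have haA : ∀ w, a w ∈ D.A := fun w => (hpt w).mem
  have haM : ∀ w (v : DivVal e' K) (P : Ideal (Y.ring (i w))), IsPrimeDivisor (Y.ring (i w)) v P →
      P ≤ m w → MinAt D.A (a w) (wt (tx (t (j w)) x) v) := fun w v P hP hPm =>
    ((hpt w).ctr v P ⟨hP.1, hP.2.2.1, hP.2.2.2⟩ hPm).2.1
  -- the restrictions of the monomials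
  have ht : ∀ w, ∃ t' : γ.L, w.Ge 0 t' ∧
      γ.Restr (mon (tx (t (j w)) x) ((κ : ℤ) • (D.u (a w₀) - D.u (a w)))) t' := by
    intro w
    obtain ⟨t', h1, h2⟩ := restr_ge LCM_h t_FUL RGW_h (hxj w) htr hn (hmap w)
      (c := (κ : ℤ) • (D.u (a w₀) - D.u (a w))) (fun v P hP hPm => by
        rw [pair_smul, pair_sub]
        exact mul_nonneg hκ.le (sub_nonneg.2 (D.nef _ _ _ (haM w v P hP hPm) (haA w₀))))
    exact ⟨t', h2, h1⟩
  choose t' hto htr' using ht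
  -- the composite curve
  obtain ⟨φ, hφ, hφ2, hφ3⟩ := hTTRA B Y hBD.dimF hBD.normal γ w₀ i m j mB hmap
    (fun w => (hpt w).max) (fun w => (hpt w).res)
  set g' : DivVal 1 γ.L → F := fun w => gT (t (j w)) κ D.k (G w) (D.u (a w₀)) with hg'
  have hTG : ∀ w w', g' w ≠ 0 ∧
      IsEqC B D.k (adjT b B t f Finset.univ D.k (D.u (a w₀))) (dlogs y0) κ (j w) (mB w) (g' w) ∧
      ∀ (v : DivVal b F) (P : Ideal (B.ring (j w))) (P' : Ideal (B.ring (j w'))),
        IsPrimeDivisor (B.ring (j w)) v P → P ≤ mB w → IsPrimeDivisor (B.ring (j w')) v P' →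
        P' ≤ mB w' → v.ord (g' w) = v.ord (g' w') := fun w w' =>
    hTGT B t hT f κ D.k (D.u (a w₀)) (dlogs y0) (j w) (j w') (mB w) (mB w') (G w) (G w')
      (hpt w).G_ne (hpt w').G_ne (hpt w).eqB (hpt w').eqB
  have hα : ∀ w, ∃ p q : B.ring (j w₀), φ p ≠ 0 ∧ φ q ≠ 0 ∧ g' w / g' w₀ * (q : F) = p :=
    fun w => hφ3 w w₀ (g' w) (g' w₀) (hTG w w).1 (hTG w₀ w₀).1 (hTG w w₀).2.2
  choose p q hp hq hpq using hα
  set α : DivVal 1 γ.L → γ.L := fun w => φ (p w) * (φ (q w))⁻¹ with hαd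
  have hα0 : ∀ w, α w ≠ 0 := fun w => mul_ne_zero (hp w) (inv_ne_zero (hq w))
  have hαr : ∀ w, γ.Restr (algebraMap F K (g' w / g' w₀)) (α w) := by
    intro w
    have h2 := rmul _ _ _ _ (hφ (p w)) (rinv1 _ _ (hφ (q w)) (hq w))
    have hqF : (q w : F) ≠ 0 := by
      intro h0
      have h1 : q w = 0 := Subtype.ext h0
      exact hq w (by rw [h1, map_zero])
    rw [← map_inv₀, ← map_mul, ← hpq, mul_assoc, mul_inv_cancel₀ hqF, mul_one] at h2
    exact h2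
  have hUe : ∀ w, U w = α w * t' w := fun w =>
    uniq _ _ _ (hU w).2 (rmul _ _ _ _ (hαr w) (htr' w))
  have ht0 : ∀ w, t' w ≠ 0 := by
    intro w h0
    refine (hU w).1 ?_
    rw [hUe w, h0, mul_zero]
  have hto' : ∀ w : DivVal 1 γ.L, 0 ≤ w.ord (t' w) := fun w =>
    (hto w).resolve_left (ht0 w)
  -- the degree on `B`
  have hdeg : {w : DivVal 1 γ.L | w.ord (α w) ≠ 0}.Finite ∧
      0 ≤ ∑ᶠ w : DivVal 1 γ.L, w.ord (α w) := by
    by_cases hcst : ∃ a, φ a ∉ Set.range (algebraMap ℂ γ.L)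
    · refine hnef (a w₀) (haA w₀) (dlogs y0) hBD.y0_ind (compCurve γ B (j w₀) φ hcst) κ (g' w₀)
        g' α hBD.κ_pos ⟨(hTG w₀ w₀).1, hα0, fun w => ?_, fun w => ?_⟩
      · refine ⟨p w, q w, hq w, hpq w, ?_⟩
        change φ (p w) * (φ (q w))⁻¹ * φ (q w) = φ (p w)
        rw [mul_assoc, inv_mul_cancel₀ (hq w), mul_one]
      · exact ⟨j w, mB w, hφ2 hcst w, (hTG w w).2.1⟩
    · push Not at hcst
      have h0 : ∀ w : DivVal 1 γ.L, w.ord (α w) = 0 := by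
        intro w
        obtain ⟨c, hc'⟩ := hcst (p w)
        obtain ⟨d, hd⟩ := hcst (q w)
        have h1 : α w = algebraMap ℂ γ.L (c * d⁻¹) := by
          rw [map_mul, map_inv₀, hc', hd]
        rw [h1, w.ord_const]
      refine ⟨?_, ?_⟩
      · have h1 : {w : DivVal 1 γ.L | w.ord (α w) ≠ 0} = ∅ := by
          ext w
          simp [h0 w]
        rw [h1]
        exact Set.finite_empty
      · exact finsum_nonneg fun w => (h0 w).ge
  -- the orders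
  have hUo : ∀ w : DivVal 1 γ.L, w.ord (U w) = w.ord (α w) + w.ord (t' w) := by
    intro w
    rw [hUe w, w.ord_mul _ _ (hα0 w) (ht0 w)]
  have hfint : {w : DivVal 1 γ.L | w.ord (t' w) ≠ 0}.Finite := by
    refine (hfin2.union hdeg.1).subset fun w hw => ?_
    by_contra h1
    rw [Set.mem_union, not_or, Set.mem_ofPred_eq, Set.mem_ofPred_eq, not_not, not_not] at h1
    have h2 := hUo w
    rw [h1.1, h1.2, zero_add] at h2
    exact hw h2.symm
  have hpos : 0 ≤ ∑ᶠ w : DivVal 1 γ.L, w.ord (U w) := by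
    have h1 : (∑ᶠ w : DivVal 1 γ.L, w.ord (U w)) =
        (∑ᶠ w : DivVal 1 γ.L, w.ord (α w)) + ∑ᶠ w : DivVal 1 γ.L, w.ord (t' w) := by
      rw [← finsum_add_distrib hdeg.1 hfint]
      exact finsum_congr hUo
    rw [h1]
    exact add_nonneg hdeg.2 (finsum_nonneg hto')
  have hkk : (0 : ℤ) < ((D.k * κ : ℕ) : ℤ) := by
    exact_mod_cast Nat.mul_pos D.k_pos hBD.κ_pos
  have h1 : 0 ≤ ((D.k * κ : ℕ) : ℤ) * ∑ᶠ w : DivVal 1 γ.L, w.ord (u w) := by
    rw [hsum]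
    exact mul_nonneg (by positivity) hpos
  exact nonneg_of_mul_nonneg_right h1 hkk

end

end RMT
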