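import Pool.Agent.RMT.StV

/-!
# TNSC: multiples of nef and semiample divisors
-/

set_option autoImplicit false

namespace RMT

open MldGeo MMCI RMM

noncomputable section

namespace TNSC

theorem ord_one {n : ℕ} {K : Type} [Field K] [Algebra ℂ K] (v : DivVal n K) : v.ord 1 = 0 := by
  have h := v.ord_const 1
  rwa [map_one] at h

theorem ord_pow {n : ℕ} {K : Type} [Field K] [Algebra ℂ K] (v : DivVal n K) (a : K) (M : ℕ)
    (hM : 0 < M) : v.ord (a ^ M) = M * v.ord a := by
  by_cases ha : a = 0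
  · rw [ha, zero_pow hM.ne', v.ord_zero, mul_zero]
  · clear hM
    induction M with
    | zero => rw [pow_zero, ord_one, Nat.cast_zero, zero_mul]
    | succ M ih =>
      rw [pow_succ, v.ord_mul _ _ (pow_ne_zero _ ha) ha, ih, Nat.cast_succ]
      ring

theorem restr_pow {F : Type} [Field F] [Algebra ℂ F] {B : ProjModel F} (γ : CurveMap B) {z : F}
    {u : γ.L} (h : γ.Restr z u) (M : ℕ) : γ.Restr (z ^ M) (u ^ M) := by
  obtain ⟨a, b, hb, h1, h2⟩ := h
  refine ⟨a ^ M, b ^ M, ?_, ?_, ?_⟩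
  · rw [map_pow]
    exact pow_ne_zero _ hb
  · rw [SubmonoidClass.coe_pow, SubmonoidClass.coe_pow, ← mul_pow, h1]
  · rw [map_pow, map_pow, ← mul_pow, h2]

end TNSC

open TNSC in
theorem t_TNSC : S_TNSC := by
  intro F _ _ b B k0 M D hM
  have hMZ : (0 : ℤ) < M := by exact_mod_cast hM
  refine ⟨⟨fun H => ?_, fun H => ?_⟩, ⟨fun H => ?_, fun H => ?_⟩⟩
  · intro ω hω γ k h g u hk hE
    have hE' : EqnsC γ (M * k0) (fun j v => M * D j v) ω k (h ^ M) (fun w => g w ^ M)
        (fun w => u w ^ M) := by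
      refine ⟨pow_ne_zero _ hE.h_ne, fun w => pow_ne_zero _ (hE.u_ne w), fun w => ?_, fun w => ?_⟩
      · rw [← div_pow]
        exact restr_pow γ (hE.restr w) M
      · obtain ⟨j, m, hm, he⟩ := hE.eqn w
        refine ⟨j, m, hm, fun v P hP hPm => ?_⟩
        beta_reduce
        rw [ord_pow v _ M hM, he v P hP hPm]
        push_cast
        ring
    obtain ⟨h1, h2⟩ := H ω hω γ k _ _ _ hk hE'
    have h3 : ∀ w : DivVal 1 γ.L, w.ord (u w ^ M) = M * w.ord (u w) :=
      fun w => ord_pow w _ M hM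
    have h4 : {w : DivVal 1 γ.L | w.ord (u w ^ M) ≠ 0} = {w : DivVal 1 γ.L | w.ord (u w) ≠ 0} := by
      ext w
      change w.ord (u w ^ M) ≠ 0 ↔ w.ord (u w) ≠ 0
      rw [h3]
      constructor
      · intro h0 h5
        exact h0 (by rw [h5, mul_zero])
      · intro h0
        exact mul_ne_zero hMZ.ne' h0
    rw [h4] at h1
    refine ⟨h1, ?_⟩
    have h5 : ∑ᶠ w : DivVal 1 γ.L, w.ord (u w ^ M) = M * ∑ᶠ w : DivVal 1 γ.L, w.ord (u w) := by
      rw [mul_finsum]
      exact finsum_congr h3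
    rw [h5] at h2
    exact (mul_nonneg_iff_of_pos_left hMZ).1 h2
  · intro ω hω γ k h g u hk hE
    have hE' : EqnsC γ k0 D ω (k * M) h g u := by
      refine ⟨hE.h_ne, hE.u_ne, hE.restr, fun w => ?_⟩
      obtain ⟨j, m, hm, he⟩ := hE.eqn w
      refine ⟨j, m, hm, fun v P hP hPm => ?_⟩
      rw [he v P hP hPm]
      push_cast
      ring
    exact H ω hω γ (k * M) h g u (Nat.mul_pos hk hM) hE'
  · intro ω hω
    obtain ⟨k, N, h, hk, h1, h2, h3⟩ := H ω hω
    refine ⟨k * M, N, h, Nat.mul_pos hk hM, h1, fun l j v P hP => ?_, fun j m hm => ?_⟩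
    · have h4 := h2 l j v P hP
      push_cast at h4 ⊢
      linarith
    · obtain ⟨l, hl⟩ := h3 j m hm
      refine ⟨l, fun v P hP hPm => ?_⟩
      have h4 := hl v P hP hPm
      push_cast at h4 ⊢
      linarith
  · intro ω hω
    obtain ⟨k, N, h, hk, h1, h2, h3⟩ := H ω hω
    have key : ∀ (l : Fin N) (j : Fin (B.N + 1)) (v : DivVal b F),
        v.ord (h l ^ M) + k * (((M * k0 : ℕ) : ℤ) * v.formOrd ω + M * D j v) =
          M * (v.ord (h l) + k * (k0 * v.formOrd ω + D j v)) := by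
      intro l j v
      rw [ord_pow v _ M hM]
      push_cast
      ring
    refine ⟨k, N, fun l => h l ^ M, hk, fun l => pow_ne_zero _ (h1 l), fun l j v P hP => ?_,
      fun j m hm => ?_⟩
    · beta_reduce
      rw [key]
      exact mul_nonneg hMZ.le (h2 l j v P hP)
    · obtain ⟨l, hl⟩ := h3 j m hm
      refine ⟨l, fun v P hP hPm => ?_⟩
      beta_reduce
      rw [key, hl v P hP hPm, mul_zero]

end

end RMT
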