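import Pool.Agent.RMT.St1
import Pool.Agent.RMM.RPT

/-!
# TPT: the data at the closed points of the model (twisted)
-/

set_option autoImplicit false

namespace RMT

open MldGeo MMCI RMM

open RMM.RPT in
theorem t_TPT : M_TPT := by
  intro hTWA hKEY hEQ F K _ _ _ _ _ _ e' n r B t κ b y0 β f x hd D ω Y hRL hIM
  classical
  have hall : ∀ j : Fin (B.N + 1), ∃ S0 : Finset F, ∀ m : Ideal (B.ring j), m.IsMaximal →
      ∃ G ∈ S0, G ≠ 0 ∧
        IsEqD (B.ring j) (dlogs y0) (adj (fun i => coefs (tw (t j) (f i))) Finset.univ) κ m G ∧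
        ∀ v : DivVal e' K, Through B v j m →
          v.ord (algebraMap F K G) = bo κ β (fun i => coefs (tw (t j) (f i))) v := fun j =>
    (hEQ B κ b y0 β (fun i => tw (t j) (f i)) j (hd.bpf j) hd.base).1
  choose S0 hS0 using hall
  refine ⟨Finset.univ.biUnion S0, fun i m hm => ?_⟩
  obtain ⟨j, mB, a, hmB, ha, hres, hctr⟩ :=
    hKEY B t κ β f x hd.pos hd.dim hd.base.κ_pos hd.ne hd.twist D ω Y hRL hIM i m hm
  obtain ⟨G, hGS, hG0, heq, hord⟩ := hS0 j mB hmB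
  have hx : ∀ k, tx (t j) x k ≠ 0 := ((hTWA (K := K) (t j) (hd.twist.ne j)).2.2.2 x hd.ne).1
  refine ⟨j, mB, a, G, Finset.mem_biUnion.2 ⟨j, Finset.mem_univ j, hGS⟩,
    ⟨hmB, ha, hG0, hres, heq, fun v P hP hPm => ?_⟩⟩
  obtain ⟨h1, h2, h3, h4⟩ := hctr v P hP hPm
  obtain ⟨-, -, hful, -⟩ := t_FUL (tx (t j) x) hx
  have hG1 : algebraMap F K G ≠ 0 := (map_ne_zero_iff _ (algebraMap F K).injective).mpr hG0
  obtain ⟨hm0, hm1⟩ := hful v (-((κ : ℤ) • D.u a))
  have hv : v.ord (eqq κ D.k (tx (t j) x) G (D.u a)) =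
      D.k * bo κ β (fun i => coefs (tw (t j) (f i))) v
        - κ * pair (wt (tx (t j) x) v) (D.u a) := by
    unfold eqq
    rw [v.ord_mul _ _ (pow_ne_zero _ hG1) hm0, DivVal.ord_pow, hord v h1, hm1, pair_neg_smul,
      sub_eq_add_neg]
  have key : ((D.k * κ : ℕ) : ℤ) * v.formOrd ω - v.ord (eqq κ D.k (tx (t j) x) G (D.u a)) =
      D.k * (κ * v.formOrd ω - bo κ β (fun i => coefs (tw (t j) (f i))) v) +
        κ * pair (wt (tx (t j) x) v) (D.u a) := by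
    rw [hv]
    push_cast
    ring
  rw [key]
  exact ⟨h1, h2, h3, h4⟩

end RMT
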