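import Pool.Agent.RMT.StV

/-!
# Torus bundles, module TSAD (helper57): the sum of semiample divisors
-/

set_option autoImplicit false

namespace RMT

open MldGeo MMCI RMM

theorem TSAD.ord_one {F : Type} [Field F] [Algebra ℂ F] {b : ℕ} (v : DivVal b F) :
    v.ord 1 = 0 := by
  have h := v.ord_mul 1 1 one_ne_zero one_ne_zero
  rw [mul_one] at h
  omega

theorem TSAD.ord_pow {F : Type} [Field F] [Algebra ℂ F] {b : ℕ} (v : DivVal b F) (a : F)
    (ha : a ≠ 0) (k : ℕ) : v.ord (a ^ k) = k * v.ord a := by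
  induction k with
  | zero => simp [TSAD.ord_one]
  | succ k ih =>
    rw [pow_succ, v.ord_mul _ _ (pow_ne_zero _ ha) ha, ih]
    push_cast
    ring

theorem t_TSAD : S_TSAD := by
  intro F _ _ b B k0 D E hD hE ω hω
  obtain ⟨k1, N1, h1, hk1, hn1, hp1, hz1⟩ := hD ω hω
  obtain ⟨k2, N2, h2, hk2, hn2, hp2, hz2⟩ := hE ω hω
  have key : ∀ (q1 : Fin N1) (q2 : Fin N2) (j : Fin (B.N + 1)) (v : DivVal b F),
      v.ord (h1 q1 ^ k2 * h2 q2 ^ k1) +
        ((k1 * k2 : ℕ) : ℤ) * (k0 * v.formOrd ω + (D j v + E j v)) =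
      k2 * (v.ord (h1 q1) + k1 * (k0 * v.formOrd ω + D j v)) +
        k1 * (v.ord (h2 q2) + k2 * (((0 : ℕ) : ℤ) * v.formOrd ω + E j v)) := by
    intro q1 q2 j v
    rw [v.ord_mul _ _ (pow_ne_zero _ (hn1 q1)) (pow_ne_zero _ (hn2 q2)),
      TSAD.ord_pow v _ (hn1 q1), TSAD.ord_pow v _ (hn2 q2)]
    push_cast
    ring
  refine ⟨k1 * k2, N1 * N2, fun l => h1 (finProdFinEquiv.symm l).1 ^ k2 *
    h2 (finProdFinEquiv.symm l).2 ^ k1, Nat.mul_pos hk1 hk2, ?_, ?_, ?_⟩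
  · intro l
    exact mul_ne_zero (pow_ne_zero _ (hn1 _)) (pow_ne_zero _ (hn2 _))
  · intro l j v P hP
    rw [key]
    have a1 := hp1 (finProdFinEquiv.symm l).1 j v P hP
    have a2 := hp2 (finProdFinEquiv.symm l).2 j v P hP
    exact add_nonneg (mul_nonneg (Int.natCast_nonneg _) a1) (mul_nonneg (Int.natCast_nonneg _) a2)
  · intro j m hm
    obtain ⟨l1, hl1⟩ := hz1 j m hm
    obtain ⟨l2, hl2⟩ := hz2 j m hm
    refine ⟨finProdFinEquiv (l1, l2), ?_⟩
    intro v P hP hPm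
    have e0 := Equiv.symm_apply_apply finProdFinEquiv (l1, l2)
    beta_reduce
    rw [e0]
    have e1 := hl1 v P hP hPm
    have e2 := hl2 v P hP hPm
    have e3 := key l1 l2 j v
    rw [e1, e2] at e3
    rw [e3]
    simp

end RMT
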