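import Pool.Agent.RMT.St1
import Pool.Agent.RMM.RSEM

/-!
# TSEM: the canonical divisor is semiample in case (a)
-/

set_option autoImplicit false

namespace RMT

open MldGeo MMCI RMM

noncomputable section

namespace TSEM

variable {F K : Type} [Field F] [Field K] [Algebra ℂ F] [Algebra ℂ K] [Algebra F K]
  [IsScalarTower ℂ F K] {e' : ℕ}

omit [IsScalarTower ℂ F K] in
/-- The sections at the point `m`. -/
theorem local_sections {b : ℕ} (B : ProjModel F) (κ : ℕ) (ω : Forms b F) (Δ : DivVal b F → ℤ)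
    (hdim : Algebra.trdeg ℂ F = (b : Cardinal))
    (hnor : ∀ j (a : F), IsIntegral (B.ring j) a → a ∈ B.ring j) {k0 M0 : ℕ} {c μ : F}
    (hc : c ≠ 0) (hμ : μ ≠ 0) {j : Fin (B.N + 1)} {m : Ideal (B.ring j)} (hm : m.IsMaximal)
    {G : F} (hG : G ≠ 0) (hE : IsEqD (B.ring j) ω Δ κ m G) :
    ((∀ (v : DivVal b F) (P : Ideal (B.ring j)), IsPrimeDivisor (B.ring j) v P → P ≤ m →
      0 ≤ v.ord c + M0 * (k0 * v.formOrd ω + (k0 * Δ v + v.ord μ))) →
      ∀ v : DivVal e' K, Through B v j m →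
        0 ≤ κ * v.ord (algebraMap F K c) + k0 * M0 * v.ord (algebraMap F K G) +
          κ * M0 * v.ord (algebraMap F K μ)) ∧
    ((∀ (v : DivVal b F) (P : Ideal (B.ring j)), IsPrimeDivisor (B.ring j) v P → P ≤ m →
      v.ord c + M0 * (k0 * v.formOrd ω + (k0 * Δ v + v.ord μ)) = 0) →
      ∀ v : DivVal e' K, Through B v j m →
        κ * v.ord (algebraMap F K c) + k0 * M0 * v.ord (algebraMap F K G) +
          κ * M0 * v.ord (algebraMap F K μ) = 0) := by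
  have hz : c ^ κ * (G ^ (k0 * M0) * μ ^ (κ * M0)) ≠ 0 :=
    mul_ne_zero (pow_ne_zero _ hc) (mul_ne_zero (pow_ne_zero _ hG) (pow_ne_zero _ hμ))
  have hordF : ∀ (v : DivVal b F) (P : Ideal (B.ring j)), IsPrimeDivisor (B.ring j) v P →
      P ≤ m → v.ord (c ^ κ * (G ^ (k0 * M0) * μ ^ (κ * M0))) =
        κ * (v.ord c + M0 * (k0 * v.formOrd ω + (k0 * Δ v + v.ord μ))) := by
    intro v P hP hPm
    rw [v.ord_mul _ _ (pow_ne_zero _ hc) (mul_ne_zero (pow_ne_zero _ hG) (pow_ne_zero _ hμ)),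
      v.ord_mul _ _ (pow_ne_zero _ hG) (pow_ne_zero _ hμ), DivVal.ord_pow, DivVal.ord_pow,
      DivVal.ord_pow, hE v P hP hPm]
    push_cast
    ring
  have hordK : ∀ v : DivVal e' K, v.ord (algebraMap F K (c ^ κ * (G ^ (k0 * M0) *
      μ ^ (κ * M0)))) = κ * v.ord (algebraMap F K c) + k0 * M0 * v.ord (algebraMap F K G) +
        κ * M0 * v.ord (algebraMap F K μ) := by
    intro v
    have c1 := (map_ne_zero (algebraMap F K)).2 hc
    have c2 := (map_ne_zero (algebraMap F K)).2 hG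
    have c3 := (map_ne_zero (algebraMap F K)).2 hμ
    rw [map_mul, map_mul, map_pow, map_pow, map_pow, v.ord_mul _ _ (pow_ne_zero _ c1)
      (mul_ne_zero (pow_ne_zero _ c2) (pow_ne_zero _ c3)), v.ord_mul _ _ (pow_ne_zero _ c2)
      (pow_ne_zero _ c3), DivVal.ord_pow, DivVal.ord_pow, DivVal.ord_pow]
    push_cast
    ring
  have h1 : (∀ (v : DivVal b F) (P : Ideal (B.ring j)), IsPrimeDivisor (B.ring j) v P → P ≤ m →
      0 ≤ v.ord c + M0 * (k0 * v.formOrd ω + (k0 * Δ v + v.ord μ))) →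
      ∀ v : DivVal e' K, Through B v j m →
        0 ≤ κ * v.ord (algebraMap F K c) + k0 * M0 * v.ord (algebraMap F K G) +
          κ * M0 * v.ord (algebraMap F K μ) := by
    intro h v hT
    obtain ⟨p, q, hq, hpq⟩ := LCM_holds B hdim hnor j m hm (c ^ κ * (G ^ (k0 * M0) *
        μ ^ (κ * M0))) (by
      intro v P hP hPm
      refine Or.inr ?_
      rw [hordF v P hP hPm]
      exact mul_nonneg (Int.natCast_nonneg _) (h v P hP hPm))
    rw [← hordK]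
    exact RSEM.ord_nonneg hT hz hq hpq
  refine ⟨h1, fun h v hT => le_antisymm ?_ (h1 (fun v P hP hPm => (h v P hP hPm).ge) v hT)⟩
  obtain ⟨p, q, hq, hpq⟩ := LCM_holds B hdim hnor j m hm (c ^ κ * (G ^ (k0 * M0) *
      μ ^ (κ * M0)))⁻¹ (by
    intro v P hP hPm
    refine Or.inr ?_
    rw [DivVal.ord_inv, hordF v P hP hPm, h v P hP hPm]
    simp)
  have h2 := RSEM.ord_nonneg hT (inv_ne_zero hz) hq hpq
  rw [map_inv₀, DivVal.ord_inv, hordK] at h2
  linarith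

end TSEM

theorem t_TSEM : M_TSEM := by
  classical
  intro hTWA hTPT F K _ _ _ _ _ _ e' n r B t κ b y0 β f x hD D hsem ω Y hω hY ω' hω'
  obtain ⟨g, hg, -, hgv⟩ := t_CHW hD.dim hD.pos ω ω' hω.ne hω'
  obtain ⟨S, hS⟩ := hTPT B t κ b y0 β f x hD D.toFan ω Y hω hY
  have hx := hD.ne
  have hful : ∀ (v : DivVal e' K) (m : Fin n → ℤ), mon x m ≠ 0 ∧
      v.ord (mon x m) = pair (wt x v) m := fun v m => (t_FUL x hx).2.2.1 v m
  have hmne : ∀ m : Fin n → ℤ, mon x m ≠ 0 := by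
    intro m
    unfold mon
    exact Finset.prod_ne_zero_iff.2 fun i _ => zpow_ne_zero _ (hx i)
  -- the twist
  have htmon : ∀ (j : Fin (B.N + 1)) (a : Fin n → ℤ), mon (t j) a ≠ 0 := fun j =>
    (@hTWA F K _ _ _ _ _ _ n (t j) (hD.twist.ne j)).1
  have htx : ∀ (j : Fin (B.N + 1)) (k : Fin n), tx (t j) x k ≠ 0 := fun j =>
    ((@hTWA F K _ _ _ _ _ _ n (t j) (hD.twist.ne j)).2.2.2 x hx).1
  have hwt : ∀ (j : Fin (B.N + 1)) (v : DivVal e' K) (a : Fin n → ℤ),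
      pair (wt x v) a = pair (wt (tx (t j) x) v) a + v.ord (algebraMap F K (mon (t j) a)) := by
    intro j v a
    have h1 := ((@hTWA F K _ _ _ _ _ _ n (t j) (hD.twist.ne j)).2.2.2 x hx).2.2.1 v a
    rw [h1]
    ring
  have hfulj : ∀ (j : Fin (B.N + 1)) (v : DivVal e' K) (m : Fin n → ℤ),
      mon (tx (t j) x) m ≠ 0 ∧ v.ord (mon (tx (t j) x) m) = pair (wt (tx (t j) x) v) m :=
    fun j v m => (t_FUL (tx (t j) x) (htx j)).2.2.1 v m
  -- the data for the points of `A`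
  choose k N h hk hne hge heq using fun a' : {a // a ∈ D.A} =>
    hsem a'.1 a'.2 (dlogs y0) hD.base.y0_ind
  obtain ⟨M0, hM0def⟩ : ∃ M0 : ℕ, M0 = ∏ a' : {a // a ∈ D.A}, k a' := ⟨_, rfl⟩
  have hM0 : 0 < M0 := by
    rw [hM0def]
    exact Finset.prod_pos fun a' _ => hk a'
  have hdiv : ∀ a' : {a // a ∈ D.A}, ∃ q : ℕ, M0 = q * k a' := by
    intro a'
    obtain ⟨q, hq⟩ := Finset.dvd_prod_of_mem k (Finset.mem_univ a')
    exact ⟨q, by rw [hM0def, hq, mul_comm]⟩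
  choose q hq using hdiv
  obtain ⟨H, hHdef⟩ : ∃ H : ∀ a' : {a // a ∈ D.A}, Fin (N a') → F,
      H = fun a' l => h a' l ^ q a' := ⟨_, rfl⟩
  have hHne : ∀ a' l, H a' l ≠ 0 := by
    intro a' l
    rw [hHdef]
    exact pow_ne_zero _ (hne a' l)
  have hHK : ∀ a' l, algebraMap F K (H a' l) ≠ 0 := fun a' l => (map_ne_zero _).2 (hHne a' l)
  have hHord : ∀ (a' : {a // a ∈ D.A}) (l : Fin (N a')) (j : Fin (B.N + 1)) (v : DivVal b F),
      v.ord (H a' l) + M0 * (D.k * v.formOrd (dlogs y0) + (D.k * adj (fun i =>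
        coefs (tw (t j) (f i))) Finset.univ v + v.ord (mon (t j) (D.u a'.1)))) =
      q a' * (v.ord (h a' l) + k a' * (D.k * v.formOrd (dlogs y0) +
        adjT b B t f Finset.univ D.k (D.u a'.1) j v)) := by
    intro a' l j v
    rw [hHdef]
    show v.ord (h a' l ^ q a') + _ = _
    rw [DivVal.ord_pow, hq a']
    unfold adjT
    push_cast
    ring
  -- the sections
  have hord : ∀ (v : DivVal e' K) (a' : {a // a ∈ D.A}) (l : Fin (N a')),
      v.ord ((g ^ (D.k * κ * M0))⁻¹ * (algebraMap F K (H a' l) ^ κ *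
        mon x (((κ * M0 : ℕ) : ℤ) • D.u a'.1))) + ((D.k * κ * M0 : ℕ) : ℤ) * v.formOrd ω' =
      (κ : ℤ) * v.ord (algebraMap F K (H a' l)) + (κ : ℤ) * M0 * pair (wt x v) (D.u a'.1) +
        (D.k : ℤ) * κ * M0 * v.formOrd ω := by
    intro v a' l
    rw [RSEM.ordSection v hg (hHK a' l) (hmne _), (hful v _).2, RSEM.pair_smul, hgv v]
    push_cast
    ring
  -- the order of the equation
  have heqq : ∀ (j : Fin (B.N + 1)) (v : DivVal e' K) (G : F) (a : Fin n → ℤ), G ≠ 0 →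
      v.ord (eqq κ D.k (tx (t j) x) G (D.u a)) =
        (D.k : ℤ) * v.ord (algebraMap F K G) - κ * pair (wt (tx (t j) x) v) (D.u a) := by
    intro j v G a hG
    unfold eqq
    rw [v.ord_mul _ _ (pow_ne_zero _ ((map_ne_zero _).2 hG)) (hfulj j v _).1, DivVal.ord_pow,
      (hfulj j v _).2, RSEM.pair_neg, RSEM.pair_smul]
    ring
  -- the total order at a prime divisor
  have htot : ∀ (i : Fin (Y.N + 1)) (m : Ideal (Y.ring i)) (j : Fin (B.N + 1))
      (mB : Ideal (B.ring j)) (a : Fin n → ℤ) (G : F),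
      IsPt B κ y0 (fun i => coefs (tw (t j) (f i))) (tx (t j) x) D.A D.k D.u ω Y i m j mB a G →
      ∀ (v : DivVal e' K) (P : Ideal (Y.ring i)), IsPrimeDivisor (Y.ring i) v P → P ≤ m →
      ∀ (a' : {a // a ∈ D.A}) (l : Fin (N a')),
      v.ord ((g ^ (D.k * κ * M0))⁻¹ * (algebraMap F K (H a' l) ^ κ *
        mon x (((κ * M0 : ℕ) : ℤ) • D.u a'.1))) + ((D.k * κ * M0 : ℕ) : ℤ) * v.formOrd ω' =
      (κ * v.ord (algebraMap F K (H a' l)) + D.k * M0 * v.ord (algebraMap F K G) +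
        κ * M0 * v.ord (algebraMap F K (mon (t j) (D.u a'.1)))) +
        (κ : ℤ) * M0 * (pair (wt (tx (t j) x) v) (D.u a'.1) -
          pair (wt (tx (t j) x) v) (D.u a)) := by
    intro i m j mB a G hpt v P hP hPm a' l
    obtain ⟨-, -, -, h4⟩ := hpt.ctr v P ⟨hP.1, hP.2.2.1, hP.2.2.2⟩ hPm
    have h5 := h4.2 hP.2.1
    rw [heqq j v G a hpt.G_ne] at h5
    push_cast at h5
    have h6 : (D.k : ℤ) * κ * v.formOrd ω =
        D.k * v.ord (algebraMap F K G) - κ * pair (wt (tx (t j) x) v) (D.u a) := by linarith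
    have h7 : (D.k : ℤ) * κ * M0 * v.formOrd ω =
        M0 * (D.k * v.ord (algebraMap F K G) - κ * pair (wt (tx (t j) x) v) (D.u a)) := by
      rw [← h6]
      ring
    rw [hord, h7, hwt j v (D.u a'.1)]
    ring
  let E : Fin (Fintype.card (Σ a' : {a // a ∈ D.A}, Fin (N a'))) ≃
      (Σ a' : {a // a ∈ D.A}, Fin (N a')) := (Fintype.equivFin _).symm
  refine ⟨D.k * κ * M0, Fintype.card (Σ a' : {a // a ∈ D.A}, Fin (N a')),
    fun l => (g ^ (D.k * κ * M0))⁻¹ * (algebraMap F K (H (E l).1 (E l).2) ^ κ *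
      mon x (((κ * M0 : ℕ) : ℤ) • D.u ((E l).1 : Fin n → ℤ))),
    Nat.mul_pos (Nat.mul_pos D.k_pos hD.base.κ_pos) hM0, ?_, ?_, ?_⟩
  · intro l
    exact mul_ne_zero (inv_ne_zero (pow_ne_zero _ hg))
      (mul_ne_zero (pow_ne_zero _ (hHK _ _)) (hmne _))
  · intro l i v P hP
    obtain ⟨m, hmax, hPm⟩ := P.exists_le_maximal hP.1.ne_top
    obtain ⟨j, mB, a, G, -, hpt⟩ := hS i m hmax
    obtain ⟨h1, h2, -, -⟩ := hpt.ctr v P ⟨hP.1, hP.2.2.1, hP.2.2.2⟩ hPm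
    have h3 := (TSEM.local_sections (e' := e') (K := K) B κ (dlogs y0)
      (adj (fun i => coefs (tw (t j) (f i))) Finset.univ) hD.base.dimF hD.base.normal
      (k0 := D.k) (M0 := M0) (hHne (E l).1 (E l).2) (htmon j (D.u (E l).1.1))
      hpt.max hpt.G_ne hpt.eqB).1 (fun v P hP _ => by
        rw [hHord (E l).1 (E l).2 j v]
        exact mul_nonneg (Int.natCast_nonneg _) (hge (E l).1 (E l).2 j v P hP)) v h1
    have h4 := D.nef (wt (tx (t j) x) v) a ((E l).1 : Fin n → ℤ) h2 (E l).1.2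
    have h5 := htot i m j mB a G hpt v P hP hPm (E l).1 (E l).2
    show 0 ≤ v.ord ((g ^ (D.k * κ * M0))⁻¹ * (algebraMap F K (H (E l).1 (E l).2) ^ κ *
      mon x (((κ * M0 : ℕ) : ℤ) • D.u ((E l).1 : Fin n → ℤ)))) +
        ((D.k * κ * M0 : ℕ) : ℤ) * v.formOrd ω'
    rw [h5]
    have h7 : (0 : ℤ) ≤ κ * M0 * (pair (wt (tx (t j) x) v) (D.u ((E l).1 : Fin n → ℤ)) -
        pair (wt (tx (t j) x) v) (D.u a)) := mul_nonneg (by positivity) (by linarith)
    exact add_nonneg h3 h7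
  · intro i m hmax
    obtain ⟨j, mB, a, G, -, hpt⟩ := hS i m hmax
    obtain ⟨l, hl⟩ := heq ⟨a, hpt.mem⟩ j mB hpt.max
    refine ⟨E.symm ⟨⟨a, hpt.mem⟩, l⟩, fun v P hP hPm => ?_⟩
    obtain ⟨h1, h2, -, -⟩ := hpt.ctr v P ⟨hP.1, hP.2.2.1, hP.2.2.2⟩ hPm
    have h3 := (TSEM.local_sections (e' := e') (K := K) B κ (dlogs y0)
      (adj (fun i => coefs (tw (t j) (f i))) Finset.univ) hD.base.dimF hD.base.normal
      (k0 := D.k) (M0 := M0) (hHne ⟨a, hpt.mem⟩ l) (htmon j (D.u a))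
      hpt.max hpt.G_ne hpt.eqB).2 (fun v P hP hPm => by
        rw [hHord ⟨a, hpt.mem⟩ l j v, hl v P hP hPm, mul_zero]) v h1
    have h5 := htot i m j mB a G hpt v P hP hPm ⟨a, hpt.mem⟩ l
    show v.ord ((g ^ (D.k * κ * M0))⁻¹ *
      (algebraMap F K (H (E (E.symm ⟨⟨a, hpt.mem⟩, l⟩)).1 (E (E.symm ⟨⟨a, hpt.mem⟩, l⟩)).2) ^ κ *
      mon x (((κ * M0 : ℕ) : ℤ) • D.u ((E (E.symm ⟨⟨a, hpt.mem⟩, l⟩)).1 : Fin n → ℤ)))) +
        ((D.k * κ * M0 : ℕ) : ℤ) * v.formOrd ω' = 0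
    rw [Equiv.apply_symm_apply]
    show v.ord ((g ^ (D.k * κ * M0))⁻¹ * (algebraMap F K (H ⟨a, hpt.mem⟩ l) ^ κ *
      mon x (((κ * M0 : ℕ) : ℤ) • D.u a))) + ((D.k * κ * M0 : ℕ) : ℤ) * v.formOrd ω' = 0
    rw [h5, h3]
    ring

end

end RMT
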