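import Pool.Agent.RMT.St1
import Pool.Agent.RMM.RTER

/-!
# TTER: the projective model of the twisted system has terminal singularities
-/

set_option autoImplicit false

namespace RMT

open MldGeo MldGeo.DivVal MMCI RMM

noncomputable section

open RMM.RTERa in
theorem t_TTER : M_TTER := by
  intro hTWA hTPT F K _ _ _ _ _ _ e' n r B t κ b y0 β f x hD D ω Y hL hM i
  have hMod : ∃ k : ℕ, IsMod e' (tm B t k x D.A id) Y := by
    obtain ⟨k, -, h⟩ := hM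
    exact ⟨k, h⟩
  obtain ⟨k, hMod⟩ := hMod
  refine ⟨hMod.normal i, ?_⟩
  intro ω' hω' m hm
  obtain ⟨g, hg, -, hord⟩ := t_CHW hD.dim hD.pos ω ω' hL.ne hω'
  obtain ⟨S, hS⟩ := hTPT B t κ b y0 β f x hD D ω Y hL hM
  obtain ⟨j, mB, a, G, -, hpt⟩ := hS i m hm
  have hx : ∀ l, tx (t j) x l ≠ 0 := ((hTWA (K := K) (t j) (hD.twist.ne j)).2.2.2 x hD.ne).1
  have hkκ : 0 < D.k * κ := Nat.mul_pos D.k_pos hD.base.κ_pos
  have hq : eqq κ D.k (tx (t j) x) G (D.u a) ≠ 0 := eqq_ne κ D.k hx hpt.G_ne _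
  refine ⟨D.k * κ, g ^ (D.k * κ) * eqq κ D.k (tx (t j) x) G (D.u a), hkκ,
    mul_ne_zero (pow_ne_zero _ hg) hq, ?_, ?_⟩
  · intro v P hP hPm
    have h1 := (hpt.ctr v P (hasCentre hP) hPm).2.2.2.2 hP.2.1
    rw [ord_eqn v hg hq, hord]
    linear_combination -h1
  · intro v P hP hPm hh
    obtain ⟨-, -, h1, h2⟩ := hpt.ctr v P hP hPm
    have h3 : ((D.k * κ : ℕ) : ℤ) * v.formOrd ω - v.ord (eqq κ D.k (tx (t j) x) G (D.u a)) ≠ 0 :=
      fun h => hh (h2.1 h)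
    rw [ord_eqn v hg hq, hord]
    have h4 := lt_of_le_of_ne h1 (Ne.symm h3)
    linear_combination h4

end

end RMT
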