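import Pool.Agent.RMT.St1
import Pool.Agent.RMT.TWB
import Pool.Agent.MMCI.FUL

/-!
# RMT, TWA: the algebra of the twist (helper71)
-/

set_option autoImplicit false

namespace RMT

open MldGeo MMCI RMM

noncomputable section

/-- TWA: the algebra of the twist -/
theorem t_TWA : S_TWA := by
  intro F K _ _ _ _ _ _ n t ht
  obtain ⟨h1, h2, h3⟩ := t_TWB t ht
  refine ⟨h1, fun f => ⟨(h2 f).1, (h2 f).2.1, ?_, (h2 f).2.2.2, (h2 f).2.2.1⟩, fun f ν => ?_,
    fun x hx => ?_⟩
  · unfold supp0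
    rw [(h2 f).2.1]
  · unfold rpsi
    exact Finset.sum_congr rfl fun i _ => (h2 (f i)).2.2.2 ν
  · obtain ⟨g1, g2, g3, -, -⟩ := h3 x hx
    have hm : ∀ a, algebraMap F K (mon t a) ≠ 0 := fun a =>
      (map_ne_zero_iff _ (algebraMap F K).injective).2 (h1 a)
    have g4 : ∀ a, mon (tx t x) a * algebraMap F K (mon t a) = mon x a := fun a => by
      rw [g2, div_mul_cancel₀ _ (hm a)]
    refine ⟨g1, g4, fun v a => ?_, fun f => g3 f⟩
    have e1 := (t_FUL x hx).2.2.1 v a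
    have e2 := (t_FUL (tx t x) g1).2.2.1 v a
    have e4 := v.ord_mul _ _ e2.1 (hm a)
    rw [g4, e1.2, e2.2] at e4
    linarith

end

end RMT
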