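import Pool.Agent.RMT.St1

/-!
# Torus bundles: regularity and the residue form in the twisted coordinates (helper28)
-/

set_option autoImplicit false

namespace RMT

open MldGeo MMCI RMM

noncomputable section

namespace TWR

/-- an alternating map does not change if elements of the span of the first arguments are added to the
last arguments -/
theorem alt_append {K M N : Type} [Field K] [AddCommGroup M] [Module K M] [AddCommGroup N]
    [Module K N] {b e : ℕ} (φ : M [⋀^Fin (b + e)]→ₗ[K] N) (a : Fin b → M) (c c' : Fin e → M)
    (h : ∀ l, c' l - c l ∈ Submodule.span K (Set.range a)) :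
    φ (Fin.append a c') = φ (Fin.append a c) := by
  classical
  have key : ∀ S : Finset (Fin e),
      φ (Fin.append a fun l => if l ∈ S then c' l else c l) = φ (Fin.append a c) := by
    intro S
    induction S using Finset.induction_on with
    | empty => simp
    | insert l S hl ih =>
      rw [← ih]
      set g : Fin (b + e) → M := Fin.append a fun l => if l ∈ S then c' l else c l with hg
      have h1 : (Fin.append a fun q => if q ∈ insert l S then c' q else c q) =
          Function.update g (Fin.natAdd b l) (c' l) := by
        funext i
        refine Fin.addCases (fun k => ?_) (fun q => ?_) i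
        · rw [Fin.append_left, Function.update_of_ne, hg, Fin.append_left]
          intro h2
          have h3 := congrArg Fin.val h2
          have h4 := k.2
          simp only [Fin.val_castAdd, Fin.val_natAdd] at h3
          omega
        · rw [Fin.append_right]
          by_cases hq : q = l
          · subst hq
            rw [Function.update_self, if_pos (Finset.mem_insert_self _ _)]
          · rw [Function.update_of_ne, hg, Fin.append_right]
            · simp only [Finset.mem_insert, hq, false_or]
            · intro h2
              have h3 := congrArg Fin.val h2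
              simp only [Fin.val_natAdd] at h3
              exact hq (Fin.ext (by omega))
      have h2 : Function.update g (Fin.natAdd b l) (c l) = g := by
        have h3 : g (Fin.natAdd b l) = c l := by
          rw [hg, Fin.append_right, if_neg hl]
        rw [← h3, Function.update_eq_self]
      have h3 : φ (Function.update g (Fin.natAdd b l) (c' l - c l)) = 0 := by
        have h4 : Submodule.span K (Set.range a) ≤
            LinearMap.ker (φ.toMultilinearMap.toLinearMap g (Fin.natAdd b l)) := by
          rw [Submodule.span_le]
          rintro _ ⟨k, rfl⟩
          rw [SetLike.mem_coe, LinearMap.mem_ker]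
          change φ (Function.update g (Fin.natAdd b l) (a k)) = 0
          have h5 : a k = g (Fin.castAdd e k) := by rw [hg, Fin.append_left]
          rw [h5]
          apply AlternatingMap.map_update_self
          intro h6
          have h7 := congrArg Fin.val h6
          have h8 := k.2
          simp only [Fin.val_castAdd, Fin.val_natAdd] at h7
          omega
        exact h4 (h l)
      have h4 : c' l = c l + (c' l - c l) := by abel
      rw [h1, h4, AlternatingMap.map_update_add, h2, h3, add_zero]
  have h5 := key Finset.univ
  simpa using h5

end TWR

theorem t_TWR : M_TWR := by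
  intro hTWA hRWD F K _ _ _ _ _ _ b e n r t f x ht hR
  obtain ⟨-, h2, -, h4⟩ := hTWA (F := F) (K := K) t ht
  obtain ⟨h5, -, -, h6⟩ := h4 x hR.ne
  have ht' : ∀ k, algebraMap F K (t k) ≠ 0 := fun k h =>
    ht k ((algebraMap F K).injective (by rw [h, map_zero]))
  have hx : ∀ k, x k = tx t x k * algebraMap F K (t k) := fun k =>
    (div_mul_cancel₀ (x k) (ht' k)).symm
  have hg : ∀ i, rgrad (tx t x) (tw t (f i)) = rgrad x (f i) := fun i =>
    funext fun j => (h6 (f i)).2.1 j
  refine ⟨⟨hR.dim_eq, fun i => (h2 (f i)).2.2.2.2 (hR.f_ne i), h5, ?_, fun i => ?_, ?_⟩, ?_⟩
  · rw [eq_top_iff, ← hR.gen, IntermediateField.adjoin_le_iff]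
    rintro _ ⟨k, rfl⟩
    rw [SetLike.mem_coe, hx k]
    exact mul_mem (IntermediateField.subset_adjoin F _ ⟨k, rfl⟩)
      (IntermediateField.algebraMap_mem _ _)
  · rw [(h6 (f i)).1]
    exact hR.zero i
  · have h7 := hR.rank
    have h8 : (fun i => rgrad (tx t x) (tw t (f i))) = fun i => rgrad x (f i) := funext hg
    rw [h8]
    exact h7
  · intro y0 hb hy hdl ω
    have hW := (hRWD (F := F) (K := K) (n := n) y0 hb hy hdl).1
    have hd : ∀ k, dlog (tx t x k) - dlog (x k) ∈ Wy K y0 := by
      intro k
      have h7 : dlog (x k) = dlog (tx t x k) + dlog (algebraMap F K (t k)) := by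
        unfold dlog
        have h8 : KaehlerDifferential.D ℂ K (x k) =
            tx t x k • KaehlerDifferential.D ℂ K (algebraMap F K (t k)) +
              algebraMap F K (t k) • KaehlerDifferential.D ℂ K (tx t x k) := by
          conv_lhs => rw [hx k]
          exact Derivation.leibniz _ _ _
        rw [h8, smul_add, smul_smul, smul_smul, add_comm]
        have h9 : (x k)⁻¹ * algebraMap F K (t k) = (tx t x k)⁻¹ := by
          have := hR.ne k
          have := ht' k
          unfold tx
          field_simp
        have h10 : (x k)⁻¹ * tx t x k = (algebraMap F K (t k))⁻¹ := by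
          have := hR.ne k
          have := ht' k
          unfold tx
          field_simp
        rw [h9, h10]
      rw [h7]
      have h8 : dlog (tx t x k) - (dlog (tx t x k) + dlog (algebraMap F K (t k))) =
          -dlog (algebraMap F K (t k)) := by abel
      rw [h8]
      exact neg_mem (Submodule.smul_mem _ _ (hW (t k)))
    have hs : ∀ σ : Fin r ⊕ Fin e ≃ Fin n,
        dlogs (zz y0 (rest (tx t x) σ)) = dlogs (zz y0 (rest x σ)) := by
      intro σ
      have hz : ∀ z : Fin e → K, (fun i => dlog (zz y0 z i)) =
          Fin.append (fun l => dlog (algebraMap F K (y0 l))) fun l => dlog (z l) := by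
        intro z
        funext i
        unfold zz
        refine Fin.addCases (fun k => ?_) (fun q => ?_) i
        · rw [Fin.append_left, Fin.append_left]
        · rw [Fin.append_right, Fin.append_right]
      unfold dlogs
      rw [hz, hz]
      exact TWR.alt_append _ _ _ _ fun l => hd (σ (Sum.inr l))
    have hm : ∀ σ : Fin r ⊕ Fin e ≃ Fin n,
        rminor (fun i => tw t (f i)) (tx t x) σ = rminor f x σ := by
      intro σ
      unfold rminor
      simp only [hg]
    unfold IsResR
    simp only [hs, hm]

end

end RMT
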