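import Pool.Agent.RMT.AsmA
import Pool.Agent.RMT.TWA
import Pool.Agent.RMT.TWR
import Pool.Agent.RMT.TLV
import Pool.Agent.RMT.TLOG
import Pool.Agent.RMT.TCO
import Pool.Agent.RMT.TCA
import Pool.Agent.RMT.TIM
import Pool.Agent.RMT.TLG
import Pool.Agent.RMT.TLQ
import Pool.Agent.RMT.TMD
import Pool.Agent.RMT.TCEN
import Pool.Agent.RMT.TKEY
import Pool.Agent.RMT.TPT
import Pool.Agent.RMT.TTER
import Pool.Agent.RMT.TSEM
import Pool.Agent.RMT.TTRA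
import Pool.Agent.RMT.TCMQ
import Pool.Agent.RMT.TGT
import Pool.Agent.RMT.TNEF
import Pool.Agent.RMT.TFBM
import Pool.Agent.RMT.TFBN
import Pool.Agent.RMT.TFIB
import Pool.Agent.RMT.TFK
import Pool.Agent.RMT.TNSC
import Pool.Agent.RMT.TADD
import Pool.Agent.RMT.TSAD
import Pool.Agent.RMT.TLE
import Pool.Agent.RMT.TCVX
import Pool.Agent.RMT.TCVS
import Pool.Agent.RMT.TMAIN
import Pool.Agent.RMT.TFAA
import Pool.Agent.RMT.TWI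
import Pool.Agent.RMT.TBN
import Pool.Agent.RMT.TBD
import Pool.Agent.RMT.TBF
import Pool.Agent.RMT.TFIN

/-!
# Torus bundles: the theorem, without hypotheses
-/

set_option autoImplicit false

namespace RMT

open MldGeo MMCI RMM

theorem bTWR : S_TWR := t_TWR t_TWA t_RWD

theorem bTLV : S_TLV :=
  t_TLV t_MON t_REV t_LREL t_LUNI t_ABAS (t_LFRM t_REV t_LREL t_PLU t_SIG t_WDG)
    (t_LE1 rgen t_MON t_REV t_LREL t_LUNI t_LEXP t_LBIG)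
    (t_LE0 rgen t_MON t_REV t_LREL t_LUNI t_LEXP t_LBIG t_LB0)
    (t_LUNT rgen t_MON t_REV t_LREL t_LUNI t_LB0)
    (t_LBND rgen t_MON t_REV t_LREL t_LUNI t_LEXP)

theorem bTLOG : S_TLOG := t_TLOG (t_LOMG t_REV t_ABAS t_PLU t_SIG t_DUL) bTWR bTLV

theorem bTCO : S_TCO := t_TCO t_TWA

theorem bTCA : S_TCA := t_TCA bTCO

theorem bTLQ : S_TLQ := t_TLQ t_TWA

theorem bTMD : S_TMD := t_TMD t_TWA t_TIM t_TLG

theorem bTCEN : S_TCEN := t_TCEN t_TWA t_CHT cXHM bTLQ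

theorem bTKEY : S_TKEY := t_TKEY t_TWA cRSUP cRRES bTCEN

theorem bTPT : S_TPT := t_TPT t_TWA bTKEY t_TEQ

theorem bTTER : S_TTER := t_TTER t_TWA bTPT

theorem bTSEM : S_TSEM := t_TSEM t_TWA bTPT

theorem bTTRA : S_TTRA := t_TTRA cLOP cCHC

theorem bTCMQ : S_TCMQ := t_TCMQ t_TWA bTPT

theorem bTGT : S_TGT := t_TGT bTCA

theorem bTNEF : S_TNEF := t_TNEF t_TWA bTGT bTCMQ bTTRA

theorem bTFBM : S_TFBM := t_TFBM t_TWA t_TLG bTLQ bTPT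

theorem bTFBN : S_TFBN := t_TFBN t_TWA bTCO bTLQ bTGT bTCMQ bTTRA

theorem bTFIB : S_TFIB := t_TFIB bTLQ bTFBM bTFBN

theorem bTLE : S_TLE := t_TLE t_TWB

theorem bTCVX : S_TCVX := t_TCVX t_TFK t_TNSC (t_TADD cLOP cCHC) bTLE

theorem bTCVS : S_TCVS := t_TCVS t_TFK t_TNSC t_TSAD bTLE

theorem bTMAIN : S_TMAIN :=
  t_TMAIN S_FAN_holds t_RFN t_RSP bTLOG bTMD bTTER bTSEM bTNEF bTFIB aTRED aTUF aTNH

theorem bTFAA : S_TFAA :=
  t_TFAA S_FAA_holds t_RFN t_RSP bTLOG bTMD bTTER bTSEM bTNEF aTUF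

theorem bTBF : S_TBF := t_TBF t_TWB t_TWI

end RMT

namespace RMX

/-- The theorem. -/
theorem finalT : S_FINT :=
  t_FINT RMM.cRSUP RMT.t_TWB RMT.bTBF RMT.aTSYS RMT.t_TBN RMT.t_TBD RMT.bTCVX RMT.bTCVS
    RMT.bTMAIN RMT.bTFAA

end RMX
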