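import Pool.Agent.RMM.StT
import Pool.Agent.RMM.RSYS3

/-!
# Torus bundles: the conditions over one chart of `B`
-/

set_option autoImplicit false

namespace RMT

open MldGeo MMCI RMM

noncomputable section

variable {F K : Type} [Field F] [Field K] [Algebra ℂ F] [Algebra ℂ K] [Algebra F K]
  [IsScalarTower ℂ F K] {b e e' n r : ℕ}

/-- The elements of `C` generate a line bundle over the chart `j`. -/
def BpfAt (B : ProjModel F) (j : Fin (B.N + 1)) (C : Set F) : Prop :=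
  ∀ m : Ideal (B.ring j), m.IsMaximal → ∃ c ∈ C, c ≠ 0 ∧ ∀ c' ∈ C, InLoc B j m (c' / c)

/-- As `GenR`, over the chart `j`. -/
def GenAt (B : ProjModel F) (j : Fin (B.N + 1)) (f : Fin r → LR F n) (x : Fin n → K) : Prop :=
  ∀ M : Ideal (LR (B.ring j) n), M.IsMaximal →
    (∀ h : LR (B.ring j) n, rev x h = 0 → h ∈ M) →
    ∃ g : Fin r → LR (B.ring j) n,
      IsLocEq B f j (M.comap (algebraMap (B.ring j) (LR (B.ring j) n))) g ∧
      ∀ h : LR (B.ring j) n, rev x h = 0 →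
        ∃ h' : LR (B.ring j) n, h' ∉ M ∧ h' * h ∈ Ideal.span (Set.range g)

/-- The condition `RSys.nd` at the valuation `v`. -/
def Nd (B : ProjModel F) (e κ : ℕ) (y0 : Fin b → F) (β : DivVal (b + e) K → ℤ)
    (f : Fin r → LR F n) (x : Fin n → K) (v : DivVal (b + e) K) : Prop :=
  Nonempty (Loc B e κ y0 β f x v) ∨ (¬ BIG B x v ∧
    ∀ ω : Forms (b + e) K, IsResR e y0 f x ω →
      (κ : ℤ) + 1 - κ * rpsi f (wt x v) ≤ κ * v.logOrd ω - bo κ β (fun i => coefs (f i)) v)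

/-- The final class over the chart `j` (compare with `RMM.IsRel`). -/
structure IsRelAt (B : ProjModel F) (j : Fin (B.N + 1)) (b e : ℕ) (f : Fin r → LR F n)
    (x : Fin n → K) : Prop where
  dim_eq : n = r + e
  pos : 0 < b + e
  f_ne : ∀ i, f i ≠ 0
  ne : ∀ j, x j ≠ 0
  gen : IntermediateField.adjoin F (Set.range x) = ⊤
  dimB : Algebra.trdeg ℂ F = (b : Cardinal)
  terminal : B.Terminal b
  dim : Algebra.trdeg ℂ K = ((b + e : ℕ) : Cardinal)
  zero : ∀ i, rev x (f i) = 0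
  loc : ∀ m : Ideal (B.ring j), m.IsMaximal → ∃ g, IsLocEq B f j m g
  nondeg : ∀ ν : Fin n → ℤ, ν ≠ 0 → ∀ m : Ideal (B.ring j), m.IsMaximal → NondegT b B f ν j m
  inner : (∀ m : Ideal (B.ring j), m.IsMaximal → NondegT b B f 0 j m) ∨
    (GenAt B j f x ∧ IsTerminal (b + e) (zring B x j))

end

end RMT
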