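import Pool.Agent.RMT.Chart
import Pool.Agent.RMM.StR

/-!
# Minimal models of families of complete intersections in torus bundles (MP_fa3f7f_ag): the interface

`F` is the function field of the projective variety `B : ProjModel F`. A torus bundle over `B` which is
trivial on the charts of `B` is given by functions `t j k ∈ F`, `j` a chart, `k = 1, …, n`, such that the
quotients `t j' k / t j k` are regular and invertible on the intersections of the charts. The
coordinates of the torus bundle on the chart `j` are `x_k / t j k`. The divisor `D_k` on `B` has the local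
equation `t j k` on the chart `j`. A Laurent polynomial `f` in `x` over `F` has in the coordinates of the
chart `j` the coefficients `f_a t_j^a`. So on the chart `j` everything is as in `Pool/Agent/RMM` for the
system `f_j = tw (t j) f` and the point `x_j = tx (t j) x`. See PAPER.md in this folder.
-/

set_option autoImplicit false

namespace RMT

open MldGeo MMCI RMM

noncomputable section

variable {F K : Type} [Field F] [Field K] [Algebra ℂ F] [Algebra ℂ K] [Algebra F K]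
  [IsScalarTower ℂ F K] {b e e' n r N : ℕ}

/-! ### the twist -/

/-- The Laurent polynomial `f` in the coordinates `x / t`: the coefficients are `f_a t^a`. -/
def tw (t : Fin n → F) (f : LR F n) : LR F n :=
  f.coeff.sum fun a c => AddMonoidAlgebra.single a (c * mon t a)

/-- The coordinates `x / t`. -/
def tx (t : Fin n → F) (x : Fin n → K) (k : Fin n) : K := x k / algebraMap F K (t k)

/-- The functions `t j`, `j` a chart of `B`, define a torus bundle over `B`: the quotients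
`t j' k / t j k` are regular and invertible on the intersections of the charts. -/
structure IsTwist (B : ProjModel F) (t : Fin (B.N + 1) → Fin n → F) : Prop where
  ne : ∀ j k, t j k ≠ 0
  unit : ∃ d : ℕ, ∀ j j' k, t j' k / t j k * (B.s j' / B.s j) ^ d ∈ B.ring j ∧
    t j k / t j' k * (B.s j' / B.s j) ^ d ∈ B.ring j

/-! ### the abstract conditions -/

/-- The abstract data for the twisted system: on every chart the conditions of `RMM.RSys` for
`(f_j, x_j)`. -/
structure RSysT (B : ProjModel F) (t : Fin (B.N + 1) → Fin n → F) (e : ℕ) (κ : ℕ) (y0 : Fin b → F)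
    (β : DivVal (b + e) K → ℤ) (f : Fin r → LR F n) (x : Fin n → K) : Prop
    extends RReg e f x where
  twist : IsTwist B t
  bpf : ∀ j i, BpfAt B j (coefs (tw (t j) (f i)))
  nd : ∀ j (v : DivVal (b + e) K), OnChart B v j →
    Nd B e κ y0 β (fun i => tw (t j) (f i)) (tx (t j) x) v

/-- The orders of the form `ω` at `v` (`RMM.RLog` at one valuation). -/
structure RLogAt (B : ProjModel F) (κ : ℕ) (β : DivVal e' K → ℤ) (f : Fin r → LR F n)
    (x : Fin n → K) (ω : Forms e' K) (v : DivVal e' K) : Prop where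
  low : wt x v ≠ 0 →
    - (κ * rpsi f (wt x v)) ≤ κ * v.logOrd ω - bo κ β (fun i => coefs (f i)) v
  eq : wt x v ≠ 0 →
    (κ * v.logOrd ω - bo κ β (fun i => coefs (f i)) v = - (κ * rpsi f (wt x v)) ↔ BIG B x v)
  low0 : wt x v = 0 → (κ : ℤ) ≤ κ * v.logOrd ω - bo κ β (fun i => coefs (f i)) v
  eq0 : wt x v = 0 →
    (κ * v.logOrd ω - bo κ β (fun i => coefs (f i)) v = κ ↔ BIG B x v)
  unit : wt x v ≠ 0 → BIG B x v → Primitive (wt x v)
  bnd : wt x v ≠ 0 → ∀ (s : ℕ) (ν : Fin s → (Fin n → ℤ)) (c : Fin s → ℕ)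
    (c0 : ℕ), 0 < c0 → (∀ j, 0 < c j) → LinearIndependent ℤ ν →
    (c0 : ℤ) • wt x v = ∑ j, (c j : ℤ) • ν j →
    ∑ i, (rmin (f i) (∑ j, ν j) - ∑ j, rmin (f i) (ν j)) + 2 ≤ s →
    ¬ ∃ (a : Fin (e' - 1) → F) (q : Fin (e' - 1) → (Fin n → ℤ)),
      (∀ l, InO B v (a l) ∧ a l ≠ 0 ∧ v.ord (algebraMap F K (a l)) = 0 ∧
        ∀ j, pair (ν j) (q l) = 0) ∧
      ResIndep v fun l => algebraMap F K (a l) * mon x (q l)

/-- The orders of the form `ω`, on every chart for `(f_j, x_j)`. -/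
structure RLogT (B : ProjModel F) (t : Fin (B.N + 1) → Fin n → F) (κ : ℕ) (β : DivVal e' K → ℤ)
    (f : Fin r → LR F n) (x : Fin n → K) (ω : Forms e' K) : Prop where
  ne : ω ≠ 0
  at_ : ∀ (v : DivVal e' K) (j : Fin (B.N + 1)), OnChart B v j →
    RLogAt B κ β (fun i => tw (t j) (f i)) (tx (t j) x) ω v

/-! ### divisors on `B` -/

section Adj

variable {B : ProjModel F}

/-- Near the point `m` of the chart `j` the function `g` is an equation of `k (k0 K + D)`, where `D` is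
given on the chart `j` by its coefficients `D j v` at the prime divisors and `K = div(ω)`. -/
def IsEqC (B : ProjModel F) (k0 : ℕ) (D : Fin (B.N + 1) → DivVal b F → ℤ) (ω : Forms b F) (k : ℕ)
    (j : Fin (B.N + 1)) (m : Ideal (B.ring j)) (g : F) : Prop :=
  ∀ (v : DivVal b F) (P : Ideal (B.ring j)), IsPrimeDivisor (B.ring j) v P → P ≤ m →
    v.ord g = k * (k0 * v.formOrd ω + D j v)

/-- As `RMM.EqnsD`, for `k0 K + D`. -/
structure EqnsC (γ : CurveMap B) (k0 : ℕ) (D : Fin (B.N + 1) → DivVal b F → ℤ) (ω : Forms b F)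
    (k : ℕ) (h : F) (g : DivVal 1 γ.L → F) (u : DivVal 1 γ.L → γ.L) : Prop where
  h_ne : h ≠ 0
  u_ne : ∀ w, u w ≠ 0
  restr : ∀ w, γ.Restr (g w / h) (u w)
  eqn : ∀ w, ∃ (j : Fin (B.N + 1)) (m : Ideal (B.ring j)), γ.MapsTo w j m ∧
    IsEqC B k0 D ω k j m (g w)

/-- `k0 K + D` is nef. -/
def NefC (B : ProjModel F) (k0 : ℕ) (D : Fin (B.N + 1) → DivVal b F → ℤ) : Prop :=
  ∀ ω : Forms b F, ω ≠ 0 → ∀ (γ : CurveMap B) (k : ℕ) (h : F) (g : DivVal 1 γ.L → F)
    (u : DivVal 1 γ.L → γ.L), 0 < k → EqnsC γ k0 D ω k h g u →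
    {w : DivVal 1 γ.L | w.ord (u w) ≠ 0}.Finite ∧ 0 ≤ ∑ᶠ w : DivVal 1 γ.L, w.ord (u w)

/-- `k0 K + D` is semiample. -/
def SemC (B : ProjModel F) (k0 : ℕ) (D : Fin (B.N + 1) → DivVal b F → ℤ) : Prop :=
  ∀ ω : Forms b F, ω ≠ 0 → ∃ (k N : ℕ) (h : Fin N → F), 0 < k ∧ (∀ l, h l ≠ 0) ∧
    (∀ l j (v : DivVal b F) (P : Ideal (B.ring j)), IsPrimeDivisor (B.ring j) v P →
      0 ≤ v.ord (h l) + k * (k0 * v.formOrd ω + D j v)) ∧
    ∀ j (m : Ideal (B.ring j)), m.IsMaximal → ∃ l, ∀ (v : DivVal b F) (P : Ideal (B.ring j)),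
      IsPrimeDivisor (B.ring j) v P → P ≤ m → v.ord (h l) + k * (k0 * v.formOrd ω + D j v) = 0

/-- The divisor `k0 ∑_{i ∈ I} L_i + ⟨p, D⟩`; the local generator of `L_i` on the chart `j` has the order
`cmin v (coefs (f_j i))`. -/
def adjT (b : ℕ) (B : ProjModel F) (t : Fin (B.N + 1) → Fin n → F) (f : Fin r → LR F n)
    (I : Finset (Fin r)) (k0 : ℕ) (p : Fin n → ℤ) (j : Fin (B.N + 1)) (v : DivVal b F) : ℤ :=
  k0 * adj (fun i => coefs (tw (t j) (f i))) I v + v.ord (mon (t j) p)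

/-- `p / k0` is a point of the sum of the Newton polytopes of the `f i`, `i ∈ I`. -/
def InSum (f : Fin r → LR F n) (I : Finset (Fin r)) (k0 : ℕ) (p : Fin n → ℤ) : Prop :=
  ∀ ν : Fin n → ℤ, k0 * ∑ i ∈ I, rmin (f i) ν ≤ pair ν p

/-- `p / k0` is a point of the Fine interior of the sum of the Newton polytopes. -/
def InFine (f : Fin r → LR F n) (k0 : ℕ) (p : Fin n → ℤ) : Prop :=
  ∀ ν : Fin n → ℤ, ν ≠ 0 → k0 * (rpsi f ν + 1) ≤ pair ν p

/-- The hypothesis (N): for all `I` and all rational points `m` of `∑_{i ∈ I} Δ_i` the divisor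
`K_B + ∑_{i ∈ I} L_i + ⟨m, D⟩` is nef. -/
def HypN (b : ℕ) (B : ProjModel F) (t : Fin (B.N + 1) → Fin n → F) (f : Fin r → LR F n) : Prop :=
  ∀ (I : Finset (Fin r)) (k0 : ℕ) (p : Fin n → ℤ), 0 < k0 → InSum f I k0 p →
    NefC B k0 (adjT b B t f I k0 p)

/-- The same for semiample divisors. -/
def HypS (b : ℕ) (B : ProjModel F) (t : Fin (B.N + 1) → Fin n → F) (f : Fin r → LR F n) : Prop :=
  ∀ (I : Finset (Fin r)) (k0 : ℕ) (p : Fin n → ℤ), 0 < k0 → InSum f I k0 p →
    SemC B k0 (adjT b B t f I k0 p)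

end Adj

/-! ### the model -/

/-- `Y` is a normal projective model with the coordinates `s_l`, up to a finite modification: near every
closed point the `s_l' / s_l` are regular for some `l`, and curves are not contracted
(`MMCI.IsModel` for arbitrary coordinates). -/
structure IsMod {ι : Type} (e' : ℕ) (s : ι → K) (Y : ProjModel K) : Prop where
  normal : ∀ i (a : K), IsIntegral (Y.ring i) a → a ∈ Y.ring i
  pt : ∀ i (m : Ideal (Y.ring i)), m.IsMaximal → ∃ l : ι,
    ∀ (v : DivVal e' K) (P : Ideal (Y.ring i)), HasCentre (Y.ring i) v P → P ≤ m →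
      (∀ l', 0 ≤ v.ord (s l' / s l)) ∧
        (P.height = 1 ↔ ∃ c : Fin (e' - 1) → ι, ResIndep v fun q => s (c q) / s l)
  fin : ∀ (γ : CurveMap Y) (l : ι), ¬ ∀ l', ∃ c : ℂ, γ.Restr (s l' / s l) (algebraMap ℂ γ.L c)

/-- The functions `(s_j' / s_0) (s_j / s_0)^k t_j^(-a) x^a` (on the chart `j` a multiple of `x_j^a`),
`j'`, `j` charts of `B`, for the exponents `a = g a'`, `a' ∈ A`. -/
def tm (B : ProjModel F) (t : Fin (B.N + 1) → Fin n → F) (k : ℕ) (x : Fin n → K)
    (A : Finset (Fin n → ℤ)) (g : (Fin n → ℤ) → (Fin n → ℤ))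
    (l : Fin (B.N + 1) × Fin (B.N + 1) × A) : K :=
  algebraMap F K (B.s l.1 / B.s 0 * (B.s l.2.1 / B.s 0) ^ k) *
    mon (tx (t l.2.1) x) (g l.2.2)

/-- `k` is large: the `(s_j' / s_j)^(k-1) (t_j / t_j')^(g a)` are regular on the chart `j`. -/
def Large (B : ProjModel F) (t : Fin (B.N + 1) → Fin n → F) (k : ℕ) (A : Finset (Fin n → ℤ))
    (g : (Fin n → ℤ) → (Fin n → ℤ)) : Prop :=
  ∃ k' : ℕ, k' < k ∧ ∀ a ∈ A, ∀ j j' : Fin (B.N + 1),
    mon (t j) (g a) / mon (t j') (g a) * (B.s j' / B.s j) ^ k' ∈ B.ring j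

/-- The model of the twisted system. -/
def IsModT (e' : ℕ) (B : ProjModel F) (t : Fin (B.N + 1) → Fin n → F) (x : Fin n → K)
    (A : Finset (Fin n → ℤ)) (Y : ProjModel K) : Prop :=
  ∃ k : ℕ, Large B t k A id ∧ IsMod e' (tm B t k x A id) Y

end

end RMT
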