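import Pool.Agent.RMM.DefsX

/-!
# MP_fa3f7f_ag: minimal models of complete intersections in torus bundles

Definitions. `B` is a projective variety of dimension `b` with the function field `F`, and `M_1, …, M_n`
are line bundles on `B`. The complement `E` of the zero sections in `M_1 ⊕ … ⊕ M_n` is a principal
bundle over `B` with the group `T = (ℂ^*)^n`. The bundles are given by trivializations over the charts
of `B` (every finite set of line bundles is trivial over the charts of a suitable projective
embedding of `B`): the rational functions `x_1, …, x_n` on `E` are the coordinates with respect to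
rational sections, and the coordinates over the chart `j` are the `x_k / t_(j, k)`, where the
`t_(j, k)` are rational functions on `B`. They are local equations of divisors `D_1, …, D_n` on `B`.

A system `f_1, …, f_r` of Laurent polynomials over `F` defines a closed subscheme of `E`: over the chart
`j` we write `f_i` as a Laurent polynomial in the `x_k / t_(j, k)`, and near a closed point it is given by
local equations. If the local equations are `f_i / u_i` then `L_i` is the divisor with the local equations
`1 / u_i`; the coefficient of `x^a` in `f_i` is a section of `L_i + ⟨a, D⟩`,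
`⟨a, D⟩ = a_1 D_1 + … + a_n D_n`. `Z` is an irreducible component of the subscheme which dominates
`B`, `K ⊇ F` is its function field, and `x` are the coordinates of its generic point.
-/

set_option autoImplicit false

namespace RMX

open MldX MMCI MMCX

noncomputable section

/-! ### the torus bundle -/

section Twist

variable {F K : Type} [Field F] [Field K] [Algebra ℂ F] [Algebra F K] {n : ℕ}

/-- The Laurent polynomial `f` in the coordinates `x_k / t_k`. -/
def polyT (t : Fin n → F) (f : LaurentR F n) : LaurentR F n :=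
  f.coeff.sum fun a c => AddMonoidAlgebra.single a (c * mon t a)

/-- The coordinates `x_k / t_k` of the point `x`. -/
def coordT (t : Fin n → F) (x : Fin n → K) : Fin n → K := fun k => x k / algebraMap F K (t k)

/-- The ring of regular functions of the intersection of the charts `j` and `j'` of `B`. -/
def overlap (B : ProjModel F) (j j' : Fin (B.N + 1)) : Subalgebra ℂ F :=
  Algebra.adjoin ℂ ((B.ring j : Set F) ∪ {B.s j / B.s j'})

/-- The `t j` are the trivializations of a torus bundle over the charts of `B`: their quotients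
are invertible regular functions on the intersections of the charts. -/
def IsBundle (B : ProjModel F) (t : Fin (B.N + 1) → Fin n → F) : Prop :=
  ∀ j j' k, t j k ≠ 0 ∧ t j k / t j' k ∈ overlap B j j' ∧ t j' k / t j k ∈ overlap B j j'

end Twist

variable {F K : Type} [Field F] [Field K] [Algebra ℂ F] [Algebra ℂ K] [Algebra F K]
  [IsScalarTower ℂ F K] {b e n r : ℕ}

/-- `B` is a projective variety of dimension `b` with terminal singularities, `K` is the function
field of an irreducible component `Z`, of dimension `b + e > 0`, of the complete intersection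
`f_1 = … = f_r = 0` in the torus bundle `E` over `B` with fibre `(ℂ^*)^n`, `n = r + e`, `Z` dominates
`B`, and `x` are the coordinates of the generic point of `Z`; the `f_i` have local equations (`loc`).
The system is nondegenerate at infinity (for the weights `ν ≠ 0`), and over every chart of `B` either
it is nondegenerate, or it generates the ideal of `Z` near `Z` and `Z` has terminal singularities. -/
structure IsFamilyT (b e : ℕ) (B : ProjModel F) (t : Fin (B.N + 1) → Fin n → F)
    (f : Fin r → LaurentR F n) (x : Fin n → K) : Prop where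
  bundle : IsBundle B t
  dim_eq : n = r + e
  pos : 0 < b + e
  f_ne : ∀ i, f i ≠ 0
  ne : ∀ j, x j ≠ 0
  gen : IntermediateField.adjoin F (Set.range x) = ⊤
  dim_base : Algebra.trdeg ℂ F = (b : Cardinal)
  terminal : Terminal b B
  dim : Algebra.trdeg ℂ K = ((b + e : ℕ) : Cardinal)
  zero : ∀ i, evR x (f i) = 0
  loc : ∀ (j : Fin (B.N + 1)) (m : Ideal (B.ring j)), m.IsMaximal →
    ∃ g, IsLocEq (fun i => polyT (t j) (f i)) m g
  nondeg : ∀ ν : Fin n → ℤ, ν ≠ 0 → ∀ (j : Fin (B.N + 1)) (m : Ideal (B.ring j)), m.IsMaximal →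
    NondegenerateR b B (fun i => polyT (t j) (f i)) ν j m
  inner : ∀ j : Fin (B.N + 1),
    (∀ m : Ideal (B.ring j), m.IsMaximal →
      NondegenerateR b B (fun i => polyT (t j) (f i)) 0 j m) ∨
    (GeneratesOver (R := B.ring j) (fun i => polyT (t j) (f i)) (coordT (t j) x) ∧
      IsTerminal (b + e) (zRing B (coordT (t j) x) j))

/-! ### the divisors `c K_B + ∑ l_i L_i + ⟨p, D⟩` on `B` -/

/-- The coefficient of the prime divisor `v` of a chart of `B` in `c K_B + ∑ l_i L_i + ⟨p, D⟩`,
`K_B = div(ω)`; `t` is the trivialization over the chart. (The local generator `u_i` of the coefficients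
of `f_i` has the least order, and `L_i = - div(u_i)`.) -/
def divOrdT (ω : Forms b F) (t : Fin n → F) (f : Fin r → LaurentR F n) (c : ℕ) (l : Fin r → ℕ)
    (p : Fin n → ℤ) (v : DivVal b F) : ℤ :=
  c * v.formOrd ω - ∑ i, l i * sInf ((fun a => v.ord ((polyT t (f i)).coeff a)) ''
    (polyT t (f i)).coeff.support) + v.ord (mon t p)

/-- As `MMCX.Equations`, for `k (c K_B + ∑ l_i L_i + ⟨p, D⟩)`. -/
structure EquationsT {B : ProjModel F} (γ : CurveMap B) (ω : Forms b F)
    (t : Fin (B.N + 1) → Fin n → F) (f : Fin r → LaurentR F n) (c : ℕ) (l : Fin r → ℕ)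
    (p : Fin n → ℤ) (k : ℕ) (h : F) (g : DivVal 1 γ.L → F) (u : DivVal 1 γ.L → γ.L) : Prop where
  h_ne : h ≠ 0
  u_ne : ∀ w, u w ≠ 0
  restr : ∀ w, γ.Restr (g w / h) (u w)
  eqn : ∀ w, ∃ (j : Fin (B.N + 1)) (m : Ideal (B.ring j)), MapsTo γ w j m ∧
    ∀ (v : DivVal b F) (P : Ideal (B.ring j)), IsPrimeDivisor (B.ring j) v P → P ≤ m →
      v.ord (g w) = k * divOrdT ω (t j) f c l p v

/-- The divisor `c K_B + ∑ l_i L_i + ⟨p, D⟩` is nef. -/
def NefT (b : ℕ) (B : ProjModel F) (t : Fin (B.N + 1) → Fin n → F) (f : Fin r → LaurentR F n)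
    (c : ℕ) (l : Fin r → ℕ) (p : Fin n → ℤ) : Prop :=
  ∀ ω : Forms b F, IsForm ω → ∀ (γ : CurveMap B) (k : ℕ) (h : F) (g : DivVal 1 γ.L → F)
    (u : DivVal 1 γ.L → γ.L), 0 < k → EquationsT γ ω t f c l p k h g u →
    {w : DivVal 1 γ.L | w.ord (u w) ≠ 0}.Finite ∧ 0 ≤ ∑ᶠ w : DivVal 1 γ.L, w.ord (u w)

/-- The divisor `c K_B + ∑ l_i L_i + ⟨p, D⟩` is semiample. -/
def SemiampleT (b : ℕ) (B : ProjModel F) (t : Fin (B.N + 1) → Fin n → F)
    (f : Fin r → LaurentR F n) (c : ℕ) (l : Fin r → ℕ) (p : Fin n → ℤ) : Prop :=
  ∀ ω : Forms b F, IsForm ω → ∃ (k N : ℕ) (h : Fin N → F), 0 < k ∧ (∀ q, h q ≠ 0) ∧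
    (∀ q j (v : DivVal b F) (P : Ideal (B.ring j)), IsPrimeDivisor (B.ring j) v P →
      0 ≤ v.ord (h q) + k * divOrdT ω (t j) f c l p v) ∧
    ∀ j (m : Ideal (B.ring j)), m.IsMaximal → ∃ q, ∀ (v : DivVal b F) (P : Ideal (B.ring j)),
      IsPrimeDivisor (B.ring j) v P → P ≤ m → v.ord (h q) + k * divOrdT ω (t j) f c l p v = 0

/-- The divisor `L_i + ⟨a, D⟩` is nef for every `i` and every exponent `a` of `f_i`. (The
coefficient of `x^a` in `f_i` is a section of this divisor.) -/
def CoefNef (b : ℕ) (B : ProjModel F) (t : Fin (B.N + 1) → Fin n → F)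
    (f : Fin r → LaurentR F n) : Prop :=
  ∀ i, ∀ a ∈ (f i).coeff.support, NefT b B t f 0 (Pi.single i 1) a

/-- The divisor `L_i + ⟨a, D⟩` is semiample for every `i` and every exponent `a` of `f_i`. -/
def CoefSemiample (b : ℕ) (B : ProjModel F) (t : Fin (B.N + 1) → Fin n → F)
    (f : Fin r → LaurentR F n) : Prop :=
  ∀ i, ∀ a ∈ (f i).coeff.support, SemiampleT b B t f 0 (Pi.single i 1) a

/-- The rational point `p / k` is in the Fine interior of the sum of the Newton polytopes. -/
def InFine (f : Fin r → LaurentR F n) (k : ℕ) (p : Fin n → ℤ) : Prop :=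
  0 < k ∧ ∀ ν : Fin n → ℤ, ν ≠ 0 → k * (∑ i, minOnR (f i) ν + 1) ≤ pair ν p

/-- The divisor `K_B + L_1 + … + L_r + ⟨m, D⟩` is nef for all rational points `m = p / k` of the Fine
interior. -/
def FineNef (b : ℕ) (B : ProjModel F) (t : Fin (B.N + 1) → Fin n → F)
    (f : Fin r → LaurentR F n) : Prop :=
  ∀ k p, InFine f k p → NefT b B t f k (fun _ => k) p

/-- The divisor `K_B + L_1 + … + L_r + ⟨m, D⟩` is semiample for all rational points `m = p / k` of the
Fine interior. -/
def FineSemiample (b : ℕ) (B : ProjModel F) (t : Fin (B.N + 1) → Fin n → F)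
    (f : Fin r → LaurentR F n) : Prop :=
  ∀ k p, InFine f k p → SemiampleT b B t f k (fun _ => k) p

end

end RMX
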