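import Pool.Agent.RMT.Chart

/-!
# Torus bundles, block S: the local data over one chart. Statements.

The bundle is trivial over the charts of `B`, so over the chart `j` the system is a system in
`B × T`, but only over this chart. The statements below are those of `RMM/StE4.lean`, `StS.lean`,
`StS2.lean`, `StT.lean` with the hypotheses restricted to one chart `j`; in `RMM` the hypotheses are
made for all charts but used over one chart only, so the proofs are copies with small changes. All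
statements `S_…` of `RMM` used as hypotheses in the `M_…` are theorems (`RMM/AsmE.lean`,
`AsmZ.lean`).
-/

set_option autoImplicit false

namespace RMT

open MldGeo MMCI RMM

noncomputable section

/-! ### closed points -/

/-- TCLP: `S_CLP2` for a given chart. Proof. As `t_CLP` (`RMM/CLP.lean`, with the given `j`, `hj` instead
of `exists_chart`) and `t_CLP2` (`RMM/CLP2.lean`). -/
def S_TCLP : Prop := ∀ {F K : Type} [Field F] [Field K] [Algebra ℂ F] [Algebra ℂ K]
  [Algebra F K] [IsScalarTower ℂ F K] {e' n : ℕ} (B : ProjModel F) (x : Fin n → K),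
  (∀ j, x j ≠ 0) → ∀ (v : DivVal e' K) (j : Fin (B.N + 1)), OnChart B v j →
  ∃ (t0 : K) (M : Ideal (LR (B.ring j) n)), t0 ≠ 0 ∧ v.ord t0 = 1 ∧
    M.IsMaximal ∧ (M.comap (algebraMap (B.ring j) (LR (B.ring j) n))).IsMaximal ∧
    Through B v j (M.comap (algebraMap (B.ring j) (LR (B.ring j) n))) ∧
    (∀ G : LR (B.ring j) n, v.Ge 1 (nval x v t0 G) → G ∈ M) ∧
    ∀ (g : LR (B.ring j) n) (c : ℤ), (∀ a ∈ g.coeff.support, pair (wt x v) a = c) →
      v.Ge (c + 1) (g.coeff.sum fun a p => algebraMap F K (p : F) * mon x a) → g ∈ M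

/-- TRNB: `S_RNB` with the hypotheses over the chart `j`. Proof. As `t_RNB` (`RMM/RNB.lean`): the chart
`j` is given (`hj : ∀ c ∈ B.ring j, w0.Ge 0 c` from `OnChart B v j` and `v.ord (algebraMap a) =
c * w0.ord a`, `0 < c`), and `RNB.least` is used for `BpfAt B j` (the proof of `RNB.least` uses only the
chart `j`; copy it). -/
def S_TRNB : Prop := ∀ {F K : Type} [Field F] [Field K] [Algebra ℂ F] [Algebra ℂ K] [Algebra F K]
  [IsScalarTower ℂ F K] {b e n r : ℕ} (B : ProjModel F) (j : Fin (B.N + 1))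
  (f : Fin r → LR F n) (x : Fin n → K),
  Algebra.trdeg ℂ F = (b : Cardinal) → Algebra.trdeg ℂ K = ((b + e : ℕ) : Cardinal) → 0 < b →
  (∀ j (a : F), IsIntegral (B.ring j) a → a ∈ B.ring j) → RReg e f x →
  (∀ i, BpfAt B j (coefs (f i))) → ∀ v : DivVal (b + e) K, OnChart B v j → XUnit e f x v →
  ∀ (w0 : DivVal b F) (c : ℕ), 0 < c → (∀ a : F, v.ord (algebraMap F K a) = c * w0.ord a) →
  (¬ ∃ (j : Fin (B.N + 1)) (P : Ideal (B.ring j)), IsPrimeDivisor (B.ring j) w0 P) →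
  ¬ BIG B x v

def M_TRNB : Prop := S_DLB → S_EXM → S_ABN2 → S_LAM → S_TRNB

/-- TNW: the local data at the valuations for whose weight the system is nondegenerate. Proof. As
`RSYS3.nd` (`RMM/RSYS3.lean`) with `TCLP` and `TRNB` instead of `CLP2` and `RNB`. -/
def S_TNW : Prop := ∀ {F K : Type} [Field F] [Field K] [Algebra ℂ F] [Algebra ℂ K] [Algebra F K]
  [IsScalarTower ℂ F K] {b e n r : ℕ} (B : ProjModel F) (j : Fin (B.N + 1)) (κ : ℕ)
  (y0 : Fin b → F) (β : DivVal (b + e) K → ℤ) (f : Fin r → LR F n) (x : Fin n → K),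
  BaseData B b (b + e) K κ y0 β → 0 < b + e → Algebra.trdeg ℂ K = ((b + e : ℕ) : Cardinal) →
  B.Terminal b → RReg e f x → (∀ i, BpfAt B j (coefs (f i))) → ∀ v : DivVal (b + e) K,
  OnChart B v j → (∀ m : Ideal (B.ring j), m.IsMaximal → NondegT b B f (wt x v) j m) →
  Nd B e κ y0 β f x v

def M_TNW : Prop := S_TCLP → S_LOCV → S_FUM → S_RVL → S_LTR → S_LPD → S_TRNB → S_RDQ → S_TNW

/-! ### `Z` with terminal singularities -/

/-- TZCP: `S_ZCP` with `GenAt`. Proof. As `t_ZCP` (`RMM/ZCP.lean`; `GenR` is used there only for the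
chart `j`). -/
def S_TZCP : Prop := ∀ {F K : Type} [Field F] [Field K] [Algebra ℂ F] [Algebra ℂ K] [Algebra F K]
  [IsScalarTower ℂ F K] {b e n r : ℕ} (B : ProjModel F) (f : Fin r → LR F n) (x : Fin n → K),
  n = r + e → (∀ k, x k ≠ 0) → IntermediateField.adjoin F (Set.range x) = ⊤ →
  Algebra.trdeg ℂ F = (b : Cardinal) → (∀ i, rev x (f i) = 0) →
  ∀ (j : Fin (B.N + 1)), GenAt B j f x →
  ∀ (N : Ideal (zring B x j)) (M : Ideal (LR (B.ring j) n)), N.IsMaximal →
  M.IsMaximal → (M.comap (algebraMap (B.ring j) (LR (B.ring j) n))).IsMaximal →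
  IsPre B x j N M → (∃ z : Fin (b + e) → zring B x j, N = Ideal.span (Set.range z) ⊔ N ^ 2) →
  ∃ g : Fin r → LR (B.ring j) n,
    IsLocEq B f j (M.comap (algebraMap (B.ring j) (LR (B.ring j) n))) g ∧ (∀ i, g i ∈ M) ∧
    (∃ y : Fin b → B.ring j, M.comap (algebraMap (B.ring j) (LR (B.ring j) n)) =
      Ideal.span (Set.range y) ⊔ M.comap (algebraMap (B.ring j) (LR (B.ring j) n)) ^ 2) ∧
    ∀ τ : Fin r → ℂ, ∑ i, τ i • g i ∈ M ^ 2 → τ = 0

def M_TZCP : Prop := S_FRCB → S_ZRG → S_ZCB → S_TZCP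

/-- TLTZ: `S_LTZ` with `GenAt`. Proof. As `t_LTZ` (`RMM/LTZ.lean`), with `TZCP`. -/
def S_TLTZ : Prop := ∀ {F K : Type} [Field F] [Field K] [Algebra ℂ F] [Algebra ℂ K] [Algebra F K]
  [IsScalarTower ℂ F K] {b e n r : ℕ} (B : ProjModel F) (κ : ℕ) (y0 : Fin b → F)
  (β : DivVal (b + e) K → ℤ) (f : Fin r → LR F n) (x : Fin n → K),
  BaseData B b (b + e) K κ y0 β → n = r + e → 0 < b + e → (∀ i, f i ≠ 0) → (∀ k, x k ≠ 0) →
  IntermediateField.adjoin F (Set.range x) = ⊤ →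
  Algebra.trdeg ℂ K = ((b + e : ℕ) : Cardinal) → (∀ i, rev x (f i) = 0) →
  ∀ j : Fin (B.N + 1), GenAt B j f x →
  (∀ a : K, IsIntegral (zring B x j) a → a ∈ zring B x j) →
  ∀ (v : DivVal (b + e) K) (P : Ideal (zring B x j)), IsPrimeDivisor (zring B x j) v P →
  Nonempty (Loc B e κ y0 β f x v)

def M_TLTZ : Prop := S_ZRG → S_SMC → S_ZPRE → S_TZCP → S_LOCV → S_TLTZ

/-- TRDZ: `S_RDZ` with the hypotheses over the chart `j`. Proof. As `t_RDZ` (`RMM/RDZ.lean`); instead of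
`RBAS` (used there only at the point `mB` of the chart `j`) use `TEQ`. -/
def S_TRDZ : Prop := ∀ {F K : Type} [Field F] [Field K] [Algebra ℂ F] [Algebra ℂ K] [Algebra F K]
  [IsScalarTower ℂ F K] {b e n r : ℕ} (B : ProjModel F) (κ : ℕ) (y0 : Fin b → F)
  (β : DivVal (b + e) K → ℤ) (f : Fin r → LR F n) (x : Fin n → K),
  BaseData B b (b + e) K κ y0 β → 0 < b + e → Algebra.trdeg ℂ K = ((b + e : ℕ) : Cardinal) →
  RReg e f x → ∀ j : Fin (B.N + 1), (∀ i, BpfAt B j (coefs (f i))) →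
  IsTerminal (b + e) (zring B x j) →
  (∀ (v : DivVal (b + e) K) (P : Ideal (zring B x j)), IsPrimeDivisor (zring B x j) v P →
    Nonempty (Loc B e κ y0 β f x v)) →
  ∀ (v : DivVal (b + e) K) (P : Ideal (zring B x j)), HasCentre (zring B x j) v P →
  P.height ≠ 1 → ¬ BIG B x v ∧ ∀ ω : Forms (b + e) K, IsResR e y0 f x ω →
    (κ : ℤ) + 1 - κ * rpsi f (wt x v) ≤ κ * v.logOrd ω - bo κ β (fun i => coefs (f i)) v

/-- TEQ: local equations of `κ (K_B + ∑ L_i)` over one chart. The last part: the least order is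
attained at the generator of `BpfAt`. Proof. The part of the proof of `t_RBAS` (`RMM/RBAS.lean`) at one
point `m`; the set `S0` is used for the finiteness in block C, where it is applied to all charts
(`S0` is the set of the products `E * ∏ i, c_i ^ (-κ)`, `E` in the set of `BaseData.eqn`,
`c_i ∈ coefs (f i)`). -/
def S_TEQ : Prop := ∀ {F K : Type} [Field F] [Field K] [Algebra ℂ F] [Algebra ℂ K] [Algebra F K]
  [IsScalarTower ℂ F K] {e' n r : ℕ} (B : ProjModel F) (κ : ℕ) (b : ℕ) (y0 : Fin b → F)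
  (β : DivVal e' K → ℤ) (f : Fin r → LR F n) (j : Fin (B.N + 1)),
  (∀ i, BpfAt B j (coefs (f i))) → BaseData B b e' K κ y0 β →
  (∃ S0 : Finset F, ∀ m : Ideal (B.ring j), m.IsMaximal → ∃ G ∈ S0, G ≠ 0 ∧
    IsEqD (B.ring j) (dlogs y0) (adj (fun i => coefs (f i)) Finset.univ) κ m G ∧
    ∀ v : DivVal e' K, Through B v j m →
      v.ord (algebraMap F K G) = bo κ β (fun i => coefs (f i)) v) ∧
  ∀ i, ∀ m : Ideal (B.ring j), m.IsMaximal → ∃ c ∈ coefs (f i), c ≠ 0 ∧
    (∀ v : DivVal e' K, Through B v j m → v.ord (algebraMap F K c) = cmin v (coefs (f i))) ∧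
    ∀ (v : DivVal b F) (P : Ideal (B.ring j)), IsPrimeDivisor (B.ring j) v P → P ≤ m →
      v.ord c = cmin v (coefs (f i))

def M_TRDZ : Prop := S_MON → S_ZRG → S_ZPRE → S_HTZ → S_LUNI → S_LE0 → S_LFRM → S_TEQ → S_TRDZ

/-! ### the rank of the gradients -/

/-- TRKZ: `S_RRKZ` with `GenAt` at some chart `j`. Proof. As `t_RRKZ` (`RMM/RRKZ.lean`), with `j` instead
of `0` and `TZCP`. -/
def S_TRKZ : Prop := ∀ {F K : Type} [Field F] [Field K] [Algebra ℂ F] [Algebra ℂ K] [Algebra F K]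
  [IsScalarTower ℂ F K] {b e n r : ℕ} (B : ProjModel F) (f : Fin r → LR F n) (x : Fin n → K),
  n = r + e → (∀ i, f i ≠ 0) → (∀ k, x k ≠ 0) → IntermediateField.adjoin F (Set.range x) = ⊤ →
  Algebra.trdeg ℂ F = (b : Cardinal) → Algebra.trdeg ℂ K = ((b + e : ℕ) : Cardinal) →
  (∀ i, rev x (f i) = 0) → ∀ j : Fin (B.N + 1), GenAt B j f x →
  LinearIndependent K fun i => rgrad x (f i)

def M_TRKZ : Prop := S_FRCB → S_NAK → S_TAY → S_REV → S_ZRG → S_SMG → S_ZPRE → S_TZCP → S_TRKZ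

/-- TRK3: `S_RRK3` with the hypotheses at some chart `j`. Proof. As `t_RRK3` (`RMM/RRK3.lean`), with
`j` instead of `0`. -/
def S_TRK3 : Prop := ∀ {F K : Type} [Field F] [Field K] [Algebra ℂ F] [Algebra ℂ K] [Algebra F K]
  [IsScalarTower ℂ F K] {b e n r : ℕ} (B : ProjModel F) (f : Fin r → LR F n) (x : Fin n → K),
  n = r + e → (∀ i, f i ≠ 0) → (∀ k, x k ≠ 0) → IntermediateField.adjoin F (Set.range x) = ⊤ →
  Algebra.trdeg ℂ F = (b : Cardinal) → Algebra.trdeg ℂ K = ((b + e : ℕ) : Cardinal) →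
  (∀ i, rev x (f i) = 0) → ∀ j : Fin (B.N + 1),
  (∀ m : Ideal (B.ring j), m.IsMaximal → NondegT b B f 0 j m) →
  LinearIndependent K fun i => rgrad x (f i)

def M_TRK3 : Prop := S_FRCB → S_NAK → S_TAY → S_REV → S_TRK3

/-! ### assembly -/

/-- TRNK: the rank. Proof. `TRK3` or `TRKZ` according to `inner`. -/
def S_TRNK : Prop := ∀ {F K : Type} [Field F] [Field K] [Algebra ℂ F] [Algebra ℂ K] [Algebra F K]
  [IsScalarTower ℂ F K] {b e n r : ℕ} (B : ProjModel F) (j : Fin (B.N + 1))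
  (f : Fin r → LR F n) (x : Fin n → K), IsRelAt B j b e f x →
  LinearIndependent K fun i => rgrad x (f i)

def M_TRNK : Prop := S_TRK3 → S_TRKZ → S_TRNK

/-- TNDA: the local data at the valuations with a centre on the chart `j`. Proof. As `t_RSYSF`
(`RMM/RSYSF.lean`). `BpfAt` from `loc` and `CMN`. If `wt x v ≠ 0`, or in the first case of `inner`: `TNW`.
In the second case of `inner`, `wt x v = 0`: `v.Ge 0` on `zring B x j` (`ZRG`), let `P` be the centre
(`TOT.hasCentre`); `P.height = 1`: `TLTZ`; otherwise `TRDZ`. -/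
def S_TNDA : Prop := ∀ {F K : Type} [Field F] [Field K] [Algebra ℂ F] [Algebra ℂ K] [Algebra F K]
  [IsScalarTower ℂ F K] {b e n r : ℕ} (B : ProjModel F) (j : Fin (B.N + 1)) (κ : ℕ)
  (y0 : Fin b → F) (β : DivVal (b + e) K → ℤ) (f : Fin r → LR F n) (x : Fin n → K),
  BaseData B b (b + e) K κ y0 β → IsRelAt B j b e f x → RReg e f x →
  (∀ i, BpfAt B j (coefs (f i))) ∧ ∀ v : DivVal (b + e) K, OnChart B v j → Nd B e κ y0 β f x v

def M_TNDA : Prop := S_CMN → S_ZRG → S_TNW → S_TLTZ → S_TRDZ → S_TNDA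

end

end RMT
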