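import Pool.Agent.RMT.Defs
import Pool.Agent.RMT.StS

/-!
# Twisted relative minimal models: the residue form, the model, curves, the Mori fibre space. Statements.

Notation: `x_j = tx (t j) x`, `f_j = tw (t j) f`. Everything is an adaptation of the proved files of
`Pool/Agent/RMM` (the name of the file is given in each proof). The proved statements of `RMM` and `MMCI`
are hypotheses (`S_...` of `RMM`) or theorems (`LCM_holds`, `RGW_holds`, `CMP_holds`, `PRF_holds`, `t_FUL`,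
`t_RSU`, `t_CUR`, `t_CHW`, `t_LOV`, `t_CRT`, `t_FRC` of `MMCI`).
-/

set_option autoImplicit false

namespace RMT

open MldGeo MMCI RMM

noncomputable section

/-! ## the algebra of the twist -/

/-- TWA. Proof. The coefficient: the summands of `tw` have different exponents (`Finsupp.sum`,
`AddMonoidAlgebra.single`; or induction on `f`). `mon t a ≠ 0` (`Finset.prod_ne_zero_iff`,
`zpow_ne_zero`), so the supports are equal, and `supp0`, `rmin` depend on the support only.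
`tx t x k = x k / algebraMap (t k)`: `mon (tx t x) a = mon x a / algebraMap (mon t a)` (`div_zpow`,
`Finset.prod_div_distrib`, `map_prod`, `map_zpow₀`). The orders: `t_FUL`, third part, and
`v.ord_mul`. `rev`, `rgrad`, `rder`: term by term
`algebraMap (f_a * mon t a) * mon (tx t x) a = algebraMap f_a * mon x a` (the sums are over the same
support). -/
def S_TWA : Prop := ∀ {F K : Type} [Field F] [Field K] [Algebra ℂ F] [Algebra ℂ K] [Algebra F K]
  [IsScalarTower ℂ F K] {n : ℕ} (t : Fin n → F), (∀ k, t k ≠ 0) →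
  (∀ a : Fin n → ℤ, mon t a ≠ 0) ∧
  (∀ f : LR F n, (∀ a, (tw t f).coeff a = f.coeff a * mon t a) ∧
    (tw t f).coeff.support = f.coeff.support ∧ supp0 (tw t f) = supp0 f ∧
    (∀ ν, rmin (tw t f) ν = rmin f ν) ∧ (f ≠ 0 → tw t f ≠ 0)) ∧
  (∀ {r : ℕ} (f : Fin r → LR F n) (ν : Fin n → ℤ), rpsi (fun i => tw t (f i)) ν = rpsi f ν) ∧
  ∀ x : Fin n → K, (∀ k, x k ≠ 0) →
    (∀ k, tx t x k ≠ 0) ∧
    (∀ a, mon (tx t x) a * algebraMap F K (mon t a) = mon x a) ∧
    (∀ {e' : ℕ} (v : DivVal e' K) (a : Fin n → ℤ),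
      pair (wt (tx t x) v) a = pair (wt x v) a - v.ord (algebraMap F K (mon t a))) ∧
    ∀ f : LR F n, rev (tx t x) (tw t f) = rev x f ∧
      (∀ j, rgrad (tx t x) (tw t f) j = rgrad x f j) ∧
      ∀ ν, rder (tx t x) (tw t f) ν = rder x f ν

/-- TWR: regularity and the residue form. Proof. `RReg`: `f_ne`, `ne`, `zero`, `rank` by `TWA`; `gen`:
`x k = tx t x k * algebraMap (t k)`, so the `x k` are in the field generated over `F` by the `tx t x k`.
`IsResR`: the minors are equal (`rgrad`), and `dlogs (zz y0 (rest (tx t x) σ)) = dlogs (zz y0 (rest x σ))`: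
`dlog (tx t x k) = dlog (x k) - dlog (algebraMap (t k))`, the last term is in
`Wy K y0 = span (dlog (algebraMap (y0 l)))` (`RWD` (1)), and an alternating map does not change if
elements of the span of the first `b` arguments are added to the last `e` arguments (change them one
after the other: `AlternatingMap.map_update_add`, and the term with an element of the span is zero by
`map_update_sum`/`map_update_smul` and `AlternatingMap.map_eq_zero_of_eq`; or `RMM/RGPL.lean`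
with `2 e` vectors, or the determinant of the unipotent matrix). -/
def S_TWR : Prop := ∀ {F K : Type} [Field F] [Field K] [Algebra ℂ F] [Algebra ℂ K] [Algebra F K]
  [IsScalarTower ℂ F K] {b e n r : ℕ} (t : Fin n → F) (f : Fin r → LR F n) (x : Fin n → K),
  (∀ k, t k ≠ 0) → RReg e f x →
  RReg e (fun i => tw t (f i)) (tx t x) ∧
  ∀ y0 : Fin b → F, Algebra.trdeg ℂ F = (b : Cardinal) → (∀ l, y0 l ≠ 0) → dlogs y0 ≠ 0 →
    ∀ ω : Forms (b + e) K,
      IsResR e y0 f x ω ↔ IsResR e y0 (fun i => tw t (f i)) (tx t x) ω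

def M_TWR : Prop := S_TWA → S_RWD → S_TWR

/-! ## the residue form -/

/-- TLV: the orders of the residue form at one valuation. Proof. This is the proof of `RLOG`
(`RMM/RLOG.lean`), which treats every valuation separately: in the first case of `Nd` use `RLOG.key`
(import `RMM/RLOG.lean`) with `LUNI`, `LFRM`, and `LE1`, `LE0`, `LUNT`, `LBND`; in the second case the
inequality is part of `Nd`. -/
def S_TLV : Prop := ∀ {F K : Type} [Field F] [Field K] [Algebra ℂ F] [Algebra ℂ K] [Algebra F K]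
  [IsScalarTower ℂ F K] {b e n r : ℕ} (B : ProjModel F) (κ : ℕ) (y0 : Fin b → F)
  (β : DivVal (b + e) K → ℤ) (f : Fin r → LR F n) (x : Fin n → K) (ω : Forms (b + e) K),
  0 < b + e → Algebra.trdeg ℂ K = ((b + e : ℕ) : Cardinal) → BaseData B b (b + e) K κ y0 β →
  RReg e f x → IsResR e y0 f x ω → ∀ v : DivVal (b + e) K, Nd B e κ y0 β f x v →
  RLogAt B κ β f x ω v

def M_TLV : Prop := S_MON → S_REV → S_LREL → S_LUNI → S_ABAS → S_LFRM → S_LE1 → S_LE0 →
  S_LUNT → S_LBND → S_TLV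

/-- TLOG: the residue form of the twisted system. Proof. `LOMG` gives `ω` with `IsResR e y0 f x ω`; by `TWR`
`IsResR e y0 f_j x_j ω` for all `j`, and `TLV` for `(f_j, x_j)` and `RSysT.nd`. -/
def S_TLOG : Prop := ∀ {F K : Type} [Field F] [Field K] [Algebra ℂ F] [Algebra ℂ K] [Algebra F K]
  [IsScalarTower ℂ F K] {b e n r : ℕ} (B : ProjModel F) (t : Fin (B.N + 1) → Fin n → F) (κ : ℕ)
  (y0 : Fin b → F) (β : DivVal (b + e) K → ℤ) (f : Fin r → LR F n) (x : Fin n → K), 0 < b + e →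
  Algebra.trdeg ℂ K = ((b + e : ℕ) : Cardinal) → BaseData B b (b + e) K κ y0 β →
  RSysT B t e κ y0 β f x → ∃ ω : Forms (b + e) K, RLogT B t κ β f x ω

def M_TLOG : Prop := S_LOMG → S_TWR → S_TLV → S_TLOG

/-! ## change of the chart -/

/-- TCO: on the intersection of two charts nothing depends on the chart. Proof. Let `v` be on the charts
`j` and `j'`. `s_j' / s_j ∈ B.ring j` and `s_j / s_j' ∈ B.ring j'` have nonnegative orders, so
`v.ord (s_j' / s_j) = 0`. By `IsTwist.unit` `t j' k / t j k` and its inverse, multiplied with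
`(s_j' / s_j)^d`, are in `B.ring j`, so their orders are nonnegative and `v.ord (t j k) = v.ord (t j' k)`;
hence for all monomials (`t_FUL`, third part, for `fun k => algebraMap (t j k)`;
`mon (fun k => algebraMap (t k)) a = algebraMap (mon t a)`). `wt`: `TWA` for `a = Pi.single k 1`, or
directly. `cmin`: the sets `{v.ord (f_a t_j^a) | a ∈ supp f}` are equal (`coefs` is the image of the
support, the supports are equal by `TWA`). -/
def S_TCO : Prop := ∀ {F K : Type} [Field F] [Field K] [Algebra ℂ F] [Algebra ℂ K] [Algebra F K]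
  [IsScalarTower ℂ F K] {e' n : ℕ} (B : ProjModel F) (t : Fin (B.N + 1) → Fin n → F),
  IsTwist B t → ∀ (v : DivVal e' K) (j j' : Fin (B.N + 1)), OnChart B v j → OnChart B v j' →
  v.ord (algebraMap F K (B.s j' / B.s j)) = 0 ∧
  (∀ a : Fin n → ℤ, v.ord (algebraMap F K (mon (t j) a)) =
    v.ord (algebraMap F K (mon (t j') a))) ∧
  (∀ x : Fin n → K, (∀ k, x k ≠ 0) → wt (tx (t j) x) v = wt (tx (t j') x) v) ∧
  ∀ f : LR F n, cmin v (coefs (tw (t j) f)) = cmin v (coefs (tw (t j') f))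

def M_TCO : Prop := S_TWA → S_TCO

/-- TCA: the divisors `adjT` do not depend on the chart. Proof. `TCO` for `K = F` (`algebraMap F F` is the
identity, `Algebra.algebraMap_self`/`RingHom.id_apply`); a prime divisor of `B.ring j` is on the
chart `j` (`IsPrimeDivisor` contains `v.Ge 0 c` for all `c ∈ B.ring j`, see `HasCentre`). -/
def S_TCA : Prop := ∀ {F : Type} [Field F] [Algebra ℂ F] {b n r : ℕ} (B : ProjModel F)
  (t : Fin (B.N + 1) → Fin n → F), IsTwist B t → ∀ (f : Fin r → LR F n) (I : Finset (Fin r))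
  (k0 : ℕ) (p : Fin n → ℤ) (v : DivVal b F) (j j' : Fin (B.N + 1)) (P : Ideal (B.ring j))
  (P' : Ideal (B.ring j')), IsPrimeDivisor (B.ring j) v P → IsPrimeDivisor (B.ring j') v P' →
  v.ord (mon (t j) p) = v.ord (mon (t j') p) ∧
  adj (fun i => coefs (tw (t j) (f i))) I v = adj (fun i => coefs (tw (t j') (f i))) I v ∧
  adjT b B t f I k0 p j v = adjT b B t f I k0 p j' v

def M_TCA : Prop := S_TCO → S_TCA

/-! ## the model -/

/-- TIM: a normal projective model with given coordinates. Proof. Copy `t_MOD` (`MMCI/MODL.lean`) with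
`V = ι`, `x = mon xh`, `A = eh` (there `V = {a // a ∈ A}`): `Mono (mon xh)`, `MFrac (mon xh)` by `t_FUL`,
`Full eh` is the hypothesis; the statements `CRD`, `NRM`, `PTA`, `FNC` are
`t_CRD t_FGF t_FIN t_HOM`, `t_NRM t_PTV t_LOV t_FGF`, `t_PTA t_PTV t_LOV t_CRT t_RSI`, `t_FNC t_PTV t_RSU`
(see `MMCI/CD.lean`). `mon xh (u - v) = mon xh u / mon xh v` (from `Mono`). `ResInd` and
`ResIndep` are the same for `Fin (e' - 1)`, as in `MODL.lean`. -/
def S_TIM : Prop := ∀ {e' m : ℕ} {K ι : Type} [Field K] [Algebra ℂ K] [Finite ι] [Nonempty ι]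
  (xh : Fin m → K) (eh : ι → Fin m → ℤ), (∀ j, xh j ≠ 0) →
  IntermediateField.adjoin ℂ (Set.range xh) = ⊤ → Algebra.trdeg ℂ K = (e' : Cardinal) → 0 < e' →
  Full eh → ∃ Y : ProjModel K, IsMod e' (fun l => mon xh (eh l)) Y

/-- TLG: `Large`. Proof. Let `d` be as in `IsTwist.unit`. For `u : Fin n → ℤ` put `w = ∑ i |u i|` (natural).
`mon (t j) u / mon (t j') u * (s_j' / s_j)^(d w)` is the product of the
`(t j i / t j' i)^(u i) * (s_j' / s_j)^(d |u i|)`, powers of the elements of `IsTwist.unit`, so it is in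
`B.ring j`; and `s_j' / s_j ∈ B.ring j`, so this remains true for larger exponents. Take
`k' = d * sup_{a ∈ A} ∑ i |g a i|`, `k = k' + 1`. -/
def S_TLG : Prop := ∀ {F : Type} [Field F] [Algebra ℂ F] {n : ℕ} (B : ProjModel F)
  (t : Fin (B.N + 1) → Fin n → F), IsTwist B t → ∀ (A : Finset (Fin n → ℤ))
  (g : (Fin n → ℤ) → (Fin n → ℤ)), ∃ k : ℕ, Large B t k A g

/-- TLQ: the quotients of the coordinates `tm`. Proof. `mon x_j' u = mon x_j u * algebraMap (mon (t j) u /
mon (t j') u)` (`TWA`). The last claim: `Large` and `(s_j' / s_j)^(k - k')`,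
`s_i / s_j ∈ B.ring j`. -/
def S_TLQ : Prop := ∀ {F K : Type} [Field F] [Field K] [Algebra ℂ F] [Algebra ℂ K] [Algebra F K]
  [IsScalarTower ℂ F K] {n : ℕ} (B : ProjModel F) (t : Fin (B.N + 1) → Fin n → F),
  IsTwist B t → ∀ (k : ℕ) (x : Fin n → K), (∀ j, x j ≠ 0) → ∀ (A : Finset (Fin n → ℤ))
  (g : (Fin n → ℤ) → (Fin n → ℤ)),
  (∀ l, tm B t k x A g l ≠ 0) ∧
  (∀ (i i' j j' : Fin (B.N + 1)) (a a' : A),
    tm B t k x A g (i', j', a') / tm B t k x A g (i, j, a) =
      algebraMap F K (B.s i' / B.s i * ((B.s j' / B.s j) ^ k *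
        (mon (t j) (g a') / mon (t j') (g a')))) * mon (tx (t j) x) (g a' - g a)) ∧
  (Large B t k A g → ∀ (i j j' : Fin (B.N + 1)) (a : A),
    B.s i / B.s j * ((B.s j' / B.s j) ^ k * (mon (t j) (g a) / mon (t j') (g a))) ∈ B.ring j ∧
    (B.s j' / B.s j) ^ k * (mon (t j) (g a) / mon (t j') (g a)) ∈ B.ring j ∧
    ∃ k' : ℕ, k' < k ∧ (B.s j' / B.s j) ^ k' * (mon (t j) (g a) / mon (t j') (g a)) ∈ B.ring j)

def M_TLQ : Prop := S_TWA → S_TLQ

/-- TMD: the model of the twisted system exists. Proof. `TLG` for `g = id` gives `k`. Let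
`ι = Fin (B.N + 1) × Fin (B.N + 1) × A`, `ι' ⊆ ι` the `l = (i, j, a)` with `(i, j) ≠ (0, 0)`,
`L = card ι'`, `m = n + L`, `y_l = s_i / s_0 * (s_j / s_0)^k * (mon (t 0) a / mon (t j) a) ∈ F`, nonzero.
Coordinates `xh = Fin.append (tx (t 0) x) (fun q => algebraMap (y_(l q)))`, `l : Fin L ≃ ι'`, exponents
`eh l = Fin.append a (Pi.single q 1)` for `l = l q ∈ ι'` and `Fin.append a 0` for `l = (0, 0, a)`. Then
`mon xh (eh l) = tm B t k x A id l` (`Fin.prod_univ_add`; for `l = (0, 0, a)` the factor is `1`).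
The field generated over `ℂ` by the `xh` contains the `y_(i, 0, a)`, `i ≠ 0`, which are
`s_i / s_0`, so the image of `F` (`B.gen`), the `tx (t 0) x k` and the `x k`, so it is `K`
(`IntermediateField.adjoin F (Set.range x) = ⊤`; see the corresponding part of `RMM/RMOD.lean`).
`Full eh`: the set `G` of the `u` with a multiple `M • u`, `0 < M`, in the subgroup `H` generated by the
differences is a subgroup. `eh (i, j, a) - eh (0, 0, a) = Fin.append 0 (Pi.single q 1) ∈ H`; the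
differences `eh (0, 0, a) - eh (0, 0, a') = Fin.append (a - a') 0` are in `H`, and by the fourth part of
`t_FUL` the `Fin.append u 0` are in `G`. These generate. Then `TIM`. -/
def S_TMD : Prop := ∀ {F K : Type} [Field F] [Field K] [Algebra ℂ F] [Algebra ℂ K] [Algebra F K]
  [IsScalarTower ℂ F K] {e' n : ℕ} (B : ProjModel F) (t : Fin (B.N + 1) → Fin n → F)
  (x : Fin n → K), 0 < e' → Algebra.trdeg ℂ K = (e' : Cardinal) → (∀ j, x j ≠ 0) →
  IntermediateField.adjoin F (Set.range x) = ⊤ → IsTwist B t →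
  ∀ A : Finset (Fin n → ℤ), A.Nonempty →
  (∀ a ∈ A, ∃ b : Fin n → (Fin n → ℤ), (∀ l, b l ∈ A) ∧ LinearIndependent ℤ fun l => b l - a) →
  ∃ Y : ProjModel K, IsModT e' B t x A Y

def M_TMD : Prop := S_TWA → S_TIM → S_TLG → S_TMD

/-! ## the centre on `B` -/

/-- TCEN: the morphism from the model to `B`. Proof. `IsMod.pt` gives `l = (j1, j, a)`. Let `v` have the
centre `P ≤ m`, `0 ≤ v.ord (tm l' / tm l)` for all `l'`. Choose a chart `c` with `OnChart B v c` (`CHT`), and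
put `S_i = v.ord (algebraMap (s_i / s_c)) ≥ 0`. By `TLQ` for the chart `c` (denominator `(c, c, a)`)
`tm (j1, j, a) / tm (c, c, a)` is the image of
`s_j1 / s_c * ((s_j / s_c)^k * (mon (t c) a / mon (t j) a))`, and by the last part of `TLQ`
`(s_j / s_c)^k' * (mon (t c) a / mon (t j) a) ∈ B.ring c` has a nonnegative order for some `k' < k`, so
the order of the quotient is at least `S_j1 + (k - k') S_j ≥ 0`; as it is `≤ 0`, `S_j1 = S_j = 0`. So
`v.ord (s_i / s_j) = S_i ≥ 0` for all `i`, and `OnChart B v j` (`XHM`, third part), in the same way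
`OnChart B v j1`. For `a' ∈ A`: `tm (j1, j, a') / tm (j1, j, a) = mon x_j (a' - a)` has order
`≥ 0`: `MinAt A a (wt x_j v)` (`t_FUL`). The ideal `mB` and its properties: literally as in
`RMM/MCEN.lean` (with this `j`). `P.height = 1 →`: `IsMod.pt` gives `l' q = (i'', j'', a'')`; by `TLQ`
`tm (l' q) / tm l = algebraMap c * mon x_j (a'' - a)`,
`c = s_i'' / s_j1 * ((s_j'' / s_j)^k * (mon (t j) a'' / mon (t j'') a''))`; the last factor is in
`B.ring j`, `s_i'' / s_j1 = (s_i'' / s_j) / (s_j1 / s_j)` and `v.ord (s_j1 / s_j) = 0`: `InO B v c`.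
Converse: `l' q = (c q, j, b q)`: `tm (l' q) / tm l` is the given function (`TLQ`, the factor
`(s_j / s_j)^k * (… / …)` is `1`). -/
def S_TCEN : Prop := ∀ {F K : Type} [Field F] [Field K] [Algebra ℂ F] [Algebra ℂ K] [Algebra F K]
  [IsScalarTower ℂ F K] {e' n : ℕ} (B : ProjModel F) (t : Fin (B.N + 1) → Fin n → F)
  (x : Fin n → K) (A : Finset (Fin n → ℤ)) (Y : ProjModel K),
  Algebra.trdeg ℂ K = (e' : Cardinal) → (∀ j, x j ≠ 0) → IsTwist B t →
  IsModT e' B t x A Y → ∀ i (m : Ideal (Y.ring i)), m.IsMaximal →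
  ∃ (j j1 : Fin (B.N + 1)) (mB : Ideal (B.ring j)) (a : Fin n → ℤ), mB.IsMaximal ∧ a ∈ A ∧
    (∀ c : B.ring j, ∃ p q : Y.ring i, q ∉ m ∧ algebraMap F K c * q = p ∧ (p ∈ m ↔ c ∈ mB)) ∧
    ∀ (v : DivVal e' K) (P : Ideal (Y.ring i)), HasCentre (Y.ring i) v P → P ≤ m →
      Through B v j mB ∧ OnChart B v j1 ∧ MinAt A a (wt (tx (t j) x) v) ∧
      (P.height = 1 → ∃ (c : Fin (e' - 1) → F) (b : Fin (e' - 1) → (Fin n → ℤ)),
        (∀ l, b l ∈ A ∧ c l ≠ 0 ∧ InO B v (c l)) ∧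
        ResIndep v fun l => algebraMap F K (c l) * mon (tx (t j) x) (b l - a)) ∧
      ∀ (c : Fin (e' - 1) → Fin (B.N + 1)) (b : Fin (e' - 1) → (Fin n → ℤ)), (∀ l, b l ∈ A) →
        (ResIndep v fun l => algebraMap F K (B.s (c l) / B.s j1) *
          mon (tx (t j) x) (b l - a)) → P.height = 1

def M_TCEN : Prop := S_TWA → S_CHT → S_XHM → S_TLQ → S_TCEN

/-- TKEY: the discrepancies of the model. Proof. As `RMM/RKEY.lean` with `x_j = tx (t j) x`,
`f_j = tw (t j) f` at the valuation `v` (`RLogT.at_ v j`; `rpsi f_j = rpsi f`, `rmin f_j = rmin f`,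
`TWA`, `psi (fun i => supp0 (f i)) = rpsi f`, `RSUP`). `j`, `j1`, `mB`, `a` from `TCEN`.
`P.height = 1 → BIG B x_j v`: `TCEN` gives `c`, `b`; `InO B v (c l)` gives
`0 ≤ v.ord (algebraMap (c l))` (`c * q = p`, `v.ord q = 0`), `MinAt` gives
`0 ≤ pair (wt x_j v) (b l - a)`, and the sum is zero (`KEY.ord_of_resIndep`), so both are zero.
`BIG B x_j v → P.height = 1`: `RKEY.conv` (import `RMM/RKEY.lean`) for `x_j`, the chart `j1`
(`OnChart B v j1`) and `b` as in `RKEY` gives `c`, `b'` with `ResIndep` of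
`algebraMap (s_(c l) / s_j1) * mon x_j (b' l - a)`, and the last part of `TCEN`. -/
def S_TKEY : Prop := ∀ {F K : Type} [Field F] [Field K] [Algebra ℂ F] [Algebra ℂ K] [Algebra F K]
  [IsScalarTower ℂ F K] {e' n r : ℕ} (B : ProjModel F) (t : Fin (B.N + 1) → Fin n → F) (κ : ℕ)
  (β : DivVal e' K → ℤ) (f : Fin r → LR F n) (x : Fin n → K), 0 < e' →
  Algebra.trdeg ℂ K = (e' : Cardinal) → 0 < κ → (∀ j, x j ≠ 0) → IsTwist B t →
  ∀ (D : Fan fun i => supp0 (f i)) (ω : Forms e' K) (Y : ProjModel K),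
  RLogT B t κ β f x ω → IsModT e' B t x D.A Y → ∀ i (m : Ideal (Y.ring i)), m.IsMaximal →
  ∃ (j : Fin (B.N + 1)) (mB : Ideal (B.ring j)) (a : Fin n → ℤ), mB.IsMaximal ∧ a ∈ D.A ∧
    (∀ c : B.ring j, ∃ p q : Y.ring i, q ∉ m ∧ algebraMap F K c * q = p ∧ (p ∈ m ↔ c ∈ mB)) ∧
    ∀ (v : DivVal e' K) (P : Ideal (Y.ring i)), HasCentre (Y.ring i) v P → P ≤ m →
      Through B v j mB ∧ MinAt D.A a (wt (tx (t j) x) v) ∧
      0 ≤ D.k * (κ * v.formOrd ω - bo κ β (fun i => coefs (tw (t j) (f i))) v) +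
        κ * pair (wt (tx (t j) x) v) (D.u a) ∧
      (D.k * (κ * v.formOrd ω - bo κ β (fun i => coefs (tw (t j) (f i))) v) +
        κ * pair (wt (tx (t j) x) v) (D.u a) = 0 ↔ P.height = 1)

def M_TKEY : Prop := S_TWA → S_RSUP → S_RRES → S_TCEN → S_TKEY

/-! ## the data at the closed points -/

/-- The common hypotheses of the following statements. -/
structure DatT {F K : Type} [Field F] [Field K] [Algebra ℂ F] [Algebra ℂ K] [Algebra F K]
    {e' n r : ℕ} (B : ProjModel F) (t : Fin (B.N + 1) → Fin n → F) (κ : ℕ) (b : ℕ)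
    (y0 : Fin b → F) (β : DivVal e' K → ℤ) (f : Fin r → LR F n) (x : Fin n → K) : Prop where
  pos : 0 < e'
  dim : Algebra.trdeg ℂ K = (e' : Cardinal)
  ne : ∀ j, x j ≠ 0
  twist : IsTwist B t
  bpf : ∀ j i, BpfAt B j (coefs (tw (t j) (f i)))
  base : BaseData B b e' K κ y0 β

/-- TPT: the data at the closed points of the model. Proof. `TKEY` gives `j`, `mB`, `a`, `TEQ`
(`StS.lean`, proved) for `f_j` and the chart `j` gives `G` (`S` is the union of the sets `S0` over all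
`j`). As `RMM/RPT.lean`. -/
def S_TPT : Prop := ∀ {F K : Type} [Field F] [Field K] [Algebra ℂ F] [Algebra ℂ K] [Algebra F K]
  [IsScalarTower ℂ F K] {e' n r : ℕ} (B : ProjModel F) (t : Fin (B.N + 1) → Fin n → F) (κ : ℕ)
  (b : ℕ) (y0 : Fin b → F) (β : DivVal e' K → ℤ) (f : Fin r → LR F n) (x : Fin n → K),
  DatT B t κ b y0 β f x →
  ∀ (D : Fan fun i => supp0 (f i)) (ω : Forms e' K) (Y : ProjModel K), RLogT B t κ β f x ω →
  IsModT e' B t x D.A Y →
  ∃ S : Finset F, ∀ i (m : Ideal (Y.ring i)), m.IsMaximal →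
    ∃ (j : Fin (B.N + 1)) (mB : Ideal (B.ring j)) (a : Fin n → ℤ) (G : F), G ∈ S ∧
      IsPt B κ y0 (fun i => coefs (tw (t j) (f i))) (tx (t j) x) D.A D.k D.u ω Y i m j mB a G

def M_TPT : Prop := S_TWA → S_TKEY → S_TEQ → S_TPT

/-- TTER: the model has terminal singularities. Proof. As `RMM/RTER.lean`, with the equations
`g ^ (D.k κ) * eqq κ D.k x_j G (D.u a)` (`j`, `mB`, `a`, `G` from `TPT` at `m`). -/
def S_TTER : Prop := ∀ {F K : Type} [Field F] [Field K] [Algebra ℂ F] [Algebra ℂ K] [Algebra F K]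
  [IsScalarTower ℂ F K] {e' n r : ℕ} (B : ProjModel F) (t : Fin (B.N + 1) → Fin n → F) (κ : ℕ)
  (b : ℕ) (y0 : Fin b → F) (β : DivVal e' K → ℤ) (f : Fin r → LR F n) (x : Fin n → K),
  DatT B t κ b y0 β f x →
  ∀ (D : Fan fun i => supp0 (f i)) (ω : Forms e' K) (Y : ProjModel K), RLogT B t κ β f x ω →
  IsModT e' B t x D.A Y → Y.Terminal e'

def M_TTER : Prop := S_TWA → S_TPT → S_TTER

/-- TSEM: case (a), semiample. Proof. As `RMM/RSEM.lean`. For `a' ∈ D.A` let `k_a'`, `N_a'`, `h_(a', l)` be as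
in `SemC` for `dlogs y0` and the divisor `D.k K + D_a'`, `D_a' = adjT … D.k (D.u a')`; let `M0 = ∏ k_a'` and
replace `h_(a', l)` by its power with the exponent `M0 / k_a'`; so
`0 ≤ v.ord h + M0 (D.k v.formOrd (dlogs y0) + D_a' j v)`, with equality near `m` for some `l = l(m)`.
At a closed point `(j, mB)` of `B` let `G` be an equation of `κ (K_B + ∑ L_i)` (`IsPt.eqB`). By `LCM_holds`
for `B` the function `h^κ * G^(D.k M0) * mon (t j) ((κ M0) • u a')` is in the local ring at `mB`, and its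
inverse, too, for `l = l(mB)`. So for valuations `v` of `K` with `Through B v j mB`:
`0 ≤ κ v.ord h + D.k M0 v.ord G + κ M0 v.ord (mon (t j) (u a'))`, `= 0` for `l = l(mB)`.
With `M = D.k κ M0` the sections for `ω` are `algebraMap (h_(a', l))^κ * mon x ((κ M0) • D.u a')`,
`a' ∈ D.A`, `l` (a finite index set, `Fintype.equivFin`): for prime divisors `v` through `m`, `m` over
`(j, mB)`, `a`: order plus `M v.formOrd ω` is the sum of the above and of
`κ M0 (pair w (u a') - pair w (u a))`, `w = wt x_j v` (`IsPt.ctr`,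
`pair (wt x v) u = pair w u + v.ord (mon (t j) u)`, `TWA`), `≥ 0` by `FanA.nef`; `= 0` for `a' = a`,
`l = l(mB)`. For `ω'`: `t_CHW`. -/
def S_TSEM : Prop := ∀ {F K : Type} [Field F] [Field K] [Algebra ℂ F] [Algebra ℂ K] [Algebra F K]
  [IsScalarTower ℂ F K] {e' n r : ℕ} (B : ProjModel F) (t : Fin (B.N + 1) → Fin n → F) (κ : ℕ)
  (b : ℕ) (y0 : Fin b → F) (β : DivVal e' K → ℤ) (f : Fin r → LR F n) (x : Fin n → K),
  DatT B t κ b y0 β f x → ∀ D : FanA fun i => supp0 (f i),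
  (∀ a ∈ D.A, SemC B D.k (adjT b B t f Finset.univ D.k (D.u a))) →
  ∀ (ω : Forms e' K) (Y : ProjModel K), RLogT B t κ β f x ω →
  IsModT e' B t x D.A Y → Y.Semiample e'

def M_TSEM : Prop := S_TWA → S_TPT → S_TSEM

/-! ## curves -/

/-- TTRA: the composite curve, and functions with the same divisor. Proof. As `RMM/RTRA.lean`; only (5) is
different: for a prime divisor `(v, P)` of `B.ring (j w₀)` with `P ≤ ker φ` the proof there gives prime
divisors `(v, P1)`, `P1 ≤ mB w`, of `B.ring (j w)` and `(v, P2)`, `P2 ≤ mB w'`, of `B.ring (j w')`; so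
`v.ord G = v.ord G'` by hypothesis. -/
def S_TTRA : Prop := ∀ {F K : Type} [Field F] [Field K] [Algebra ℂ F] [Algebra ℂ K] [Algebra F K]
  [IsScalarTower ℂ F K] {b : ℕ} (B : ProjModel F) (Y : ProjModel K),
  Algebra.trdeg ℂ F = (b : Cardinal) → (∀ j (a : F), IsIntegral (B.ring j) a → a ∈ B.ring j) →
  ∀ (γ : CurveMap Y) (w₀ : DivVal 1 γ.L) (i : DivVal 1 γ.L → Fin (Y.N + 1))
    (m : ∀ w, Ideal (Y.ring (i w))) (j : DivVal 1 γ.L → Fin (B.N + 1))
    (mB : ∀ w, Ideal (B.ring (j w))),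
  (∀ w, γ.MapsTo w (i w) (m w)) → (∀ w, (mB w).IsMaximal) →
  (∀ w, ∀ c : B.ring (j w), ∃ p q : Y.ring (i w), q ∉ m w ∧ algebraMap F K c * q = p ∧
    (p ∈ m w ↔ c ∈ mB w)) →
  ∃ φ : B.ring (j w₀) →ₐ[ℂ] γ.L,
    (∀ c : B.ring (j w₀), γ.Restr (algebraMap F K c) (φ c)) ∧
    (∀ (h : ∃ a, φ a ∉ Set.range (algebraMap ℂ γ.L)) (w : DivVal 1 γ.L),
      (compCurve γ B (j w₀) φ h).MapsTo w (j w) (mB w)) ∧
    ∀ (w w' : DivVal 1 γ.L) (G G' : F), G ≠ 0 → G' ≠ 0 →
      (∀ (v : DivVal b F) (P : Ideal (B.ring (j w))) (P' : Ideal (B.ring (j w'))),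
        IsPrimeDivisor (B.ring (j w)) v P → P ≤ mB w →
        IsPrimeDivisor (B.ring (j w')) v P' → P' ≤ mB w' → v.ord G = v.ord G') →
      ∃ p q : B.ring (j w₀), φ p ≠ 0 ∧ φ q ≠ 0 ∧ G / G' * (q : F) = p

def M_TTRA : Prop := S_LOP → S_CHC → S_TTRA

/-- A local equation of `κ (k (K_B + ∑ L_i) + ⟨u, D⟩)`, if `G` is an equation of `κ (K_B + ∑ L_i)`. -/
def gT {F : Type} [Field F] {n : ℕ} (t : Fin n → F) (κ k : ℕ) (G : F) (u : Fin n → ℤ) : F :=
  G ^ k * mon t ((κ : ℤ) • u)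

/-- TCMQ: comparison of equations along a curve. Proof. As `RMM/RCMQ.lean` with
`E i m = g0 ^ (D.k κ) * eqq κ D.k x_j G (D.u a)`, `j`, `mB`, `a`, `G` from `TPT` (finitely many: `G ∈ S`,
`a ∈ D.A`, `j`). The quotient `E (i w) (m w) / E (i w₀) (m w₀)` is the function in the statement: with
`u0 = D.u (a w₀)`, `u_w = D.u (a w)`, `j = j w`, `j0 = j w₀`, `mon x_j0 (-κ u0) =
mon x (-κ u0) * mon (t j0) (κ u0)` (`TWA`), so the quotient is
`(G w / G w₀)^k * mon x (κ (u0 - u_w)) * mon (t j) (κ u_w) / mon (t j0) (κ u0)`, and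
`gT w / gT w₀ = (G w / G w₀)^k * mon (t j) (κ u0) / mon (t j0) (κ u0)`,
`mon x_j (κ (u0 - u_w)) = mon x (κ (u0 - u_w)) / mon (t j) (κ (u0 - u_w))`. -/
def S_TCMQ : Prop := ∀ {F K : Type} [Field F] [Field K] [Algebra ℂ F] [Algebra ℂ K] [Algebra F K]
  [IsScalarTower ℂ F K] {e' n r : ℕ} (B : ProjModel F) (t : Fin (B.N + 1) → Fin n → F) (κ : ℕ)
  (b : ℕ) (y0 : Fin b → F) (β : DivVal e' K → ℤ) (f : Fin r → LR F n) (x : Fin n → K),
  DatT B t κ b y0 β f x →
  ∀ (D : Fan fun i => supp0 (f i)) (ω : Forms e' K) (Y : ProjModel K), RLogT B t κ β f x ω →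
  IsModT e' B t x D.A Y → ∀ ω' : Forms e' K, ω' ≠ 0 → ∀ (γ : CurveMap Y) (k : ℕ)
    (h : K) (g : DivVal 1 γ.L → K) (u : DivVal 1 γ.L → γ.L), 0 < k → γ.Equations ω' k h g u →
  ∃ (w₀ : DivVal 1 γ.L) (i : DivVal 1 γ.L → Fin (Y.N + 1)) (m : ∀ w, Ideal (Y.ring (i w)))
    (j : DivVal 1 γ.L → Fin (B.N + 1)) (mB : ∀ w, Ideal (B.ring (j w)))
    (a : DivVal 1 γ.L → (Fin n → ℤ)) (G : DivVal 1 γ.L → F) (U : DivVal 1 γ.L → γ.L),
    (∀ w, γ.MapsTo w (i w) (m w)) ∧
    (∀ w, IsPt B κ y0 (fun i => coefs (tw (t (j w)) (f i))) (tx (t (j w)) x) D.A D.k D.u ω Y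
      (i w) (m w) (j w) (mB w) (a w) (G w)) ∧
    (∀ w, U w ≠ 0 ∧ γ.Restr (algebraMap F K (gT (t (j w)) κ D.k (G w) (D.u (a w₀)) /
        gT (t (j w₀)) κ D.k (G w₀) (D.u (a w₀))) *
      mon (tx (t (j w)) x) ((κ : ℤ) • (D.u (a w₀) - D.u (a w)))) (U w)) ∧
    {w : DivVal 1 γ.L | w.ord (u w) ≠ 0}.Finite ∧ {w : DivVal 1 γ.L | w.ord (U w) ≠ 0}.Finite ∧
    ((D.k * κ : ℕ) : ℤ) * ∑ᶠ w : DivVal 1 γ.L, w.ord (u w) =
      k * ∑ᶠ w : DivVal 1 γ.L, w.ord (U w)

def M_TCMQ : Prop := S_TWA → S_TPT → S_TCMQ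

/-- TGT: the divisor of `gT`. Proof. `v.ord G = κ (v.formOrd ω + adj … v)`, so
`v.ord (gT …) = κ (k v.formOrd ω + k adj … v + v.ord (mon (t j) u))`; on the intersection of two charts
`adjT` is the same by `TCA`. -/
def S_TGT : Prop := ∀ {F : Type} [Field F] [Algebra ℂ F] {b n r : ℕ} (B : ProjModel F)
  (t : Fin (B.N + 1) → Fin n → F), IsTwist B t → ∀ (f : Fin r → LR F n) (κ k : ℕ)
  (u : Fin n → ℤ) (ω : Forms b F) (j j' : Fin (B.N + 1)) (m : Ideal (B.ring j))
  (m' : Ideal (B.ring j')) (G G' : F), G ≠ 0 → G' ≠ 0 →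
  IsEqD (B.ring j) ω (adj (fun i => coefs (tw (t j) (f i))) Finset.univ) κ m G →
  IsEqD (B.ring j') ω (adj (fun i => coefs (tw (t j') (f i))) Finset.univ) κ m' G' →
  gT (t j) κ k G u ≠ 0 ∧ IsEqC B k (adjT b B t f Finset.univ k u) ω κ j m (gT (t j) κ k G u) ∧
  ∀ (v : DivVal b F) (P : Ideal (B.ring j)) (P' : Ideal (B.ring j')),
    IsPrimeDivisor (B.ring j) v P → P ≤ m → IsPrimeDivisor (B.ring j') v P' → P' ≤ m' →
    v.ord (gT (t j) κ k G u) = v.ord (gT (t j') κ k G' u)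

def M_TGT : Prop := S_TCA → S_TGT

/-- TNEF: case (a), nef. Proof. As `RMM/RNEF.lean`. `TCMQ`. Let `u0 = D.u (a w₀)`, `g w = gT (t (j w)) κ D.k
(G w) u0`, `T_w = mon x_(j w) (κ • (u0 - u (a w)))`. By `FanA.nef` and `LCM_holds` (prime divisors `v` with
the centre `P ≤ m w` satisfy `MinAt D.A (a w) (wt x_(j w) v)`) `T_w` is regular at `m w`, so it has a
restriction `t_w`, `w.Ge 0 t_w` (`RGW_holds`). `TTRA` for `G = g w`, `G' = g w₀` and `TGT`:
`g w / g w₀ * q = p`, so `α_w = φ p / φ q ≠ 0` is the restriction of `algebraMap (g w / g w₀)`, and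
`U w = α_w * t_w` (uniqueness of restrictions), so `t_w ≠ 0`, `0 ≤ w.ord t_w`. If some `φ a` is not
constant: the hypothesis `NefC` for `a w₀`, `compCurve`, `ω = dlogs y0`, `k = κ`, `h = g w₀`, `u = α`
(`EqnsC.eqn` by `TGT`) gives `0 ≤ ∑ w.ord α_w` and finiteness. Otherwise `φ p`, `φ q` are constants and
`w.ord α_w = 0`. The end as there. -/
def S_TNEF : Prop := ∀ {F K : Type} [Field F] [Field K] [Algebra ℂ F] [Algebra ℂ K] [Algebra F K]
  [IsScalarTower ℂ F K] {e' n r : ℕ} (B : ProjModel F) (t : Fin (B.N + 1) → Fin n → F) (κ : ℕ)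
  (b : ℕ) (y0 : Fin b → F) (β : DivVal e' K → ℤ) (f : Fin r → LR F n) (x : Fin n → K),
  DatT B t κ b y0 β f x → ∀ D : FanA fun i => supp0 (f i),
  (∀ a ∈ D.A, NefC B D.k (adjT b B t f Finset.univ D.k (D.u a))) →
  ∀ (ω : Forms e' K) (Y : ProjModel K), RLogT B t κ β f x ω →
  IsModT e' B t x D.A Y → Y.Nef e'

def M_TNEF : Prop := S_TWA → S_TGT → S_TCMQ → S_TTRA → S_TNEF

/-! ## the Mori fibre space -/

/-- TFBM: the morphism. Proof. As `RMM/RFBM.lean`, the index set is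
`Fin (B.N + 1) × Fin (B.N + 1) × D.A`, the functions are `tm B t k x D.A D.b`, `k` from `TLG` for `D.b`.
By `TLQ` the quotients are `algebraMap c * mon x_j (b a' - b a)`, and
`mon x_j u = mon x u / algebraMap (mon (t j) u)`, so they are in `Fb`. The last part: take
`l' = (j, j, a)` with `j`, `a` from `TPT`; by `TLQ`
`tm (i', j', a') / tm (j, j, a) = algebraMap c * mon x_j (b a' - b a)`, `c ∈ B.ring j`; `LCM_holds`:
`OnChart B v j`, `MinAt D.A a (wt x_j v)`, `FanB.nef`. -/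
def S_TFBM : Prop := ∀ {F K : Type} [Field F] [Field K] [Algebra ℂ F] [Algebra ℂ K] [Algebra F K]
  [IsScalarTower ℂ F K] {e' n r : ℕ} (B : ProjModel F) (t : Fin (B.N + 1) → Fin n → F) (κ : ℕ)
  (b : ℕ) (y0 : Fin b → F) (β : DivVal e' K → ℤ) (f : Fin r → LR F n) (x : Fin n → K),
  DatT B t κ b y0 β f x →
  ∀ (D : FanB fun i => supp0 (f i)) (ω : Forms e' K) (Y : ProjModel K), RLogT B t κ β f x ω →
  IsModT e' B t x D.A Y →
  Algebra.trdeg ℂ (Fb (F := F) x D.A D.b) < (e' : Cardinal) →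
  ∃ k : ℕ, Large B t k D.A D.b ∧
  ∃ (M : ℕ) (τ : Fin (M + 1) → K), (∀ l, ∃ l', τ l = tm B t k x D.A D.b l') ∧
    (∀ l', ∃ l, τ l = tm B t k x D.A D.b l') ∧
    Algebra.trdeg ℂ (IntermediateField.adjoin ℂ (Set.range fun l => τ l / τ 0)) <
      (e' : Cardinal) ∧
    ∀ i (m : Ideal (Y.ring i)), m.IsMaximal → ∃ l', ∀ l, ∃ p q : Y.ring i, q ∉ m ∧
      τ l / τ l' * q = p

def M_TFBM : Prop := S_TWA → S_TLG → S_TLQ → S_TPT → S_TFBM

/-- TFBN: the canonical divisor is negative on the curves in the fibres. Proof. As `RMM/RFBN.lean` and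
`t_FBN` (`MMCI/FBN.lean`). `T(l) = tm B t k x D.A D.b l`. Let `T(is, js, as)` be the coordinate of
`InFibre`: all `T(l) / T(is, js, as)` restrict to constants `c_l`. (1) For `l = (i, js, as)` this is
`s_i / s_is`: so all `s_i / s_is` restrict to constants `c_i`. `TCMQ`, `TTRA` as in `TNEF`. For every `w`
the function `s_is / s_(j w) ∈ B.ring (j w)` has a restriction (`IsPt.res`, `RGW_holds`), so
`c_(j w) ≠ 0` and the `s_i / s_(j w)` restrict to constants. So `φ` has constant values (`B.ring (j w₀)` is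
generated by the `s_i / s_(j w₀)`), and `α_w` (the restriction of `gT w / gT w₀`, by `TTRA` and `TGT`) is
a nonzero constant: `w.ord α_w = 0`. (2) Let `l_w = (j w, j w, a w)`. `T(is, js, as) / T(l_w)` is regular at
`m w` (`TLQ`, `FanB.nef`, `LCM_holds` as in `TFBM`), so it has a restriction, and its product with
`T(l_w) / T(is, js, as)` is `1`, so `c_(l_w) ≠ 0`. (3) Let `a0 = a w₀`, `j0 = j w₀`, `j = j w`.
`T(j, j, a0) / T(j0, j0, a0)` is the image of `G = s_j / s_j0 * ((s_j / s_j0)^k * (mon (t j0) (b a0) /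
mon (t j) (b a0)))` (`TLQ`); `TTRA` for `w`, `w₀` and the functions
`G1 = (s_j / s_j0)^(k+1) * mon (t j0) (b a0)`, `G1' = mon (t j) (b a0)`, which have the same order at all
prime divisors on both charts (`TCO` for `K = F`), so `G = G1 / G1'` restricts to `φ p / φ q`, a nonzero
constant. So `T(j, j, a0) / T(is, js, as)` restricts to a nonzero constant, and so does the quotient
`mon x_j (b a0 - b (a w)) = T(j, j, a0) / T(j, j, a w)`. This function is regular at `m w` (`FanB.nef`),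
`= p / q`, `q ∉ m w`, and `p ∉ m w` (otherwise `w.Ge 1` of the restriction, `RGW_holds`), so
`pair (wt x_j v) (b a0) = pair (wt x_j v) (b (a w))` for all `v` with the centre `P ≤ m w`. (4) `FanB.pos`:
`pair (wt x_j v) (u a0) ≤ pair (wt x_j v) (u (a w))`, with equality only if `MinAt D.A a0 (wt x_j v)`.
So the inverse of `T_w = mon x_j (κ • (u a0 - u (a w)))` is regular at `m w`, and
`U w = α_w t_w`, `w.ord (U w) = w.ord t_w ≤ 0`. (5) If all are zero then the inverse of `T_w` is a unit at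
`m w`, so there is equality and `MinAt D.A a0 (wt x_(j w) v)` for all `w` and all `v` through `m w`. For
`a' ∈ D.A` the function `mon x_j (a' - a0)` is regular at `m w` for all `w`; and
`mon x_j0 (a' - a0) = mon x_j (a' - a0) * algebraMap (mon (t j) u / mon (t j0) u)`, `u = a' - a0`, where
the last factor restricts to a nonzero constant (`TTRA` for `G = mon (t j) u`, `G' = mon (t j0) u`, `TCO`);
so the restriction `ρ` of `mon x_j0 (a' - a0)` (it exists: regular at `m w₀`) satisfies `w.Ge 0 ρ` for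
all `w`, so it is constant (as in `t_FBN`, `PRF_holds`). By `TLQ` for the `k'` and `g = id` of `IsModT`
all `tm B t k' x D.A id l / tm B t k' x D.A id (j0, j0, a0)` are products of elements of
`algebraMap (B.ring j0)` and of the `mon x_j0 (a' - a0)`, so they restrict to constants, in
contradiction to `IsMod.fin`. -/
def S_TFBN : Prop := ∀ {F K : Type} [Field F] [Field K] [Algebra ℂ F] [Algebra ℂ K] [Algebra F K]
  [IsScalarTower ℂ F K] {e' n r : ℕ} (B : ProjModel F) (t : Fin (B.N + 1) → Fin n → F) (κ : ℕ)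
  (b : ℕ) (y0 : Fin b → F) (β : DivVal e' K → ℤ) (f : Fin r → LR F n) (x : Fin n → K),
  DatT B t κ b y0 β f x →
  ∀ (D : FanB fun i => supp0 (f i)) (ω : Forms e' K) (Y : ProjModel K), RLogT B t κ β f x ω →
  IsModT e' B t x D.A Y →
  ∀ (kb : ℕ), Large B t kb D.A D.b →
  ∀ (M : ℕ) (τ : Fin (M + 1) → K), (∀ l, ∃ l', τ l = tm B t kb x D.A D.b l') →
    (∀ l', ∃ l, τ l = tm B t kb x D.A D.b l') →
  ∀ ω' : Forms e' K, ω' ≠ 0 → ∀ γ : CurveMap Y, γ.InFibre τ → ∀ (k : ℕ) (h : K)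
    (g : DivVal 1 γ.L → K) (u : DivVal 1 γ.L → γ.L), 0 < k → γ.Equations ω' k h g u →
    {w : DivVal 1 γ.L | w.ord (u w) ≠ 0}.Finite ∧ ∑ᶠ w : DivVal 1 γ.L, w.ord (u w) < 0

def M_TFBN : Prop := S_TWA → S_TCO → S_TLQ → S_TGT → S_TCMQ → S_TTRA → S_TFBN

/-- TFIB: the Mori fibre space. Proof. As `t_RFIB` (`RMM/AsmC.lean`): `TFBM`, `TFBN`; the functions are
not zero by `TLQ`. -/
def S_TFIB : Prop := ∀ {F K : Type} [Field F] [Field K] [Algebra ℂ F] [Algebra ℂ K] [Algebra F K]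
  [IsScalarTower ℂ F K] {e' n r : ℕ} (B : ProjModel F) (t : Fin (B.N + 1) → Fin n → F) (κ : ℕ)
  (b : ℕ) (y0 : Fin b → F) (β : DivVal e' K → ℤ) (f : Fin r → LR F n) (x : Fin n → K),
  DatT B t κ b y0 β f x →
  ∀ (D : FanB fun i => supp0 (f i)) (ω : Forms e' K) (Y : ProjModel K), RLogT B t κ β f x ω →
  IsModT e' B t x D.A Y →
  Algebra.trdeg ℂ (Fb (F := F) x D.A D.b) < (e' : Cardinal) → Y.MoriFibre e'

def M_TFIB : Prop := S_TLQ → S_TFBM → S_TFBN → S_TFIB

end

end RMT
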