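import Pool.Agent.RMT.StR

/-!
# Torus bundles, block V: sums of nef and of semiample divisors on `B`. Statements.

The hypothesis (N) (`HypN`) follows from the nefness of `K_B` and of the divisors `L_i + ⟨a, D⟩`, `a` an
exponent of `f_i`. The divisor `L_i + ⟨a, D⟩` is `adjT b B t f {i} 1 a`; `NefC B 0 E` says that the divisor
`E` is nef, `NefC B 1 0` that `K_B` is nef.
-/

set_option autoImplicit false

namespace RMT

open MldGeo MMCI RMM

noncomputable section

/-- TFK: Farkas. Proof. Over `ℚ`: the vectors `(e_i, a) ∈ ℚ^r × ℚ^n`, `i ∈ I`, `a` an exponent of `f_i`,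
and the target `(k0 1_I, p)`. If the target is not in the cone generated by these finitely many vectors,
there is a linear form `(y, ν)` with `y_i + ⟨ν, a⟩ ≥ 0` for all `i ∈ I`, `a`, and
`k0 ∑_{i ∈ I} y_i + ⟨ν, p⟩ < 0` (`Pool.Agent.TD.farkas_field`, `TD/Y/Cone.lean`; see `MMCI/F_FRK.lean`,
or `farkas_field` in `MMCI/F_GOR.lean`); multiply with a common denominator, so `ν` and `y` are
integral. Then `rmin (f i) ν ≥ - y_i` (the set of exponents is finite and not empty) and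
`k0 ∑_{i ∈ I} rmin (f i) ν ≥ - k0 ∑ y_i > pair ν p`, a contradiction. So the target is
`∑ λ_(i,a) (e_i, a)` with rational `λ ≥ 0`; `M` is a common denominator, `c i a = M λ_(i,a)`. -/
def S_TFK : Prop := ∀ {F : Type} [Field F] {n r : ℕ} (f : Fin r → LR F n), (∀ i, f i ≠ 0) →
  ∀ (I : Finset (Fin r)) (k0 : ℕ) (p : Fin n → ℤ), 0 < k0 → InSum f I k0 p →
  ∃ (M : ℕ) (c : Fin r → (Fin n → ℤ) → ℕ), 0 < M ∧
    (∀ i ∈ I, ∑ a ∈ (f i).coeff.support, c i a = M * k0) ∧
    ∑ i ∈ I, ∑ a ∈ (f i).coeff.support, (c i a : ℤ) • a = (M : ℤ) • p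

/-- TNSC: multiples. Proof. Nef, `→`: if `g`, `h`, `u` are equations of `k (k0 K + D)` then `g^M`, `h^M`,
`u^M` are equations of `k (M k0 K + M D)` (`t_RSU`: powers of restrictions), and
`∑ w.ord (u w ^ M) = M ∑ w.ord (u w)`. `←`: the equations of `k (M k0 K + M D)` are equations of
`(k M) (k0 K + D)`. Semiample, `→`: replace `k` by `k M`. `←`: take the powers `h_l ^ M`. -/
def S_TNSC : Prop := ∀ {F : Type} [Field F] [Algebra ℂ F] {b : ℕ} (B : ProjModel F) (k0 M : ℕ)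
  (D : Fin (B.N + 1) → DivVal b F → ℤ), 0 < M →
  (NefC B (M * k0) (fun j v => M * D j v) ↔ NefC B k0 D) ∧
  (SemC B (M * k0) (fun j v => M * D j v) ↔ SemC B k0 D)

/-- TADD: the sum of a nef divisor and of a nef Cartier divisor `E` is nef. The first hypothesis on `E`:
the coefficients are the same on the intersections of the charts. Proof. Let
`H : EqnsC γ k0 (D + E) ω k h g u`; if there is no `w` everything is trivial, fix `w0`. Let
`(j_w, m_w)` be the chart and the point of `H.eqn w`, `ε_w` a local equation of `E` there. Let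
`Q = ker γ.φ` in `R = B.ring γ.i`, `ρ_w = s_(j_w) / s_(γ.i) ∈ R`. Its inverse is in `B.ring (j_w)`, so it
has a restriction to the curve (`MapsTo`), and `ρ_w ∉ Q`. Let `(v, P)` be a prime divisor of `R` with
`P ≤ Q`: `v.ord ρ_w = 0`, by `CHC` `v` is a prime divisor of `B.ring (j_w)` with some `P'`, and
`P' ≤ m_w` (step (5) in the proof of `S_RTRA`, `RMM/StC.lean`, `RMM/RTRA.lean`: if `c ∈ P'` then, for
large `d`, `c ρ_w^d ∈ P ≤ Q` (`t_LOV`), so the restriction of `c` is zero and `c ∈ m_w` by `MapsTo`). So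
`v.ord ε_w = E (j_w) v = E γ.i v`, the same for `w0`, and `v.ord (ε_w / ε_w0) = 0`. By `LOP` for
`ε_w / ε_w0` and its inverse (step (6) there) `ε_w / ε_w0 * q = p`, `p, q ∈ R \ Q`, so
`α_w = φ p / φ q ≠ 0` is the restriction of `ε_w / ε_w0`. Now `g w / ε_w^k`, `h / ε_w0^k`,
`u w / α_w^k` satisfy `EqnsC γ k0 D ω k`, and `ε_w^k`, `ε_w0^k`, `α_w^k` satisfy `EqnsC γ 0 E ω k`.
`w.ord (u w) = w.ord (u w / α_w^k) + w.ord (α_w^k)`: add the two finite sums
(`finsum_add_distrib`). -/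
def S_TADD : Prop := ∀ {F : Type} [Field F] [Algebra ℂ F] {b : ℕ} (B : ProjModel F),
  Algebra.trdeg ℂ F = (b : Cardinal) → (∀ j (a : F), IsIntegral (B.ring j) a → a ∈ B.ring j) →
  ∀ (k0 : ℕ) (D E : Fin (B.N + 1) → DivVal b F → ℤ),
  (∀ (j j' : Fin (B.N + 1)) (v : DivVal b F) (P : Ideal (B.ring j)),
    IsPrimeDivisor (B.ring j) v P → v.ord (B.s j' / B.s j) = 0 → E j v = E j' v) →
  (∀ (j : Fin (B.N + 1)) (m : Ideal (B.ring j)), m.IsMaximal → ∃ ε : F, ε ≠ 0 ∧
    ∀ (v : DivVal b F) (P : Ideal (B.ring j)), IsPrimeDivisor (B.ring j) v P → P ≤ m →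
      v.ord ε = E j v) →
  NefC B k0 D → NefC B 0 E → NefC B k0 fun j v => D j v + E j v

def M_TADD : Prop := S_LOP → S_CHC → S_TADD

/-- TSAD: the sum of semiample divisors. Proof. `h1 q`, `k1` and `h2 q'`, `k2` for `ω`; take `k = k1 k2`
and the products `h1 q ^ k2 * h2 q' ^ k1` (`Fintype.equivFin` of the product of the index sets). -/
def S_TSAD : Prop := ∀ {F : Type} [Field F] [Algebra ℂ F] {b : ℕ} (B : ProjModel F) (k0 : ℕ)
  (D E : Fin (B.N + 1) → DivVal b F → ℤ), SemC B k0 D → SemC B 0 E →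
  SemC B k0 fun j v => D j v + E j v

/-- TLE: the divisors `E = adjT b B t f {i} 1 a = L_i + ⟨a, D⟩`, and the sums. Proof. (1) Let `(v, P)` be a
prime divisor on the chart `j` with `v.ord (s_j' / s_j) = 0`. By `IsTwist.unit`
`v.ord (t j' k / t j k) ≥ 0` and `v.ord (t j k / t j' k) ≥ 0` (elements of `B.ring j` have order `≥ 0`),
so `v.ord (t j k) = v.ord (t j' k)`, so the coefficients `f_a * mon (t j) a` and `f_a * mon (t j') a` have
the same order, `cmin v (coefs (tw (t j) (f i))) = cmin v (coefs (tw (t j') (f i)))` and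
`v.ord (mon (t j) a) = v.ord (mon (t j') a)`. (2) `ε = c⁻¹ * mon (t j) a`, `c` from `TEQ`-type argument:
`BpfAt` gives `c` with `c' / c` in the local ring at `m` for all coefficients `c'`, so `v.ord c` is the
least one for all prime divisors through `m` (as in `S_TEQ`, `S_RBAS`). (3)
`cmin` does not depend on `a`; `∑_a c i a = M k0`; `v.ord (mon (t j) ·)` is additive. -/
def S_TLE : Prop := ∀ {F : Type} [Field F] [Algebra ℂ F] {b n r : ℕ} (B : ProjModel F)
  (t : Fin (B.N + 1) → Fin n → F) (f : Fin r → LR F n), IsTwist B t → (∀ i, f i ≠ 0) →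
  (∀ j i, BpfAt B j (coefs (tw (t j) (f i)))) →
  (∀ i a, (∀ (j j' : Fin (B.N + 1)) (v : DivVal b F) (P : Ideal (B.ring j)),
      IsPrimeDivisor (B.ring j) v P → v.ord (B.s j' / B.s j) = 0 →
      adjT b B t f {i} 1 a j v = adjT b B t f {i} 1 a j' v) ∧
    ∀ (j : Fin (B.N + 1)) (m : Ideal (B.ring j)), m.IsMaximal → ∃ ε : F, ε ≠ 0 ∧
      ∀ (v : DivVal b F) (P : Ideal (B.ring j)), IsPrimeDivisor (B.ring j) v P → P ≤ m →
        v.ord ε = adjT b B t f {i} 1 a j v) ∧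
  ∀ (I : Finset (Fin r)) (k0 M : ℕ) (p : Fin n → ℤ) (c : Fin r → (Fin n → ℤ) → ℕ),
    (∀ i ∈ I, ∑ a ∈ (f i).coeff.support, c i a = M * k0) →
    ∑ i ∈ I, ∑ a ∈ (f i).coeff.support, (c i a : ℤ) • a = (M : ℤ) • p →
    ∀ j v, ∑ i ∈ I, ∑ a ∈ (f i).coeff.support, (c i a : ℤ) * adjT b B t f {i} 1 a j v =
      M * adjT b B t f I k0 p j v

def M_TLE : Prop := S_TWB → S_TLE

/-- TCVX: `K_B` and the `L_i + ⟨a, D⟩` nef implies (N). Proof. Let `0 < k0`, `InSum f I k0 p`; `M`, `c` from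
`TFK`. `NefC B (M k0) 0` by `TNSC` from `NefC B 1 0`. Add `c i a` times the divisor
`adjT b B t f {i} 1 a` for all `i ∈ I` and all exponents `a` (`TADD`, `TLE`; `Finset.induction`, and
induction on the multiplicity): `NefC B (M k0) (∑ c i a E_(i,a))`. By `TLE` this is
`NefC B (M k0) (M adjT b B t f I k0 p)`, and `TNSC`. -/
def S_TCVX : Prop := ∀ {F : Type} [Field F] [Algebra ℂ F] {b n r : ℕ} (B : ProjModel F)
  (t : Fin (B.N + 1) → Fin n → F) (f : Fin r → LR F n), Algebra.trdeg ℂ F = (b : Cardinal) →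
  (∀ j (a : F), IsIntegral (B.ring j) a → a ∈ B.ring j) → IsTwist B t → (∀ i, f i ≠ 0) →
  (∀ j i, BpfAt B j (coefs (tw (t j) (f i)))) →
  NefC (b := b) B 1 (fun _ _ => 0) →
  (∀ i, ∀ a ∈ (f i).coeff.support, NefC B 0 (adjT b B t f {i} 1 a)) → HypN b B t f

def M_TCVX : Prop := S_TFK → S_TNSC → S_TADD → S_TLE → S_TCVX

/-- TCVS: the same for semiample divisors. -/
def S_TCVS : Prop := ∀ {F : Type} [Field F] [Algebra ℂ F] {b n r : ℕ} (B : ProjModel F)
  (t : Fin (B.N + 1) → Fin n → F) (f : Fin r → LR F n), IsTwist B t → (∀ i, f i ≠ 0) →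
  (∀ j i, BpfAt B j (coefs (tw (t j) (f i)))) →
  SemC (b := b) B 1 (fun _ _ => 0) →
  (∀ i, ∀ a ∈ (f i).coeff.support, SemC B 0 (adjT b B t f {i} 1 a)) → HypS b B t f

def M_TCVS : Prop := S_TFK → S_TNSC → S_TSAD → S_TLE → S_TCVS

end

end RMT
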