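import Pool.Agent.RMT.St1
import Pool.Agent.RMT.StV
import Pool.Agent.RMT.DefsT
import Pool.Agent.RMM.BridgeR

/-!
# Torus bundles: the induction, the case of a nonempty Fine interior, and the comparison with the final
definitions. Statements.
-/

set_option autoImplicit false

namespace RMT

open MldGeo MMCI RMM

noncomputable section

/-! ### the main statements -/

/-- TMAIN: by strong induction on `n`. Proof. As `RMM/RMAIN.lean` (for all `n`, `r`, `t`, `f`, `x` at the same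
time). `n = 0`: `FanA` from `RFN`; otherwise `S_FAN` for `supp0 (f i)` (`RSP`). `TLOG` gives `ω`.
`DatT` from `RSysT` and `BaseData`. `FanA`: `TMD`, `TTER`, `TNEF`, `TSEM` (their hypotheses for
`a ∈ D.A` by `HypN`, `HypS` for `I = Finset.univ`, `k0 = D.k`, `p = D.u a` and the second part of `TUF`).
`FanB`: `trdeg (Fb x D.A D.b) ≤ b + e`; if `<` then `TMD`, `TTER`, `TFIB`; if `=` then `TRED` and the
induction hypothesis, `HypN` and `HypS` are inherited by `TNH`. -/
def S_TMAIN : Prop := ∀ {F K : Type} [Field F] [Field K] [Algebra ℂ F] [Algebra ℂ K] [Algebra F K]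
  [IsScalarTower ℂ F K] {b e n r : ℕ} (B : ProjModel F) (κ : ℕ) (y0 : Fin b → F)
  (β : DivVal (b + e) K → ℤ) (t : Fin (B.N + 1) → Fin n → F) (f : Fin r → LR F n)
  (x : Fin n → K), 0 < b + e → Algebra.trdeg ℂ K = ((b + e : ℕ) : Cardinal) →
  BaseData B b (b + e) K κ y0 β → RSysT B t e κ y0 β f x → HypN b B t f →
  MMR (b + e) K (HypS b B t f)

def M_TMAIN : Prop := S_FAN → S_RFN → S_RSP → S_TLOG → S_TMD → S_TTER → S_TSEM → S_TNEF →
  S_TFIB → S_TRED → S_TUF → S_TNH → S_TMAIN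

/-- TFAA: the case of a nonempty Fine interior. Proof. As `RMM/RFAA.lean`. `n = 0`: `FanA` from `RFN`;
otherwise `S_FAA` for `supp0 (f i)`. Then `TLOG`, `TMD`, `TTER`, `TNEF`, `TSEM` as in `TMAIN`, with the
first part of `TUF`. -/
def S_TFAA : Prop := ∀ {F K : Type} [Field F] [Field K] [Algebra ℂ F] [Algebra ℂ K] [Algebra F K]
  [IsScalarTower ℂ F K] {b e n r : ℕ} (B : ProjModel F) (κ : ℕ) (y0 : Fin b → F)
  (β : DivVal (b + e) K → ℤ) (t : Fin (B.N + 1) → Fin n → F) (f : Fin r → LR F n)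
  (x : Fin n → K), 0 < b + e → Algebra.trdeg ℂ K = ((b + e : ℕ) : Cardinal) →
  BaseData B b (b + e) K κ y0 β → RSysT B t e κ y0 β f x →
  ¬ FineEmpty (fun i => supp0 (f i)) →
  (∀ (k0 : ℕ) (p : Fin n → ℤ), 0 < k0 → InFine f k0 p →
    NefC B k0 (adjT b B t f Finset.univ k0 p)) →
  ∃ Y : ProjModel K, Y.Terminal (b + e) ∧ Y.Nef (b + e) ∧
    ((∀ (k0 : ℕ) (p : Fin n → ℤ), 0 < k0 → InFine f k0 p →
      SemC B k0 (adjT b B t f Finset.univ k0 p)) → Y.Semiample (b + e))

def M_TFAA : Prop := S_FAA → S_RFN → S_RSP → S_TLOG → S_TMD → S_TTER → S_TSEM → S_TNEF →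
  S_TUF → S_TFAA

/-! ### comparison with the final definitions (`DefsT.lean`) -/

/-- TWI: bundles. Proof. Every element `a` of `RMX.overlap B j j'`, the algebra generated by `B.ring j` and
`s_j / s_j'`, satisfies `a * (s_j' / s_j)^d ∈ B.ring j` for some `d` (`Algebra.adjoin_induction`; for sums
take the maximum, `s_j' / s_j ∈ B.ring j`), hence for all larger `d`; take the maximum over `j`, `j'`,
`k` and the two quotients. -/
def S_TWI : Prop := ∀ {F : Type} [Field F] [Algebra ℂ F] {n : ℕ} (B : ProjModel F)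
  (t : Fin (B.N + 1) → Fin n → F), RMX.IsBundle B t → IsTwist B t

/-- TBN: nef divisors. (`polyT = tw`, definitionally; `RMX.evR`, `LaurentR` are `rev`, `LR`.) Proof.
`divOrdT (ev ω) (t j) f c l p (ofOld v) = c * v.formOrd ω + D j v` with the `D` of the statement, as
`RMX.adjOrd_eq` (`RMM/BridgeR.lean`); then as `RMX.adjNef_to`, `RMX.adjSemiample_to`. -/
def S_TBN : Prop := ∀ {F : Type} [Field F] [Algebra ℂ F] {b n r : ℕ} (B : ProjModel F)
  (t : Fin (B.N + 1) → Fin n → F) (f : Fin r → LR F n), Algebra.trdeg ℂ F = (b : Cardinal) →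
  (∀ j k, t j k ≠ 0) → ∀ (c : ℕ) (l : Fin r → ℕ) (p : Fin n → ℤ),
  (RMX.NefT b B t f c l p → NefC B c fun j (v : DivVal b F) =>
    v.ord (mon (t j) p) - ∑ i, l i * cmin v (coefs (tw (t j) (f i)))) ∧
  (RMX.SemiampleT b B t f c l p → SemC B c fun j (v : DivVal b F) =>
    v.ord (mon (t j) p) - ∑ i, l i * cmin v (coefs (tw (t j) (f i))))

/-- TBD: the divisors in `TBN` and `adjT`. Proof. `adj C I v = - ∑ i ∈ I, cmin v (C i)`; for
`l = Pi.single i 1` and `I = {i}` both sums are `cmin v (C i)`. The last two: the canonical divisor. -/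
def S_TBD : Prop := ∀ {F : Type} [Field F] [Algebra ℂ F] {b n r : ℕ} (B : ProjModel F)
  (t : Fin (B.N + 1) → Fin n → F) (f : Fin r → LR F n),
  (∀ (k : ℕ) (p : Fin n → ℤ), (fun j (v : DivVal b F) => v.ord (mon (t j) p) -
      ∑ i, (((fun _ => k) : Fin r → ℕ) i : ℤ) * cmin v (coefs (tw (t j) (f i)))) =
    adjT b B t f Finset.univ k p) ∧
  (∀ (i : Fin r) (a : Fin n → ℤ), (fun j (v : DivVal b F) => v.ord (mon (t j) a) -
      ∑ i', ((Pi.single i 1 : Fin r → ℕ) i' : ℤ) * cmin v (coefs (tw (t j) (f i')))) =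
    adjT b B t f {i} 1 a) ∧
  (B.Nef b → NefC (b := b) B 1 fun _ _ => 0) ∧
  (B.Semiample b → SemC (b := b) B 1 fun _ _ => 0)

/-- TBF: the final class. Proof. `IsTwist` by `TWI`. `IsRelAt` for `(f_j, x_j)`: as `RMX.isFamily_to`
(`RMM/BridgeR.lean`); `f_ne`, `ne`, `gen`, `zero` by `TWB`; `polyT = tw`, `coordT = tx`, `evR = rev`,
`NondegenerateR = NondegT`, `GeneratesOver (R := B.ring j) = GenAt B j`, `zRing = zring` are definitional
equalities; `RMX.terminal_to`, `isTerminal_to`. -/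
def S_TBF : Prop := ∀ {F K : Type} [Field F] [Field K] [Algebra ℂ F] [Algebra ℂ K] [Algebra F K]
  [IsScalarTower ℂ F K] {b e n r : ℕ} (B : ProjModel F) (t : Fin (B.N + 1) → Fin n → F)
  (f : Fin r → RMX.LaurentR F n) (x : Fin n → K), RMX.IsFamilyT b e B t f x →
  IsTwist B t ∧ ∀ j, IsRelAt B j b e (fun i => tw (t j) (f i)) (tx (t j) x)

def M_TBF : Prop := S_TWB → S_TWI → S_TBF

end

end RMT

namespace RMX

open MldX MMCI MMCX

/-- THE THEOREM. -/
def S_FINT : Prop := ∀ {b e n r : ℕ} {F K : Type} [Field F] [Field K] [Algebra ℂ F] [Algebra ℂ K]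
    [Algebra F K] [IsScalarTower ℂ F K] (B : ProjModel F) (t : Fin (B.N + 1) → Fin n → F)
    (f : Fin r → LaurentR F n) (x : Fin n → K), IsFamilyT b e B t f x →
    ((Nef b B ∧ CoefNef b B t f) ∨ (¬ FineEmptyR f ∧ FineNef b B t f)) →
    ∃ Y : ProjModel K, Terminal (b + e) Y ∧
      ((Nef (b + e) Y ∧ (((Semiample b B ∧ CoefSemiample b B t f) ∨
          (¬ FineEmptyR f ∧ FineSemiample b B t f)) → Semiample (b + e) Y)) ∨
        (MoriFibre (b + e) Y ∧ FineEmptyR f))

/-- FINT: the theorem. Proof. `TBF`, `TSYS` give `BaseData`, `RSysT`. `RMT.InFine` and `RMX.InFine`: `minOnR`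
is `rmin`; `FineEmptyR f ↔ FineEmpty (supp0 ∘ f)` by `RSUP` (as in `RMM/FinalR.lean`). If the Fine interior
is empty: `HypN` by `TCVX` (`TBN`, `TBD`, `nef_to`; `BaseData.dimF`, `normal`), `TMAIN`; semiample: in the
first case `TCVS`. If it is not empty: `TFAA`; its hypothesis by `TBN`, `TBD` in the second case, and in the
first case from `HypN` for `I = Finset.univ` (`InFine f k0 p → InSum f Finset.univ k0 p`: for `ν = 0` all
`rmin (f i) 0 = 0`). The same for semiample. `terminal_of`, `nef_of`, `semiample_of`,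
`moriFibre_of` as in `RMM/FinalR.lean`. -/
def M_FINT : Prop := RMM.S_RSUP → RMT.S_TWB → RMT.S_TBF → RMT.S_TSYS → RMT.S_TBN → RMT.S_TBD →
  RMT.S_TCVX → RMT.S_TCVS → RMT.S_TMAIN → RMT.S_TFAA → S_FINT

end RMX
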