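import Pool.Agent.RMT.Defs
import Pool.Agent.RMT.StS
import Pool.Agent.RMM.StC

/-!
# Torus bundles, block R: the abstract conditions, the reduction and the hypothesis (N). Statements.

Notation: `f_j = tw (t j) f`, `x_j = tx (t j) x`; `mon x m` is the monomial `x^m`.
All statements of `RMM` and `MMCI` which are used as hypotheses are theorems.
-/

set_option autoImplicit false

namespace RMT

open MldGeo MMCI RMM

noncomputable section

/-! ### the twist and changes of variables -/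

/-- TWB: the twist. Proof. `(tw t f).coeff a = f.coeff a * mon t a` (`Finsupp.sum`, `single`), and
`mon t a ≠ 0`. `mon (tx t x) a = mon x a / algebraMap F K (mon t a)` (products and `zpow` of quotients).
So in `rev (tx t x) (tw t f)` and `rgrad (tx t x) (tw t f) j` the summand at `a` is
`algebraMap (f_a * t^a) * (a j) * (x^a / algebraMap (t^a))`, the summand of `rev x f`, `rgrad x f j`.
The field generated over `F` by the `x k / algebraMap (t k)` contains the `x k`. The last part: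
`RReg` is `dim_eq`, `f_ne`, `ne`, `gen`, `zero`, `rank`. -/
def S_TWB : Prop := ∀ {F : Type} [Field F] [Algebra ℂ F] {n : ℕ} (t : Fin n → F),
  (∀ k, t k ≠ 0) → (∀ a, mon t a ≠ 0) ∧
  (∀ f : LR F n, (∀ a, (tw t f).coeff a = f.coeff a * mon t a) ∧
    (tw t f).coeff.support = f.coeff.support ∧ (f ≠ 0 → tw t f ≠ 0) ∧
    ∀ ν, rmin (tw t f) ν = rmin f ν) ∧
  ∀ {K : Type} [Field K] [Algebra ℂ K] [Algebra F K] [IsScalarTower ℂ F K] (x : Fin n → K),
    (∀ j, x j ≠ 0) → (∀ k, tx t x k ≠ 0) ∧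
    (∀ a, mon (tx t x) a = mon x a / algebraMap F K (mon t a)) ∧
    (∀ f : LR F n, rev (tx t x) (tw t f) = rev x f ∧
      (∀ j, rgrad (tx t x) (tw t f) j = rgrad x f j) ∧
      ∀ ν, rder (tx t x) (tw t f) ν = rder x f ν) ∧
    (IntermediateField.adjoin F (Set.range x) = ⊤ →
      IntermediateField.adjoin F (Set.range (tx t x)) = ⊤) ∧
    ∀ {e r : ℕ} (f : Fin r → LR F n), RReg e f x → RReg e (fun i => tw t (f i)) (tx t x)

/-- TCM: scaling of the coefficients. Proof. `coefs (c • f) = c * coefs f` (`c ≠ 0`), the infimum of the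
finite set `{v.ord a | a ∈ coefs f}`, not empty, shifted by `v.ord c`; `(c a) / (c a') = a / a'`. -/
def S_TCM : Prop := ∀ {F : Type} [Field F] [Algebra ℂ F] {n : ℕ} (f : LR F n) (c : F), f ≠ 0 →
  c ≠ 0 → (∀ (B : ProjModel F) (j : Fin (B.N + 1)),
    BpfAt B j (coefs (c • f)) ↔ BpfAt B j (coefs f)) ∧
  ∀ {K : Type} [Field K] [Algebra ℂ K] [Algebra F K] [IsScalarTower ℂ F K] {e' : ℕ}
    (v : DivVal e' K),
    cmin v (coefs (c • f)) = v.ord (algebraMap F K c) + cmin v (coefs f)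

/-- TSC: the condition `Nd` is invariant under scaling. Proof. First alternative: keep `A`, `y`, `d`,
`h`, `σ` and replace `u i` by `c i * u i`: `(c i * u i)⁻¹ • (c i • f i) = (u i)⁻¹ • f i`, `u_ord` by `TCM`,
`rpsi` does not change. (From `c • f` to `f`: replace `u i` by `(c i)⁻¹ * u i`.) Second alternative:
`rminor (c • f) x σ = algebraMap (∏ c i) * rminor f x σ`, so `IsResR e y0 f x ω` implies
`IsResR e y0 (c • f) x ((algebraMap (∏ c i))⁻¹ • ω)`, and `v.logOrd` of the latter is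
`v.logOrd ω - ∑ v.ord (c i)` (`cFSM`), `bo κ β (coefs (c • f)) v = bo κ β (coefs f) v - κ ∑ v.ord (c i)`
(`TCM`). -/
def S_TSC : Prop := ∀ {F K : Type} [Field F] [Field K] [Algebra ℂ F] [Algebra ℂ K] [Algebra F K]
  [IsScalarTower ℂ F K] {b e n r : ℕ} (B : ProjModel F) (κ : ℕ) (y0 : Fin b → F)
  (β : DivVal (b + e) K → ℤ) (f : Fin r → LR F n) (x : Fin n → K) (c : Fin r → F),
  0 < b + e → Algebra.trdeg ℂ K = ((b + e : ℕ) : Cardinal) → (∀ i, f i ≠ 0) → (∀ i, c i ≠ 0) →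
  ∀ v : DivVal (b + e) K, Nd B e κ y0 β (fun i => c i • f i) x v → Nd B e κ y0 β f x v

def M_TSC : Prop := S_TCM → S_TSC

/-- TCH: change of variables and twist. `x' k = x^(m k)`, `t' k = t^(m k)`. Proof.
`mon t' a = t^(∑ a_k m_k)` (see `R_RED.mon_sum`, `mon_mon` in `MMCI/R_NEW2.lean`), so the coefficient of
`t^p • tw t' f'` at `a` is `t^p * (f.coeff (p + ∑ a_k m_k) * t^(∑ a_k m_k)) =
(tw t f).coeff (p + ∑ a_k m_k)`; the support of `tw t f` is the support of `f`. -/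
def S_TCH : Prop := ∀ {F : Type} [Field F] [Algebra ℂ F] {n n' : ℕ} (t : Fin n → F),
  (∀ k, t k ≠ 0) → ∀ (m : Fin n' → (Fin n → ℤ)),
  (∀ a : Fin n' → ℤ, mon (fun k => mon t (m k)) a = mon t (∑ k, a k • m k)) ∧
  (∀ (p : Fin n → ℤ) (f : LR F n) (f' : LR F n'), IsCh m p f f' →
    IsCh m p (tw t f) (mon t p • tw (fun k => mon t (m k)) f')) ∧
  ∀ {K : Type} [Field K] [Algebra F K] (x : Fin n → K), (∀ j, x j ≠ 0) →
    tx (fun k => mon t (m k)) (fun k => mon x (m k)) = fun k => mon (tx t x) (m k)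

def M_TCH : Prop := S_TWB → S_TCH

/-! ### the abstract conditions -/

/-- TSYS: the abstract conditions. Proof. `BaseData` from `RBD3`. `TRNK` at the chart `0` gives the rank
of the gradients of `(f_0, x_0)`, which are those of `(f, x)` (`TWB`), so `RReg e f x`, and
`RReg e f_j x_j` by `TWB`. `bpf`, `nd` by `TNDA` for `(f_j, x_j)`. -/
def S_TSYS : Prop := ∀ {F K : Type} [Field F] [Field K] [Algebra ℂ F] [Algebra ℂ K] [Algebra F K]
  [IsScalarTower ℂ F K] {b e n r : ℕ} (B : ProjModel F) (t : Fin (B.N + 1) → Fin n → F)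
  (f : Fin r → LR F n) (x : Fin n → K), IsTwist B t → n = r + e → (∀ i, f i ≠ 0) →
  (∀ j, x j ≠ 0) → IntermediateField.adjoin F (Set.range x) = ⊤ → (∀ i, rev x (f i) = 0) →
  (∀ j, IsRelAt B j b e (fun i => tw (t j) (f i)) (tx (t j) x)) →
  ∃ (κ : ℕ) (y0 : Fin b → F) (β : DivVal (b + e) K → ℤ),
    BaseData B b (b + e) K κ y0 β ∧ RSysT B t e κ y0 β f x

def M_TSYS : Prop := S_TWB → S_RBD3 → S_TRNK → S_TNDA → S_TSYS

/-! ### the reduction -/

/-- TCMB: the combinatorial part of the reduction. Proof. This is `t_RRED` (`RMM/RRED.lean`) without the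
last step: copy it up to the application of `hNEW` (it uses only `hS.toRReg` and `hBD.dimF`); take
`g = D.g`, `r' = r - D.g`, `ν = fun j => D.ν (j0.succAbove j)`. -/
def S_TCMB : Prop := ∀ {F K : Type} [Field F] [Field K] [Algebra ℂ F] [Algebra ℂ K] [Algebra F K]
  [IsScalarTower ℂ F K] {b e n r : ℕ} (f : Fin r → LR F n) (x : Fin n → K), RReg e f x →
  Algebra.trdeg ℂ F = (b : Cardinal) → Algebra.trdeg ℂ K = ((b + e : ℕ) : Cardinal) →
  ∀ D : FanB fun i => supp0 (f i),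
  Algebra.trdeg ℂ (Fb (F := F) x D.A D.b) = ((b + e : ℕ) : Cardinal) →
  ∃ (g n' r' : ℕ) (τ : Fin g ⊕ Fin r' ≃ Fin r) (m : Fin n' → (Fin n → ℤ))
    (ν : Fin g → (Fin n → ℤ)) (p : Fin r' → (Fin n → ℤ)), n' < n ∧ LinearIndependent ℤ m ∧
    LinearIndependent ℤ ν ∧ (∀ j k, pair (ν j) (m k) = 0) ∧ n' + g = n ∧ n' = r' + e ∧
    IntermediateField.adjoin F (Set.range fun k => mon x (m k)) = ⊤ ∧
    (∀ i, ∀ q ∈ (f (τ (Sum.inr i))).coeff.support,
      ∃ a : Fin n' → ℤ, q = p i + ∑ k, a k • m k) ∧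
    (Matrix.of fun i j : Fin g => rder x (f (τ (Sum.inl i))) (ν j)).det ≠ 0

def M_TCMB : Prop := S_RSP → S_RKER → S_INK → S_CMB → S_RWG → S_REMB → S_LAT → S_TCMB

/-- TNDN: `Nd` for the new system at one valuation. Proof. This is the part `nd` of `t_RNEW`
(`RMM/RNEW.lean`) for one `v` (it uses `hS.toRReg`, `hbd` and the condition at `v` only). -/
def S_TNDN : Prop := ∀ {F K : Type} [Field F] [Field K] [Algebra ℂ F] [Algebra ℂ K] [Algebra F K]
  [IsScalarTower ℂ F K] {b e n r g n' r' : ℕ} (B : ProjModel F) (κ : ℕ) (y0 : Fin b → F)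
  (β : DivVal (b + e) K → ℤ) (f : Fin r → LR F n) (x : Fin n → K)
  (τ : Fin g ⊕ Fin r' ≃ Fin r) (m : Fin n' → (Fin n → ℤ)) (ν : Fin g → (Fin n → ℤ))
  (p : Fin r' → (Fin n → ℤ)) (f' : Fin r' → LR F n'), 0 < b + e →
  Algebra.trdeg ℂ K = ((b + e : ℕ) : Cardinal) → BaseData B b (b + e) K κ y0 β →
  RReg e f x → LinearIndependent ℤ m → LinearIndependent ℤ ν → (∀ j k, pair (ν j) (m k) = 0) →
  n' + g = n → n' = r' + e → (∀ i, IsCh m (p i) (f (τ (Sum.inr i))) (f' i)) →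
  RReg e f' (fun k => mon x (m k)) →
  (Matrix.of fun i j : Fin g => rder x (f (τ (Sum.inl i))) (ν j)).det ≠ 0 →
  ∀ v : DivVal (b + e) K, Nd B e κ y0 β f x v → Nd B e κ y0 β f' (fun k => mon x (m k)) v

def M_TNDN : Prop := S_RCHV → S_RGRO → S_RNL → S_ROMG → S_RNF → S_TNDN

/-- TNEW: the new system, `t' j k = t_j^(m k)`, `x' k = x^(m k)`. Proof. `f'` by `RCHE`; `RReg e f' x'` by
`RRG`. `IsTwist B t'`: if `(t_j' / t_j) (s_j' / s_j)^d` and `(t_j / t_j') (s_j' / s_j)^d` are in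
`B.ring j` then so are the corresponding products for `t'` with `d' = d * max_k ∑_l |m_(k, l)|`
(`mon` of a quotient is a product of powers with exponents `≥ 0` of the `t_j' l / t_j l` or of their
inverses; multiply with the remaining powers of `s_j' / s_j`, an element of `B.ring j`). For a chart `j`
let `f''_i = t_j^(p i) • tw (t' j) (f' i)`; `IsCh m (p i) (f_j (ρ i)) (f'' i)` by `TCH`,
`ρ i = τ (inr i)`, and `tx (t' j) x' = x_j^(m k)` by `TCH`. `bpf`: `coefs (f'' i) = coefs (f_j (ρ i))`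
(`RCHV`) and `TCM`. `nd`: `TNDN` for `(f_j, x_j)` (`RReg e f_j x_j` by `TWB`; `RReg e f'' x_j^m` by `RRG`, the
generation of `K` by the `mon (x_j) (m k) = mon x (m k) / algebraMap (mon (t j) (m k))`; the
determinant by `TWB`), then `TSC` with `c i = t_j^(p i)`. -/
def S_TNEW : Prop := ∀ {F K : Type} [Field F] [Field K] [Algebra ℂ F] [Algebra ℂ K] [Algebra F K]
  [IsScalarTower ℂ F K] {b e n r g n' r' : ℕ} (B : ProjModel F) (κ : ℕ) (y0 : Fin b → F)
  (β : DivVal (b + e) K → ℤ) (t : Fin (B.N + 1) → Fin n → F) (f : Fin r → LR F n)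
  (x : Fin n → K) (τ : Fin g ⊕ Fin r' ≃ Fin r) (m : Fin n' → (Fin n → ℤ))
  (ν : Fin g → (Fin n → ℤ)) (p : Fin r' → (Fin n → ℤ)), 0 < b + e →
  Algebra.trdeg ℂ K = ((b + e : ℕ) : Cardinal) → BaseData B b (b + e) K κ y0 β →
  RSysT B t e κ y0 β f x → LinearIndependent ℤ m →
  LinearIndependent ℤ ν → (∀ j k, pair (ν j) (m k) = 0) → n' + g = n → n' = r' + e →
  IntermediateField.adjoin F (Set.range fun k => mon x (m k)) = ⊤ →
  (∀ i, ∀ q ∈ (f (τ (Sum.inr i))).coeff.support, ∃ a : Fin n' → ℤ, q = p i + ∑ k, a k • m k) →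
  (Matrix.of fun i j : Fin g => rder x (f (τ (Sum.inl i))) (ν j)).det ≠ 0 →
  ∃ f' : Fin r' → LR F n', (∀ i, IsCh m (p i) (f (τ (Sum.inr i))) (f' i)) ∧
    RSysT B (fun j k => mon (t j) (m k)) e κ y0 β f' fun k => mon x (m k)

def M_TNEW : Prop := S_RCHE → S_RCHV → S_RRG → S_TWB → S_TCH → S_TCM → S_TSC → S_TNDN → S_TNEW

/-- TRED: the reduction of the number of variables. Proof. `TCMB` and `TNEW`, `ρ i = τ (inr i)`. -/
def S_TRED : Prop := ∀ {F K : Type} [Field F] [Field K] [Algebra ℂ F] [Algebra ℂ K] [Algebra F K]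
  [IsScalarTower ℂ F K] {b e n r : ℕ} (B : ProjModel F) (κ : ℕ) (y0 : Fin b → F)
  (β : DivVal (b + e) K → ℤ) (t : Fin (B.N + 1) → Fin n → F) (f : Fin r → LR F n)
  (x : Fin n → K), 0 < b + e → Algebra.trdeg ℂ K = ((b + e : ℕ) : Cardinal) →
  BaseData B b (b + e) K κ y0 β → RSysT B t e κ y0 β f x → ∀ D : FanB fun i => supp0 (f i),
  Algebra.trdeg ℂ (Fb (F := F) x D.A D.b) = ((b + e : ℕ) : Cardinal) →
  ∃ (n' r' : ℕ) (m : Fin n' → (Fin n → ℤ)) (p : Fin r' → (Fin n → ℤ)) (ρ : Fin r' → Fin r)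
    (f' : Fin r' → LR F n'), n' < n ∧ Function.Injective ρ ∧ LinearIndependent ℤ m ∧
    (∀ i, IsCh m (p i) (f (ρ i)) (f' i)) ∧
    RSysT B (fun j k => mon (t j) (m k)) e κ y0 β f' fun k => mon x (m k)

def M_TRED : Prop := S_TCMB → S_TNEW → S_TRED

/-! ### the hypothesis (N) -/

/-- TNH: (N) is inherited by the new system. Proof. Let `I'`, `k0`, `p'` with `InSum f' I' k0 p'` be given;
`I = I'.map ρ`, `P = k0 • ∑ i ∈ I', p i + ∑ k, p' k • m k`. For all `ν`, with `ν' k = pair ν (m k)`: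
`k0 ∑_{i ∈ I} rmin (f i) ν = k0 ∑_{i ∈ I'} (pair ν (p i) + rmin (f' i) ν') ≤
k0 ∑ pair ν (p i) + pair ν' p' = pair ν P` (`RCHV`), so `InSum f I k0 P`. For all charts `j` and all `v`:
`tw (t j) (f (ρ i))` has the same coefficients as `t_j^(p i) • tw (t' j) (f' i)` (`TCH`, `RCHV`), so
`cmin v (coefs (tw (t j) (f (ρ i)))) = v.ord (t_j^(p i)) + cmin v (coefs (tw (t' j) (f' i)))` (`TCM` with
`K = F`), and `mon (t' j) p' = t_j^(∑ p'_k m_k)` (`TCH`), so
`adjT b B t' f' I' k0 p' = adjT b B t f I k0 P` as functions. -/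
def S_TNH : Prop := ∀ {F : Type} [Field F] [Algebra ℂ F] {b n r n' r' : ℕ} (B : ProjModel F)
  (t : Fin (B.N + 1) → Fin n → F) (f : Fin r → LR F n) (m : Fin n' → (Fin n → ℤ))
  (p : Fin r' → (Fin n → ℤ)) (ρ : Fin r' → Fin r) (f' : Fin r' → LR F n'),
  (∀ j k, t j k ≠ 0) → (∀ i, f i ≠ 0) → LinearIndependent ℤ m → Function.Injective ρ →
  (∀ i, IsCh m (p i) (f (ρ i)) (f' i)) →
  (HypN b B t f → HypN b B (fun j k => mon (t j) (m k)) f') ∧
  (HypS b B t f → HypS b B (fun j k => mon (t j) (m k)) f')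

def M_TNH : Prop := S_RCHV → S_TWB → S_TCM → S_TCH → S_TNH

/-- TUF: the points `u a / k` of the datum of case (a) are in the Fine interior. Proof. Let `ν ≠ 0`;
`ν = c • ν0` with `c > 0` and `ν0` primitive (divide by the greatest common divisor). There is `a0 ∈ A`
with `MinAt A a0 ν0` (`A` is finite and not empty), so `k (psi ν0 + 1) ≤ pair ν0 (u a0) ≤
pair ν0 (u a)` (`disc`, `FanA.nef`), and `k (c psi ν0 + 1) ≤ c k (psi ν0 + 1) ≤ pair ν (u a)`
(`RSUP`: `rmin g (c • ν0) = c * rmin g ν0`; `psi (supp0 ∘ f) = rpsi f`, `RSP`). `InSum` for `Finset.univ`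
follows, also for `ν = 0` (`rmin g 0 = 0`, because the set is `{0}` or empty). -/
def S_TUF : Prop := ∀ {F : Type} [Field F] {n r : ℕ} (f : Fin r → LR F n)
  (D : FanA fun i => supp0 (f i)), ∀ a ∈ D.A,
  InFine f D.k (D.u a) ∧ InSum f Finset.univ D.k (D.u a)

def M_TUF : Prop := S_RSP → S_RSUP → S_TUF

end

end RMT
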