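import Pool.Agent.RMT.StR
import Pool.Agent.MMCI.Tools
import Pool.Agent.MldGeo.Ord

/-!
# TSC: the condition `Nd` is invariant under scaling
-/

set_option autoImplicit false
set_option linter.unusedSectionVars false

namespace RMT

open MldGeo MMCI RMM

noncomputable section

namespace TSC

variable {F K : Type} [Field F] [Field K] [Algebra ℂ F] [Algebra ℂ K] [Algebra F K]
  [IsScalarTower ℂ F K] {b e n r : ℕ}

theorem coeff_smul' (c : F) (f : LR F n) (a : Fin n → ℤ) : (c • f).coeff a = c * f.coeff a := by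
  rw [AddMonoidAlgebra.coeff_smul, Finsupp.smul_apply, smul_eq_mul]

theorem support_smul' {c : F} (hc : c ≠ 0) (f : LR F n) :
    (c • f).coeff.support = f.coeff.support := by
  ext a
  rw [Finsupp.mem_support_iff, Finsupp.mem_support_iff, coeff_smul']
  exact ⟨fun h h0 => h (by rw [h0, mul_zero]), fun h => mul_ne_zero hc h⟩

theorem rmin_smul {c : F} (hc : c ≠ 0) (f : LR F n) (ν : Fin n → ℤ) :
    rmin (c • f) ν = rmin f ν := by
  unfold rmin
  rw [support_smul' hc]

theorem rpsi_smul {c : Fin r → F} (hc : ∀ i, c i ≠ 0) (f : Fin r → LR F n) (ν : Fin n → ℤ) :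
    rpsi (fun i => c i • f i) ν = rpsi f ν := by
  unfold rpsi
  exact Finset.sum_congr rfl fun i _ => rmin_smul (hc i) (f i) ν

theorem rgrad_smul (c : F) (f : LR F n) (x : Fin n → K) (j : Fin n) :
    rgrad x (c • f) j = algebraMap F K c * rgrad x f j := by
  unfold rgrad
  rw [AddMonoidAlgebra.coeff_smul,
    Finsupp.sum_smul_index (fun m => by rw [map_zero, zero_mul, zero_mul]), Finsupp.mul_sum]
  exact Finset.sum_congr rfl fun m _ => by
    dsimp only
    rw [map_mul]
    ring

theorem rminor_smul (c : Fin r → F) (f : Fin r → LR F n) (x : Fin n → K)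
    (σ : Fin r ⊕ Fin e ≃ Fin n) :
    rminor (fun i => c i • f i) x σ = algebraMap F K (∏ i, c i) * rminor f x σ := by
  unfold rminor
  rw [map_prod, ← Matrix.det_mul_column]
  congr 1
  ext i j
  rw [Matrix.of_apply, Matrix.of_apply, Matrix.of_apply, rgrad_smul]

end TSC

open TSC in
theorem t_TSC : M_TSC := by
  intro hTCM F K _ _ _ _ _ _ b e n r B κ y0 β f x c hpos hdim hf hc v hnd
  have hcK : ∀ i, algebraMap F K (c i) ≠ 0 := fun i => (map_ne_zero _).2 (hc i)
  have hcm : ∀ i, cmin v (coefs (c i • f i)) = v.ord (algebraMap F K (c i)) +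
      cmin v (coefs (f i)) := fun i => (hTCM (f i) (c i) (hf i) (hc i)).2 v
  rcases hnd with hL | ⟨hbig, hom⟩
  · left
    obtain ⟨L⟩ := hL
    have hsm : ∀ i, ((c i)⁻¹ * L.u i)⁻¹ • f i = (L.u i)⁻¹ • (c i • f i) := by
      intro i
      rw [smul_smul, mul_inv, inv_inv, mul_comm]
    have hgr : (fun i j : Fin r => gr L.y L.d (((c i)⁻¹ * L.u i)⁻¹ • f i) x (L.σ (Sum.inl j))) =
        fun i j : Fin r => gr L.y L.d ((L.u i)⁻¹ • (c i • f i)) x (L.σ (Sum.inl j)) := by
      funext i j
      rw [hsm i]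
    exact ⟨{
      A := L.A
      memA := L.memA
      y := L.y
      y_mem := L.y_mem
      y_ne := L.y_ne
      y_ord := L.y_ord
      d := L.d
      dA := L.dA
      dual := L.dual
      h := L.h
      h_ne := L.h_ne
      h_eq := L.h_eq
      h_ord := L.h_ord
      u := fun i => (c i)⁻¹ * L.u i
      u_ne := fun i => mul_ne_zero (inv_ne_zero (hc i)) (L.u_ne i)
      u_coef := fun i m => by
        have h1 := L.u_coef i m
        rw [coeff_smul'] at h1
        have h2 : ((c i)⁻¹ * L.u i)⁻¹ * (f i).coeff m = (L.u i)⁻¹ * (c i * (f i).coeff m) := by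
          rw [mul_inv, inv_inv]
          ring
        rw [h2]
        exact h1
      u_ord := fun i => by
        have h1 := L.u_ord i
        rw [hcm i] at h1
        rw [map_mul, map_inv₀, v.ord_mul _ _ (inv_ne_zero (hcK i)) ((map_ne_zero _).2 (L.u_ne i)),
          DivVal.ord_inv, h1]
        ring
      σ := L.σ
      det_ne := by
        rw [hgr]
        exact L.det_ne
      det_ord := by
        rw [hgr, ← rpsi_smul hc f]
        exact L.det_ord }⟩
  · right
    refine ⟨hbig, fun ω hω => ?_⟩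
    have hC : algebraMap F K (∏ i, c i) ≠ 0 :=
      (map_ne_zero _).2 (Finset.prod_ne_zero_iff.2 fun i _ => hc i)
    have hω' : IsResR e y0 (fun i => c i • f i) x ((algebraMap F K (∏ i, c i))⁻¹ • ω) := by
      refine ⟨smul_ne_zero (inv_ne_zero hC) hω.1, fun σ hσ => ?_⟩
      rw [rminor_smul] at hσ ⊢
      obtain ⟨ε, hε, h1⟩ := hω.2 σ (mul_ne_zero_iff.1 hσ).2
      refine ⟨ε, hε, ?_⟩
      rw [← h1, smul_smul]
      congr 1
      field_simp
    have h1 := hom _ hω'
    rw [rpsi_smul hc f, cFSM hdim v _ ω hpos (inv_ne_zero hC) hω.1, DivVal.ord_inv] at h1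
    have h2 : v.ord (algebraMap F K (∏ i, c i)) = ∑ i, v.ord (algebraMap F K (c i)) := by
      rw [map_prod]
      exact DivVal.ord_prod v _ _ fun i _ => hcK i
    have h3 : bo κ β (fun i => coefs (c i • f i)) v = bo κ β (fun i => coefs (f i)) v -
        κ * ∑ i, v.ord (algebraMap F K (c i)) := by
      unfold bo
      simp only [hcm]
      rw [Finset.sum_add_distrib]
      ring
    rw [h2, h3] at h1
    linarith

end

end RMT
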