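import Pool.Agent.RMT.St2

/-!
# TWI: bundles
-/

set_option autoImplicit false

namespace RMT

open MldGeo MMCI RMM

noncomputable section

namespace TWI

variable {F : Type} [Field F] [Algebra ℂ F]

theorem u_mem (B : ProjModel F) (j j' : Fin (B.N + 1)) : B.s j' / B.s j ∈ B.ring j :=
  Algebra.subset_adjoin ⟨j', rfl⟩

theorem clear (B : ProjModel F) (j j' : Fin (B.N + 1)) (a : F) (ha : a ∈ RMX.overlap B j j') :
    ∃ d : ℕ, ∀ d' : ℕ, d ≤ d' → a * (B.s j' / B.s j) ^ d' ∈ B.ring j := by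
  unfold RMX.overlap at ha
  induction ha using Algebra.adjoin_induction with
  | mem a ha =>
    rcases ha with ha | ha
    · exact ⟨0, fun d' _ => mul_mem ha (pow_mem (u_mem B j j') _)⟩
    · rw [Set.mem_singleton_iff] at ha
      refine ⟨1, fun d' hd => ?_⟩
      obtain ⟨m, rfl⟩ : ∃ m, d' = m + 1 := ⟨d' - 1, by omega⟩
      have h1 : a * (B.s j' / B.s j) ^ (m + 1) = (B.s j' / B.s j) ^ m := by
        rw [ha, pow_succ']
        have h2 := B.ne j
        have h3 := B.ne j'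
        field_simp
      rw [h1]
      exact pow_mem (u_mem B j j') _
  | algebraMap r =>
    exact ⟨0, fun d' _ => mul_mem (Subalgebra.algebraMap_mem _ r) (pow_mem (u_mem B j j') _)⟩
  | add x y _ _ hx hy =>
    obtain ⟨d1, h1⟩ := hx
    obtain ⟨d2, h2⟩ := hy
    refine ⟨max d1 d2, fun d' hd => ?_⟩
    rw [add_mul]
    exact add_mem (h1 d' ((le_max_left _ _).trans hd)) (h2 d' ((le_max_right _ _).trans hd))
  | mul x y _ _ hx hy =>
    obtain ⟨d1, h1⟩ := hx
    obtain ⟨d2, h2⟩ := hy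
    refine ⟨d1 + d2, fun d' hd => ?_⟩
    have h3 : x * y * (B.s j' / B.s j) ^ d' =
        x * (B.s j' / B.s j) ^ d1 * (y * (B.s j' / B.s j) ^ (d' - d1)) := by
      have h4 : d' = d1 + (d' - d1) := by omega
      conv_lhs => rw [h4, pow_add]
      ring
    rw [h3]
    exact mul_mem (h1 d1 le_rfl) (h2 _ (by omega))

end TWI

theorem t_TWI : S_TWI := by
  intro F _ _ n B t h
  refine ⟨fun j k => (h j j k).1, ?_⟩
  choose d1 h1 using fun (x : Fin (B.N + 1) × Fin (B.N + 1) × Fin n) =>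
    TWI.clear B x.1 x.2.1 _ (h x.1 x.2.1 x.2.2).2.2
  choose d2 h2 using fun (x : Fin (B.N + 1) × Fin (B.N + 1) × Fin n) =>
    TWI.clear B x.1 x.2.1 _ (h x.1 x.2.1 x.2.2).2.1
  refine ⟨Finset.univ.sup fun x => max (d1 x) (d2 x), fun j j' k => ?_⟩
  have h3 : max (d1 (j, j', k)) (d2 (j, j', k)) ≤ Finset.univ.sup fun x => max (d1 x) (d2 x) :=
    Finset.le_sup (f := fun x => max (d1 x) (d2 x)) (Finset.mem_univ (j, j', k))
  exact ⟨h1 (j, j', k) _ ((le_max_left _ _).trans h3), h2 (j, j', k) _ ((le_max_right _ _).trans h3)⟩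

end

end RMT
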